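import Mathlib

namespace Pool.Agent.Lib.MP_a966df_ag

open IsLocalRing RingTheory.Sequence Pointwise

universe u

lemma reg_aux (n : ℕ) (A : Type u) [CommRing A] [IsLocalRing A] [IsNoetherianRing A] (xs : List A)
    (hn : xs.length = n) (hm : Ideal.ofList xs = maximalIdeal A) (hd : n ≤ ringKrullDim A) :
    IsDomain A ∧ IsWeaklyRegular A xs := by
  classical
  induction n generalizing A with
  | zero =>
    rw [List.length_eq_zero_iff] at hn
    subst hn
    let := (isField_iff_maximalIdeal_eq.mpr (hm.symm.trans Ideal.ofList_nil)).toField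
    exact ⟨inferInstance, IsWeaklyRegular.nil A A⟩
  | succ n ih =>
    match xs with
    | [] => simp at hn
    | x :: xs =>
      have hx : x ∈ maximalIdeal A := hm ▸ Ideal.subset_span List.mem_cons_self
      have loc : ∀ I : Ideal A, I ≠ ⊤ → IsLocalRing (A ⧸ I) := fun I hI =>
        have := Ideal.Quotient.nontrivial_iff.mpr hI
        IsLocalRing.of_surjective' (Ideal.Quotient.mk I) Ideal.Quotient.mk_surjective
      have := loc (Ideal.span {x}) (by rwa [Ne, Ideal.span_singleton_eq_top])
      have e : ∀ (B : Type u) [CommRing B] (y : B), y • (⊤ : Ideal B) = Ideal.span {y} :=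
        fun B _ y => by simp [← Submodule.ideal_span_singleton_smul]
      have hm' : Ideal.ofList (xs.map (Ideal.Quotient.mk (Ideal.span {x}))) = maximalIdeal _ := by
        rw [← map_maximalIdeal_of_surjective _ (Ideal.Quotient.mk_surjective (I := Ideal.span {x})),
          ← hm, Ideal.ofList_cons, Ideal.map_sup, Ideal.map_quotient_self, bot_sup_eq,
          Ideal.map_ofList]
      have hl : (xs.map (Ideal.Quotient.mk (Ideal.span {x}))).length = n := by simpa using hn
      obtain ⟨h1, h2⟩ := ih _ _ hl hm' (ENat.WithBot.add_le_add_one_right_iff.mp (by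
        have := ringKrullDim_le_ringKrullDim_quotSMulTop_succ hx
        rw [e] at this
        exact_mod_cast hd.trans this))
      have h3 : ringKrullDim (A ⧸ Ideal.span {x}) ≤ n := by
        refine (ringKrullDim_le_spanFinrank_maximalIdeal _).trans ?_
        rw [← hm', ← hl]
        exact_mod_cast (Submodule.spanFinrank_span_le_ncard_of_finite (List.finite_toSet _)).trans
          ((congrArg Set.ncard (List.coe_toFinset _).symm).le.trans
            ((Set.ncard_coe_finset _).le.trans (List.toFinset_card_le _)))
      obtain ⟨l, hl'⟩ := Order.le_krullDim_iff.mp hd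
      have h4 : ¬ ringKrullDim (A ⧸ l.head.asIdeal) ≤ n := fun h => by
        have := Order.LTSeries.length_le_krullDim (α := PrimeSpectrum.zeroLocus (R := A) l.head.asIdeal)
          (LTSeries.mk l.length (fun i => ⟨l i, l.head_le i⟩) fun i j hij => l.strictMono hij)
        rw [← ringKrullDim_quotient] at this
        have := this.trans h
        rw [LTSeries.mk_length, hl'] at this
        exact absurd (by exact_mod_cast this) (Nat.not_succ_le_self n)
      have := loc _ l.head.2.ne_top
      have h5 : x ∉ l.head.asIdeal := fun h => h4 ((ringKrullDim_le_of_surjective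
        (Ideal.Quotient.factor (by simpa using h)) (Ideal.Quotient.factor_surjective _)).trans h3)
      have h6 : l.head.asIdeal ≤ Ideal.span {x} := fun y hy => by
        by_contra h
        refine h4 ((ringKrullDim_le_ringKrullDim_quotSMulTop_succ (x := Ideal.Quotient.mk _ x)
          (map_maximalIdeal_of_surjective _ (Ideal.Quotient.mk_surjective (I := l.head.asIdeal)) ▸
            Ideal.mem_map_of_mem _ hx)).trans (le_trans ?_ h3))
        rw [e]
        refine ringKrullDim_succ_le_of_surjective (Ideal.Quotient.lift _
          ((Ideal.Quotient.mk _).comp (Ideal.Quotient.mk _)) fun a ha => ?_)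
          (Ideal.Quotient.lift_surjective_of_surjective _ _
            (Ideal.Quotient.mk_surjective.comp Ideal.Quotient.mk_surjective))
          (r := Ideal.Quotient.mk _ y) (mem_nonZeroDivisors_of_ne_zero
            (mt Ideal.Quotient.eq_zero_iff_mem.mp h)) (by simp [Ideal.Quotient.eq_zero_iff_mem.mpr hy])
        obtain ⟨b, rfl⟩ := Ideal.mem_span_singleton'.mp ha
        simp
      have h7 : l.head.asIdeal = ⊥ := by
        refine Submodule.eq_bot_of_le_smul_of_le_jacobson_bot (maximalIdeal A) _
          (IsNoetherian.noetherian _) (fun y hy => ?_) (maximalIdeal_le_jacobson _)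
        obtain ⟨b, rfl⟩ := Ideal.mem_span_singleton'.mp (h6 hy)
        rw [mul_comm]
        exact Submodule.smul_mem_smul hx ((l.head.2.mem_or_mem hy).resolve_right h5)
      have : (⊥ : Ideal A).IsPrime := h7 ▸ l.head.2
      have := IsDomain.of_bot_isPrime A
      exact ⟨this, (isWeaklyRegular_cons_iff _ _ _).mpr ⟨IsSMulRegular.of_ne_zero
        (fun h => h5 (h ▸ zero_mem _)), ((Submodule.quotEquivOfEq _ _ (e A x)).isWeaklyRegular_congr
          xs).mpr ((isWeaklyRegular_map_algebraMap_iff (A ⧸ Ideal.span {x}) _ xs).mp h2)⟩⟩

/-- The maximal ideal of a regular local ring is generated by a regular sequence. -/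
lemma reg_seq (A : Type u) [CommRing A] [IsRegularLocalRing A] {n : ℕ} (h : ringKrullDim A = n) :
    ∃ xs : List A, xs.length = n ∧ Ideal.ofList xs = maximalIdeal A ∧ IsWeaklyRegular A xs := by
  obtain ⟨s, h1, h2⟩ := Submodule.FG.exists_span_finset_card_eq_spanFinrank
    (IsNoetherian.noetherian (maximalIdeal A))
  have h3 : s.toList.length = n := by
    have := IsRegularLocalRing.spanFinrank_maximalIdeal (R := A)
    rw [h, ← h1] at this
    exact_mod_cast (Finset.length_toList s).trans (by exact_mod_cast this)
  have h4 : Ideal.ofList s.toList = maximalIdeal A := by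
    rw [← h2]
    simp [Ideal.ofList]
  exact ⟨_, h3, h4, (reg_aux n A _ h3 h4 h.ge).2⟩

end Pool.Agent.Lib.MP_a966df_ag
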