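import Pool.Agent.Lib.MP_a966df_ag.Len

namespace Pool.Agent.Lib.MP_a966df_ag

open Submodule LinearMap Function CategoryTheory Abelian IsLocalRing RingTheory.Sequence Pointwise

universe u

variable {Q : Type u} [CommRing Q] [IsLocalRing Q]

variable (Q) in
/-- Every element of the maximal ideal acts nilpotently. -/
def Tn (T : Type u) [AddCommGroup T] [Module Q T] : Prop :=
  ∀ a ∈ maximalIdeal Q, ∃ k : ℕ, ∀ t : T, a ^ k • t = 0

variable (Q) in
/-- Depth at least `n`, through Ext groups. -/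
def Dp (n : ℕ) (M : Type u) [AddCommGroup M] [Module Q M] : Prop :=
  ∀ T : ModuleCat.{u} Q, Module.Finite Q T → Tn Q T → ∀ i < n,
    ∀ x : Ext T (ModuleCat.of Q M) i, x = 0

variable {M' M M'' : Type u} [AddCommGroup M'] [Module Q M'] [AddCommGroup M] [Module Q M]
  [AddCommGroup M''] [Module Q M'']

omit [IsLocalRing Q] in
lemma ses {i : M' →ₗ[Q] M} {p : M →ₗ[Q] M''} (hi : Injective i) (h : Exact i p)
    (hp : Surjective p) :
    (ModuleCat.shortComplexOfCompEqZero i p h.linearMap_comp_eq_zero).ShortExact :=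
  ModuleCat.shortComplex_shortExact _ h hi hp

lemma Dp.mono {n m : ℕ} (h : Dp Q n M) (e : m ≤ n) : Dp Q m M :=
  fun T h1 h2 i hi => h T h1 h2 i (hi.trans_le e)

lemma Dp.sub {i : M' →ₗ[Q] M} {p : M →ₗ[Q] M''} (hi : Injective i) (h : Exact i p)
    (hp : Surjective p) {n : ℕ} (h1 : Dp Q (n + 1) M) (h2 : Dp Q n M'') : Dp Q (n + 1) M' := by
  intro T hT hT' j hj x
  have hS := ses hi h hp
  cases j with
  | zero =>
    have := hS.mono_f
    exact Ext.postcomp_mk₀_injective_of_mono T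
      (ModuleCat.shortComplexOfCompEqZero i p h.linearMap_comp_eq_zero).f
      ((h1 T hT hT' 0 hj _).trans (h1 T hT hT' 0 hj _).symm)
  | succ j =>
    obtain ⟨y, rfl⟩ := Ext.covariant_sequence_exact₁ T hS x (h1 T hT hT' _ hj _) rfl
    rw [h2 T hT hT' j (by omega) y, Ext.zero_comp]

lemma Dp.quot {i : M' →ₗ[Q] M} {p : M →ₗ[Q] M''} (hi : Injective i) (h : Exact i p)
    (hp : Surjective p) {n : ℕ} (h1 : Dp Q (n + 1) M') (h2 : Dp Q n M) : Dp Q n M'' := by
  intro T hT hT' j hj x
  obtain ⟨y, rfl⟩ := Ext.covariant_sequence_exact₃ T (ses hi h hp) x rfl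
    (h1 T hT hT' _ (by omega) _)
  rw [h2 T hT hT' j hj y, Ext.zero_comp]

lemma Dp.zero : Dp Q 0 M := fun _ _ _ _ h => absurd h (Nat.not_lt_zero _)

lemma Dp.sum {ι : Type*} [Fintype ι] (a : ι → M →ₗ[Q] M') (b : ι → M' →ₗ[Q] M)
    (h : ∀ v, ∑ j, b j (a j v) = v) {n : ℕ} (h1 : Dp Q n M') : Dp Q n M := by
  intro T hT hT' i hi x
  have e : 𝟙 (ModuleCat.of Q M) = ∑ j, ModuleCat.ofHom (a j) ≫ ModuleCat.ofHom (b j) := by
    ext v
    simp [h v]
  rw [← Ext.comp_mk₀_id x, e, Ext.mk₀_sum, Ext.comp_sum]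
  refine Finset.sum_eq_zero fun j _ => ?_
  rw [← Ext.mk₀_comp_mk₀, ← Ext.comp_assoc_of_third_deg_zero,
    h1 T hT hT' i hi (x.comp _ _), Ext.zero_comp]

lemma Dp.pi {n : ℕ} (h : Dp Q n M) (k : ℕ) : Dp Q n (Fin k → M) :=
  Dp.sum (fun j => proj j) (fun j => single Q (fun _ => M) j)
    (fun v => by simp [Finset.univ_sum_single]) h

lemma Dp.equiv {n : ℕ} (h : Dp Q n M') (e : M ≃ₗ[Q] M') : Dp Q n M :=
  Dp.sum (ι := Unit) (fun _ => e.toLinearMap) (fun _ => e.symm.toLinearMap) (by simp) h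

lemma Dp.inj {i : M' →ₗ[Q] M} (hi : Injective i) (h : Dp Q 1 M) : Dp Q 1 M' :=
  Dp.sub hi i.exact_map_mkQ_range (mkQ_surjective _) h Dp.zero

omit [IsLocalRing Q] in
lemma ext_kill {T Y : ModuleCat.{u} Q} {i : ℕ} {a : Q} (h : ∀ t : T, a • t = 0) (x : Ext T Y i) :
    a • x = 0 := by
  have : a • 𝟙 T = 0 := by
    ext t
    exact h t
  rw [← Ext.mk₀_id_comp x, ← Ext.smul_comp, ← Ext.mk₀_smul, this, Ext.mk₀_zero, Ext.zero_comp]

lemma Dp.of_reg {rs : List Q} (hm : ∀ r ∈ rs, r ∈ maximalIdeal Q) (h : IsWeaklyRegular M rs) :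
    Dp Q rs.length M := by
  induction rs generalizing M with
  | nil => exact Dp.zero
  | cons r rs ih =>
    rw [isWeaklyRegular_cons_iff] at h
    have h2 := ih (fun a ha => hm a (List.mem_cons_of_mem _ ha)) h.2
    intro T hT hT' i hi x
    have hS := IsSMulRegular.smulShortComplex_shortExact (M := ModuleCat.of Q M) h.1
    have key : IsSMulRegular (Ext T (ModuleCat.of Q M) i) r := by
      refine IsSMulRegular.of_right_eq_zero_of_smul fun y hy => ?_
      rw [Ext.smul_eq_comp_mk₀] at hy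
      cases i with
      | zero =>
        have := hS.mono_f
        exact Ext.postcomp_mk₀_injective_of_mono T ((ModuleCat.of Q M).smulShortComplex r).f
          (hy.trans (map_zero _).symm)
      | succ i =>
        obtain ⟨z, rfl⟩ := Ext.covariant_sequence_exact₁ T hS y hy rfl
        obtain rfl : z = 0 := h2 T hT hT' i (by simpa using hi) z
        exact Ext.zero_comp _ _ _ _ _
    obtain ⟨k, hk⟩ := hT' r (hm r List.mem_cons_self)
    exact (key.pow k).right_eq_zero_of_smul (ext_kill hk x)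

omit [IsLocalRing Q] in
lemma Dp.hom {T : Type u} [AddCommGroup T] [Module Q T] {Y : ModuleCat.{u} Q}
    (h : ∀ x : Ext (ModuleCat.of Q T) Y 0, x = 0) (φ : T →ₗ[Q] Y) : φ = 0 := by
  have := h (Ext.mk₀ (ModuleCat.ofHom φ))
  rw [← Ext.mk₀_zero] at this
  exact congrArg ModuleCat.Hom.hom ((Ext.mk₀_bijective _ _).1 this)

lemma Dp.triv [Module.Finite Q M] (h : Dp Q 1 M) (h' : Tn Q M) (v : M) : v = 0 :=
  LinearMap.congr_fun (Dp.hom (Y := ModuleCat.of Q M)
    (h (ModuleCat.of Q M) inferInstance h' 0 one_pos) LinearMap.id) v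

/-- The quotient by the sequence is torsion. -/
def Tq (rs : List Q) (T : Type u) [AddCommGroup T] [Module Q T] : Prop :=
  ∀ a ∈ maximalIdeal Q, ∃ k : ℕ, ∀ t : T, a ^ k • t ∈ Ideal.ofList rs • (⊤ : Submodule Q T)

lemma Tq.cons {r : Q} {rs : List Q} (h : Tq (r :: rs) M) : Tq rs (QuotSMulTop r M) := by
  intro a ha
  obtain ⟨k, hk⟩ := h a ha
  refine ⟨k, fun t => ?_⟩
  obtain ⟨t, rfl⟩ := mkQ_surjective _ t
  have := mem_map_of_mem (f := (r • (⊤ : Submodule Q M)).mkQ) (hk t)
  rw [Ideal.ofList_cons_smul, Submodule.map_sup, mkQ_map_self, bot_sup_eq, map_smul'',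
    Submodule.map_top, range_mkQ] at this
  exact this

lemma ext_van [IsNoetherianRing Q] [Module.Finite Q M] {n : ℕ} (h : Dp Q n M) (rs : List Q)
    (hm : ∀ r ∈ rs, r ∈ maximalIdeal Q) (T : Type u) [AddCommGroup T] [Module Q T]
    [Module.Finite Q T] (h1 : IsWeaklyRegular T rs) (h2 : Tq rs T) (i : ℕ)
    (hi : i + rs.length < n) (x : Ext (ModuleCat.of Q T) (ModuleCat.of Q M) i) : x = 0 := by
  induction rs generalizing T i with
  | nil => exact h (ModuleCat.of Q T) inferInstance (by simpa [Tq, Tn] using h2) i hi x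
  | cons r rs ih =>
    rw [isWeaklyRegular_cons_iff] at h1
    have hS := IsSMulRegular.smulShortComplex_shortExact (M := ModuleCat.of Q T) h1.1
    have : (⊤ : Submodule Q (Ext (ModuleCat.of Q T) (ModuleCat.of Q M) i)) = ⊥ := by
      refine eq_bot_of_le_smul_of_le_jacobson_bot (maximalIdeal Q) _ Module.Finite.fg_top
        (fun y _ => ?_) (maximalIdeal_le_jacobson _)
      obtain ⟨z, rfl⟩ := Ext.contravariant_sequence_exact₁ hS _ y rfl
        (ih (fun a ha => hm a (List.mem_cons_of_mem _ ha)) _ h1.2 h2.cons _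
          (by simp at hi; omega) _)
      have e : ∀ z : Ext (ModuleCat.of Q T) (ModuleCat.of Q M) i,
          (Ext.mk₀ (r • 𝟙 _)).comp z (zero_add _) = r • z := fun z => by
        rw [Ext.mk₀_smul, Ext.smul_comp, Ext.mk₀_id_comp]
      exact (e z).symm ▸ smul_mem_smul (hm r List.mem_cons_self) trivial
    exact (mem_bot Q).mp (this ▸ mem_top)

lemma Dp.reg [IsNoetherianRing Q] (rs : List Q) (hm : ∀ r ∈ rs, r ∈ maximalIdeal Q)
    [Module.Finite Q M] (h : Dp Q rs.length M) (T : Type u) [AddCommGroup T] [Module Q T]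
    [Module.Finite Q T] (h1 : IsWeaklyRegular T rs) (h2 : Tq rs T) (e : T)
    (he : ∀ t, ∃ a : Q, a • e = t) (h3 : ∀ v : M, ∃ φ : T →ₗ[Q] M, φ e = v) :
    IsWeaklyRegular M rs := by
  induction rs generalizing T M with
  | nil => exact IsWeaklyRegular.nil Q M
  | cons r rs ih =>
    rw [isWeaklyRegular_cons_iff] at h1 ⊢
    have hm' : ∀ a ∈ rs, a ∈ maximalIdeal Q := fun a ha => hm a (List.mem_cons_of_mem _ ha)
    have hr : IsSMulRegular M r := by
      refine IsSMulRegular.of_right_eq_zero_of_smul fun v hv => ?_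
      obtain ⟨φ, rfl⟩ := h3 v
      have := Dp.hom (Y := ModuleCat.of Q M) (ext_van h rs hm' (QuotSMulTop r T) h1.2 h2.cons 0
        (by simp)) (liftQ _ φ fun t ht => by
          obtain ⟨t, -, rfl⟩ := (mem_smul_pointwise_iff_exists _ _ _).mp ht
          obtain ⟨a, rfl⟩ := he t
          rw [mem_ker, smul_comm, map_smul, map_smul, hv, smul_zero])
      exact LinearMap.congr_fun this (Submodule.Quotient.mk e)
    refine ⟨hr, ih hm' (Dp.quot (i := lsmul Q M r) hr (exact_lsmul_mkQ_smul_top M r)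
      (mkQ_surjective _) h (h.mono (by simp))) (QuotSMulTop r T) h1.2 h2.cons
      (Submodule.Quotient.mk e) (fun t => ?_) fun v => ?_⟩
    · obtain ⟨t, rfl⟩ := mkQ_surjective _ t
      obtain ⟨a, rfl⟩ := he t
      exact ⟨a, rfl⟩
    · obtain ⟨v, rfl⟩ := mkQ_surjective _ v
      obtain ⟨φ, rfl⟩ := h3 v
      exact ⟨QuotSMulTop.map r φ, rfl⟩

/-- A module on which generators of the maximal ideal form a regular sequence is free. -/
lemma free_of_reg (rs : List Q) [IsNoetherianRing Q] (hm : Ideal.ofList rs = maximalIdeal Q)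
    [Module.Finite Q M] (h : IsWeaklyRegular M rs) : Module.Free Q M := by
  generalize hn : rs.length = n
  induction n generalizing Q M with
  | zero =>
    rw [List.length_eq_zero_iff] at hn
    subst hn
    let := (isField_iff_maximalIdeal_eq.mpr (hm.symm.trans Ideal.ofList_nil)).toField
    exact Module.Free.of_divisionRing Q M
  | succ n ih =>
    match rs with
    | [] => simp at hn
    | r :: rs =>
      rw [isWeaklyRegular_cons_iff'] at h
      have hr : r ∈ maximalIdeal Q := hm ▸ Ideal.subset_span List.mem_cons_self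
      have := Module.finitePresentation_of_finite Q M
      rw [← Module.free_quotSMulTop_iff_free Q M (maximalIdeal_le_jacobson _ hr) h.1]
      have : Nontrivial (Q ⧸ Ideal.span {r}) :=
        Ideal.Quotient.nontrivial_iff.mpr (by rwa [Ne, Ideal.span_singleton_eq_top])
      have := IsLocalRing.of_surjective' (Ideal.Quotient.mk (Ideal.span {r}))
        Ideal.Quotient.mk_surjective
      have := Module.Finite.of_restrictScalars_finite Q (Q ⧸ Ideal.span {r}) (QuotSMulTop r M)
      refine ih _ ?_ h.2 (by simpa using hn)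
      rw [← map_maximalIdeal_of_surjective _ (Ideal.Quotient.mk_surjective (I := Ideal.span {r})),
        ← hm, Ideal.ofList_cons, Ideal.map_sup, Ideal.map_quotient_self, bot_sup_eq,
        Ideal.map_ofList]

end Pool.Agent.Lib.MP_a966df_ag
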