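import Pool.Agent.Lib.MP_a966df_ag.MF

namespace Pool.Agent.Lib.MP_a966df_ag

open Submodule LinearMap
open Function (Injective Surjective Exact)

universe u

variable {S : Type u} [CommRing S] {E F G : Type u} [AddCommGroup E] [Module S E]
  [AddCommGroup F] [Module S F] [AddCommGroup G] [Module S G]

lemma sq_U {s t w : S} (h : s * t = w) : Sq w (U E s t) := fun b v => by
  cases b <;> simp [smul_smul, ← h, mul_comm]

lemma cl_U {s t s' t' a c : S} (h1 : a * s = s' * c) (h2 : c * t = t' * a) :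
    Cl (U S s t) (U S s' t') (U S a c) := fun b v => by
  cases b <;> simp [← mul_assoc, h1, h2]

lemma nl_U {s t s' t' a c : S} (k l : S) (h1 : a = s' * l + k * t) (h2 : c = t' * k + l * s) :
    Nl (U S s t) (U S s' t') (U S a c) :=
  ⟨U S k l, fun b v => by cases b <;> simp [h1, h2] <;> ring⟩

variable (x y z t u : S)

/-- The ideal of the four Knoerrer variables. -/
abbrev I4 : Ideal S := Ideal.span {x, y} ⊔ Ideal.span {z, t}

/-- The hypotheses on the parameters. -/
structure Hyp : Prop where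
  r1 : Rg S x y
  r2 : Rg (S ⧸ Ideal.span {x, y}) z t
  r3 : ∀ a, u * a ∈ I4 x y z t → a ∈ I4 x y z t
  mx : ∀ a, IsUnit a ∨ ∃ c, a - c * u ∈ I4 x y z t

/-- The double Knoerrer construction. -/
abbrev P2 (T : Op S E E) := Ph x y (Ph z t T)

/-- The standard factorisations. -/
abbrev Mi (i j : ℕ) := P2 x y z t (U S (u ^ i) (u ^ j))

variable {x y z t u}

/-- Scalar maps between standard factorisations. -/
abbrev sc (a c : S) := Pm (Pm (U S a c))

lemma sc_sc (a c a' c' : S) (b v) : sc a c b (sc a' c' b v) = sc (a * a') (c * c') b v := by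
  cases b <;> simp [mul_assoc]

/-- The corner entry. -/
def cr (Y : Op S ((S × S) × S × S) ((S × S) × S × S)) (b : Bool) : S := (Y b ((1, 0), 0)).1.1

lemma Hyp.corner (H : Hyp x y z t u) {s r s' r' w : S} (h1 : s * r = w) (h2 : s' * r' = w) {Y}
    (hY : Cl (P2 x y z t (U S s r)) (P2 x y z t (U S s' r')) Y) (h : ∀ b, cr Y b ∈ I4 x y z t) :
    Nl (P2 x y z t (U S s r)) (P2 x y z t (U S s' r')) Y := by
  let q := (Ideal.span {x, y}).mkQ
  have hx : ∀ a : S ⧸ Ideal.span {x, y}, x • a = 0 := fun a => by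
    rw [Algebra.smul_def, Ideal.Quotient.algebraMap_eq,
      Ideal.Quotient.eq_zero_iff_mem.mpr (Ideal.subset_span (by simp)), zero_mul]
  have hy : ∀ a : S ⧸ Ideal.span {x, y}, y • a = 0 := fun a => by
    rw [Algebra.smul_def, Ideal.Quotient.algebraMap_eq,
      Ideal.Quotient.eq_zero_iff_mem.mpr (Ideal.subset_span (by simp)), zero_mul]
  have nat : ∀ b v, q.prodMap q (Ph z t (U S s' r') b v) = Ph z t (U _ s' r') b (q.prodMap q v) :=
    fun b v => by cases b <;> simp [-smul_eq_mul]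
  obtain ⟨K, hK⟩ := kn (T := U S s r) (T' := U (S ⧸ Ideal.span {x, y}) s' r') (sq_U h1) (sq_U h2)
    H.r2 (Y := fun b => q.prodMap q ∘ₗ fst S _ _ ∘ₗ Y b ∘ₗ inl S _ _) (fun b v => by
      have := congrArg (fun p => q.prodMap q p.1) (hY b (v, 0))
      rw [Ph_apply x y, Ph_apply x y, map_zero, sub_zero, smul_zero, add_zero,
        ← Prod.fst_add_snd (_, y • v), map_add, ← smul_zero y, ← Prod.smul_mk, map_smul] at this
      simp only [Prod.fst_add, Prod.smul_fst, map_add, map_smul, nat] at this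
      simpa [Prod.ext_iff, hx, hy] using this) 0 fun b v => by
    obtain ⟨a, ha, c, hc, e⟩ := mem_sup.mp (h b)
    obtain ⟨k, l, rfl⟩ := Ideal.mem_span_pair.mp hc
    refine ⟨(q (v * k), q (v * l)), ?_⟩
    have : ((v, 0), 0) = v • (((1, 0), 0) : (S × S) × S × S) := by simp
    have e2 : (Y b ((v, 0), 0)).1.1 = v * cr Y b := by rw [this, map_smul]; rfl
    simp only [comp_apply, inl_apply, fst_apply, prodMap_apply, e2, ← e, Pi.zero_apply,
      LinearMap.zero_apply, map_zero, sub_zero, ← map_smul, ← map_add]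
    exact (Submodule.Quotient.eq _).mpr (by
      rw [show z • (v * k) + t • (v * l) - v * (a + (k * z + l * t)) = -v * a by simp; ring]
      exact Ideal.mul_mem_left _ _ ha)
  choose L hL using fun b => Module.projective_lifting_property (q.prodMap q) (K b)
    ((mkQ_surjective _).prodMap (mkQ_surjective _))
  refine kn ((sq_U h1).ph z t) ((sq_U h2).ph z t) H.r1.prod hY L fun b v => ?_
  have : q.prodMap q ((Y b (v, 0)).1 - Ph z t (U S s' r') b (L (!b) v) -
      L b (Ph z t (U S s r) (!b) v)) = 0 := by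
    rw [map_sub, map_sub, nat, ← comp_apply _ (L _), ← comp_apply _ (L _), hL, hL, sub_sub,
      sub_eq_zero]
    exact hK b v
  obtain ⟨a, c, e1⟩ := Ideal.mem_span_pair.mp ((Quotient.mk_eq_zero _).mp (congrArg Prod.fst this))
  obtain ⟨a', c', e2⟩ := Ideal.mem_span_pair.mp ((Quotient.mk_eq_zero _).mp (congrArg Prod.snd this))
  exact ⟨((a, a'), (c, c')), Prod.ext (by simpa [mul_comm] using e1) (by simpa [mul_comm] using e2)⟩

lemma mem_eq {I : Ideal S} {a b : S} (h : a ∈ I) (e : b = a) : b ∈ I := e ▸ h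

lemma Hyp.pow (H : Hyp x y z t u) (n : ℕ) {a : S} (h : u ^ n * a ∈ I4 x y z t) :
    a ∈ I4 x y z t := by
  induction n with
  | zero => simpa using h
  | succ n ih => exact ih (H.r3 _ (by rwa [← mul_assoc, ← pow_succ']))

lemma Hyp.dvr (H : Hyp x y z t u) (n : ℕ) (c : S) :
    (∃ e < n, ∃ v : Sˣ, c - v * u ^ e ∈ I4 x y z t) ∨ ∃ d, c - d * u ^ n ∈ I4 x y z t := by
  induction n with
  | zero => exact .inr ⟨c, by simp⟩
  | succ n ih =>
    rcases ih with ⟨e, he, h⟩ | ⟨d, hd⟩
    · exact .inl ⟨e, by omega, h⟩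
    · rcases H.mx d with ⟨v, rfl⟩ | ⟨k, hk⟩
      · exact .inl ⟨n, by omega, v, hd⟩
      · exact .inr ⟨k, mem_eq (add_mem hd (Ideal.mul_mem_right (u ^ n) _ hk)) (by ring)⟩

lemma upow {a b c d : ℕ} (h : a + b = c + d) (v : S) : v * u ^ a * u ^ b = u ^ c * (v * u ^ d) := by
  rw [mul_assoc, ← pow_add, h, pow_add, mul_left_comm]

lemma Hyp.std (H : Hyp x y z t u) {h i i' j j' : ℕ} (hi : i + i' = h) (hj : j + j' = h) {Y}
    (hY : Cl (Mi x y z t u j j') (Mi x y z t u i i') Y) : ∃ c, ∀ d, c - d ∈ I4 x y z t →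
      Nl (Mi x y z t u j j') (Mi x y z t u i i') (Y - sc (d * u ^ (i - j)) (d * u ^ (j - i))) := by
  have key : u ^ j * cr Y true - u ^ i * cr Y false ∈ I4 x y z t := by
    have e := congrArg (fun p => p.1.1) (hY true ((1, 0), 0))
    have : Mi x y z t u j j' true ((1, 0), 0) =
      u ^ j • ((1, 0), 0) + t • ((0, 1), 0) + y • (0, (1, 0)) := by simp
    rw [this, map_add, map_add, map_smul, map_smul, map_smul] at e
    obtain ⟨c1, c2, c3, c4, e'⟩ : ∃ c1 c2 c3 c4, u ^ j * cr Y true + t * c1 + y * c2 =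
      u ^ i * cr Y false + z * c3 + x * c4 := ⟨_, _, _, _, e⟩
    have m : ∀ a ∈ ({x, y} ∪ {z, t} : Set S), ∀ c, a * c ∈ I4 x y z t := fun a ha c =>
      Ideal.mul_mem_right _ _ ((Ideal.span_union _ _).le (Ideal.subset_span ha))
    exact mem_eq (sub_mem (add_mem (m z (by simp) c3) (m x (by simp) c4))
      (add_mem (m t (by simp) c1) (m y (by simp) c2))) (by linear_combination e')
  obtain ⟨c, h1, h2⟩ : ∃ c, cr Y true - c * u ^ (i - j) ∈ I4 x y z t ∧
      cr Y false - c * u ^ (j - i) ∈ I4 x y z t := by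
    rcases le_total j i with h | h <;> obtain ⟨d, rfl⟩ := Nat.exists_eq_add_of_le h
    · exact ⟨cr Y false, H.pow j (mem_eq key (by simp; ring)), by simp⟩
    · exact ⟨cr Y true, by simp, H.pow i (mem_eq (neg_mem key) (by simp; ring))⟩
  refine ⟨c, fun d hd => H.corner (by rw [← pow_add, hj]) (by rw [← pow_add, hi])
    (hY.sub (((cl_U (upow (by omega) d) (upow (by omega) d)).pm z t).pm x y)) fun b => ?_⟩
  cases b
  · exact mem_eq (add_mem h2 (Ideal.mul_mem_right (u ^ (j - i)) _ hd)) (by simp [cr]; ring)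
  · exact mem_eq (add_mem h1 (Ideal.mul_mem_right (u ^ (i - j)) _ hd)) (by simp [cr]; ring)

lemma Nl.of_sub {T : Op S E E} {D : Op S F F} {Y Z : Op S E F} (h : Nl T D (Y - Z))
    (h' : Nl T D Z) : Nl T D Y := (h.add h').of_eq fun b v => by simp

lemma Nl.of_sub' {T : Op S E E} {D : Op S F F} {Y Z : Op S E F} (h : Nl T D (Y - Z))
    (h' : Nl T D Y) : Nl T D Z := ((h.smul (-1)).add h').of_eq fun b v => by simp

/-- A map that does not kill the socle is injective on maps from standard factorisations. -/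
lemma Hyp.inj (H : Hyp x y z t u) {h i i' j j' : ℕ} (hi : i + i' = h) (hj : j + j' = h)
    {D : Op S F F} {φ} (h1 : Cl (Mi x y z t u i i') D φ)
    (h2 : ¬ Nl (Mi x y z t u i' i) D (cp φ (sc (u ^ (i - 1)) (u ^ (i' - 1))))) {Y}
    (hY : Cl (Mi x y z t u j j') (Mi x y z t u i i') Y) (h3 : Nl (Mi x y z t u j j') D (cp φ Y)) :
    Nl (Mi x y z t u j j') (Mi x y z t u i i') Y := by
  obtain ⟨c, hc⟩ := H.std hi hj hY
  rcases H.dvr (min (min i j) (min i' j')) c with ⟨e, he, v, hv⟩ | ⟨d, hd⟩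
  · refine absurd ?_ h2
    have h4 : Nl (Mi x y z t u j j') D (cp φ (sc (v * u ^ e * u ^ (i - j)) (v * u ^ e * u ^ (j - i)))) :=
      Nl.of_sub' ((Nl.left h1 (hc _ hv)).of_eq fun b v => by simp only [cp_apply, Pi.sub_apply,
        LinearMap.sub_apply, map_sub]) h3
    refine (h4.right (((cl_U (s := u ^ i') (t := u ^ i) (a := ↑v⁻¹ * u ^ (i - 1 - e - (i - j)))
      (c := ↑v⁻¹ * u ^ (i' - 1 - e - (j - i))) (upow (by omega) _) (upow (by omega) _)).pm z t).pm
        x y)).of_eq fun b w => ?_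
    have : ∀ a b c, c = e + a + b → v * u ^ e * u ^ a * (↑v⁻¹ * u ^ b) = u ^ c := by
      rintro a b _ rfl
      rw [pow_add, pow_add]
      linear_combination (u ^ e * u ^ a * u ^ b) * v.mul_inv
    simp only [cp_apply, sc_sc]
    rw [this _ _ (i - 1) (by omega), this _ _ (i' - 1) (by omega)]
  · refine (hc _ hd).of_sub (Nl.pm (Nl.pm ?_ z t) x y)
    have : ∀ a b c e, a + b = c + e → d * u ^ a * u ^ b = u ^ c * (d * u ^ e) :=
      fun _ _ _ _ h => upow h d
    rcases le_total (min i j) (min i' j') with h | h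
    · exact nl_U 0 (d * 1) (by rw [zero_mul, add_zero, ← pow_zero u]; exact this _ _ _ _ (by omega))
        (by rw [mul_zero, zero_add, mul_comm (d * 1), ← pow_zero u]; exact this _ _ _ _ (by omega))
    · exact nl_U (d * 1) 0 (by rw [mul_zero, zero_add, mul_comm (d * 1), ← pow_zero u]; exact this _ _ _ _ (by omega))
        (by rw [zero_mul, add_zero, ← pow_zero u]; exact this _ _ _ _ (by omega))

end Pool.Agent.Lib.MP_a966df_ag
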