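import Pool.Agent.Lib.MP_a966df_ag.Ck

namespace Pool.Agent.Lib.MP_a966df_ag

open Submodule LinearMap IsLocalRing
open Function (Injective Surjective Exact)

universe u

variable {S : Type u} [CommRing S] {X R' : Type u} [AddCommGroup X] [Module S X]
  [AddCommGroup R'] [Module S R'] {g f x y z t u : S}

lemma eqv1 (s r k : S) :
    Eqv (Tr (U S s (r * k)) (U S r (s * k)) (U S (-1) k)) (U S (s * r) k) := by
  refine ⟨fun b => bif b then (r • LinearMap.id).coprod LinearMap.id else fst S S S,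
    fun b => bif b then inr S S S else LinearMap.id.prod (s • LinearMap.id), fun b v => ?_,
    fun b v => ?_, ⟨fun b => bif b then 0 else -inr S S S ∘ₗ fst S S S, fun b v => ?_⟩,
    Nl.zero.of_eq fun b v => ?_⟩ <;> cases b <;> simp [Prod.ext_iff] <;> ring

lemma eqv2 (s r k : S) :
    Eqv (Tr (U S (r * k) s) (U S (s * k) r) (U S (-k) 1)) (U S k (s * r)) := by
  refine ⟨fun b => bif b then fst S S S else (r • LinearMap.id).coprod (-LinearMap.id),
    fun b => bif b then LinearMap.id.prod (-s • LinearMap.id) else -inr S S S, fun b v => ?_,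
    fun b v => ?_, ⟨fun b => bif b then inr S S S ∘ₗ fst S S S else 0, fun b v => ?_⟩,
    Nl.zero.of_eq fun b v => ?_⟩ <;> cases b <;> simp [Prod.ext_iff] <;> ring

lemma sq_Mi {i j h : ℕ} (e : i + j = h) : Sq (u ^ h + z * t + x * y) (Mi x y z t u i j) :=
  ((sq_U (by rw [← pow_add, e])).ph z t).ph x y

lemma nl_I4 {E : Type u} [AddCommGroup E] [Module S E] (T : Op S E E) {a : S}
    (ha : a ∈ I4 x y z t) : Nl (P2 x y z t T) (P2 x y z t T) (a • 1) := by
  obtain ⟨_, h1, _, h2, rfl⟩ := mem_sup.mp ha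
  obtain ⟨c, d, rfl⟩ := Ideal.mem_span_pair.mp h1
  obtain ⟨c', d', rfl⟩ := Ideal.mem_span_pair.mp h2
  exact ((((nl_x x y _).smul c).add ((nl_y x y _).smul d)).add
    ((((nl_x z t T).pm x y).smul c').add (((nl_y z t T).pm x y).smul d'))).of_eq fun b v => by
      simp [add_smul, mul_smul, Prod.ext_iff]

lemma nl_u (i j : ℕ) : Nl (Mi x y z t u i j) (Mi x y z t u i j) (u ^ i • 1) :=
  (((nl_U (s := u ^ i) (t := u ^ j) (a := u ^ i) (c := u ^ i) 0 1 (by simp) (by simp)).pm z t).pm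
    x y).of_eq fun b v => by cases b <;> simp [Prod.ext_iff]

lemma nl_u' (i j : ℕ) : Nl (Mi x y z t u i j) (Mi x y z t u i j) (u ^ j • 1) :=
  (((nl_U (s := u ^ i) (t := u ^ j) (a := u ^ j) (c := u ^ j) 1 0 (by simp) (by simp)).pm z t).pm
    x y).of_eq fun b v => by cases b <;> simp [Prod.ext_iff]

variable [IsLocalRing S]

lemma Hyp.null (H : Hyp x y z t u) (i j : ℕ) (a : S) (ha : a ∈ maximalIdeal S) :
    Nl (Mi x y z t u i j) (Mi x y z t u i j) (a ^ i • 1) := by
  obtain ⟨c, hc⟩ := (H.mx a).resolve_left ha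
  exact ((nl_I4 _ (Ideal.mem_of_dvd _ (sub_dvd_pow_sub_pow a (c * u) i) hc)).add
    ((nl_u i j).smul (c ^ i))).of_eq fun b v => by simp [sub_smul, mul_pow, mul_smul]

variable [IsNoetherianRing S]

lemma Hyp.chain (H : Hyp x y z t u) {i i' h : ℕ} (hi : i + i' = h) (hh : 0 < h)
    (hg : g = u ^ h + z * t + x * y) (h1 : Rg S g f) (hR : DA g R')
    {π : ((S × S) × S × S) →ₗ[S] X} (p : Pr (Mi x y z t u i i') π) : Iv g X PUnit R' := by
  subst hg
  have stp : ∀ {A N φ : Op S S S}, Iv _ X (ck (P2 x y z t A)) R' → Sq (u ^ h) A → Sq (u ^ h) N →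
      (∀ b v, A b (φ (!b) v) + φ b (U S (u ^ i) (u ^ i') (!b) v) = 0) →
      Eqv (Tr A (U S (u ^ i) (u ^ i')) φ) N → Iv _ X (ck (P2 x y z t N)) R' :=
    fun {A N φ} a1 a2 a3 a4 a5 =>
    have a6 := ((a2.tr (sq_U (by rw [← pow_add, hi])) a4).ph z t).ph x y
    (a1.ses (((ses_Tr φ).ph z t).ph x y) a6 (sq_Mi hi) (pr_ck _) p (pr_ck _) h1.prod.prod.1
      (fun a ha => ⟨i, H.null i i' a ha⟩) hR).eqv a6 ((a3.ph z t).ph x y) (pr_ck _) (pr_ck _)
        ((a5.ph z t).ph x y)
  have key : ∀ n : ℕ, ∃ a a' q, a + a' = h ∧ a + q * h = (n + 1) * i ∧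
      Iv (u ^ h + z * t + x * y) X (ck (Mi x y z t u a a')) R' := fun n => by
    induction n with
    | zero =>
      exact ⟨i, i', 0, hi, by simp, Iv.refl.eqv (sq_Mi hi) (sq_Mi hi) p (pr_ck _)
        ⟨1, 1, fun _ _ => rfl, fun _ _ => rfl, Nl.zero.of_eq (by simp), Nl.zero.of_eq (by simp)⟩⟩
    | succ n ih =>
      obtain ⟨a, a', q, e1, e2, ih⟩ := ih
      rcases le_total a i' with hl | hl <;> obtain ⟨d, rfl⟩ := Nat.exists_eq_add_of_le hl
      · obtain rfl : a' = i + d := by omega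
        refine ⟨a + i, d, q, by omega, by linarith, stp (φ := U S (-1) (u ^ d)) ih
          (sq_U (by rw [← pow_add, e1])) (sq_U (by rw [← pow_add, ← e1, add_assoc]))
          (fun b v => by cases b <;> simp <;> ring) (by simpa only [pow_add] using eqv1 _ _ _)⟩
      · obtain rfl : i = a' + d := by omega
        refine ⟨d, a' + i', q + 1, by omega, by linarith, stp (φ := U S (-u ^ d) 1) ih
          (sq_U (by rw [← pow_add, e1])) (sq_U (by rw [← pow_add, ← e1]; ring))
          (fun b v => by cases b <;> simp <;> ring) (by simpa only [pow_add] using eqv2 _ _ _)⟩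
  obtain ⟨a, a', q, e1, e2, k⟩ := key (h - 1)
  rw [Nat.sub_add_cancel hh] at e2
  refine k.fin (sq_Mi e1) (pr_ck _) ?_
  have : h ∣ a := (Nat.dvd_add_left (dvd_mul_left h q)).mp (e2 ▸ dvd_mul_right h i)
  rcases Nat.eq_zero_or_pos a with rfl | ha
  · simpa using nl_u (x := x) (y := y) (z := z) (t := t) (u := u) 0 a'
  · obtain rfl : a' = 0 := by have := Nat.le_of_dvd ha this; omega
    simpa using nl_u' (x := x) (y := y) (z := z) (t := t) (u := u) a 0

end Pool.Agent.Lib.MP_a966df_ag
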