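import Pool.Agent.Lib.MP_a966df_ag.Theta

namespace Pool.Agent.Lib.MP_a966df_ag

open Submodule LinearMap
open Function (Injective Surjective Exact)

universe u

variable {S : Type u} [CommRing S] {X' X X'' F' F F'' Y' Y Y'' R' : Type u} [AddCommGroup X']
  [Module S X'] [AddCommGroup X] [Module S X] [AddCommGroup X''] [Module S X''] [AddCommGroup F']
  [Module S F'] [AddCommGroup F] [Module S F] [AddCommGroup F''] [Module S F''] [AddCommGroup Y']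
  [Module S Y'] [AddCommGroup Y] [Module S Y] [AddCommGroup Y''] [Module S Y''] [AddCommGroup R']
  [Module S R'] {g : S}

/-- The map lifts along every surjection from a module killed by `g`. -/
def Lf (g : S) (v : X →ₗ[S] Y) : Prop :=
  ∀ (Z : Type u) [AddCommGroup Z] [Module S Z] (p : Z →ₗ[S] Y), Surjective p → (∀ z : Z, g • z = 0) →
    ∃ w, p ∘ₗ w = v

/-- Stably zero maps. -/
def SZ (g : S) (a : X →ₗ[S] F) : Prop :=
  ∀ (Y : Type u) [AddCommGroup Y] [Module S Y] (y : F →ₗ[S] Y), Lf g (y ∘ₗ a)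

lemma Lf.add {v w : X →ₗ[S] Y} (h : Lf g v) (h' : Lf g w) : Lf g (v + w) := fun Z _ _ p hp hZ => by
  obtain ⟨a, rfl⟩ := h Z p hp hZ
  obtain ⟨b, rfl⟩ := h' Z p hp hZ
  exact ⟨a + b, comp_add _ _ _⟩

lemma Lf.pre {v : X →ₗ[S] Y} (h : Lf g v) (a : X' →ₗ[S] X) : Lf g (v ∘ₗ a) := fun Z _ _ p hp hZ => by
  obtain ⟨b, rfl⟩ := h Z p hp hZ
  exact ⟨b ∘ₗ a, rfl⟩

lemma Lf.of_eq {v w : X →ₗ[S] Y} (h : Lf g v) (e : ∀ x, w x = v x) : Lf g w :=
  LinearMap.ext e ▸ h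

lemma Fd_le (a : X →ₗ[S] F) (b : F →ₗ[S] X) (h : SZ g (LinearMap.id - b ∘ₗ a)) {p : Y →ₗ[S] Y''}
    (hp : Surjective p) (hY : ∀ y : Y, g • y = 0) : Fd X p ≤ Fd F p := by
  refine rl_le (lcomp S Y'' b) ?_
  rintro v ⟨w, hw⟩
  obtain ⟨z, hz⟩ := h _ v Y p hp hY
  refine ⟨z + w ∘ₗ a, LinearMap.ext fun x => ?_⟩
  have e1 : p (z x) = v (x - b (a x)) := LinearMap.congr_fun hz x
  have e2 : p (w (a x)) = v (b (a x)) := LinearMap.congr_fun hw _
  simp [e1, e2]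

lemma Fd_prod {i : Y' →ₗ[S] Y} {p : Y →ₗ[S] Y''} (hi : Injective i) (he : Exact i p) :
    Fd (X × F) p = Fd X p + Fd F p := by
  have := three (α := inl S X F) (β := snd S X F) Prod.snd_surjective Exact.inl_snd hi he
  have e : ∀ (Z : Type u) [AddCommGroup Z] [Module S Z], Gd Z (inl S X F) = 0 := fun Z _ _ =>
    Gd_eq_zero.mpr fun v => ⟨v ∘ₗ fst S X F, rfl⟩
  simpa [e] using this.symm

/-- The lifting defect of `X` compared with that of `F`. -/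
def Iv (g : S) (X F R' : Type u) [AddCommGroup X] [Module S X] [AddCommGroup F] [Module S F]
    [AddCommGroup R'] [Module S R'] : Prop :=
  ∃ (k : ℕ) (κ : ∀ (Y : Type u) [AddCommGroup Y] [Module S Y], ℕ∞) (j : X →ₗ[S] F), 0 < k ∧
    (∀ (Y' Y Y'' : Type u) [AddCommGroup Y'] [Module S Y'] [AddCommGroup Y] [Module S Y]
      [AddCommGroup Y''] [Module S Y''] (i : Y' →ₗ[S] Y) (p : Y →ₗ[S] Y''), Injective i →
      Exact i p → Surjective p → Module.Finite S Y → (∀ y : Y, g • y = 0) →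
      κ Y + k * Fd X p = κ Y' + κ Y'' + Fd F p) ∧
    (∀ (Y : Type u) [AddCommGroup Y] [Module S Y], Module.Finite S Y → κ Y ≠ ⊤) ∧ κ R' = 0 ∧
    ∀ (Y : Type u) [AddCommGroup Y] [Module S Y], Module.Finite S Y → κ Y = 0 → ∀ v : X →ₗ[S] Y,
      ∃ w : F →ₗ[S] Y, Lf g (v - w ∘ₗ j)

lemma Lf.zero : Lf g (0 : X →ₗ[S] Y) := fun _ _ _ _ _ _ => ⟨0, comp_zero _⟩

lemma Iv.refl : Iv g X X R' :=
  ⟨1, fun _ _ _ => 0, LinearMap.id, one_pos, fun _ _ _ _ _ _ _ _ _ _ _ _ _ _ _ _ => by simp,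
    fun _ _ _ _ => ENat.zero_ne_top, rfl, fun _ _ _ _ _ v => ⟨v, Lf.zero.of_eq (by simp)⟩⟩

lemma Iv.ext (h : Iv g X F' R') {α : F' →ₗ[S] F} {β : F →ₗ[S] X} (he : Exact α β)
    (hβ : Surjective β) (h1 : ∀ (Y : Type u) [AddCommGroup Y] [Module S Y], Module.Finite S Y →
      Gd Y α ≠ ⊤) (h2 : Gd R' α = 0) : Iv g X F R' := by
  obtain ⟨k, κ, j, a1, a2, a3, a4, a5⟩ := h
  refine ⟨k + 1, fun Y _ _ => κ Y + Gd Y α, α ∘ₗ j, by omega,
    fun Y' Y Y'' _ _ _ _ _ _ i p hi hp hs hF hY => ?_, fun Y _ _ hY => by simp [a3 Y hY, h1 Y hY],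
    by simp [a4, h2], fun Y _ _ hF hY v => ?_⟩
  · calc _ = (κ Y + k * Fd X p) + Fd X p + Gd Y α := by push_cast; ring
      _ = κ Y' + κ Y'' + (Gd Y α + Fd F' p + Fd X p) := by rw [a2 Y' Y Y'' i p hi hp hs hF hY]; ring
      _ = _ := by rw [three hβ he hi hp]; ring
  · simp only [add_eq_zero] at hY
    obtain ⟨w, hw⟩ := a5 Y hF hY.1 v
    obtain ⟨z, rfl⟩ := Gd_eq_zero.mp hY.2 w
    exact ⟨z, hw⟩

lemma Iv.stab (h : Iv g X F' R') (a : F' →ₗ[S] F) (b : F →ₗ[S] F')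
    (h1 : SZ g (LinearMap.id - b ∘ₗ a)) (h2 : SZ g (LinearMap.id - a ∘ₗ b)) : Iv g X F R' := by
  obtain ⟨k, κ, j, a1, a2, a3, a4, a5⟩ := h
  refine ⟨k, κ, a ∘ₗ j, a1, fun Y' Y Y'' _ _ _ _ _ _ i p hi hp hs hF hY => ?_, a3, a4,
    fun Y _ _ hF hY v => ?_⟩
  · rw [a2 Y' Y Y'' i p hi hp hs hF hY, (Fd_le a b h1 hs hY).antisymm (Fd_le b a h2 hs hY)]
  · obtain ⟨w, hw⟩ := a5 Y hF hY v
    exact ⟨w ∘ₗ b, (hw.add ((h1 Y w).pre j)).of_eq fun x => by simp⟩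

lemma Iv.split (h' : Iv g X' PUnit R') (h'' : Iv g X'' PUnit R') (a : X →ₗ[S] X' × X'')
    (b : X' × X'' →ₗ[S] X) (h1 : SZ g (LinearMap.id - b ∘ₗ a)) (h2 : SZ g (LinearMap.id - a ∘ₗ b)) :
    Iv g X PUnit R' := by
  obtain ⟨k, κ, j, a1, a2, a3, a4, a5⟩ := h'
  obtain ⟨l, μ, j', b1, b2, b3, b4, b5⟩ := h''
  refine ⟨k * l, fun Y _ _ => l * κ Y + k * μ Y, 0, Nat.mul_pos a1 b1,
    fun Y' Y Y'' _ _ _ _ _ _ i p hi hp hs hF hY => ?_,
    fun Y _ _ hY => WithTop.add_ne_top.mpr ⟨WithTop.mul_ne_top (ENat.natCast_ne_top l) (a3 Y hY),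
      WithTop.mul_ne_top (ENat.natCast_ne_top k) (b3 Y hY)⟩, by simp [a4, b4],
    fun Y _ _ hF hY v => ⟨0, ?_⟩⟩
  · have e : Fd PUnit p = 0 := Fd_eq_zero.mpr fun v => ⟨0, Subsingleton.elim _ _⟩
    rw [(Fd_le a b h1 hs hY).antisymm (Fd_le b a h2 hs hY), Fd_prod hi hp]
    calc _ = l * (κ Y + k * Fd X' p) + k * (μ Y + l * Fd X'' p) := by push_cast; ring
      _ = _ := by rw [a2 Y' Y Y'' i p hi hp hs hF hY, b2 Y' Y Y'' i p hi hp hs hF hY, e]; ring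
  · simp only [add_eq_zero, mul_eq_zero, Nat.cast_eq_zero, a1.ne', b1.ne', false_or] at hY
    obtain ⟨w, hw⟩ := a5 Y hF hY.1 (v ∘ₗ b ∘ₗ inl S _ _)
    obtain ⟨z, hz⟩ := b5 Y hF hY.2 (v ∘ₗ b ∘ₗ inr S _ _)
    refine ((h1 Y v).add ((hw.pre (fst S _ _ ∘ₗ a)).add (hz.pre (snd S _ _ ∘ₗ a)))).of_eq fun x => ?_
    simp [Subsingleton.elim w 0, Subsingleton.elim z 0, ← map_add]

lemma rl_top (I : Submodule S X) : rl I ⊤ = Module.length S (X ⧸ I) := by
  rw [rl, Submodule.map_top, range_mkQ, topEquiv.length_eq]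

/-- Passage to the quotient ring. -/
lemma Iv.good {Q : Type u} [CommRing Q] [Algebra S Q] (hs : Surjective (algebraMap S Q))
    (hg : algebraMap S Q g = 0) [Module Q X] [IsScalarTower S Q X] [Module Q R']
    [IsScalarTower S Q R'] (h : Iv g X PUnit R') (f : Q) : Good f R' X := by
  obtain ⟨k, κ, j, a1, a2, a3, a4, a5⟩ := h
  have hk : ∀ (Y : Type u) [AddCommGroup Y] [Module Q Y] [Module S Y] [IsScalarTower S Q Y]
    (y : Y), g • y = 0 := fun Y _ _ _ _ y => by rw [← algebraMap_smul Q, hg, zero_smul]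
  have : Module.Finite S Q := .of_surjective (Algebra.linearMap S Q) hs
  refine ⟨k, fun Y _ _ => @κ Y _ (Module.compHom Y (algebraMap S Q)), a1,
    fun Y' Y Y'' _ _ _ _ _ _ i p hi he hp _ _ => ?_, fun Y _ _ _ _ => ?_, ?_,
    fun Y Z _ _ _ _ p hp _ _ hY v => ?_⟩
  · let := Module.compHom Y' (algebraMap S Q)
    let := Module.compHom Y (algebraMap S Q)
    let := Module.compHom Y'' (algebraMap S Q)
    have : IsScalarTower S Q Y' := .of_compHom S Q _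
    have : IsScalarTower S Q Y := .of_compHom S Q _
    have : IsScalarTower S Q Y'' := .of_compHom S Q _
    have e : Fd X p = Fd X (p.restrictScalars S) := by
      rw [Fd, Fd, rl_top, rl_top, ← Module.length_eq_of_surjective (S := S) hs,
        ← (Quotient.restrictScalarsEquiv S _).length_eq]
      refine (Quotient.equiv _ _ (extendScalarsOfSurjectiveEquiv hs) (le_antisymm ?_ ?_)).length_eq.symm
      · rintro _ ⟨_, ⟨w, rfl⟩, rfl⟩
        exact ⟨w.extendScalarsOfSurjective hs, rfl⟩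
      · rintro _ ⟨w, rfl⟩
        exact ⟨_, ⟨w.restrictScalars S, rfl⟩, rfl⟩
    have e0 : Fd PUnit (p.restrictScalars S) = 0 :=
      Fd_eq_zero.mpr fun v => ⟨0, Subsingleton.elim _ _⟩
    rw [e, a2 Y' Y Y'' (i.restrictScalars S) (p.restrictScalars S) hi he hp (.trans Q Y) (hk Y), e0, add_zero]
  · let := Module.compHom Y (algebraMap S Q)
    have : IsScalarTower S Q Y := .of_compHom S Q _
    exact a3 Y (.trans Q Y)
  · have : Module.compHom R' (algebraMap S Q) = ‹Module S R'› :=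
      Module.ext' _ _ fun a y => algebraMap_smul Q a y
    exact (congrArg (@κ R' _) this).trans a4
  · let := Module.compHom Y (algebraMap S Q)
    let := Module.compHom Z (algebraMap S Q)
    have : IsScalarTower S Q Y := .of_compHom S Q _
    have : IsScalarTower S Q Z := .of_compHom S Q _
    obtain ⟨w, hw⟩ := a5 Y (.trans Q Y) hY (v.restrictScalars S)
    obtain ⟨z, hz⟩ := hw Z (p.restrictScalars S) hp (hk Z)
    exact ⟨z.extendScalarsOfSurjective hs, LinearMap.ext fun x =>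
      (LinearMap.congr_fun hz x).trans (by simp [Subsingleton.elim w 0])⟩

end Pool.Agent.Lib.MP_a966df_ag
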