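import Pool.Agent.Lib.MP_a966df_ag.An
import Pool.Agent.Lib.MP_a966df_ag.Inv

namespace Pool.Agent.Lib.MP_a966df_ag

open Submodule LinearMap IsLocalRing
open Function (Injective Surjective Exact)

universe u

variable {S : Type u} [CommRing S] {E F G X X' X'' Y R' : Type u} [AddCommGroup E] [Module S E]
  [AddCommGroup F] [Module S F] [AddCommGroup G] [Module S G] [AddCommGroup X] [Module S X]
  [AddCommGroup X'] [Module S X'] [AddCommGroup X''] [Module S X''] [AddCommGroup Y] [Module S Y]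
  [AddCommGroup R'] [Module S R'] {g : S}

/-- `π` is a cokernel of the factorisation. -/
def Pr (T : Op S E E) (π : E →ₗ[S] X) : Prop := Surjective π ∧ Exact (T true) π

/-- The cokernel of the factorisation. -/
abbrev ck (T : Op S E E) := E ⧸ range (T true)

lemma pr_ck (T : Op S E E) : Pr T (range (T true)).mkQ :=
  ⟨mkQ_surjective _, (T true).exact_map_mkQ_range⟩

variable {T : Op S E E} {D : Op S F F} {C : Op S G G} {π : E →ₗ[S] X} {π' : F →ₗ[S] X'}
  {π'' : G →ₗ[S] X''}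

lemma Pr.zero (h : Pr T π) (v) : π (T true v) = 0 := h.2.apply_apply_eq_zero v

lemma Pr.dsc (h : Pr T π) (v : E →ₗ[S] Y) (hv : ∀ e, v (T true e) = 0) :
    ∃ w : X →ₗ[S] Y, ∀ e, w (π e) = v e :=
  (desc π h.1 v fun e he => by
    obtain ⟨w, rfl⟩ := (h.2 e).mp he
    exact hv w).imp fun _ h => LinearMap.congr_fun h

lemma Pr.ind (h : Pr T π) (h' : Pr D π') {Z : Op S E F} (hZ : Cl T D Z) :
    ∃ y : X →ₗ[S] X', ∀ v, y (π v) = π' (Z true v) :=
  h.dsc (π' ∘ₗ Z true) fun v => by simp [hZ true v, h'.zero]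

lemma Pr.kill [Module.Projective S E] (hT : Sq g T) (h : Pr T π) (h' : Pr D π') {Z : Op S E F}
    (hZ : Nl T D Z) {y : X →ₗ[S] X'} (e : ∀ v, y (π v) = π' (Z true v)) : SZ g y := by
  obtain ⟨H, hH⟩ := hZ
  intro Y _ _ w W _ _ p hp hW
  obtain ⟨l, hl⟩ := Module.projective_lifting_property p (w ∘ₗ π' ∘ₗ H true) hp
  obtain ⟨k, hk⟩ := h.dsc (l ∘ₗ T false) fun v => by
    have := hT false v
    simp only [Bool.not_false] at this
    simp [this, hW]
  refine ⟨k, LinearMap.ext fun v => ?_⟩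
  obtain ⟨v, rfl⟩ := h.1 v
  have := LinearMap.congr_fun hl (T false v)
  simp only [comp_apply] at this
  simp [hk, this, e, hH, h'.zero]

lemma SZ.comp {a : X →ₗ[S] X'} (h : SZ g a) (c : X' →ₗ[S] F) (d : E →ₗ[S] X) :
    SZ g (c ∘ₗ a ∘ₗ d) := fun Y _ _ y => (h Y (y ∘ₗ c)).pre d

lemma SZ.add {a b c : X →ₗ[S] X'} (h : SZ g a) (h' : SZ g b) (e : ∀ x, c x = a x + b x) : SZ g c :=
  fun Y _ _ y => ((h Y y).add (h' Y y)).of_eq fun x => by simp [e]

/-- Homotopy equivalence. -/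
def Eqv (T : Op S E E) (D : Op S F F) : Prop :=
  ∃ f e, Cl T D f ∧ Cl D T e ∧ Nl T T (1 - cp e f) ∧ Nl D D (1 - cp f e)

lemma Eqv.ph (h : Eqv T D) (x y : S) : Eqv (Ph x y T) (Ph x y D) := by
  obtain ⟨f, e, h1, h2, h3, h4⟩ := h
  exact ⟨_, _, h1.pm x y, h2.pm x y, h3.pm x y, h4.pm x y⟩

lemma Iv.eqv [Module.Projective S E] [Module.Projective S F] (h : Iv g Y X R') (hT : Sq g T)
    (hD : Sq g D) (p : Pr T π) (p' : Pr D π') (e : Eqv T D) : Iv g Y X' R' := by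
  obtain ⟨f, e, h1, h2, h3, h4⟩ := e
  obtain ⟨a, ha⟩ := p.ind p' h1
  obtain ⟨b, hb⟩ := p'.ind p h2
  exact h.stab a b (p.kill hT p h3 fun v => by simp [ha, hb])
    (p'.kill hD p' h4 fun v => by simp [ha, hb])

lemma Iv.fin [Module.Projective S E] (h : Iv g Y X R') (hT : Sq g T) (p : Pr T π)
    (e : Nl T T 1) : Iv g Y PUnit R' :=
  h.stab 0 0 (p.kill hT p e fun v => by simp) fun _ _ _ _ => Lf.zero.of_eq fun x => by
    simp [Subsingleton.elim x 0]

/-- Short exact sequences of factorisations. -/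
def Ses (T : Op S E E) (C : Op S G G) (D : Op S F F) : Prop :=
  ∃ i p, Cl T C i ∧ Cl C D p ∧ ∀ b, Injective (i b) ∧ Exact (i b) (p b) ∧ Surjective (p b)

lemma Ses.ph (h : Ses T C D) (x y : S) : Ses (Ph x y T) (Ph x y C) (Ph x y D) := by
  obtain ⟨i, p, h1, h2, h3⟩ := h
  refine ⟨_, _, h1.pm x y, h2.pm x y, fun b => ⟨(h3 b).1.prodMap (h3 _).1, fun v => ?_,
    (h3 b).2.2.prodMap (h3 _).2.2⟩⟩
  simp [Prod.ext_iff, (h3 b).2.1 _, (h3 (!b)).2.1 _]

/-- Triangular factorisations. -/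
def Tr (T : Op S E E) (D : Op S F F) (φ : Op S F E) : Op S (E × F) (E × F) := fun b =>
  ((T b).coprod (φ b)).prod (D b ∘ₗ snd S E F)

@[simp] lemma Tr_apply (φ : Op S F E) (b) (v : E × F) :
    Tr T D φ b v = (T b v.1 + φ b v.2, D b v.2) := rfl

lemma ses_Tr (φ : Op S F E) : Ses T (Tr T D φ) D :=
  ⟨fun _ => inl S E F, fun _ => snd S E F, fun b v => by simp, fun b v => by simp,
    fun _ => ⟨inl_injective, Exact.inl_snd, Prod.snd_surjective⟩⟩

lemma Sq.tr (h : Sq g T) (h' : Sq g D) {φ : Op S F E}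
    (e : ∀ b v, T b (φ (!b) v) + φ b (D (!b) v) = 0) : Sq g (Tr T D φ) := fun b v => by
  ext <;> simp [h b, h' b, add_assoc, e]

/-- Duals of factorisations with values in `R'` are acyclic. -/
def DA (g : S) (R' : Type u) [AddCommGroup R'] [Module S R'] : Prop :=
  (∀ y : R', g • y = 0) ∧ ∀ (E : Type u) [AddCommGroup E] [Module S E] [Module.Projective S E]
    (T : Op S E E), Sq g T → ∀ y : E →ₗ[S] R', (∀ v, y (T false v) = 0) →
      ∃ z : E →ₗ[S] R', ∀ v, y v = z (T true v)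

lemma da {f : S} (h : Rg S g f) (π : S →ₗ[S] R') (hs : Surjective π)
    (hk : ∀ a, π a = 0 ↔ ∃ w : S × S, g • w.1 + f • w.2 = a) : DA g R' := by
  refine ⟨fun y => ?_, fun E _ _ _ T hT y hy => ?_⟩
  · obtain ⟨y, rfl⟩ := hs y
    rw [← map_smul]
    exact (hk _).mpr ⟨(y, 0), by simp⟩
  obtain ⟨l, rfl⟩ := Module.projective_lifting_property π y hs
  obtain ⟨w, hw⟩ := lift ((g • LinearMap.id : S →ₗ[S] S).coprod (f • LinearMap.id)) (l ∘ₗ T false)
    fun v => (hk _).mp (hy v)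
  refine ⟨π ∘ₗ fst S S S ∘ₗ w, fun v => ?_⟩
  have e : g • (w (T true v)).1 + f • (w (T true v)).2 = g • l v :=
    (LinearMap.congr_fun hw _).trans ((congrArg l (hT false v)).trans (map_smul _ _ _))
  obtain ⟨c, hc⟩ := h.2 (w (T true v)).2 (l v - (w (T true v)).1) (by rw [smul_sub, ← e]; abel)
  rw [comp_apply, comp_apply, comp_apply, ← sub_eq_zero, ← map_sub]
  refine (hk _).mpr ⟨(0, c), eq_of_sub_eq_zero (h.1 _ ?_)⟩
  rw [fst_apply, smul_sub, smul_sub, ← e, ← hc]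
  module

variable [IsLocalRing S] [IsNoetherianRing S]

lemma Iv.ses [Module.Projective S F] [Module.Finite S G] (h : Iv g X' X R') (e : Ses T C D)
    (hC : Sq g C) (hD : Sq g D) (p : Pr T π) (p' : Pr D π') (p'' : Pr C π'')
    (hg : ∀ v : F, g • v = 0 → v = 0) (hm : ∀ a ∈ maximalIdeal S, ∃ k : ℕ, Nl D D (a ^ k • 1))
    (hR : DA g R') : Iv g X' X'' R' := by
  obtain ⟨i, q, h1, h2, h3⟩ := e
  obtain ⟨α, ha⟩ := p.ind p'' h1
  obtain ⟨β, hb⟩ := p''.ind p' h2
  have a1 : Injective α := (injective_iff_map_eq_zero _).mpr fun v hv => by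
    obtain ⟨v, rfl⟩ := p.1 v
    obtain ⟨w, hw⟩ := (p''.2 _).mp ((ha v).symm.trans hv)
    obtain ⟨w, rfl⟩ := ((h3 false).2.1 w).mp (hg _ (by
      rw [← hD false, Bool.not_false, ← Bool.not_true, ← h2 true, hw,
        (h3 true).2.1.apply_apply_eq_zero, map_zero]))
    rw [← (h3 true).1 ((h1 true w).trans hw), p.zero]
  have a2 : Exact α β := fun v => by
    obtain ⟨v, rfl⟩ := p''.1 v
    constructor
    · intro hv
      obtain ⟨w, hw⟩ := (p'.2 _).mp ((hb v).symm.trans hv)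
      obtain ⟨w, rfl⟩ := (h3 false).2.2 w
      obtain ⟨e, he⟩ := ((h3 true).2.1 (v - C true w)).mp (by simp [h2 true, hw])
      exact ⟨π e, by simp [ha, he, p''.zero]⟩
    · rintro ⟨w, hw⟩
      obtain ⟨w, rfl⟩ := p.1 w
      rw [← hw, ha, hb, (h3 true).2.1.apply_apply_eq_zero, map_zero]
  have a3 : Surjective β := fun v => by
    obtain ⟨v, rfl⟩ := p'.1 v
    obtain ⟨v, rfl⟩ := (h3 true).2.2 v
    exact ⟨_, hb v⟩
  have := Module.Finite.of_surjective π'' p''.1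
  refine h.ext a2 a3 (fun Y _ _ _ => LS.gd (c := g) (fun a ha => (hm a ha).imp fun k hk => ?_) a1 a2
    a3 fun v => ?_) (Gd_eq_zero.mpr fun v => ?_)
  · intro Z Z' _ _ _ _ r hr hZ v
    obtain ⟨w, hw⟩ := p'.kill hD p' hk (y := a ^ k • LinearMap.id) (by simp) _ v Z r hr hZ
    exact ⟨w, hw.trans (by ext; simp)⟩
  · obtain ⟨v, rfl⟩ := p''.1 v
    rw [← map_smul, ← hC true, p''.zero]
  · obtain ⟨s, hs⟩ := Module.projective_lifting_property (q true) LinearMap.id (h3 true).2.2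
    obtain ⟨r, hr⟩ := cores (i true) (h3 true).1 (LinearMap.id - s ∘ₗ q true) fun w =>
      ((h3 true).2.1 _).mp (by simp [show q true (s _) = _ from LinearMap.congr_fun hs _])
    have hr' : ∀ w, r (i true w) = w := fun w => (h3 true).1 ((LinearMap.congr_fun hr _).trans (by
      simp [(h3 true).2.1.apply_apply_eq_zero]))
    obtain ⟨y, hy⟩ := desc (q false) (h3 false).2.2 (v ∘ₗ π ∘ₗ r ∘ₗ C true) fun w hw => by
      obtain ⟨w, rfl⟩ := ((h3 false).2.1 w).mp hw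
      have := h1 true w
      simp only [Bool.not_true] at this
      simp [← this, hr', p.zero]
    have hy' : ∀ w, y (q false w) = v (π (r (C true w))) := LinearMap.congr_fun hy
    obtain ⟨z, hz⟩ := hR.2 F D hD y fun w => by
      obtain ⟨w, rfl⟩ := (h3 true).2.2 w
      rw [← Bool.not_false, ← h2 false, hy', ← Bool.not_true, hC true]
      simp [hR.1]
    obtain ⟨w, hw⟩ := p''.dsc (v ∘ₗ π ∘ₗ r - z ∘ₗ q true) fun w => by simp [h2 true, ← hz, hy']
    refine ⟨w, LinearMap.ext fun e => ?_⟩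
    obtain ⟨e, rfl⟩ := p.1 e
    simp [ha, hw, hr', (h3 true).2.1.apply_apply_eq_zero]

end Pool.Agent.Lib.MP_a966df_ag
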