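import Pool.Agent.Lib.MP_a966df_ag.An

namespace Pool.Agent.Lib.MP_a966df_ag

open Submodule LinearMap IsLocalRing RingTheory.Sequence Pointwise
open Function (Injective Surjective Exact)

universe u

variable {S : Type u} [CommRing S] {E F G : Type u} [AddCommGroup E] [Module S E]
  [AddCommGroup F] [Module S F] [AddCommGroup G] [Module S G] {T : Op S E E} {D : Op S F F}
  {D' : Op S G G} {π : F →ₗ[S] G} {g r s x y z t u : S}

/-- All chain maps are null-homotopic. -/
def Van (T : Op S E E) (D : Op S F F) : Prop := ∀ Y, Cl T D Y → Nl T D Y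

/-- Acyclicity. -/
def Ac (D : Op S F F) : Prop := ∀ b v, D b v = 0 → ∃ w, D (!b) w = v

/-- Reduction modulo `r`. -/
def Rd (r : S) (D : Op S F F) (D' : Op S G G) (π : F →ₗ[S] G) : Prop :=
  Surjective π ∧ (∀ v, π v = 0 ↔ ∃ w, r • w = v) ∧ ∀ b v, π (D b v) = D' b (π v)

lemma rd (r : S) (D : Op S F F) :
    Rd r D (fun b => QuotSMulTop.map r (D b)) (r • (⊤ : Submodule S F)).mkQ :=
  ⟨mkQ_surjective _, fun v => (Quotient.mk_eq_zero _).trans (by
    simp [mem_smul_pointwise_iff_exists]), fun _ _ => rfl⟩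

lemma Rd.kill (h : Rd r D D' π) (v) : r • π v = 0 := by
  rw [← map_smul]
  exact (h.2.1 _).mpr ⟨v, rfl⟩

lemma Rd.sq (h : Rd r D D' π) (hD : Sq (g + s * r) D) : Sq g D' := fun b v => by
  obtain ⟨v, rfl⟩ := h.1 v
  rw [← h.2.2, ← h.2.2, hD b]
  simp [add_smul, mul_smul, h.kill]

lemma Rd.van [Module.Projective S E] (h : Rd y D D' π) (hT : Sq g T) (hD : Sq (g + x * y) D)
    (hy : IsSMulRegular F y) (hv : Van (Ph x y T) D) : Van T D' := by
  intro Y hY
  choose ψ hψ using fun b => Module.projective_lifting_property π (Y b) h.1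
  have e : ∀ b v, π (ψ b v) = Y b v := fun b => LinearMap.congr_fun (hψ b)
  choose χ hχ using fun b => lift (y • LinearMap.id : F →ₗ[S] F) (D b ∘ₗ ψ (!b) - ψ b ∘ₗ T b)
    fun v => (h.2.1 _).mp (by simp [e, h.2.2, hY b])
  have e' : ∀ b v, y • χ b v = D b (ψ (!b) v) - ψ b (T b v) := fun b => LinearMap.congr_fun (hχ b)
  obtain ⟨H, hH⟩ := hv (fun b => (ψ b).coprod (χ b)) fun b v => by
    have : y • (x • ψ b v.2 - χ b (T (!b) v.2)) = y • D b (χ (!b) v.2) := by
      rw [← map_smul (D b), e', smul_sub, e', hT b, map_sub, Bool.not_not, hD b]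
      simp only [map_smul]
      module
    simp [e', ← hy this]
    abel
  refine ⟨fun b => π ∘ₗ H b ∘ₗ inl S E E, fun b v => ?_⟩
  have := congrArg π (hH b (v, 0))
  rw [Ph_apply, map_zero, sub_zero, smul_zero, add_zero, ← Prod.fst_add_snd (_, y • v), map_add,
    map_add, map_add, ← smul_zero y, ← Prod.smul_mk, map_smul, map_smul, h.kill] at this
  simpa [e, h.2.2] using this

lemma Rd.ac1 (h : Rd r D D' π) (hD : Sq (r * s) D) (hr : IsSMulRegular F r)
    (h1 : Van (U S r s) D) (h2 : Van (U S s r) D) : Ac D' := by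
  intro b v hv
  obtain ⟨v, rfl⟩ := h.1 v
  obtain ⟨w, hw⟩ := (h.2.1 _).mp ((h.2.2 b v).trans hv)
  have e : D (!b) w = s • v := hr (by
    have := hD (!b) v
    rw [Bool.not_not, ← hw, map_smul] at this
    simpa [mul_smul] using this)
  cases b
  · obtain ⟨H, hH⟩ := h2 (fun b => toSpanSingleton S F (bif b then v else w)) fun b a => by
      cases b <;> simp [← hw, show D true w = _ from e, -smul_eq_mul, smul_comm a]
    refine ⟨π (H false 1), ?_⟩
    simpa [h.2.2, -smul_eq_mul, h.kill, eq_comm] using congrArg π (hH true 1)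
  · obtain ⟨H, hH⟩ := h1 (fun b => toSpanSingleton S F (bif b then w else v)) fun b a => by
      cases b <;> simp [← hw, show D false w = _ from e, -smul_eq_mul, smul_comm a]
    refine ⟨π (H true 1), ?_⟩
    simpa [h.2.2, -smul_eq_mul, h.kill, eq_comm] using congrArg π (hH false 1)

lemma Rd.ac2 (h : Rd r D D' π) (hD : Sq 0 D) (hr : IsSMulRegular F r) (h1 : Ac D) : Ac D' := by
  intro b v hv
  obtain ⟨v, rfl⟩ := h.1 v
  obtain ⟨w, hw⟩ := (h.2.1 _).mp ((h.2.2 b v).trans hv)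
  obtain ⟨w, rfl⟩ := h1 (!b) w (hr (by
    have := hD (!b) v
    rw [Bool.not_not, ← hw, map_smul] at this
    simpa using this))
  obtain ⟨a, ha⟩ := h1 b (v - r • w) (by simpa [sub_eq_zero] using hw.symm)
  exact ⟨π a, by simp [← h.2.2, ha, h.kill]⟩

variable [IsLocalRing S]

/-- Reduction modulo a submodule of the radical. -/
def Rk (D : Op S F F) (D' : Op S G G) (π : F →ₗ[S] G) : Prop :=
  Surjective π ∧ ker π ≤ maximalIdeal S • ⊤ ∧ ∀ b v, π (D b v) = D' b (π v)

lemma Rd.rk {D'' : Op S E E} {π' : G →ₗ[S] E} (h : Rd r D D' π) (hr : r ∈ maximalIdeal S)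
    (h' : Rk D' D'' π') : Rk D D'' (π' ∘ₗ π) := by
  refine ⟨h'.1.comp h.1, fun v hv => ?_, fun b v => by simp [h.2.2, h'.2.2]⟩
  have := h'.2.1 hv
  rw [← range_eq_top.mpr h.1, ← Submodule.map_top, ← map_smul''] at this
  obtain ⟨w, hw, e⟩ := this
  obtain ⟨a, ha⟩ := (h.2.1 (v - w)).mp (by simp [e])
  rw [← sub_add_cancel v w, ← ha]
  exact add_mem (smul_mem_smul hr trivial) hw

lemma Rk.nl [Module.Projective S F] [Module.Finite S F] (h : Rk D D' π) (hD : Sq g D)
    (h0 : Sq 0 D') (hm : Module.IsTorsionBySet S G (maximalIdeal S)) (ha : Ac D') : Nl D D 1 := by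
  have : IsSemisimpleModule S G := by
    let := hm.module
    let := Ideal.Quotient.field (maximalIdeal S)
    exact hm.isSemisimpleModule_iff.mp inferInstance
  have : ∀ b, ∃ k : F →ₗ[S] F, ∃ k' : G →ₗ[S] G, (∀ v, π (k v) = k' (π v)) ∧
      ∀ v, D' (!b) (k' (D' (!b) v)) = D' (!b) v := fun b => by
    obtain ⟨s, hs⟩ := IsSemisimpleModule.lifting_property _ (D' (!b)).surjective_rangeRestrict .id
    obtain ⟨k', hk⟩ := IsSemisimpleModule.extension_property _ (range (D' (!b))).injective_subtype s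
    obtain ⟨k, e⟩ := Module.projective_lifting_property π (k' ∘ₗ π) h.1
    exact ⟨k, k', LinearMap.congr_fun e, fun v => (congrArg _ (LinearMap.congr_fun hk ⟨_, v, rfl⟩)).trans
      (congrArg Subtype.val (LinearMap.congr_fun hs _))⟩
  choose k k' h1 h2 using this
  have hK : Nl D D fun b => D b ∘ₗ k (!b) + k b ∘ₗ D (!b) := ⟨k, fun _ _ => rfl⟩
  have hs : ∀ b, Surjective (D b ∘ₗ k (!b) + k b ∘ₗ D (!b) :) := fun b => by
    refine range_eq_top.mp (top_le_iff.mp (le_of_le_smul_of_le_jacobson_bot Module.Finite.fg_top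
      (maximalIdeal_le_jacobson _) fun v _ => ?_))
    obtain ⟨w, hw⟩ := ha (!b) (π v - D' b (k' (!b) (π v)) - k' b (D' (!b) (π v))) (by
      have := h0 (!b)
      simp only [Bool.not_not] at this
      simp [h2, this])
    obtain ⟨w, rfl⟩ := h.1 w
    have e := h2 (!b)
    simp only [Bool.not_not] at hw e
    refine mem_sup.mpr ⟨_, ⟨v + D b w, rfl⟩, _, h.2.1 ?_, add_sub_cancel _ _⟩
    have := h0 (!b) (π w)
    simp only [Bool.not_not] at this
    simp [h1, h.2.2, e, this]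
    rw [hw]
    abel
  let ε := fun b => LinearEquiv.ofBijective _
    ⟨OrzechProperty.injective_of_surjective_endomorphism _ (hs b), hs b⟩
  refine (Nl.left (Y := fun b => (ε b).symm.toLinearMap) (fun b v => (ε b).injective ?_) hK).of_eq
    fun b v => ((ε b).symm_apply_apply v).symm
  exact ((ε b).apply_symm_apply _).trans
    ((congrArg (D b) ((ε (!b)).apply_symm_apply v)).symm.trans (hK.cl hD hD b _).symm)

omit [IsLocalRing S] in
lemma Rd.k1 (h : Rd r D D' π) (v : G) : r • v = 0 := by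
  obtain ⟨v, rfl⟩ := h.1 v
  exact h.kill v

omit [IsLocalRing S] in
lemma Rd.k2 (h : Rd r D D' π) (hs : ∀ v : F, s • v = 0) (v : G) : s • v = 0 := by
  obtain ⟨v, rfl⟩ := h.1 v
  rw [← map_smul, hs, map_zero]

lemma test0 {F1 F2 F3 F4 : Type u} [AddCommGroup F1] [Module S F1] [AddCommGroup F2] [Module S F2]
    [AddCommGroup F3] [Module S F3] [AddCommGroup F4] [Module S F4] {D1 : Op S F1 F1}
    {D2 : Op S F2 F2} {D3 : Op S F3 F3} {D4 : Op S F4 F4} {π1 π2 π3 π4 π5} (a1 : Rd y D D1 π1)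
    (a2 : Rd t D1 D2 π2) (a3 : Rd u D2 D3 π3) (a4 : Rd x D3 D4 π4) (a5 : Rd z D4 D' π5)
    (r1 : IsSMulRegular F y) (r2 : IsSMulRegular F1 t) (r3 : IsSMulRegular F2 u)
    (r4 : IsSMulRegular F3 x) (r5 : IsSMulRegular F4 z)
    [Module.Projective S F] [Module.Finite S F] (hD : Sq (u * s + z * t + x * y) D)
    (hm : Ideal.ofList [y, t, u, x, z] = maximalIdeal S)
    (h1 : Van (P2 x y z t (U S u s)) D) (h2 : Van (P2 x y z t (U S s u)) D) : Nl D D 1 := by
  have b1 := a1.sq hD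
  have b2 := a2.sq b1
  have b3 := a3.sq (g := 0) (s := s) (by rwa [zero_add, mul_comm])
  have b4 := a4.sq (g := 0) (s := 0) (by simpa using b3)
  have m : ∀ a ∈ [y, t, u, x, z], a ∈ maximalIdeal S := fun a ha => hm ▸ Ideal.subset_span ha
  refine (a1.rk (m _ (by simp)) (a2.rk (m _ (by simp)) (a3.rk (m _ (by simp)) (a4.rk (m _ (by simp))
    (a5.rk (m _ (by simp)) (π' := LinearMap.id) ⟨fun v => ⟨v, rfl⟩, by simp, fun _ _ => rfl⟩))))).nl
      hD (a5.sq (s := 0) (by simpa using b4)) (fun v a => ?_) (a5.ac2 b4 r5 (a4.ac2 b3 r4 (a3.ac1 b2 r3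
        (a2.van (sq_U rfl) b1 r2 (a1.van ((sq_U rfl).ph z t) hD r1 h1))
        (a2.van (sq_U (mul_comm _ _)) b1 r2 (a1.van ((sq_U (mul_comm _ _)).ph z t) hD r1 h2)))))
  refine (mem_annihilator_span_singleton v _).mp ((Ideal.span_le.mpr fun a ha =>
    (mem_annihilator_span_singleton _ _).mpr ?_) (hm.ge a.2))
  simp only [List.mem_cons, List.not_mem_nil, or_false, Set.mem_ofPred_eq] at ha
  rcases ha with rfl | rfl | rfl | rfl | rfl
  exacts [a5.k2 (a4.k2 (a3.k2 (a2.k2 a1.k1))) v, a5.k2 (a4.k2 (a3.k2 a2.k1)) v,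
    a5.k2 (a4.k2 a3.k1) v, a5.k2 a4.k1 v, a5.k1 v]

/-- The test lemma. -/
lemma test [Module.Projective S F] [Module.Finite S F] (hD : Sq (u * s + z * t + x * y) D)
    (hm : Ideal.ofList [y, t, u, x, z] = maximalIdeal S) (hr : IsWeaklyRegular F [y, t, u, x, z])
    (h1 : Van (P2 x y z t (U S u s)) D) (h2 : Van (P2 x y z t (U S s u)) D) : Nl D D 1 := by
  simp only [isWeaklyRegular_cons_iff] at hr
  obtain ⟨r1, r2, r3, r4, r5, -⟩ := hr
  exact test0 (rd y D) (rd t _) (rd u _) (rd x _) (rd z _) r1 r2 r3 r4 r5 hD hm h1 h2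

end Pool.Agent.Lib.MP_a966df_ag
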