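import Pool.Agent.Lib.MP_a966df_ag.Chain
import Pool.Agent.Lib.MP_a966df_ag.Test

namespace Pool.Agent.Lib.MP_a966df_ag

open Submodule LinearMap IsLocalRing RingTheory.Sequence
open Function (Injective Surjective Exact)

universe u

variable {S : Type u} [CommRing S] {E F G R' : Type u} [AddCommGroup E] [Module S E]
  [AddCommGroup F] [Module S F] [AddCommGroup G] [Module S G] [AddCommGroup R'] [Module S R']
  {M : Op S E E} {D : Op S F F} {T : Op S G G} {φ : Op S E F} {g f x y z t u : S}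

/-- Shift. -/
def nt (Y : Op S E F) : Op S E F := fun b => Y (!b)

@[simp] lemma nt_apply (Y : Op S E F) (b) : nt Y b = Y (!b) := rfl

/-- Shift with signs. -/
def sh (Y : Op S E F) : Op S E F := fun b => bif b then Y false else -Y true

lemma Cl.nt (h : Cl M (nt D) φ) : Cl (nt M) D (nt φ) := fun b v => by simpa using h (!b) v

lemma Nl.nt (h : Nl (nt M) D (nt φ)) : Nl M (nt D) φ := by
  obtain ⟨H, hH⟩ := h
  exact ⟨fun b => H (!b), fun b v => by simpa using hH (!b) v⟩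

lemma nt_nt (φ : Op S E F) : nt (nt φ) = φ := funext fun b => by simp

lemma nt_Mi (i j : ℕ) : nt (Mi x y z t u i j) = Mi x y z t u j i := funext fun b => by
  cases b <;> rfl

lemma nt_sc (a c : S) : nt (sc a c) = sc c a := funext fun b => by cases b <;> rfl

variable (M D φ) in
/-- The mapping cone. -/
abbrev Cn := Tr D (-nt M) φ

lemma Sq.cn (h : Sq g M) (h' : Sq g D) (hφ : Cl M D φ) : Sq g (Cn M D φ) :=
  h'.tr (fun b v => by simpa using h (!b) v) fun b v => by simp [hφ b]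

lemma cl_inl : Cl D (Cn M D φ) fun _ => inl S F E := fun b v => by simp

lemma cl_snd : Cl (Cn M D φ) (-nt M) fun _ => snd S F E := fun b v => by simp

lemma cn0 : Nl M (Cn M D φ) (cp (fun _ => inl S F E) φ) := ⟨fun _ => inr S F E, fun b v => by simp⟩

lemma cn1 (hφ : Cl M D φ) {θ} (h : Cl T (Cn M D φ) θ) {L : Op S G E}
    (hL : ∀ b v, (θ b v).2 = -M (!b) (L (!b) v) + L b (T (!b) v)) :
    Cl T D (fun b => fst S F E ∘ₗ θ b - φ b ∘ₗ L (!b)) ∧ Nl T (Cn M D φ)
      (θ - cp (fun _ => inl S F E) fun b => fst S F E ∘ₗ θ b - φ b ∘ₗ L (!b)) :=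
  ⟨fun b v => by simp [h b, hL, hφ b]; abel, fun b => inr S F E ∘ₗ L b, fun b v => by
    simp [Prod.ext_iff, hL]⟩

lemma cn2 {θ} (h : Cl T (Cn M D φ) θ) (hi : ∀ Y, Cl (nt T) M Y → Nl (nt T) D (cp φ Y) →
    Nl (nt T) M Y) : Nl T (-nt M) (cp (fun _ => snd S F E) θ) := by
  obtain ⟨L, hL⟩ := hi (sh fun b => snd S F E ∘ₗ θ b) (fun b v => by cases b <;> simp [sh, h _ v])
    ⟨fun b => fst S F E ∘ₗ bif b then θ true else -θ false, fun b v => by
      cases b <;> simp [sh, h _ v]⟩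
  refine ⟨sh fun b => -L b, fun b v => ?_⟩
  have e1 := hL true v
  have e2 := hL false v
  cases b <;> simp [sh, neg_eq_iff_eq_neg] at e1 e2 ⊢ <;> (simp [e1, e2]; try abel)

lemma cn3 (hφ : Cl M D φ) (h : Nl (Cn M D φ) (-nt M) fun _ => snd S F E) :
    ∃ ρ s, Cl D M ρ ∧ Cl (Cn M D φ) D s ∧ (∀ b v, s b (v, 0) = v - φ b (ρ b v)) ∧
      Nl M M (1 - cp ρ φ) ∧ Nl (Cn M D φ) (Cn M D φ) (1 - cp (fun _ => inl S F E) s) ∧
      Nl (Cn M D φ) M (cp ρ s) := by
  obtain ⟨K, hK⟩ := h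
  obtain ⟨h1, h2⟩ := cn1 (T := Cn M D φ) hφ (θ := 1) (fun _ _ => rfl) (L := K) hK
  have h3 : Cl D M fun b => K (!b) ∘ₗ inl S F E := fun b v => by
    simpa [eq_neg_add_iff_add_eq, eq_comm] using hK (!b) (v, 0)
  have h4 : Nl M M (1 - cp (fun b => K (!b) ∘ₗ inl S F E) φ) :=
    ⟨fun b => -K (!b) ∘ₗ inr S F E, fun b v => by
      have := hK (!b) (0, v)
      have e : Cn M D φ b (0, v) = (φ b v, 0) - (0, M (!b) v) := by simp
      rw [Bool.not_not, e, map_sub] at this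
      simp [-Prod.mk_sub_mk] at this ⊢
      linear_combination (norm := abel) this⟩
  refine ⟨_, _, h3, h1, fun b v => by simp, h4, h2, ?_⟩
  exact ((Nl.left (h3.cp h1) h2).add ((h4.right h3).right h1)).of_eq fun b v => by simp

/-- Chain maps. -/
def Zs (T : Op S G G) (D : Op S F F) : Submodule S (Op S G F) where
  carrier := {Y | Cl T D Y}
  add_mem' h h' b v := by simp [h b, h' b]
  zero_mem' b v := by simp
  smul_mem' a _ h := h.smul a

/-- Null-homotopic maps. -/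
def Bs (T : Op S G G) (D : Op S F F) : Submodule S (Op S G F) where
  carrier := {Y | Nl T D Y}
  add_mem' := Nl.add
  zero_mem' := Nl.zero
  smul_mem' a _ h := h.smul a

lemma mu_le {ι : Op S F E} (hι : Cl D M ι)
    (h : ∀ θ, Cl T M θ → ∃ θ', Cl T D θ' ∧ Nl T M (θ - cp ι θ')) :
    ∃ a, a + rl (Bs T M) (Zs T M) ≤ rl (Bs T D) (Zs T D) ∧
      ∀ Y, Cl T D Y → Nl T M (cp ι Y) → a = 0 → Nl T D Y := by
  let f : Op S G F →ₗ[S] Op S G E := ⟨⟨cp ι, fun _ _ => funext fun _ => comp_add _ _ _⟩,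
    fun _ _ => funext fun _ => comp_smul _ _ _⟩
  refine ⟨_, (add_le_add_right ((rl_mono le_rfl fun θ hθ => ?_).trans (rl_sup _ _).le) _).trans
    (rl_map f (J := Bs T M) fun Y hY => Nl.left hι hY).ge,
    fun Y h1 h2 h3 => rl_eq_zero.mp h3 ⟨mem_sup_right h1, h2⟩⟩
  obtain ⟨θ', h1, h2⟩ := h θ hθ
  exact mem_sup.mpr ⟨_, h2, _, mem_map_of_mem h1, sub_add_cancel _ _⟩

/-- A map from a standard factorisation that does not kill the socle. -/
def Gm (x y z t u : S) (k : ℕ) (D : Op S F F) : Prop :=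
  ∃ i n φ, i + n + 1 = k ∧ Cl (Mi x y z t u (i + 1) (n + 1)) D φ ∧
    ¬ Nl (Mi x y z t u (n + 1) (i + 1)) D (cp φ (sc (u ^ i) (u ^ n)))

lemma cl_soc (i n : ℕ) : Cl (Mi x y z t u 1 (i + n)) (Mi x y z t u (i + 1) n) (sc (u ^ i) 1) :=
  ((cl_U (by ring) (by ring)).pm z t).pm x y

lemma cl_top (i n : ℕ) : Cl (Mi x y z t u (n + 1) i) (Mi x y z t u 1 (i + n)) (sc 1 (u ^ n)) :=
  ((cl_U (by ring) (by ring)).pm z t).pm x y

lemma gm_aux {k : ℕ} (n i : ℕ) (e : i + n = k) {φ} (h1 : Cl (Mi x y z t u (i + 1) n) D φ)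
    (h2 : ¬ Nl (Mi x y z t u 1 k) D (cp φ (sc (u ^ i) 1))) : Gm x y z t u k D := by
  induction n generalizing i φ with
  | zero =>
    subst e
    exact absurd ((((nl_u' _ _).kill h1).of_eq (by simp)).right (cl_soc i 0)) h2
  | succ n ih =>
    by_cases h : Nl (Mi x y z t u (n + 1) (i + 1)) D (cp φ (sc (u ^ i) (u ^ n)))
    · subst e
      have h3 := ((fac_U u (u ^ (i + 1)) (u ^ n)).ph z t).ph x y F D
      rw [← pow_succ', ← pow_succ', ← pow_add, ← pow_one u, ← pow_mul, ← pow_mul, ← pow_mul,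
        ← pow_mul, ← pow_mul, one_mul, one_mul, one_mul, one_mul, one_mul, add_right_comm] at h3
      obtain ⟨ψ, h4, h5⟩ := h3 _ (h1.cp (cl_soc i (n + 1))) (h.of_eq fun b v => by
        simp only [cp_apply, sc_sc, mul_one, one_mul])
      exact ih (i + 1) (by omega) h4 fun h6 => h2 (h5.of_sub h6)
    · exact ⟨i, n, φ, e, h1, h⟩

lemma gm {k : ℕ} (h : ¬ (Van (Mi x y z t u 1 k) D ∧ Van (Mi x y z t u k 1) D)) :
    Gm x y z t u k D := by
  have key : ∀ D : Op S F F, ¬ Van (Mi x y z t u 1 k) D → Gm x y z t u k D := fun D h => by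
    simp only [Van, not_forall] at h
    obtain ⟨φ, h1, h2⟩ := h
    exact gm_aux k 0 (zero_add k) h1 fun h => h2 (h.of_eq fun b v => by cases b <;> simp)
  rcases not_and_or.mp h with h | h
  · exact key D h
  obtain ⟨i, n, φ, h1, h2, h3⟩ := key (nt D) fun h' => h fun Y hY => by
    rw [← nt_Mi k 1] at h'
    have := h' (nt Y) fun b => hY (!b)
    rw [← nt_nt D]
    exact this.nt
  refine ⟨n, i, nt φ, by omega, by simpa only [nt_Mi] using h2.nt, fun h => h3 (Nl.nt ?_)⟩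
  rw [nt_Mi]
  exact h.of_eq fun b v => by cases b <;> rfl

end Pool.Agent.Lib.MP_a966df_ag
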