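import Pool.Agent.Lib.MP_a966df_ag.Theta

namespace Pool.Agent.Lib.MP_a966df_ag

open Submodule LinearMap IsLocalRing TensorProduct
open Function (Injective Surjective Exact)

universe u

lemma free_of_rigid {R N : Type u} [CommRing R] [IsLocalRing R] [AddCommGroup N] [Module R N]
    {n : ℕ} (π : (Fin n → R) →ₗ[R] N) (hπ : Surjective π) [Module.Projective R (ker π)]
    [Module.Finite R (ker π)] (h : ∀ v : ker π →ₗ[R] N, ∃ w, w ∘ₗ (ker π).subtype = v) :
    Module.Free R N := by
  have := Module.Finite.of_surjective π hπ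
  cases subsingleton_or_nontrivial N with
  | inl _ => infer_instance
  | inr hN =>
    have : Nontrivial (ResidueField R ⊗[R] N) := by
      rwa [← not_subsingleton_iff_nontrivial, IsLocalRing.subsingleton_tensorProduct,
        not_subsingleton_iff_nontrivial]
    obtain ⟨z, hz⟩ := exists_ne (0 : ResidueField R ⊗[R] N)
    obtain ⟨φ, hφ⟩ := not_forall.mp
      ((Module.forall_dual_apply_eq_zero_iff (ResidueField R) z).not.mpr hz)
    have hε : Surjective (φ.restrictScalars R ∘ₗ mk R _ N 1) := fun y => by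
      obtain ⟨x, hx⟩ := TensorProduct.mk_surjective R N (ResidueField R) residue_surjective
        ((y / φ z) • z)
      exact ⟨x, (congrArg φ hx).trans (by simp [div_mul_cancel₀ _ hφ])⟩
    refine Module.free_of_lTensor_residueField_injective _ _ hπ π.exact_subtype_ker_map
      ((injective_iff_map_eq_zero _).mpr fun x hx =>
        (Module.forall_dual_apply_eq_zero_iff (ResidueField R) x).mp fun ψ => ?_)
    obtain ⟨v, hv⟩ := Module.projective_lifting_property _ (ψ.restrictScalars R ∘ₗ mk R _ _ 1) hε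
    obtain ⟨w, rfl⟩ := h v
    have : ψ = ((φ.restrictScalars R ∘ₗ mk R _ N 1) ∘ₗ w).liftBaseChange (ResidueField R) ∘ₗ
        (ker π).subtype.baseChange _ := by
      ext y
      simpa using (LinearMap.congr_fun hv y).symm
    rw [this, comp_apply, baseChange_eq_ltensor, hx, map_zero]

variable {Q : Type u} [CommRing Q] {f : Q} {R' : Type u} [CommRing R'] [Algebra Q R']

lemma Addv.pi {Θ} (h : Addv f Θ) [Module.Finite Q R'] (hR : ∀ y : R', f • y = 0) (h0 : Θ R' = 0)
    (n : ℕ) : Θ (Fin n → R') = 0 := by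
  induction n with
  | zero =>
    have := h (Fin 0 → R') _ _ LinearMap.id LinearMap.id Function.injective_id
      (fun y => ⟨fun _ => ⟨y, rfl⟩, fun _ => Subsingleton.elim _ _⟩) Function.surjective_id
      inferInstance fun _ => Subsingleton.elim _ _
    omega
  | succ n ih =>
    rw [h R' _ _ (single Q (fun _ => R') 0) (funLeft Q R' Fin.succ)
      (Pi.single_injective (M := fun _ => R') 0)
      (fun y => ⟨fun hy => ⟨y 0, funext fun j => Fin.cases (by simp)
        (fun j => by simpa using (congrFun hy j).symm) j⟩, by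
          rintro ⟨z, rfl⟩
          ext j
          simp⟩) (funLeft_surjective_of_injective _ _ _ (Fin.succ_injective n)) inferInstance
      fun y => funext fun j => hR _, h0, ih, add_zero]

variable [IsLocalRing Q] {Y Z : Type u} [AddCommGroup Y] [Module Q Y] [AddCommGroup Z] [Module Q Z]

lemma Dp.homf {n : ℕ} (h : Dp Q n Y) (m : ℕ) : Dp Q n ((Fin m → Q) →ₗ[Q] Y) :=
  (h.pi m).equiv (LinearEquiv.piRing Q Y (Fin m) Q)

lemma Dp.hom1 (h : Dp Q 1 Y) [Module.Finite Q Z] : Dp Q 1 (Z →ₗ[Q] Y) := by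
  obtain ⟨m, π, hπ⟩ := Module.Finite.exists_fin' Q Z
  exact Dp.inj (lcomp_injective_of_surjective _ hπ) (h.homf m)

theorem core [IsNoetherianRing Q] [IsLocalRing R'] (hf : IsSMulRegular Q f)
    (hs : Surjective (algebraMap Q R')) (hk : ∀ a, algebraMap Q R' a = 0 ↔ ∃ b, f • b = a)
    (hQ : Dp Q 4 Q)
    (hG : ∀ (X : Type u) [AddCommGroup X] [Module Q X], Module.Finite Q X → Dp Q 4 X → LS (0 : Q) X →
      Good f R' X) {N : Type u} [AddCommGroup N] [Module Q N] [Module R' N] [IsScalarTower Q R' N]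
    [Module.Finite R' N] (h1 : LS f N) (h2 : Dp Q 2 N) (h3 : Dp Q 3 (N →ₗ[Q] N))
    (h4 : ∀ Θ, Addv f Θ → Θ R' = 0 → Θ N = 0) : Module.Free R' N := by
  obtain ⟨n, π₀, hπ⟩ := Module.Finite.exists_fin' R' N
  have hR : ∀ y : R', f • y = 0 := fun y => by
    rw [Algebra.smul_def, (hk f).mpr ⟨1, mul_one f⟩, zero_mul]
  have hP : ∀ n (y : Fin n → R'), f • y = 0 := fun n y => funext fun j => hR _
  have : Module.Finite Q R' := Module.Finite.of_surjective (Algebra.linearMap Q R') hs
  have : Module.Finite Q N := Module.Finite.trans R' N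
  let q : ∀ n, (Fin n → Q) →ₗ[Q] Fin n → R' := fun n => (Algebra.linearMap Q R').compLeft (Fin n)
  have hq : ∀ n, Surjective (q n) := fun n => hs.comp_left
  have hq' : ∀ n x, q n x = 0 → ∃ y, f • y = x := fun n x hx => by
    choose y hy using fun j => (hk (x j)).mp (congrFun hx j)
    exact ⟨y, funext hy⟩
  have sP : ∀ n, St f (Fin n → R') 1 := fun n => St.proj (q n) (hq n) (hq' n)
  let π := π₀.restrictScalars Q
  let ι := (ker π₀).subtype.restrictScalars Q
  have hι : Injective ι := (ker π₀).injective_subtype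
  have hιπ : Exact ι π := π₀.exact_subtype_ker_map
  have := Module.Finite.of_injective ι hι
  have hM : ∀ y : ker π₀, f • y = 0 := fun y => Subtype.ext (hP _ _)
  have hN : ∀ y : N, f • y = 0 := fun y => by
    obtain ⟨y, rfl⟩ := hπ y
    exact (map_smul π f y).symm.trans (by rw [hP, map_zero])
  have d1 : Dp Q 3 R' := Dp.quot (i := lsmul Q Q f) (p := Algebra.linearMap Q R') hf hk hs hQ
    (hQ.mono (by simp))
  obtain ⟨Θ, a1, a2, m, ρ, hρ, V1, a3⟩ := theta hf hs hk hQ hG hM
    (h1.syz (sP n) hι hιπ hπ (hP n)) (Dp.sub hι hιπ hπ (d1.pi n) h2)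
  have rig : ∀ v : ker π₀ →ₗ[Q] N, ∃ w, w ∘ₗ ι = v := fun v => by
    have d2 : Dp Q 2 ((Fin n → R') →ₗ[Q] N) := (h2.homf n).equiv
      (LinearEquiv.ofBijective (lcomp Q N (q n)) ⟨lcomp_injective_of_surjective _ (hq n),
        fun v => desc _ (hq n) v fun x hx => by
          obtain ⟨y, rfl⟩ := hq' n x hx
          simp [hN]⟩)
    have d3 := Dp.quot (p := (lcomp Q N ι).rangeRestrict) (lcomp_injective_of_surjective π hπ)
      (exact_iff.mpr (by rw [ker_rangeRestrict, ker_pre (β := π) hπ hιπ])) (surjective_rangeRestrict _) h3 d2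
    have d4 := Dp.quot (range (lcomp Q N ι)).injective_subtype (exact_subtype_mkQ _)
      (mkQ_surjective _) d3 (h2.mono one_le_two).hom1
    refine (Quotient.mk_eq_zero (range (lcomp Q N ι))).mp
      (d4.triv (fun a ha => (h1 a ha).imp fun k hk t => ?_) _)
    obtain ⟨t, rfl⟩ := mkQ_surjective _ t
    obtain ⟨σ, hσ⟩ := hk.ret hι hιπ hπ (hP n)
    exact (Quotient.mk_eq_zero _).mpr ⟨t ∘ₗ σ, LinearMap.ext fun x => by simp [hσ]⟩
  have a4 := a1 _ _ _ ι π hι hιπ hπ inferInstance (hP n)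
  rw [a1.pi hR a2, h4 Θ a1 a2, add_zero] at a4
  have a5 := a3 a4.symm (Gd_eq_zero.mpr fun v => by
    choose w hw using fun j => Gd_eq_zero.mp V1 (proj j ∘ₗ ι ∘ₗ v)
    have e1 : ∀ x : ker ρ, LinearMap.pi w x = ι (v x) := fun x =>
      funext fun j => LinearMap.congr_fun (hw j) x
    obtain ⟨z, hz⟩ := desc ρ hρ (π ∘ₗ LinearMap.pi w) fun x hx =>
      (congrArg π (e1 ⟨x, hx⟩)).trans (hιπ.apply_apply_eq_zero _)
    obtain ⟨y, rfl⟩ := rig z
    obtain ⟨t, ht⟩ := sP n _ _ π hπ (hP n) y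
    obtain ⟨s, hs⟩ := cores ι hι (LinearMap.pi w - t ∘ₗ ι ∘ₗ ρ) fun x => (hιπ _).mp (by
      have e2 : π (t (ι (ρ x))) = (1 : Q) • y (ι (ρ x)) := LinearMap.congr_fun ht _
      have e3 : y (ι (ρ x)) = π (LinearMap.pi w x) := LinearMap.congr_fun hz _
      simp [e2, e3])
    refine ⟨s, LinearMap.ext fun x => hι ((LinearMap.congr_fun hs x).trans ?_)⟩
    simp [e1])
  obtain ⟨s, hs'⟩ := a5 _ _ ρ hρ (hP m) LinearMap.id
  have : Module.Projective R' (ker π₀) := Module.Projective.of_split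
    (s.extendScalarsOfSurjective hs) (ρ.extendScalarsOfSurjective hs)
    (LinearMap.ext fun x => (LinearMap.congr_fun hs' x).trans (one_smul Q x))
  have := Module.Finite.of_restrictScalars_finite Q R' (ker π₀)
  refine free_of_rigid π₀ hπ fun v => ?_
  obtain ⟨w, hw⟩ := rig (v.restrictScalars Q)
  exact ⟨w.extendScalarsOfSurjective hs, LinearMap.ext fun x => LinearMap.congr_fun hw x⟩

end Pool.Agent.Lib.MP_a966df_ag
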