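import Pool.Agent.Lib.MP_a966df_ag.CxF

namespace Pool.Agent.Lib.MP_a966df_ag

open Ideal

universe u

variable {R : Type u} [CommRing R]

lemma cls_ses {A B C : Type u} [AddCommGroup A] [Module R A] [Module.Finite R A]
    [AddCommGroup B] [Module R B] [Module.Finite R B] [AddCommGroup C] [Module R C]
    [Module.Finite R C] (i : A →ₗ[R] B) (p : B →ₗ[R] C) (hi : Function.Injective i)
    (h : Function.Exact i p) (hp : Function.Surjective p) : cls R B = cls R A + cls R C := by
  have : (QuotientAddGroup.mk (FreeAbelianGroup.of (FGModuleCat.of R B) -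
      FreeAbelianGroup.of (FGModuleCat.of R A) - FreeAbelianGroup.of (FGModuleCat.of R C)) : G R) = 0 :=
    (QuotientAddGroup.eq_zero_iff _).mpr (AddSubgroup.subset_closure
      ⟨FGModuleCat.of R A, FGModuleCat.of R B, FGModuleCat.of R C, i, p, hi, h, hp, rfl⟩)
  rw [QuotientAddGroup.mk_sub, QuotientAddGroup.mk_sub, sub_sub, sub_eq_zero] at this
  exact this

/-- The class of a cyclic module. -/
def cq (s : Set R) : G R := cls R (R ⧸ span s)

lemma cq_colon {s : Set R} (t : Set R) (a : R) (h1 : ∀ r ∈ t, a * r ∈ span s)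
    (h2 : ∀ r, a * r ∈ span s → r ∈ span t) : cq s = cq t + cq (insert a s) := by
  have hJ : ∀ r, r ∈ span t ↔ r * a ∈ span s := fun r => by
    rw [mul_comm]
    exact ⟨fun hr => (span_le (I := Submodule.comap (LinearMap.mul R R a) (span s))).mpr h1 hr, h2 r⟩
  refine cls_ses (Submodule.mapQ _ _ (LinearMap.toSpanSingleton R R a) fun r hr => (hJ r).mp hr)
    (Submodule.factor (span_mono (Set.subset_insert a s))) ?_ ?_ (Submodule.factor_surjective _)
  · rw [← LinearMap.ker_eq_bot, eq_bot_iff]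
    intro r hr
    obtain ⟨r, rfl⟩ := Submodule.Quotient.mk_surjective _ r
    exact (Submodule.Quotient.mk_eq_zero _).mpr ((hJ r).mpr ((Submodule.Quotient.mk_eq_zero _).mp hr))
  · intro r
    obtain ⟨r, rfl⟩ := Submodule.Quotient.mk_surjective _ r
    constructor
    · intro hr
      obtain ⟨c, i, hi, rfl⟩ := mem_span_insert.mp ((Submodule.Quotient.mk_eq_zero _).mp hr)
      exact ⟨Submodule.Quotient.mk c, ((Submodule.Quotient.eq _).mpr (by simpa using hi)).symm⟩
    · rintro ⟨c, hc⟩
      obtain ⟨c, rfl⟩ := Submodule.Quotient.mk_surjective _ c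
      rw [← hc]
      exact (Submodule.Quotient.mk_eq_zero _).mpr
        (mul_mem_left _ c (subset_span (Set.mem_insert a s)))

lemma classZero_of (s : Set R) [Module.Finite R (span s)] (h : cq s = 0) :
    ClassZero R (span s) := by
  have e := cls_ses (span s).subtype (span s).mkQ (span s).subtype_injective
    (LinearMap.exact_subtype_mkQ _) (span s).mkQ_surjective
  have e' : cls R (span s) = cls R R := by
    rw [e]
    exact (add_eq_left.mpr h).symm
  have : (QuotientAddGroup.mk (cls R (span s)) : Gbar R) = 0 :=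
    (QuotientAddGroup.eq_zero_iff _).mpr (e' ▸ AddSubgroup.mem_zmultiples _)
  rw [ClassZero, this, TensorProduct.zero_tmul]

lemma mem3 {a b c r : R} : r ∈ span {a, b, c} ↔ ∃ p q s, r = p * a + q * b + s * c := by
  simp only [mem_span_insert, mem_span_singleton']
  exact ⟨fun ⟨p, _, ⟨q, _, ⟨s, rfl⟩, rfl⟩, e⟩ => ⟨p, q, s, by rw [e, add_assoc]⟩,
    fun ⟨p, q, s, e⟩ => ⟨p, _, ⟨q, _, ⟨s, rfl⟩, rfl⟩, by rw [e, add_assoc]⟩⟩

theorem Fx.cq_zero {x y z u v : R} (h : Fx x y z u v) : cq {x, y, z} = 0 := by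
  have r1 := h.r1
  have r2 := h.r2
  have m0 : ∀ r : R, r ∈ span (∅ : Set R) ↔ r = 0 := fun r => by rw [span_empty, mem_bot]
  have m1 : ∀ a r : R, r ∈ span {a} ↔ ∃ p, r = p * a := fun a r => by
    simp only [mem_span_singleton', eq_comm]
  have m2 : ∀ a b r : R, r ∈ span {a, b} ↔ ∃ p q, r = p * a + q * b := fun a b r => by
    simp only [mem_span_pair, eq_comm]
  have e1 := cq_colon (s := ∅) {x * z - y * y} u
    (by rintro r rfl; rw [m0]; linear_combination x * r2 - y * r1)
    fun r hr => (m1 _ _).mpr (h.annu r ((m0 _).mp hr))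
  have e2 := cq_colon (s := ∅) {x * z - y * y} v
    (by rintro r rfl; rw [m0]; linear_combination y * r2 - z * r1)
    fun r hr => (m1 _ _).mpr (h.annv r ((m0 _).mp hr))
  have e3 := cq_colon (s := ∅) {u, v} (x * z - y * y)
    (by
      rintro r (rfl | rfl) <;> rw [m0]
      · linear_combination x * r2 - y * r1
      · linear_combination y * r2 - z * r1)
    fun r hr => (m2 _ _ _).mpr (h.annw r ((m0 _).mp hr))
  have e4 := cq_colon (s := {u}) {x, y, u} v
    (by
      rintro r (rfl | rfl | rfl) <;> rw [m1]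
      · exact ⟨y, by linear_combination -r1⟩
      · exact ⟨z, by linear_combination -r2⟩
      · exact ⟨v, rfl⟩)
    fun r hr => by
      obtain ⟨a, ha⟩ := (m1 _ _).mp hr
      obtain ⟨a, b, c, e⟩ := h.uv r a ha
      exact mem3.mpr ⟨b, c, a, by linear_combination e⟩
  have e5 := cq_colon (s := {v}) {u, v} y
    (by
      rintro r (rfl | rfl) <;> rw [m1]
      · exact ⟨x, by linear_combination r1⟩
      · exact ⟨y, rfl⟩)
    fun r hr => by
      obtain ⟨a, ha⟩ := (m1 _ _).mp hr
      exact (m2 _ _ _).mpr (h.yP r 0 a (by linear_combination ha))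
  have e6 := cq_colon (s := ∅) ∅ y (fun _ hr => hr.elim)
    fun r hr => (m0 _).mpr (h.yreg r ((m0 _).mp hr))
  have e7 := cq_colon (s := {y}) {y, v} x
    (by
      rintro r (rfl | rfl) <;> rw [m1]
      · exact ⟨x, rfl⟩
      · exact ⟨u, by linear_combination -r1⟩)
    fun r hr => by
      obtain ⟨a, ha⟩ := (m1 _ _).mp hr
      exact (m2 _ _ _).mpr (h.yx r a ha)
  have e8 := cq_colon (s := {x, y}) {x, y, z} u
    (by
      rintro r (rfl | rfl | rfl) <;> rw [m2]
      · exact ⟨u, 0, by ring⟩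
      · exact ⟨0, u, by ring⟩
      · exact ⟨0, v, by linear_combination r2⟩)
    fun r hr => by
      obtain ⟨a, b, ha⟩ := (m2 _ _ _).mp hr
      exact mem3.mpr (h.uN r a b 0 (by linear_combination ha))
  have s1 : ({u, x, y} : Set R) = {x, y, u} := by
    rw [Set.insert_comm u x, Set.pair_comm u y]
  rw [insert_empty_eq] at e1 e2 e3 e6
  rw [Set.pair_comm v u] at e4
  rw [s1] at e8
  linear_combination (norm := abel1) -e8 - e7 - e6 + e5 + e4 + e1 + e2 - e3 - e3

theorem Fx.classZero [IsNoetherianRing R] {x y z u v : R} (h : Fx x y z u v) :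
    ClassZero R (Ideal.span {x, y, z} : Ideal R) :=
  classZero_of _ h.cq_zero

end Pool.Agent.Lib.MP_a966df_ag
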