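import Pool.Agent.Lib.MP_a966df_ag.Defs

namespace Pool.Agent.Lib.MP_a966df_ag

universe u

/-- The colon ideal facts used about the ring `k[[x,y,z,u,v]]/(uy - vx, uz - vy)`. -/
structure Fx {R : Type u} [CommRing R] (x y z u v : R) : Prop where
  r1 : u * y = v * x
  r2 : u * z = v * y
  yreg : ∀ t, y * t = 0 → t = 0
  xv : ∀ t a, (x - v) * t = a * y → ∃ b, t = b * y
  uN : ∀ t a b c, u * t = a * x + b * y + c * z → ∃ a b c, t = a * x + b * y + c * z
  vN : ∀ t a b c, v * t = a * x + b * y + c * z → ∃ a b c, t = a * x + b * y + c * z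
  annu : ∀ t, u * t = 0 → ∃ a, t = a * (x * z - y * y)
  annv : ∀ t, v * t = 0 → ∃ a, t = a * (x * z - y * y)
  annw : ∀ t, (x * z - y * y) * t = 0 → ∃ a b, t = a * u + b * v
  uv : ∀ t a, v * t = a * u → ∃ a b c, t = a * u + b * x + c * y
  yP : ∀ t a b, y * t = a * u + b * v → ∃ a b, t = a * u + b * v
  yx : ∀ t a, x * t = a * y → ∃ a b, t = a * y + b * v
  nx : ∀ a, y ≠ a * x
  ny : ∀ a, x ≠ a * y
  nz : ∀ a, y ≠ a * z

end Pool.Agent.Lib.MP_a966df_ag
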