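import Pool.Agent.Lib.MP_a966df_ag.CxCls

namespace Pool.Agent.Lib.MP_a966df_ag

open IsLocalRing

universe u

variable {R : Type u} [CommRing R] {x y z u v : R}

/-- The element `y` of the ideal. -/
def yN (x y z : R) : (Ideal.span {x, y, z} : Ideal R) := ⟨y, mem3.mpr ⟨0, 1, 0, by ring⟩⟩

lemma dual_y (φ : (Ideal.span {x, y, z} : Ideal R) →ₗ[R] R) (n : (Ideal.span {x, y, z} : Ideal R)) :
    y * φ n = n * φ (yN x y z) := by
  rw [← smul_eq_mul, ← smul_eq_mul, ← map_smul, ← map_smul]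
  exact congrArg φ (Subtype.ext (mul_comm _ _))

lemma Fx.cancel (h : Fx x y z u v) {s t : R} (e : y * s = y * t) : s = t :=
  sub_eq_zero.mp (h.yreg _ (by rw [mul_sub, e, sub_self]))

lemma Fx.exists_psi (h : Fx x y z u v) : ∃ ψ : (Ideal.span {x, y, z} : Ideal R) →ₗ[R] R,
    ∀ n, y * ψ n = u * v * n := by
  have : ∀ n : (Ideal.span {x, y, z} : Ideal R), ∃ s, y * s = u * v * n := fun n => by
    obtain ⟨a, b, c, e⟩ := mem3.mp n.2
    exact ⟨a * u * u + b * u * v + c * v * v, by
      rw [e]; linear_combination a * u * h.r1 - c * v * h.r2⟩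
  choose s hs using this
  refine ⟨⟨⟨s, fun m n => h.cancel ?_⟩, fun r n => h.cancel ?_⟩, hs⟩
  · rw [mul_add, hs, hs, hs, Submodule.coe_add, mul_add]
  · simp only [RingHom.id_apply, smul_eq_mul]
    rw [mul_left_comm, hs, hs, Submodule.coe_smul, smul_eq_mul]
    ring

lemma Fx.reflexive (h : Fx x y z u v) : Module.IsReflexive R (Ideal.span {x, y, z} : Ideal R) := by
  refine ⟨fun m n e => Subtype.ext (LinearMap.congr_fun e (Submodule.subtype _)), fun Φ => ?_⟩
  have key : ∀ φ, y * Φ φ = φ (yN x y z) * Φ (Submodule.subtype _) := fun φ => by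
    rw [← smul_eq_mul, ← smul_eq_mul, ← map_smul, ← map_smul]
    refine congrArg Φ (LinearMap.ext fun n => ?_)
    simpa [mul_comm] using dual_y φ n
  obtain ⟨ψ, hψ⟩ := h.exists_psi
  have e1 : ψ (yN x y z) = u * v := h.cancel ((hψ _).trans (mul_comm _ _))
  obtain ⟨a, b, c, e2⟩ := h.uN (v * Φ (Submodule.subtype _)) 0 (Φ ψ) 0 (by
    linear_combination -key ψ - Φ (Submodule.subtype _) * e1)
  refine ⟨⟨Φ (Submodule.subtype _), mem3.mpr (h.vN _ a b c e2)⟩, LinearMap.ext fun φ => ?_⟩
  refine h.cancel ?_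
  rw [Module.Dual.eval_apply, dual_y, key, mul_comm]

lemma Fx.end_bij (h : Fx x y z u v) : Function.Bijective
    (LinearMap.toSpanSingleton R ((Ideal.span {x, y, z} : Ideal R) →ₗ[R]
      (Ideal.span {x, y, z} : Ideal R)) LinearMap.id) := by
  constructor
  · intro r s e
    have := congrArg Subtype.val (LinearMap.congr_fun e (yN x y z))
    exact h.cancel (by simpa [yN, mul_comm] using this)
  · intro φ
    have key : ∀ n, y * (φ n : R) = n * (φ (yN x y z) : R) :=
      dual_y ((Submodule.subtype _).comp φ)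
    generalize (φ (yN x y z) : R) = a at key
    have k1 := key ⟨x, mem3.mpr ⟨1, 0, 0, by ring⟩⟩
    have k2 := key ⟨z, mem3.mpr ⟨0, 0, 1, by ring⟩⟩
    obtain ⟨α, β, γ, e⟩ := mem3.mp (φ ⟨z, mem3.mpr ⟨0, 0, 1, by ring⟩⟩).2
    rw [e] at k2
    generalize (φ ⟨x, mem3.mpr ⟨1, 0, 0, by ring⟩⟩ : R) = s at k1
    simp only at k1 k2
    have k3 : v * v * v * a = v * (α * u * u + β * u * v + γ * v * v) * y := h.cancel (by
      linear_combination (-(u * v * v)) * k2 - (v * v * a) * h.r2
        + (α * u * u + β * u * v + γ * v * v) * y * h.r2 - u * y * α * v * h.r1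
        - u * y * (α * u + β * v) * h.r2)
    obtain ⟨b1, e1⟩ := h.xv ((x - v) * ((x - v) * a))
      ((x * x - 3 * x * v + 3 * v * v) * s - v * (α * u * u + β * u * v + γ * v * v)) (by
        linear_combination (-(x * x - 3 * x * v + 3 * v * v)) * k1 - k3)
    obtain ⟨b2, e2⟩ := h.xv _ _ e1
    obtain ⟨r, e3⟩ := h.xv _ _ e2
    refine ⟨r, LinearMap.ext fun n => Subtype.ext (h.cancel ?_)⟩
    rw [key, e3]
    simp only [LinearMap.toSpanSingleton_apply, LinearMap.smul_apply, LinearMap.id_apply,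
      Submodule.coe_smul, smul_eq_mul]
    ring

lemma Fx.not_free [IsLocalRing R] (h : Fx x y z u v) :
    ¬ Module.Free R (Ideal.span {x, y, z} : Ideal R) := by
  intro hf
  have : (Ideal.span {x, y, z} : Ideal R).IsPrincipal :=
    (Submodule.rank_le_one_iff_isPrincipal _).mp
      ((Submodule.rank_le _).trans (Module.rank_self R).le)
  obtain ⟨g, hg⟩ := this
  have hm : ∀ t, (∃ a b c, t = a * x + b * y + c * z) ↔ ∃ a, a * g = t := fun t => by
    rw [← mem3, hg]
    exact Ideal.mem_span_singleton'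
  obtain ⟨a, ha⟩ := (hm x).mp ⟨1, 0, 0, by ring⟩
  obtain ⟨b, hb⟩ := (hm y).mp ⟨0, 1, 0, by ring⟩
  obtain ⟨c, hc⟩ := (hm z).mp ⟨0, 0, 1, by ring⟩
  obtain ⟨α, β, γ, e⟩ := (hm g).mpr ⟨1, one_mul g⟩
  have e1 : α * a + β * b + γ * c = 1 := h.cancel (by
    linear_combination (1 - α * a - β * b - γ * c) * hb - b * e + b * α * ha + b * β * hb
      + b * γ * hc)
  have hu : IsUnit (α * a + β * b + γ * c) := e1 ▸ isUnit_one
  rcases isUnit_or_isUnit_of_isUnit_add hu with hu | hu
  · rcases isUnit_or_isUnit_of_isUnit_add hu with hu | hu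
    · obtain ⟨d, hd⟩ := (isUnit_of_mul_isUnit_right hu).exists_left_inv
      exact h.nx (b * d) (by linear_combination -hb - b * g * hd + b * d * ha)
    · obtain ⟨d, hd⟩ := (isUnit_of_mul_isUnit_right hu).exists_left_inv
      exact h.ny (a * d) (by linear_combination -ha - a * g * hd + a * d * hb)
  · obtain ⟨d, hd⟩ := (isUnit_of_mul_isUnit_right hu).exists_left_inv
    exact h.nz (b * d) (by linear_combination -hb - b * g * hd + b * d * hc)

lemma loc_of {N : Ideal R} {y : R} (hy : y ∈ N) (hr : ∀ t, y * t = 0 → t = 0) (p : Ideal R)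
    [p.IsPrime] {s g : R} (hs : s ∉ p) (hg : g ∈ N) (hc : ∀ n ∈ N, ∃ a, s * n = a * g) :
    Nonempty (LocalizedModule p.primeCompl N ≃ₗ[Localization.AtPrime p]
      (Fin 1 → Localization.AtPrime p)) := by
  let φ : R →ₗ[R] N := LinearMap.toSpanSingleton R N ⟨g, hg⟩
  have hb : Function.Bijective (LocalizedModule.map p.primeCompl φ) := by
    constructor
    · refine (injective_iff_map_eq_zero _).mpr fun m => ?_
      induction m using LocalizedModule.induction_on with
      | h m t =>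
        intro e
        rw [LocalizedModule.map_mk, IsLocalizedModule.mk_eq_mk', IsLocalizedModule.mk'_eq_zero']
          at e
        obtain ⟨c, e⟩ := e
        rw [IsLocalizedModule.mk_eq_mk', IsLocalizedModule.mk'_eq_zero']
        obtain ⟨a, ha⟩ := hc y hy
        have e' : (c : R) * (m * g) = 0 := congrArg Subtype.val e
        refine ⟨⟨s, hs⟩ * c, hr _ ?_⟩
        change y * (s * c * m) = 0
        linear_combination c * m * ha + a * e'
    · intro m
      induction m using LocalizedModule.induction_on with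
      | h m t =>
        obtain ⟨a, ha⟩ := hc m m.2
        refine ⟨LocalizedModule.mk a (⟨s, hs⟩ * t), ?_⟩
        rw [LocalizedModule.map_mk, ← LocalizedModule.mk_cancel_common_left ⟨s, hs⟩ t m]
        exact congrArg (LocalizedModule.mk · _) (Subtype.ext ha.symm)
  exact ⟨(LinearEquiv.ofBijective _ hb).symm.trans
    (((IsLocalizedModule.iso p.primeCompl (Algebra.linearMap R (Localization.AtPrime p))
      ).extendScalarsOfIsLocalization p.primeCompl (Localization.AtPrime p)).trans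
        (LinearEquiv.funUnique (Fin 1) _ _).symm)⟩

lemma Fx.locFree [IsLocalRing R] (h : Fx x y z u v)
    (hm : ∀ t ∈ maximalIdeal R, ∃ a b c d e, t = a * x + b * y + c * z + d * u + e * v) :
    LocFree R (Ideal.span {x, y, z} : Ideal R) := by
  refine ⟨1, fun p hp => ?_⟩
  have hx : x ∈ (Ideal.span {x, y, z} : Ideal R) := mem3.mpr ⟨1, 0, 0, by ring⟩
  have hz : z ∈ (Ideal.span {x, y, z} : Ideal R) := mem3.mpr ⟨0, 0, 1, by ring⟩
  have hy := (yN x y z).2
  by_cases h1 : x ∈ p.asIdeal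
  swap
  · exact loc_of hy h.yreg _ h1 hx fun n _ => ⟨n, mul_comm _ _⟩
  by_cases h2 : y ∈ p.asIdeal
  swap
  · exact loc_of hy h.yreg _ h2 hy fun n _ => ⟨n, mul_comm _ _⟩
  by_cases h3 : z ∈ p.asIdeal
  swap
  · exact loc_of hy h.yreg _ h3 hz fun n _ => ⟨n, mul_comm _ _⟩
  by_cases h4 : u ∈ p.asIdeal
  swap
  · refine loc_of hy h.yreg _ (s := u * u) (fun e => h4 ((p.2.mem_or_mem e).elim id id)) hx
      fun n hn => ?_
    obtain ⟨a, b, c, rfl⟩ := mem3.mp hn
    exact ⟨a * u * u + b * u * v + c * v * v, by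
      linear_combination (b * u + c * v) * h.r1 + c * u * h.r2⟩
  by_cases h5 : v ∈ p.asIdeal
  swap
  · refine loc_of hy h.yreg _ (s := v * v) (fun e => h5 ((p.2.mem_or_mem e).elim id id)) hz
      fun n hn => ?_
    obtain ⟨a, b, c, rfl⟩ := mem3.mp hn
    exact ⟨a * u * u + b * u * v + c * v * v, by
      linear_combination (-(a * u + b * v)) * h.r2 - a * v * h.r1⟩
  refine absurd ((le_maximalIdeal p.2.ne_top).antisymm fun t ht => ?_) hp
  obtain ⟨a, b, c, d, e, rfl⟩ := hm t ht
  exact add_mem (add_mem (add_mem (add_mem (Ideal.mul_mem_left _ _ h1) (Ideal.mul_mem_left _ _ h2))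
    (Ideal.mul_mem_left _ _ h3)) (Ideal.mul_mem_left _ _ h4)) (Ideal.mul_mem_left _ _ h5)

end Pool.Agent.Lib.MP_a966df_ag
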