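import Mathlib

namespace Pool.Agent.Lib.MP_a966df_ag

open Submodule LinearMap IsLocalRing Polynomial
open Function (Injective Surjective)

universe u

variable {S : Type u} [CommRing S] [IsLocalRing S] [IsNoetherianRing S]
  [IsAdicComplete (maximalIdeal S) S]

lemma cpl (A : Type u) [CommRing A] [Algebra S A] [Module.Finite S A] :
    IsAdicComplete ((maximalIdeal S).map (algebraMap S A)) A where
  toIsHausdorff := IsHausdorff.map_algebraMap_iff.mpr inferInstance
  toIsPrecomplete := IsPrecomplete.map_algebraMap_iff.mpr (AdicCompletion.of_surjective_iff.mp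
    fun x => by
      obtain ⟨x, rfl⟩ := AdicCompletion.ofTensorProduct_surjective_of_finite _ A x
      induction x with
      | zero => exact ⟨0, by simp⟩
      | tmul r a =>
        obtain ⟨r, rfl⟩ := AdicCompletion.of_surjective (maximalIdeal S) S r
        exact ⟨r • a, by
          rw [AdicCompletion.ofTensorProduct_tmul, map_smul, ← algebraMap_smul
            (AdicCompletion (maximalIdeal S) S) r, AdicCompletion.algebraMap_apply]
          rfl⟩
      | add x y hx hy =>
        obtain ⟨a, ha⟩ := hx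
        obtain ⟨b, hb⟩ := hy
        exact ⟨a + b, by rw [map_add, map_add, ha, hb]⟩)

lemma loc_alg (A : Type u) [CommRing A] [Algebra S A] [Module.Finite S A]
    (h : ∀ e : A, IsIdempotentElem e → e = 0 ∨ e = 1) (t : A) : IsUnit t ∨ IsUnit (1 - t) := by
  let I := (maximalIdeal S).map (algebraMap S A)
  have := cpl (S := S) A
  have := isLocalHom_of_le_jacobson_bot I (IsAdicComplete.le_jacobson_bot I)
  let := Ideal.Quotient.field (maximalIdeal S)
  have := Module.Finite.of_restrictScalars_finite S (S ⧸ maximalIdeal S) (A ⧸ I)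
  have := IsArtinianRing.of_finite (S ⧸ maximalIdeal S) (A ⧸ I)
  obtain ⟨n, y, hy⟩ := IsArtinian.exists_pow_succ_smul_dvd (Ideal.Quotient.mk I t) (1 : A ⧸ I)
  obtain ⟨y, rfl⟩ := Ideal.Quotient.mk_surjective y
  set a := Ideal.Quotient.mk I t with ha
  set b := Ideal.Quotient.mk I y with hb
  have h1 : ∀ k, (a * b) ^ k * a ^ n = a ^ n := fun k => by
    induction k with
    | zero => simp
    | succ k ih =>
      simp only [smul_eq_mul, Nat.succ_eq_add_one] at hy
      linear_combination ih + (a * b) ^ k * hy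
  have h2 : (a * b) ^ (n + 1) * (a * b) ^ (n + 1) = (a * b) ^ (n + 1) := by
    linear_combination a * b ^ (n + 1) * h1 (n + 1)
  obtain ⟨e, h3, h4⟩ := HenselianRing.is_henselian (I := I) (X ^ 2 - X) (by monicity; simp)
    ((t * y) ^ (n + 1)) (Ideal.Quotient.eq_zero_iff_mem.mp (by
      simp only [eval_sub, eval_pow, eval_X, map_sub, map_pow, map_mul]
      linear_combination h2)) (IsUnit.of_mul_eq_one (2 * (a * b) ^ (n + 1) - 1) (by
      simp [← ha, ← hb]
      linear_combination 4 * h2))
  have h5 : Ideal.Quotient.mk I e = (a * b) ^ (n + 1) := Ideal.Quotient.eq.mpr h4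
  rcases h e (show e * e = e by simpa [sub_eq_zero, sq] using h3) with rfl | rfl
  · refine .inr (IsUnit.of_map (Ideal.Quotient.mk I) _ (IsNilpotent.isUnit_one_sub (r := a) ⟨n, ?_⟩))
    rw [← h1 (n + 1), ← h5, map_zero, zero_mul]
  · refine .inl (IsUnit.of_map (Ideal.Quotient.mk I) _ ?_)
    rw [map_one, pow_succ', mul_assoc] at h5
    exact IsUnit.of_mul_eq_one _ h5.symm

/-- Indecomposable modules over complete local rings have local endomorphism rings. -/
lemma loc_end {W : Type u} [AddCommGroup W] [Module S W] [Module.Finite S W]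
    (h : ∀ A B : Submodule S W, IsCompl A B → A = ⊥ ∨ B = ⊥) (u : Module.End S W) :
    IsUnit u ∨ IsUnit (1 - u) := by
  let φ := Ideal.kerLiftAlg (aeval (R := S) u)
  have hφ : Injective φ := Ideal.kerLiftAlg_injective _
  have := Module.Finite.of_injective φ.toLinearMap hφ
  have e : φ (Ideal.Quotient.mk _ X) = u := aeval_X u
  refine (loc_alg (S := S) _ (fun e he => ?_) (Ideal.Quotient.mk _ X)).imp (fun h => e ▸ h.map φ)
    fun h => by simpa [e] using h.map φ
  have := he.map φ
  refine (h _ _ (IsIdempotentElem.isCompl this)).imp (fun h => hφ ?_) fun h => hφ ?_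
  · rw [map_zero, range_eq_bot.mp h]
  · rw [map_one]
    exact LinearMap.ext fun x => ker_eq_bot.mp h (LinearMap.congr_fun this x)

/-- The inverse of a diagonally dominant matrix with nonpositive off-diagonal entries. -/
lemma mmat {I : Type*} [Fintype I] (e : I → I → ℕ) (v m : I → ℕ)
    (h : ∀ j, ∑ k, e j k * v k < 2 * v j) :
    ∃ (c : ℕ) (b : I → ℕ), 0 < c ∧ ∀ k, 2 * b k = ∑ j, b j * e j k + c * m k := by
  classical
  let L : (I → ℚ) →ₗ[ℚ] I → ℚ :=
    LinearMap.pi fun k => (2 : ℚ) • proj k - ∑ j, (e j k : ℚ) • proj j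
  have hL : ∀ b k, L b k = 2 * b k - ∑ j, e j k * b j := fun b k => by simp [L]
  have pos : ∀ b, (∀ k, 0 ≤ L b k) → ∀ k, 0 ≤ b k := fun b hb => by
    by_contra! ⟨k, hk⟩
    let T := Finset.univ.filter fun k => b k < 0
    have h1 : ∑ k ∈ T, ∑ j, e j k * b j * v k ≤ ∑ k ∈ T, 2 * b k * v k :=
      Finset.sum_le_sum fun k _ => by
        rw [← Finset.sum_mul]
        exact mul_le_mul_of_nonneg_right (sub_nonneg.mp (hL b k ▸ hb k)) (Nat.cast_nonneg _)
    rw [Finset.sum_comm] at h1
    refine (h1.trans_lt (Finset.sum_lt_sum_of_nonempty ⟨k, by simp [T, hk]⟩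
      (g := fun j => ∑ k, e j k * b j * v k) fun j hj => ?_)).not_ge ?_
    · have : ((∑ k, e j k * v k : ℕ) : ℚ) < (2 * v j : ℕ) := by exact_mod_cast h j
      push_cast at this
      have := mul_lt_mul_of_neg_left this (Finset.mem_filter.mp hj).2
      rw [Finset.mul_sum] at this
      refine lt_of_eq_of_lt (by ring) (this.trans_eq (Finset.sum_congr rfl fun _ _ => by ring))
    · rw [Finset.sum_filter]
      refine Finset.sum_le_sum fun j _ => ?_
      split_ifs with hj
      · exact Finset.sum_le_sum_of_subset_of_nonpos' T.subset_univ fun k _ _ =>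
          mul_nonpos_of_nonpos_of_nonneg (mul_nonpos_of_nonneg_of_nonpos (Nat.cast_nonneg _) hj.le)
            (Nat.cast_nonneg _)
      · exact Finset.sum_nonneg fun k _ => mul_nonneg (mul_nonneg (Nat.cast_nonneg _)
          (not_lt.mp hj)) (Nat.cast_nonneg _)
  obtain ⟨b, hb⟩ := injective_iff_surjective.mp ((injective_iff_map_eq_zero L).mpr fun b hb =>
    funext fun k => le_antisymm (by simpa using pos (-b) (by simp [hb]) k) (pos b (by simp [hb]) k))
    fun k => m k
  obtain ⟨c, hc⟩ := IsLocalization.exist_integer_multiples_of_finite (nonZeroDivisors ℤ) b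
  choose z hz using hc
  have h0 : (0 : ℤ) < |(c : ℤ)| := abs_pos.mpr (nonZeroDivisors.coe_ne_zero c)
  have h1 : ∀ k, ((z k).natAbs : ℚ) = (c : ℤ).natAbs * b k := fun k => by
    rw [Nat.cast_natAbs, Nat.cast_natAbs, Int.cast_abs, Int.cast_abs, show (z k : ℚ) = c * b k from
      (hz k).trans (zsmul_eq_mul _ _), abs_mul, abs_of_nonneg (pos b (by simp [hb]) k)]
  refine ⟨(c : ℤ).natAbs, fun k => (z k).natAbs, Int.natAbs_pos.mpr (abs_pos.mp h0), fun k => ?_⟩
  have := congrFun hb k
  rw [hL] at this
  refine Nat.cast_injective (R := ℚ) ?_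
  simp only [Nat.cast_add, Nat.cast_mul, Nat.cast_sum, Nat.cast_ofNat, h1, mul_assoc,
    ← Finset.mul_sum, mul_comm (b _)]
  linear_combination ((c : ℤ).natAbs : ℚ) * this

end Pool.Agent.Lib.MP_a966df_ag
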