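import Pool.Agent.Lib.MP_a966df_ag.CxS
import Pool.Agent.Lib.MP_a966df_ag.CxMod
import Pool.Agent.Lib.MP_a966df_ag.Loc

namespace Pool.Agent.Lib.MP_a966df_ag

open IsLocalRing RingTheory.Sequence

universe u

variable {S : Type u} [CommRing S] [IsLocalRing S] [IsNoetherianRing S]

lemma rad_step (J : Ideal S) {a : S} (ha : a ∈ maximalIdeal S) (h1 : ∀ t, a * t ∈ J → t ∈ J)
    (h2 : ∀ t ∈ J.radical, ∃ s, t - s * a ∈ J) : J.IsRadical := by
  refine Submodule.le_of_le_smul_of_le_jacobson_bot (IsNoetherian.noetherian _)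
    (maximalIdeal_le_jacobson _) fun t ht => ?_
  obtain ⟨s, hs⟩ := h2 t ht
  have h3 : s * a ∈ J.radical := by
    simpa using sub_mem ht (Ideal.le_radical hs)
  obtain ⟨n, hn⟩ := h3
  have h4 : ∀ (n : ℕ) t, a ^ n * t ∈ J → t ∈ J := fun n => by
    induction n with
    | zero => simp
    | succ n ih => exact fun t h => h1 t (ih _ (by rwa [← mul_assoc, ← pow_succ]))
  have h5 : s ∈ J.radical := ⟨n, h4 n _ (by rwa [← mul_pow, mul_comm])⟩
  rw [show t = t - s * a + a • s by rw [smul_eq_mul]; ring]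
  exact add_mem (Submodule.mem_sup_left hs) (Submodule.mem_sup_right (Submodule.smul_mem_smul ha h5))

lemma rad3 {a b c d e : S} (h : W5 a b c d e)
    (hm : Ideal.ofList [a, b, c, d, e] = maximalIdeal S) : (Ideal.ofList [a, b, c]).IsRadical := by
  have h4 : (Ideal.ofList [a, b, c, d]).IsRadical := by
    refine rad_step _ (a := e) (hm ▸ m5.mpr ⟨0, 0, 0, 0, 1, by ring⟩) (fun t ht => ?_) fun t ht => ?_
    · obtain ⟨p, q, r, s, e⟩ := m4.mp ht
      exact m4.mpr (h.c4 t p q r s e)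
    · have : t ∈ maximalIdeal S := (maximalIdeal.isMaximal S).isPrime.isRadical
        (Ideal.radical_mono (fun t ht => by
          obtain ⟨p, q, r, s, e⟩ := m4.mp ht
          exact hm ▸ m5.mpr ⟨p, q, r, s, 0, by linear_combination e⟩) ht)
      obtain ⟨p, q, r, s, o, e⟩ := m5.mp (hm ▸ this)
      exact ⟨o, m4.mpr ⟨p, q, r, s, by linear_combination e⟩⟩
  refine rad_step _ (a := d) (hm ▸ m5.mpr ⟨0, 0, 0, 1, 0, by ring⟩) (fun t ht => ?_) fun t ht => ?_
  · obtain ⟨p, q, r, e⟩ := m3.mp ht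
    exact m3.mpr (h.c3 t p q r e)
  · obtain ⟨p, q, r, s, e⟩ := m4.mp (h4 (Ideal.radical_mono (fun t ht => by
      obtain ⟨p, q, r, e⟩ := m3.mp ht
      exact m4.mpr ⟨p, q, r, 0, by linear_combination e⟩) ht))
    exact ⟨s, m3.mpr ⟨p, q, r, by linear_combination e⟩⟩

variable {x y z u v : S}

omit [IsLocalRing S] [IsNoetherianRing S] in
lemma ofList_perm {l l' : List S} (h : l.Perm l') : Ideal.ofList l = Ideal.ofList l' :=
  congrArg Ideal.span (Set.ext fun _ => h.mem_iff)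

lemma w5_of {a b c d e : S} (hm : Ideal.ofList [a, b, c, d, e] = maximalIdeal S)
    (hd : ringKrullDim S = 5) : W5 a b c d e :=
  w5_iff.mp (reg_aux 5 S _ rfl hm hd.ge).2

lemma rad_I (hm : Ideal.ofList [x, y, z, u, v] = maximalIdeal S) (hd : ringKrullDim S = 5)
    (hs : W5 (u * y - v * x) (u * z - v * y) y (x - v) (z - u)) :
    (Ideal.ofList [u * y - v * x, u * z - v * y]).IsRadical := by
  have P : ∀ {a b c d e : S}, (∀ t ∈ [a, b, c, d, e], t ∈ [x, y, z, u, v]) →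
      (∀ t ∈ [x, y, z, u, v], t ∈ [a, b, c, d, e]) →
      Ideal.ofList [a, b, c, d, e] = maximalIdeal S := fun h1 h2 =>
    (congrArg Ideal.span (Set.ext fun t => ⟨h1 t, h2 t⟩)).trans hm
  have yxuzv : Ideal.ofList [y, x, u, z, v] = maximalIdeal S := P (by simp) (by simp)
  have yxzuv : Ideal.ofList [y, x, z, u, v] = maximalIdeal S := P (by simp) (by simp)
  have yvuzx : Ideal.ofList [y, v, u, z, x] = maximalIdeal S := P (by simp) (by simp)
  have yvzux : Ideal.ofList [y, v, z, u, x] = maximalIdeal S := P (by simp) (by simp)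
  have yvxuz : Ideal.ofList [y, v, x, u, z] = maximalIdeal S := P (by simp) (by simp)
  have yvxzu : Ideal.ofList [y, v, x, z, u] = maximalIdeal S := P (by simp) (by simp)
  refine rad_step _ (a := y) (hm ▸ m5.mpr ⟨0, 1, 0, 0, 0, by ring⟩) (fun t ht => ?_) fun t ht => ?_
  · obtain ⟨p, q, e⟩ := m2.mp ht
    exact m2.mpr (hs.c2 t p q e)
  have Q : ∀ {a b c d e : S}, Ideal.ofList [a, b, c, d, e] = maximalIdeal S →
      (∃ p q r, u * y - v * x = p * a + q * b + r * c) →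
      (∃ p q r, u * z - v * y = p * a + q * b + r * c) → ∃ p q r, t = p * a + q * b + r * c :=
    fun h h1 h2 => m3.mp (rad3 (w5_of h hd) h (Ideal.radical_mono (fun t ht => by
      obtain ⟨p, q, rfl⟩ := m2.mp ht
      exact add_mem (Ideal.mul_mem_left _ _ (m3.mpr h1)) (Ideal.mul_mem_left _ _ (m3.mpr h2))) ht))
  obtain ⟨p1, q1, r1, e1⟩ := Q yxuzv ⟨u, -v, 0, by ring⟩ ⟨-v, 0, z, by ring⟩
  obtain ⟨p2, q2, r2, e2⟩ := Q yxzuv ⟨u, -v, 0, by ring⟩ ⟨-v, 0, u, by ring⟩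
  obtain ⟨p3, q3, r3, e3⟩ := Q yvuzx ⟨u, -x, 0, by ring⟩ ⟨-v, 0, z, by ring⟩
  obtain ⟨p4, q4, r4, e4⟩ := Q yvzux ⟨u, -x, 0, by ring⟩ ⟨-v, 0, u, by ring⟩
  obtain ⟨p5, q5, r5, e5⟩ := (w5_of yxzuv hd).c3 r1 (p2 - p1) (q2 - q1) r2
    (by linear_combination e2 - e1)
  obtain ⟨p6, q6, r6, e6⟩ := (w5_of yvzux hd).c3 r3 (p4 - p3) (q4 - q3) r4
    (by linear_combination e4 - e3)
  obtain ⟨p7, q7, r7, e7⟩ := (w5_of yvxuz hd).c3 (z * (r6 - r5)) (p1 + u * p5 - p3 - u * p6)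
    (-(q3 + u * q6)) (q1 + u * q5) (by linear_combination e1 - e3 + u * e5 - u * e6)
  obtain ⟨p8, q8, r8, e8⟩ := (w5_of yvxzu hd).c3 (r6 - r5) p7 q7 r7 e7
  obtain ⟨p9, q9, e9⟩ := (w5_of yvxzu hd).c2 (q1 + u * q5 - r8 * u * z)
    (p3 + u * p6 - p1 - u * p5 + p8 * u * z) (q3 + u * q6 + q8 * u * z)
    (by linear_combination e3 - e1 + u * e6 - u * e5 + u * z * e8)
  exact ⟨p1 + u * p5 + p9 * x + q9 * u + (r5 + r8 * x) * v, m2.mpr ⟨-q9, r5 + r8 * x, by
    linear_combination e1 + u * e5 + x * e9⟩⟩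

lemma isMCM_seq {W : Type u} [AddCommGroup W] [Module S W] [Module.Finite S W] (rs : List S)
    (h2 : ∀ r ∈ rs, r ∈ maximalIdeal S) (h3 : IsRegular W rs) (hd : ringKrullDim S = rs.length) :
    IsMCM S W := by
  have key : ∀ rs : List S, IsRegular W rs → (rs.length : WithBot ℕ∞) ≤ ringKrullDim S :=
    fun rs hr => by
      have := Submodule.Quotient.nontrivial_iff.mpr hr.2.symm
      refine le_trans ?_ (Module.supportDim_le_ringKrullDim S W)
      rw [← Module.supportDim_add_length_eq_supportDim_of_isRegular rs hr,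
        ← WithBot.coe_unbot _ (Module.supportDim_ne_bot_of_nontrivial S _)]
      exact_mod_cast le_add_self
  rw [IsMCM, hd, show depth S W = rs.length from le_antisymm (iSup_le fun l => iSup₂_le fun _ hr => by
    exact_mod_cast (key l hr).trans hd.le) (le_iSup_of_le rs (le_iSup₂_of_le h2 h3 le_rfl))]
  rfl

theorem cx_main [IsAdicComplete (maximalIdeal S) S]
    (hm : Ideal.ofList [x, y, z, u, v] = maximalIdeal S) (hd : ringKrullDim S = 5) (I : Ideal S)
    (hI : I = Ideal.span {u * y - v * x, u * z - v * y}) (N : Ideal (S ⧸ I))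
    (hN : N = Ideal.span {Ideal.Quotient.mk I x, Ideal.Quotient.mk I y, Ideal.Quotient.mk I z}) :
    IsRegular S [u * y - v * x, u * z - v * y] ∧ ∃ _ : IsLocalRing (S ⧸ I),
      Nonempty (AdicCompletion (maximalIdeal (S ⧸ I)) (S ⧸ I) ≃+* S ⧸ I) ∧
      ringKrullDim (S ⧸ I) = 3 ∧ IsReduced (S ⧸ I) ∧ Module.IsReflexive (S ⧸ I) N ∧
      LocFree (S ⧸ I) N ∧ ClassZero (S ⧸ I) N ∧ IsMCM (S ⧸ I) (N →ₗ[S ⧸ I] N) ∧
      ¬ Module.Free (S ⧸ I) N := by
  have mm : ∀ {t}, t ∈ maximalIdeal S ↔ ∃ p q r s o, t = p * x + q * y + r * z + s * u + o * v :=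
    fun {t} => by rw [← hm, m5]
  have hP : Pm x y z u v := fun a b c d e hp => w5_of ((ofList_perm hp).trans hm) hd
  have hx : x ∈ maximalIdeal S := mm.mpr ⟨1, 0, 0, 0, 0, by ring⟩
  have hy : y ∈ maximalIdeal S := mm.mpr ⟨0, 1, 0, 0, 0, by ring⟩
  have hz : z ∈ maximalIdeal S := mm.mpr ⟨0, 0, 1, 0, 0, by ring⟩
  have hu : u ∈ maximalIdeal S := mm.mpr ⟨0, 0, 0, 1, 0, by ring⟩
  have hv : v ∈ maximalIdeal S := mm.mpr ⟨0, 0, 0, 0, 1, by ring⟩
  have f1 : u * y - v * x ∈ maximalIdeal S := mm.mpr ⟨-v, u, 0, 0, 0, by ring⟩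
  have f2 : u * z - v * y ∈ maximalIdeal S := mm.mpr ⟨0, -v, u, 0, 0, by ring⟩
  have hw' : x * z - y * y ∈ maximalIdeal S := mm.mpr ⟨z, -y, 0, 0, 0, by ring⟩
  have g1 : Ideal.ofList [y, x - v, z - u, v, u] = maximalIdeal S := by
    ext t
    rw [mm, m5]
    exact ⟨fun ⟨p, q, r, s, o, e⟩ => ⟨q, p, r, o - r, s - q, by linear_combination e⟩,
      fun ⟨p, q, r, s, o, e⟩ => ⟨q, p, r, o + p, s + r, by linear_combination e⟩⟩
  have hs' : IsWeaklyRegular S ([u * y - v * x, u * z - v * y] ++ [y, x - v, z - u]) :=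
    isWeaklyRegular_of_perm_of_subset_maximalIdeal (w5_iff.mpr (seq_S (w5_of g1 hd)))
      (List.perm_append_comm (l₁ := [y, x - v, z - u])) (by
        simp [-mem_maximalIdeal, hy, f1, f2, sub_mem hx hv, sub_mem hz hu])
  have hs := w5_iff.mp hs'
  have hw : W5 u v (x * z - y * y) x z := w5_iff.mp
    (isWeaklyRegular_of_perm_of_subset_maximalIdeal (w5_iff.mpr (seq_w (hP u v x z y
      ((List.Perm.cons _ (.cons _ (.cons _ (.swap _ _ _)))).trans
        (List.perm_append_comm (l₁ := [u, v]) (l₂ := [x, y, z]))))))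
      (.cons _ (.cons _ (List.perm_append_comm (l₁ := [x, z])))) (by simp [-mem_maximalIdeal, hx, hz, hu, hv, hw']))
  have hI' : I = Ideal.ofList [u * y - v * x, u * z - v * y] := by
    rw [hI, Ideal.ofList_cons, Ideal.ofList_singleton, Ideal.span_insert]
  have hIm : I ≤ maximalIdeal S := hI ▸ Ideal.span_le.mpr (by simp [Set.insert_subset_iff, f1, f2])
  have := Ideal.Quotient.nontrivial_iff.mpr (hIm.trans_lt (maximalIdeal.isMaximal S).ne_top.lt_top).ne
  have hπ := Ideal.Quotient.mk_surjective (I := I)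
  have := IsLocalRing.of_surjective' _ hπ
  have hmap := map_maximalIdeal_of_surjective _ hπ
  have F := fx_of (Ideal.Quotient.mk I) hπ (fun s => by
    rw [Ideal.Quotient.eq_zero_iff_mem, hI', m2]) hP (fun a b c d e h =>
      (maximalIdeal.isMaximal S).ne_top ((Ideal.eq_top_iff_one _).mpr (mm.mpr ⟨a, b, c, d, e, h⟩)))
    hs hw
  rw [isWeaklyRegular_append_iff] at hs'
  have hreg : IsRegular S [u * y - v * x, u * z - v * y] :=
    .of_isWeaklyRegular_of_mem_maximalIdeal S (by simp [-mem_maximalIdeal, f1, f2]) hs'.1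
  have hdim : ringKrullDim (S ⧸ I) = 3 := by
    have := ringKrullDim_add_length_eq_ringKrullDim_of_isRegular _ hreg
    rw [hd, ← hI'] at this
    refine ENat.WithBot.add_natCast_cancel.mp (this.trans ?_)
    rfl
  have hc : IsAdicComplete (maximalIdeal (S ⧸ I)) (S ⧸ I) := hmap ▸ cpl (S ⧸ I)
  subst hN
  refine ⟨hreg, inferInstance, ⟨(AdicCompletion.ofAlgEquiv _).symm.toRingEquiv⟩, hdim,
    (Ideal.isRadical_iff_quotient_reduced _).mp (hI' ▸ rad_I hm hd hs), F.reflexive,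
    F.locFree fun t ht => ?_, F.classZero, ?_, F.not_free⟩
  · obtain ⟨s, hs, rfl⟩ := (Ideal.mem_map_iff_of_surjective _ hπ).mp (hmap ▸ ht)
    obtain ⟨p, q, r, s, o, rfl⟩ := mm.mp hs
    exact ⟨_, _, _, _, _, by simp only [map_add, map_mul]; rfl⟩
  · have e := LinearEquiv.ofBijective _ F.end_bij
    have := Module.Finite.equiv e
    have h2 : ∀ r ∈ [y, x - v, z - u].map (algebraMap S (S ⧸ I)), r ∈ maximalIdeal (S ⧸ I) := by
      intro r hr
      obtain ⟨s, hs, rfl⟩ := List.mem_map.mp hr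
      refine hmap ▸ Ideal.mem_map_of_mem _ ?_
      revert s
      simp [-mem_maximalIdeal, hy, sub_mem hx hv, sub_mem hz hu]
    refine isMCM_seq _ h2 ((e.isRegular_congr _).mp
      (.of_isWeaklyRegular_of_mem_maximalIdeal _ h2 ?_)) hdim
    rw [isWeaklyRegular_map_algebraMap_iff]
    exact ((Submodule.quotEquivOfEq _ _ (by rw [← hI', smul_eq_mul, Ideal.mul_top])
      ).isWeaklyRegular_congr _).mp hs'.2

end Pool.Agent.Lib.MP_a966df_ag
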