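import Mathlib

namespace Pool.Agent.Lib.MP_a966df_ag

open IsLocalRing MvPowerSeries

universe u

variable (k : Type u) [Field k]

lemma ps_mem (n : ℕ) (f : MvPowerSeries (Fin n) k) (h : ¬ IsUnit f) :
    f ∈ Ideal.span (Set.range (X : Fin n → MvPowerSeries (Fin n) k)) := by
  induction n with
  | zero =>
    have : isEmptyEquiv (Fin 0) k f = 0 := by
      by_contra e
      exact h ((MulEquiv.isUnit_map (isEmptyEquiv (Fin 0) k)).mp (Ne.isUnit e))
    rw [(map_eq_zero_iff _ (isEmptyEquiv (Fin 0) k).injective).mp this]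
    exact zero_mem _
  | succ n ih =>
    let e := finSuccEquiv k n
    have h1 := ih (PowerSeries.constantCoeff (e f)) fun hu =>
      h ((MulEquiv.isUnit_map e).mp (PowerSeries.isUnit_iff_constantCoeff.mpr hu))
    have h2 := congrArg e.symm (PowerSeries.eq_X_mul_shift_add_const (e f))
    rw [e.symm_apply_apply, map_add, map_mul, ← finSuccEquiv_X_zero, e.symm_apply_apply] at h2
    rw [h2]
    refine add_mem (Ideal.mul_mem_right _ _ (Ideal.subset_span ⟨0, rfl⟩)) ?_
    have h3 := Ideal.mem_map_of_mem (e.symm.toRingEquiv.toRingHom.comp PowerSeries.C) h1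
    rw [Ideal.map_span] at h3
    refine Ideal.span_mono ?_ h3
    rintro _ ⟨_, ⟨j, rfl⟩, rfl⟩
    exact ⟨j.succ, (e.eq_symm_apply.mpr (finSuccEquiv_X_succ j))⟩

lemma ps_max (n : ℕ) : maximalIdeal (MvPowerSeries (Fin n) k) =
    Ideal.span (Set.range (X : Fin n → MvPowerSeries (Fin n) k)) :=
  le_antisymm (fun f hf => ps_mem k n f hf) (Ideal.span_le.mpr (by
    rintro _ ⟨j, rfl⟩ hu
    simpa using isUnit_iff_constantCoeff.mp hu))

lemma ps_dim (n : ℕ) : (n : WithBot ℕ∞) ≤ ringKrullDim (MvPowerSeries (Fin n) k) := by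
  induction n with
  | zero => exact ringKrullDim_nonneg_of_nontrivial
  | succ n ih =>
    rw [ringKrullDim_eq_of_ringEquiv (finSuccEquiv k n).toRingEquiv]
    refine le_trans ?_ ringKrullDim_succ_le_ringKrullDim_powerseries
    push_cast
    gcongr

lemma ps_rank (n : ℕ) : (maximalIdeal (MvPowerSeries (Fin n) k)).spanFinrank ≤ n := by
  rw [ps_max]
  refine (Submodule.spanFinrank_span_le_ncard_of_finite (Set.finite_range _)).trans ?_
  rw [← Set.image_univ]
  exact (Set.ncard_image_le Set.finite_univ).trans (by simp)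

lemma ps_reg (n : ℕ) : IsRegularLocalRing (MvPowerSeries (Fin n) k) :=
  .of_spanFinrank_maximalIdeal_le _ (le_trans (by exact_mod_cast ps_rank k n) (ps_dim k n))

lemma ps_dim_eq (n : ℕ) : ringKrullDim (MvPowerSeries (Fin n) k) = n :=
  le_antisymm ((ringKrullDim_le_spanFinrank_maximalIdeal _).trans
    (by exact_mod_cast ps_rank k n)) (ps_dim k n)

lemma ps_cpl (n : ℕ) :
    IsAdicComplete (maximalIdeal (MvPowerSeries (Fin n) k)) (MvPowerSeries (Fin n) k) := by
  rw [ps_max]
  infer_instance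

end Pool.Agent.Lib.MP_a966df_ag
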