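import Pool.Agent.Lib.MP_a966df_ag.CxF
import Pool.Agent.Lib.MP_a966df_ag.Reg

namespace Pool.Agent.Lib.MP_a966df_ag

open IsLocalRing RingTheory.Sequence

universe u

variable {S : Type u} [CommRing S]

lemma wr_iff (rs : List S) : IsWeaklyRegular S rs ↔ ∀ i (h : i < rs.length) t,
    rs[i] * t ∈ Ideal.ofList (rs.take i) → t ∈ Ideal.ofList (rs.take i) := by
  rw [isWeaklyRegular_iff]
  refine forall₂_congr fun i h => ?_
  rw [isSMulRegular_quotient_iff_mem_of_smul_mem, smul_eq_mul, Ideal.mul_top]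
  rfl

lemma mem_cons {a t : S} {l : List S} :
    t ∈ Ideal.ofList (a :: l) ↔ ∃ p, t - p * a ∈ Ideal.ofList l := by
  rw [Ideal.ofList_cons, Submodule.mem_sup]
  constructor
  · rintro ⟨b, hb, c, hc, rfl⟩
    obtain ⟨p, rfl⟩ := Ideal.mem_span_singleton'.mp hb
    exact ⟨p, by simpa using hc⟩
  · rintro ⟨p, hp⟩
    exact ⟨p * a, Ideal.mem_span_singleton'.mpr ⟨p, rfl⟩, _, hp, by ring⟩

/-- Elementary form of a weakly regular sequence of length five. -/
structure W5 (a b c d e : S) : Prop where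
  c0 : ∀ t, a * t = 0 → t = 0
  c1 : ∀ t p, b * t = p * a → ∃ p, t = p * a
  c2 : ∀ t p q, c * t = p * a + q * b → ∃ p q, t = p * a + q * b
  c3 : ∀ t p q r, d * t = p * a + q * b + r * c → ∃ p q r, t = p * a + q * b + r * c
  c4 : ∀ t p q r s, e * t = p * a + q * b + r * c + s * d →
    ∃ p q r s, t = p * a + q * b + r * c + s * d

lemma m1 {a t : S} : t ∈ Ideal.ofList [a] ↔ ∃ p, t = p * a := by
  simp only [mem_cons, Ideal.ofList_nil, Ideal.mem_bot, sub_eq_zero]

lemma m2 {a b t : S} : t ∈ Ideal.ofList [a, b] ↔ ∃ p q, t = p * a + q * b := by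
  simp only [mem_cons (a := a), m1, sub_eq_iff_eq_add']

lemma m3 {a b c t : S} : t ∈ Ideal.ofList [a, b, c] ↔ ∃ p q r, t = p * a + q * b + r * c := by
  simp only [mem_cons (a := a), m2, sub_eq_iff_eq_add', add_assoc]

lemma m4 {a b c d t : S} : t ∈ Ideal.ofList [a, b, c, d] ↔
    ∃ p q r s, t = p * a + q * b + r * c + s * d := by
  simp only [mem_cons (a := a), m3, sub_eq_iff_eq_add', add_assoc]

lemma m5 {a b c d e t : S} : t ∈ Ideal.ofList [a, b, c, d, e] ↔
    ∃ p q r s o, t = p * a + q * b + r * c + s * d + o * e := by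
  simp only [mem_cons (a := a), m4, sub_eq_iff_eq_add', add_assoc]

lemma w5_iff {a b c d e : S} : IsWeaklyRegular S [a, b, c, d, e] ↔ W5 a b c d e := by
  rw [wr_iff]
  constructor
  · intro h
    exact ⟨fun t e => by simpa using h 0 (by simp) t (by simpa using e),
      fun t p e => m1.mp (h 1 (by simp) t (m1.mpr ⟨p, e⟩)),
      fun t p q e => m2.mp (h 2 (by simp) t (m2.mpr ⟨p, q, e⟩)),
      fun t p q r e => m3.mp (h 3 (by simp) t (m3.mpr ⟨p, q, r, e⟩)),
      fun t p q r s e => m4.mp (h 4 (by simp) t (m4.mpr ⟨p, q, r, s, e⟩))⟩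
  · intro h i hi t ht
    match i, hi with
    | 0, _ => simpa using h.c0 t (by simpa using ht)
    | 1, _ => obtain ⟨p, e⟩ := m1.mp ht; exact m1.mpr (h.c1 t p e)
    | 2, _ => obtain ⟨p, q, e⟩ := m2.mp ht; exact m2.mpr (h.c2 t p q e)
    | 3, _ => obtain ⟨p, q, r, e⟩ := m3.mp ht; exact m3.mpr (h.c3 t p q r e)
    | 4, _ => obtain ⟨p, q, r, s, e⟩ := m4.mp ht; exact m4.mpr (h.c4 t p q r s e)
    | n + 5, hi => exact absurd hi (by simp)

/-- Every permutation of the five elements is weakly regular. -/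
def Pm (x y z u v : S) : Prop :=
  ∀ a b c d e, [a, b, c, d, e].Perm [x, y, z, u, v] → W5 a b c d e

variable {x y z u v : S}

lemma Pm.symm (h : Pm x y z u v) : Pm z y x v u := fun a b c d e hp =>
  h a b c d e (hp.trans (by
    refine ((List.Perm.swap _ _ _).trans (.cons _ (.swap _ _ _))).trans ?_
    exact (List.Perm.swap _ _ _).trans (.cons _ (.cons _ (.cons _ (.swap _ _ _))))))

lemma annu_S (h1 : W5 u v x y z) (h2 : W5 x y u v z) (t a b : S)
    (e : u * t = a * (u * y - v * x) + b * (u * z - v * y)) :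
    ∃ α β γ, t = α * (x * z - y * y) + β * (u * y - v * x) + γ * (u * z - v * y) := by
  obtain ⟨c, hc⟩ := h1.c1 (a * x + b * y) (a * y + b * z - t) (by linear_combination e)
  have e2 : t - a * y - b * z + v * c = 0 := h1.c0 _ (by linear_combination e - v * hc)
  obtain ⟨β, γ, hc2⟩ := h2.c2 c a b (by linear_combination -hc)
  obtain ⟨α, h3⟩ := h2.c1 (b - γ * u) (β * u - a) (by linear_combination hc + u * hc2)
  have e4 : a - β * u + α * y = 0 := h2.c0 _ (by linear_combination hc + u * hc2 - y * h3)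
  exact ⟨α, β, γ, by linear_combination e2 + y * e4 + z * h3 - v * hc2⟩

lemma seq_S (h : W5 y (x - v) (z - u) v u) :
    W5 y (x - v) (z - u) (u * y - v * x) (u * z - v * y) := by
  refine ⟨h.c0, h.c1, h.c2, fun t p q r e => ?_, fun t p q r s e => ?_⟩
  · obtain ⟨p, q, r, e⟩ := h.c3 (v * t) (u * t - p) (-(v * t) - q) (-r) (by linear_combination -e)
    exact h.c3 t p q r e
  · have key : ∀ t p q r s, u * t = p * y + q * (x - v) + r * (z - u) + s * (v * v) →
        ∃ p q r s, t = p * y + q * (x - v) + r * (z - u) + s * (v * v) := fun t p q r s e => by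
      obtain ⟨p1, q1, r1, s1, e1⟩ := h.c4 t p q r (s * v) (by linear_combination e)
      obtain ⟨p2, q2, r2, e2⟩ := h.c3 (u * s1 - s * v) (p - u * p1) (q - u * q1) (r - u * r1)
        (by linear_combination e - u * e1)
      obtain ⟨p3, q3, r3, s3, e3⟩ := h.c4 s1 p2 q2 r2 s (by linear_combination e2)
      exact ⟨p1 + v * p3, q1 + v * q3, r1 + v * r3, s3, by linear_combination e1 + v * e3⟩
    obtain ⟨p, q, r, s, e⟩ := key (u * t) (p + s * u + v * t) (q - s * v) (r - u * t) (-s)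
      (by linear_combination e)
    obtain ⟨p, q, r, s, e⟩ := key t p q r s e
    exact ⟨p + s * u, q - s * v, r, -s, by linear_combination e⟩

lemma seq_w (h : W5 u v x z y) : W5 u v x z (x * z - y * y) :=
  ⟨h.c0, h.c1, h.c2, h.c3, fun t p q r s e => by
    obtain ⟨p, q, r, s, e⟩ := h.c4 (y * t) (-p) (-q) (z * t - r) (-s) (by linear_combination -e)
    exact h.c4 t p q r s e⟩

theorem fx_of {R : Type u} [CommRing R] (π : S →+* R) (hπ : Function.Surjective π)
    (hk : ∀ s, π s = 0 ↔ ∃ p q, s = p * (u * y - v * x) + q * (u * z - v * y))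
    (h : Pm x y z u v) (h0 : ∀ a b c d e : S, 1 ≠ a * x + b * y + c * z + d * u + e * v)
    (hs : W5 (u * y - v * x) (u * z - v * y) y (x - v) (z - u))
    (hw : W5 u v (x * z - y * y) x z) :
    Fx (π x) (π y) (π z) (π u) (π v) := by
  have r1 : π u * π y = π v * π x := by
    rw [← sub_eq_zero, ← map_mul, ← map_mul, ← map_sub]
    exact (hk _).mpr ⟨1, 0, by ring⟩
  have r2 : π u * π z = π v * π y := by
    rw [← sub_eq_zero, ← map_mul, ← map_mul, ← map_sub]
    exact (hk _).mpr ⟨0, 1, by ring⟩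
  have he : ∀ s t, π s = π t → ∃ p q, s = t + p * (u * y - v * x) + q * (u * z - v * y) :=
    fun s t e => by
      obtain ⟨p, q, e⟩ := (hk (s - t)).mp (by rw [map_sub, e, sub_self])
      exact ⟨p, q, by linear_combination e⟩
  have P : ∀ {a b c d e : S}, [a, b, c, d, e].Perm [x, y, z, u, v] → W5 a b c d e := h _ _ _ _ _
  have xyzuv : W5 x y z u v := P (.refl _)
  have xyzvu : W5 x y z v u := P (.cons _ (.cons _ (.cons _ (.swap _ _ _))))
  have uvxyz : W5 u v x y z := P (List.perm_append_comm (l₁ := [u, v]) (l₂ := [x, y, z]))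
  have uvyxz : W5 u v y x z := P ((List.Perm.cons _ (.cons _ (.swap _ _ _))).trans
    (List.perm_append_comm (l₁ := [u, v]) (l₂ := [x, y, z])))
  have xyuvz : W5 x y u v z := P (.cons _ (.cons _
    (List.perm_append_comm (l₁ := [u, v]) (l₂ := [z]))))
  have yxzuv : W5 y x z u v := P (.swap _ _ _)
  have P' : ∀ {a b c d e : S}, [a, b, c, d, e].Perm [z, y, x, v, u] → W5 a b c d e :=
    h.symm _ _ _ _ _
  have vuzyx : W5 v u z y x := P' (List.perm_append_comm (l₁ := [v, u]) (l₂ := [z, y, x]))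
  have zyvux : W5 z y v u x := P' (.cons _ (.cons _
    (List.perm_append_comm (l₁ := [v, u]) (l₂ := [x]))))
  refine ⟨r1, r2, ?_, ?_, ?_, ?_, ?_, ?_, ?_, ?_, ?_, ?_, ?_, ?_, ?_⟩
  all_goals simp only [hπ.forall, hπ.exists, ← map_mul, ← map_add, ← map_sub]
  · intro t e
    obtain ⟨p, q, e⟩ := (hk _).mp e
    exact (hk _).mpr (hs.c2 t p q e)
  · intro t a e
    obtain ⟨p, q, e⟩ := he _ _ e
    obtain ⟨p, q, r, e⟩ := hs.c3 t p q a (by linear_combination e)
    exact ⟨r, sub_eq_zero.mp ((map_sub π _ _).symm.trans ((hk _).mpr ⟨p, q, by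
      linear_combination e⟩))⟩
  · intro t a b c e
    obtain ⟨p, q, e⟩ := he _ _ e
    obtain ⟨a, b, c, e⟩ := xyzuv.c3 t (a - p * v) (b + p * u - q * v) (c + q * u)
      (by linear_combination e)
    exact ⟨a, b, c, congrArg π e⟩
  · intro t a b c e
    obtain ⟨p, q, e⟩ := he _ _ e
    obtain ⟨a, b, c, e⟩ := xyzvu.c3 t (a - p * v) (b + p * u - q * v) (c + q * u)
      (by linear_combination e)
    exact ⟨a, b, c, congrArg π e⟩
  · intro t e
    obtain ⟨p, q, e⟩ := (hk _).mp e
    obtain ⟨α, β, γ, e⟩ := annu_S uvxyz xyuvz t p q e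
    exact ⟨α, sub_eq_zero.mp ((map_sub π _ _).symm.trans ((hk _).mpr ⟨β, γ, by
      linear_combination e⟩))⟩
  · intro t e
    obtain ⟨p, q, e⟩ := (hk _).mp e
    obtain ⟨α, β, γ, e⟩ := annu_S vuzyx zyvux t (-q) (-p) (by linear_combination e)
    exact ⟨α, sub_eq_zero.mp ((map_sub π _ _).symm.trans ((hk _).mpr ⟨-γ, -β, by
      linear_combination e⟩))⟩
  · intro t e
    obtain ⟨p, q, e⟩ := (hk _).mp e
    obtain ⟨a, b, e⟩ := hw.c2 t (p * y + q * z) (-(p * x + q * y)) (by linear_combination e)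
    exact ⟨a, b, congrArg π e⟩
  · intro t a e
    obtain ⟨p, q, e⟩ := he _ _ e
    obtain ⟨c, e⟩ := uvxyz.c1 (t + p * x + q * y) (a + p * y + q * z) (by linear_combination e)
    exact ⟨c, -p, -q, congrArg π (by linear_combination e)⟩
  · intro t a b e
    obtain ⟨p, q, e⟩ := he _ _ e
    obtain ⟨a, b, e⟩ := uvyxz.c2 t (a + p * y + q * z) (b - p * x - q * y)
      (by linear_combination e)
    exact ⟨a, b, congrArg π e⟩
  · intro t a e
    obtain ⟨p, q, e⟩ := he _ _ e
    obtain ⟨a1, b1, e1⟩ := yxzuv.c2 (u * q) (q * v - a - p * u) (t + p * v)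
      (by linear_combination -e)
    obtain ⟨a2, b2, e2⟩ := xyuvz.c2 q b1 a1 (by linear_combination e1)
    obtain ⟨c, e3⟩ := yxzuv.c1 (t + p * v - a2 * u * z) (a + p * u - q * v + b2 * u * z)
      (by linear_combination e + u * z * e2)
    exact ⟨c, a2 * y - p, sub_eq_zero.mp ((map_sub π _ _).symm.trans ((hk _).mpr ⟨0, a2, by
      linear_combination e3⟩))⟩
  · intro a e
    obtain ⟨p, q, e⟩ := he _ _ e
    obtain ⟨b, c, d, e⟩ := uvxyz.c3 1 (p * y + q * z) (-(p * x + q * y)) a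
      (by linear_combination e)
    exact h0 d 0 0 b c (by linear_combination e)
  · intro a e
    obtain ⟨p, q, e⟩ := he _ _ e
    obtain ⟨b, c, d, e⟩ := uvyxz.c3 1 (p * y + q * z) (-(p * x + q * y)) a
      (by linear_combination e)
    exact h0 0 d 0 b c (by linear_combination e)
  · intro a e
    obtain ⟨p, q, e⟩ := he _ _ e
    obtain ⟨b, c, d, e⟩ := vuzyx.c3 1 (-(p * x + q * y)) (p * y + q * z) a
      (by linear_combination e)
    exact h0 0 0 d c b (by linear_combination e)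

end Pool.Agent.Lib.MP_a966df_ag
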