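import Mathlib

namespace Pool.Agent.Lib.MP_a966df_ag

open IsLocalRing Polynomial
open scoped TensorProduct

universe u

variable (R : Type u) [CommRing R]

/-- The depth of `M`: the supremum of the lengths of `M`-regular sequences in the maximal ideal. -/
noncomputable def depth [IsLocalRing R] (M : Type u) [AddCommGroup M] [Module R M] : ℕ∞ :=
  ⨆ (rs : List R) (_ : ∀ r ∈ rs, r ∈ maximalIdeal R) (_ : RingTheory.Sequence.IsRegular M rs),
    (rs.length : ℕ∞)

/-- Maximal Cohen-Macaulay: the depth is the dimension of the ring. -/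
def IsMCM [IsLocalRing R] (M : Type u) [AddCommGroup M] [Module R M] : Prop :=
  (depth R M : WithBot ℕ∞) = ringKrullDim R

/-- Locally free of constant rank on the punctured spectrum. -/
def LocFree [IsLocalRing R] (N : Type u) [AddCommGroup N] [Module R N] : Prop :=
  ∃ r : ℕ, ∀ 𝔭 : PrimeSpectrum R, 𝔭.asIdeal ≠ maximalIdeal R →
    Nonempty (LocalizedModule 𝔭.asIdeal.primeCompl N ≃ₗ[Localization.AtPrime 𝔭.asIdeal]
      (Fin r → Localization.AtPrime 𝔭.asIdeal))

/-- The relations `[B] - [A] - [C]` for short exact sequences `0 → A → B → C → 0`. -/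
def sesRel : AddSubgroup (FreeAbelianGroup (FGModuleCat.{u} R)) :=
  AddSubgroup.closure {x | ∃ (A B C : FGModuleCat.{u} R) (i : A →ₗ[R] B) (p : B →ₗ[R] C),
    Function.Injective i ∧ Function.Exact i p ∧ Function.Surjective p ∧
      x = FreeAbelianGroup.of B - FreeAbelianGroup.of A - FreeAbelianGroup.of C}

/-- The Grothendieck group of finitely generated modules. -/
abbrev G : Type (u + 1) := FreeAbelianGroup (FGModuleCat.{u} R) ⧸ sesRel R

/-- The class of a finitely generated module in the Grothendieck group. -/
def cls (N : Type u) [AddCommGroup N] [Module R N] [Module.Finite R N] : G R :=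
  QuotientAddGroup.mk (FreeAbelianGroup.of (FGModuleCat.of R N))

/-- The reduced Grothendieck group. -/
abbrev Gbar : Type (u + 1) := G R ⧸ AddSubgroup.zmultiples (cls R R)

/-- The class of `N` in the rational reduced Grothendieck group vanishes. -/
def ClassZero (N : Type u) [AddCommGroup N] [Module R N] [Module.Finite R N] : Prop :=
  (QuotientAddGroup.mk (cls R N) : Gbar R) ⊗ₜ[ℤ] (1 : ℚ) = 0

/-- Algebras obtained from `R` by finitely many steps `B ↦ B[t]/(t^(p^e) - a)` with `a ∈ B`. -/
inductive InsepTower (p : ℕ) : (Q : Type u) → [CommRing Q] → [Algebra R Q] → Prop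
  | base : InsepTower p R
  | step (B : Type u) [CommRing B] [Algebra R B] (h : InsepTower p B) (e : ℕ) (a : B) :
      InsepTower p (AdjoinRoot (X ^ p ^ e - C a))

end Pool.Agent.Lib.MP_a966df_ag
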