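import Pool.Agent.Lib.MP_a966df_ag.Core
import Pool.Agent.Lib.MP_a966df_ag.Defs

namespace Pool.Agent.Lib.MP_a966df_ag

open Submodule LinearMap IsLocalRing TensorProduct RingTheory.Sequence
open Function (Injective Surjective Exact)

universe u

variable {R : Type u} [CommRing R] [IsLocalRing R] [IsNoetherianRing R] {N : Type u}
  [AddCommGroup N] [Module R N] [Module.Finite R N]

lemma LocFree.rad (h : LocFree R N) {F : Type u} [AddCommGroup F] [Module R F] (π : F →ₗ[R] N)
    (hπ : Surjective π) : maximalIdeal R ≤ Ideal.radical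
      ((range (π.compRight (M := N) R)).comap (toSpanSingleton R _ LinearMap.id)) := by
  obtain ⟨r, h⟩ := h
  rw [Ideal.radical_eq_sInf, le_sInf_iff]
  rintro p ⟨h1, h2⟩
  by_contra h3
  obtain ⟨e⟩ := h ⟨p, h2⟩ fun e => h3 e.ge
  have := Module.Free.of_equiv e.symm
  have := Module.finitePresentation_of_finite R N
  obtain ⟨σ, hσ⟩ := Module.projective_lifting_property (LocalizedModule.map p.primeCompl π)
    LinearMap.id (LocalizedModule.map_surjective _ _ hπ)
  obtain ⟨w, s, hw⟩ := Module.FinitePresentation.exists_lift_of_isLocalizedModule p.primeCompl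
    (LocalizedModule.mkLinearMap p.primeCompl F)
    (σ.restrictScalars R ∘ₗ LocalizedModule.mkLinearMap p.primeCompl N)
  obtain ⟨t, ht⟩ := Module.Finite.exists_smul_of_comp_eq_of_isLocalizedModule p.primeCompl
    (LocalizedModule.mkLinearMap p.primeCompl N) (π ∘ₗ w) (s • LinearMap.id)
    (LinearMap.ext fun x => by
      have e1 := congrArg (LocalizedModule.map p.primeCompl π) (LinearMap.congr_fun hw x)
      have e2 := LinearMap.congr_fun hσ (LocalizedModule.mk x 1)
      simp only [comp_apply, id_apply] at e2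
      simpa [Submonoid.smul_def, e2] using e1)
  exact (t * s).2 (h1 ⟨t • w, by simpa [mul_smul, Submonoid.smul_def] using ht⟩)

variable {Q : Type u} [CommRing Q] [IsLocalRing Q] [IsNoetherianRing Q] {f : Q} {R' : Type u}
  [CommRing R'] [IsLocalRing R'] [Algebra Q R'] [Algebra R R'] [SMulCommClass R Q R']

omit [IsNoetherianRing Q] in
lemma Dp.two {X Y Z : Type u} [AddCommGroup X] [Module Q X] [AddCommGroup Y] [Module Q Y]
    [AddCommGroup Z] [Module Q Z] (i : X →ₗ[Q] Y) (j : Y →ₗ[Q] Z) (hi : Injective i)
    (he : Exact i j) (h1 : Dp Q 2 Y) (h2 : Dp Q 1 Z) : Dp Q 2 X :=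
  Dp.sub (p := j.rangeRestrict) hi (exact_iff.mpr (by rw [ker_rangeRestrict, he.linearMap_ker_eq]))
    (surjective_rangeRestrict j) h1 (Dp.inj (range j).injective_subtype h2)

theorem descent [Module.Flat R R'] [IsLocalHom (algebraMap R R')]
    (hm : maximalIdeal R' = (maximalIdeal R).map (algebraMap R R')) (hf : IsSMulRegular Q f)
    (hs : Surjective (algebraMap Q R')) (hk : ∀ a, algebraMap Q R' a = 0 ↔ ∃ b, f • b = a)
    (hQ : Dp Q 4 Q)
    (hG : ∀ (X : Type u) [AddCommGroup X] [Module Q X], Module.Finite Q X → Dp Q 4 X → LS (0 : Q) X →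
      Good f R' X) (hd : ringKrullDim R = 3) [Module.IsReflexive R N] (h1 : LocFree R N)
    (h2 : ClassZero R N) (h3 : IsMCM R (N →ₗ[R] N)) : Module.Free R N := by
  have := Module.FaithfullyFlat.of_flat_of_isLocalHom (A := R) (B := R')
  have := IsLocalHom.of_surjective _ hs
  have := Module.finitePresentation_of_finite R N
  have hR : ∀ y : R', f • y = 0 := fun y => by
    rw [Algebra.smul_def, (hk f).mpr ⟨1, mul_one f⟩, zero_mul]
  have : Module.Finite Q R' := Module.Finite.of_surjective (Algebra.linearMap Q R') hs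
  have d1 : Dp Q 3 R' := Dp.quot (i := lsmul Q Q f) (p := Algebra.linearMap Q R') hf hk hs hQ
    (hQ.mono (by simp))
  have d2 : ∀ (F : Type u) [AddCommGroup F] [Module R F] [Module.Finite R F] [Module.Free R F],
      Dp Q 3 (R' ⊗[R] F) := fun F _ _ _ _ => (d1.pi _).equiv
    (((Module.finBasis R F).baseChange R').equivFun.restrictScalars Q)
  have := core hf hs hk hQ hG (N := R' ⊗[R] N) (fun a ha => ?_) ?_ ?_ fun Θ a1 a2 => ?_
  · have := Module.Flat.of_flat_tensorProduct R N R'
    exact Module.free_of_flat_of_isLocalRing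
  · obtain ⟨n, π, hπ⟩ := Module.Finite.exists_fin' R N
    have : maximalIdeal R' ≤ Ideal.radical ((range ((π.baseChange R').compRight
        (M := R' ⊗[R] N) R')).comap (toSpanSingleton R' _ LinearMap.id)) := by
      rw [hm]
      refine (Ideal.map_mono (h1.rad π hπ)).trans ((Ideal.map_radical_le _).trans
        (Ideal.radical_mono (Ideal.map_le_iff_le_comap.mpr ?_)))
      rintro b ⟨w, hw⟩
      refine ⟨w.baseChange R', ?_⟩
      have : π ∘ₗ w = b • LinearMap.id := hw
      simp [← baseChange_comp, this]
    obtain ⟨k, w, hw⟩ := this (map_nonunit (algebraMap Q R') a ha)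
    have sP : St f (Fin n → R') 1 := St.proj ((Algebra.linearMap Q R').compLeft (Fin n))
      hs.comp_left fun x hx => by
        choose y hy using fun j => (hk (x j)).mp (congrFun hx j)
        exact ⟨y, funext hy⟩
    let e := (piScalarRight R R' R' (Fin n)).restrictScalars Q
    refine ⟨k, ?_⟩
    rw [← mul_one (a ^ k)]
    refine sP.fac (e.toLinearMap ∘ₗ w.restrictScalars Q)
      ((π.baseChange R').restrictScalars Q ∘ₗ e.symm.toLinearMap) fun x => ?_
    have := LinearMap.congr_fun hw x
    rw [← map_pow] at this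
    simpa [-map_pow] using this
  · have := Module.finitePresentation_of_finite R (Module.Dual R N)
    obtain ⟨n, m, π, g, hπ, hg⟩ := Module.FinitePresentation.exists_fin' R (Module.Dual R N)
    let i := lcomp R R π ∘ₗ (Module.evalEquiv R N).toLinearMap
    have hi : Injective i := (lcomp_injective_of_surjective π hπ).comp (Module.evalEquiv R N).injective
    have he : Exact i (lcomp R R g) := exact_iff.mpr (by
      rw [ker_pre hπ hg, range_comp_of_range_eq_top _ (LinearEquiv.range _)])
    exact Dp.two ((i.baseChange R').restrictScalars Q) (((lcomp R R g).baseChange R').restrictScalars Q)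
      (Module.Flat.lTensor_preserves_injective_linearMap i hi) (Module.Flat.lTensor_exact R' he)
      ((d2 _).mono (by simp)) ((d2 _).mono (by simp))
  · have : (2 : ℕ∞) < depth R (N →ₗ[R] N) := by
      rw [IsMCM, hd] at h3
      rw [show depth R (N →ₗ[R] N) = 3 from WithBot.coe_injective h3]
      decide
    simp only [depth, lt_iSup_iff] at this
    obtain ⟨rs, b1, b2, b3⟩ := this
    have b4 : IsWeaklyRegular (R' ⊗[R] N →ₗ[R'] R' ⊗[R] N) (rs.map (algebraMap R R')) :=
      ((Module.FinitePresentation.isBaseChange_map R N N R').equiv.isWeaklyRegular_congr _).mp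
        (b2.1.of_flat_of_isBaseChange (TensorProduct.isBaseChange R (N →ₗ[R] N) R'))
    have e : (rs.map fun r => Function.surjInv hs (algebraMap R R' r)).map (algebraMap Q R') =
        rs.map (algebraMap R R') := by simp [Function.surjInv_eq]
    rw [← e, isWeaklyRegular_map_algebraMap_iff] at b4
    refine ((Dp.of_reg (fun r hr hu => ?_) b4).mono ?_).equiv (extendScalarsOfSurjectiveEquiv hs)
    · obtain ⟨x, hx, rfl⟩ := List.mem_map.mp hr
      exact map_nonunit (algebraMap R R') x (b1 x hx)
        (by simpa [Function.surjInv_eq] using hu.map (algebraMap Q R'))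
    · rw [List.length_map]
      exact_mod_cast b3
  · have hK : ∀ (Z : Type u) [AddCommGroup Z] [Module R Z] (y : R' ⊗[R] Z), f • y = 0 :=
      fun Z _ _ y => by rw [← one_smul R' y, ← smul_assoc, hR, zero_smul]
    let φ := FreeAbelianGroup.lift fun Z : FGModuleCat.{u} R => Θ (R' ⊗[R] Z)
    let φ1 := QuotientAddGroup.lift (sesRel R) φ ((AddSubgroup.closure_le _).mpr (by
      rintro _ ⟨A, B, C, i, p, hi, he, hp, rfl⟩
      have := a1 _ _ _ ((i.baseChange R').restrictScalars Q) ((p.baseChange R').restrictScalars Q)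
        (Module.Flat.lTensor_preserves_injective_linearMap i hi) (lTensor_exact R' he hp)
        (p.lTensor_surjective R' hp) (.trans R' _) (hK _)
      simp [φ, this]))
    let φ2 := QuotientAddGroup.lift (AddSubgroup.zmultiples (cls R R)) φ1
      (AddSubgroup.zmultiples_le.mpr (by
        let e := (AlgebraTensorModule.rid R R' R').restrictScalars Q
        have := a1 _ _ (Fin 0 → R') e.toLinearMap 0 e.injective
          (fun y => ⟨fun _ => e.surjective y, fun _ => rfl⟩) (fun _ => ⟨0, Subsingleton.elim _ _⟩)
          inferInstance hR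
        rw [a1.pi hR a2, a2, add_zero] at this
        exact (FreeAbelianGroup.lift_apply_of _ _).trans this.symm))
    have := congrArg ((TensorProduct.lid ℤ ℚ).toLinearMap ∘ₗ φ2.toIntLinearMap.rTensor ℚ) h2
    rw [map_zero] at this
    have e : φ2 (QuotientAddGroup.mk (cls R N)) • (1 : ℚ) = 0 := this
    have e' : φ2 (QuotientAddGroup.mk (cls R N)) = Θ (R' ⊗[R] N) :=
      FreeAbelianGroup.lift_apply_of _ _
    simpa [e'] using e

end Pool.Agent.Lib.MP_a966df_ag
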