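import Pool.Agent.Lib.MP_a966df_ag.CxCls
import Pool.Agent.Lib.MP_a966df_ag.CxS

namespace Pool.Agent.Lib.MP_a966df_ag

universe u

variable {S R : Type u} [CommRing S] [CommRing R] (π : S →+* R)

/-- The class of the quotient by the image of a list. -/
def dq (l : List S) : G R := cq (π '' {r | r ∈ l})

lemma cq_congr {s t : Set R} (h : Ideal.span s = Ideal.span t) : cq s = cq t :=
  congrArg (fun I : Ideal R => cls R (R ⧸ I)) h

lemma ofList_le {l : List S} {I : Ideal S} (h : l.Forall (· ∈ I)) : Ideal.ofList l ≤ I :=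
  Ideal.span_le.mpr (List.forall_iff_forall_mem.mp h)

variable {π}

lemma dq_col (hπ : Function.Surjective π) {f g : S} (hk : ∀ s, π s = 0 → s ∈ Ideal.ofList [f, g])
    (l j k : List S) (a : S) (h0 : [f, g].Forall (· ∈ Ideal.ofList l))
    (h1 : j.Forall (a * · ∈ Ideal.ofList l))
    (h2 : ∀ r, a * r ∈ Ideal.ofList l → r ∈ Ideal.ofList j)
    (h3 : (a :: l).Forall (· ∈ Ideal.ofList k)) (h4 : k.Forall (· ∈ Ideal.ofList (a :: l))) :
    dq π l = dq π j + dq π k := by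
  have hm : ∀ l : List S, Ideal.span (π '' {r | r ∈ l}) = (Ideal.ofList l).map π := fun l =>
    (Ideal.map_span π _).symm
  rw [dq, cq_colon (π '' {r | r ∈ j}) (π a)]
  · refine congrArg (_ + ·) (cq_congr ?_)
    rw [← Set.image_insert_eq, hm, ← le_antisymm (ofList_le h3) (ofList_le h4), ← hm]
    simp only [List.mem_cons]
    rfl
  · rintro _ ⟨r, hr, rfl⟩
    rw [hm, ← map_mul]
    exact Ideal.mem_map_of_mem _ (List.forall_iff_forall_mem.mp h1 r hr)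
  · intro r hr
    obtain ⟨r, rfl⟩ := hπ r
    rw [hm, ← map_mul] at hr
    obtain ⟨s, hs, e⟩ := (Ideal.mem_map_iff_of_surjective _ hπ).mp hr
    rw [hm]
    refine Ideal.mem_map_of_mem _ (h2 r ?_)
    simpa using add_mem hs (ofList_le h0 (hk (a * r - s) (by rw [map_sub, e, sub_self])))

lemma dq_zero [IsDomain R] {a f g : S} (ha : π a ≠ 0) (hf : ∃ c, π f = c * π a) (hg : π g = 0) :
    dq π [a, f, g] = 0 := by
  have e := cq_colon (s := ∅) ∅ (π a) (fun _ hr => hr.elim) fun r hr => by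
    rw [Ideal.span_empty, Ideal.mem_bot] at hr ⊢
    exact (mul_eq_zero.mp hr).resolve_left ha
  refine Eq.trans (cq_congr (le_antisymm (Ideal.span_le.mpr ?_) (Ideal.span_mono ?_)))
    (left_eq_add.mp e)
  · rw [insert_empty_eq]
    rintro _ ⟨r, hr, rfl⟩
    obtain ⟨c, hc⟩ := hf
    simp only [List.mem_cons, List.not_mem_nil, or_false, Set.mem_setOf_eq] at hr
    rcases hr with rfl | rfl | rfl
    · exact Ideal.mem_span_singleton_self _
    · exact Ideal.mem_span_singleton'.mpr ⟨c, hc.symm⟩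
    · exact hg ▸ zero_mem _
  · rintro _ (rfl | h)
    · exact ⟨a, by simp, rfl⟩
    · exact h.elim

variable {x y z u v w f g F : S}

theorem dq_main [IsDomain R] (hπ : Function.Surjective π) (hw : w = x * z - y * y)
    (hf : f = u * y - v * x) (hg : g = u * z - v * y) (hF : F = f + y * (u * u + x * w ^ 3))
    (hk : ∀ s, π s = 0 ↔ s ∈ Ideal.ofList [F, g]) (h : Pm x y z u v) (hW : W5 u v w x z)
    (hx : π x ≠ 0) (hu : IsUnit (1 + u)) (hy : ∀ t, IsUnit (1 + y * t))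
    (h0 : ∀ a b c : S, 1 ≠ a * x + b * y + c * z) : dq π [x, y, z] = 0 := by
  have P : ∀ {a b c d e : S}, [a, b, c, d, e].Perm [x, y, z, u, v] → W5 a b c d e := h _ _ _ _ _
  have xyzuv : W5 x y z u v := P (.refl _)
  have uvxyz : W5 u v x y z := P (List.perm_append_comm (l₁ := [u, v]) (l₂ := [x, y, z]))
  have xyuvz : W5 x y u v z := P (.cons _ (.cons _
    (List.perm_append_comm (l₁ := [u, v]) (l₂ := [z]))))
  have col := dq_col hπ fun s => (hk s).mp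
  have uw : u * w = x * g - y * f := by rw [hw, hf, hg]; ring
  have vw : v * w = y * g - z * f := by rw [hw, hf, hg]; ring
  have πg : π g = 0 := (hk _).mpr (m2.mpr ⟨0, 1, by ring⟩)
  have A : ∀ p q, p * q = x * w → 0 = dq π [u, v, p * w] + dq π [u, w, f, g] := fun p q e => by
    have eF : F = y * (u + q * w) * (u + p * w) + (1 + y * (y * (p + q))) * f +
        -(x * y * (p + q)) * g := by linear_combination hF - y * w ^ 2 * e - y * (p + q) * uw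
    have z1 : π (u + p * w) ≠ 0 := fun e0 => by
      obtain ⟨α, β, e1⟩ := m2.mp ((hk _).mp e0)
      obtain ⟨a, b, c, e2⟩ := xyzuv.c3 1 (α * (y * w ^ 3 - v) - p * z)
        (α * (u + u * u) - β * v + p * y) (β * u)
        (by linear_combination e1 + α * hF + α * hf + β * hg - p * hw)
      exact h0 a b c e2
    have z2 : ∃ c, π f = c * π (u + p * w) := by
      obtain ⟨i, hi⟩ := (hy (y * (p + q))).exists_left_inv
      refine ⟨π (-(i * y * (u + q * w))), ?_⟩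
      rw [← map_mul, ← sub_eq_zero, ← map_sub]
      exact (hk _).mpr (m2.mpr ⟨i, i * x * y * (p + q), by linear_combination -f * hi - i * eF⟩)
    rw [← dq_zero z1 z2 πg]
    refine col _ _ _ w ⟨m3.mpr ⟨_, _, _, eF⟩, m3.mpr ⟨0, 0, 1, by ring⟩⟩
      ⟨m3.mpr ⟨0, -y, x, by linear_combination uw⟩, m3.mpr ⟨0, -z, y, by linear_combination vw⟩,
        m3.mpr ⟨w, y, -x, by linear_combination -uw⟩⟩ (fun r hr => ?_)
      ⟨m4.mpr ⟨0, 1, 0, 0, by ring⟩, m4.mpr ⟨1, p, 0, 0, by ring⟩, m4.mpr ⟨0, 0, 1, 0, by ring⟩,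
        m4.mpr ⟨0, 0, 0, 1, by ring⟩⟩
      ⟨m4.mpr ⟨-p, 1, 0, 0, by ring⟩, m4.mpr ⟨1, 0, 0, 0, by ring⟩, m4.mpr ⟨0, 0, 1, 0, by ring⟩,
        m4.mpr ⟨0, 0, 0, 1, by ring⟩⟩
    obtain ⟨s, α, β, e1⟩ := m3.mp hr
    obtain ⟨a, b, e2⟩ := hW.c2 (r - s * p) (s + α * y + β * z) (-(α * x + β * y))
      (by linear_combination e1 + α * hf + β * hg)
    obtain ⟨c, d, d', e3⟩ := annu_S uvxyz xyuvz s (-α - a * y - b * z) (-β + a * x + b * y)
      (by rw [← hf, ← hg]; linear_combination -e1 + w * e2 + a * uw + b * vw)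
    exact m3.mpr ⟨a + p * (d * y + d' * z), b - p * (d * x + d' * y), c, by
      linear_combination e2 + p * e3 - c * p * hw⟩
  have B : ∀ p q, p * q = x * w → dq π [u, v, p * w] = dq π [u, v, p] + dq π [u, v, w] :=
    fun p q e => col _ _ _ w
      ⟨m3.mpr ⟨y + y * u, -x, y * q * w, by linear_combination hF + hf - y * w ^ 2 * e⟩,
        m3.mpr ⟨z, -y, 0, by linear_combination hg⟩⟩
      ⟨m3.mpr ⟨w, 0, 0, by ring⟩, m3.mpr ⟨0, w, 0, by ring⟩, m3.mpr ⟨0, 0, 1, by ring⟩⟩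
      (fun r hr => by
        obtain ⟨a, b, c, e1⟩ := m3.mp hr
        obtain ⟨a, b, e2⟩ := hW.c2 (r - c * p) a b (by linear_combination e1)
        exact m3.mpr ⟨a, b, c, by linear_combination e2⟩)
      ⟨m3.mpr ⟨0, 0, 1, by ring⟩, m3.mpr ⟨1, 0, 0, by ring⟩, m3.mpr ⟨0, 1, 0, by ring⟩,
        m3.mpr ⟨0, 0, p, by ring⟩⟩
      ⟨m4.mpr ⟨0, 1, 0, 0, by ring⟩, m4.mpr ⟨0, 0, 1, 0, by ring⟩, m4.mpr ⟨1, 0, 0, 0, by ring⟩⟩
  have C := col [u, w, f, g] [x, y, u] [u, v, w] v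
    ⟨m4.mpr ⟨y * u, y * x * w ^ 2, 1, 0, by linear_combination hF⟩, m4.mpr ⟨0, 0, 0, 1, by ring⟩⟩
    ⟨m4.mpr ⟨y, 0, -1, 0, by linear_combination hf⟩,
      m4.mpr ⟨z, 0, 0, -1, by linear_combination hg⟩, m4.mpr ⟨v, 0, 0, 0, by ring⟩⟩
    (fun r hr => by
      obtain ⟨a, b, c, d, e1⟩ := m4.mp hr
      exact m3.mpr (xyuvz.c3 r (b * z - c * v) (c * u - b * y - d * v) (a + d * z)
        (by linear_combination e1 + b * hw + c * hf + d * hg)))
    ⟨m3.mpr ⟨0, 1, 0, by ring⟩, m3.mpr ⟨1, 0, 0, by ring⟩, m3.mpr ⟨0, 0, 1, by ring⟩,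
      m3.mpr ⟨y, -x, 0, by linear_combination hf⟩, m3.mpr ⟨z, -y, 0, by linear_combination hg⟩⟩
    ⟨m5.mpr ⟨0, 1, 0, 0, 0, by ring⟩, m5.mpr ⟨1, 0, 0, 0, 0, by ring⟩,
      m5.mpr ⟨0, 0, 1, 0, 0, by ring⟩⟩
  have xyuzv : W5 x y u z v := P (.cons _ (.cons _ (.swap _ _ _)))
  have D := col [x, f, g] [x, u, v * y] [x, y, u * z] y
    ⟨m3.mpr ⟨u * v + y * w ^ 3, 1 + u, 0, by linear_combination hF - u * hf⟩,
      m3.mpr ⟨0, 0, 1, by ring⟩⟩
    ⟨m3.mpr ⟨y, 0, 0, by ring⟩, m3.mpr ⟨v, 1, 0, by linear_combination -hf⟩,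
      m3.mpr ⟨z * v, z, -y, by linear_combination y * hg - z * hf⟩⟩
    (fun r hr => by
      obtain ⟨a, b, c, e1⟩ := m3.mp hr
      obtain ⟨p, q, e2⟩ := xyzuv.c2 (u * c) (b * v - a) (r - b * u + c * v)
        (by linear_combination -e1 - b * hf - c * hg)
      obtain ⟨p, q, e3⟩ := xyuzv.c2 c p q e2
      obtain ⟨s, e4⟩ := xyzuv.c1 (r - b * u - q * g) (a - b * v + p * g)
        (by linear_combination e1 + b * hf + g * e3)
      exact m3.mpr ⟨s, b + q * z, -q, by linear_combination e4 + q * hg⟩)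
    ⟨m3.mpr ⟨0, 1, 0, by ring⟩, m3.mpr ⟨1, 0, 0, by ring⟩,
      m3.mpr ⟨-v, u, 0, by linear_combination hf⟩, m3.mpr ⟨0, -v, 1, by linear_combination hg⟩⟩
    ⟨m4.mpr ⟨0, 1, 0, 0, by ring⟩, m4.mpr ⟨1, 0, 0, 0, by ring⟩,
      m4.mpr ⟨v, 0, 0, 1, by linear_combination -hg⟩⟩
  have E := col [x, u, v * y] [x, y, u] [u, v, x] v
    ⟨m3.mpr ⟨y * w ^ 3 - v, y + y * u, 0, by linear_combination hF + hf⟩,
      m3.mpr ⟨0, z, -1, by linear_combination hg⟩⟩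
    ⟨m3.mpr ⟨v, 0, 0, by ring⟩, m3.mpr ⟨0, 0, 1, by ring⟩, m3.mpr ⟨0, v, 0, by ring⟩⟩
    (fun r hr => by
      obtain ⟨a, b, c, e1⟩ := m3.mp hr
      exact m3.mpr (xyuvz.c3 r a (c * v) b (by linear_combination e1)))
    ⟨m3.mpr ⟨0, 1, 0, by ring⟩, m3.mpr ⟨0, 0, 1, by ring⟩, m3.mpr ⟨1, 0, 0, by ring⟩,
      m3.mpr ⟨0, y, 0, by ring⟩⟩
    ⟨m4.mpr ⟨0, 0, 1, 0, by ring⟩, m4.mpr ⟨1, 0, 0, 0, by ring⟩, m4.mpr ⟨0, 1, 0, 0, by ring⟩⟩
  have K := col [x, y, u * z] [x, y, z] [x, y, u] u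
    ⟨m3.mpr ⟨-v, u + (u * u + x * w ^ 3), 0, by linear_combination hF + hf⟩,
      m3.mpr ⟨0, -v, 1, by linear_combination hg⟩⟩
    ⟨m3.mpr ⟨u, 0, 0, by ring⟩, m3.mpr ⟨0, u, 0, by ring⟩, m3.mpr ⟨0, 0, 1, by ring⟩⟩
    (fun r hr => by
      obtain ⟨a, b, c, e1⟩ := m3.mp hr
      exact m3.mpr (xyzuv.c3 r a b (c * u) (by linear_combination e1)))
    ⟨m3.mpr ⟨0, 0, 1, by ring⟩, m3.mpr ⟨1, 0, 0, by ring⟩, m3.mpr ⟨0, 1, 0, by ring⟩,
      m3.mpr ⟨0, 0, z, by ring⟩⟩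
    ⟨m4.mpr ⟨0, 1, 0, 0, by ring⟩, m4.mpr ⟨0, 0, 1, 0, by ring⟩, m4.mpr ⟨1, 0, 0, 0, by ring⟩⟩
  have Z : dq π [x, f, g] = 0 := by
    refine dq_zero hx ?_ πg
    obtain ⟨i, hi⟩ := hu.exists_left_inv
    refine ⟨π (-(i * (u * v + y * w ^ 3))), ?_⟩
    rw [← map_mul, ← sub_eq_zero, ← map_sub]
    exact (hk _).mpr (m2.mpr ⟨i, 0, by linear_combination -f * hi - i * hF + i * u * hf⟩)
  have a1 := A 1 (x * w) (one_mul _)
  have a2 := A w x (mul_comm _ _)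
  have a3 := A x w rfl
  rw [one_mul] at a1
  rw [B w x (mul_comm _ _)] at a2
  rw [B x w rfl] at a3
  have c0 : dq π [u, v, w] = 0 := by linear_combination (norm := abel1) a1 - a2
  have l0 : dq π [u, v, x] = 0 := by linear_combination (norm := abel1) a1 - a3
  have f0 : dq π [x, y, u] = 0 := by linear_combination (norm := abel1) -a1 - C - c0 - c0
  linear_combination (norm := abel1) Z - D - E - K - f0 - f0 - l0

end Pool.Agent.Lib.MP_a966df_ag
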