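import Pool.Agent.Lib.MP_a966df_ag.CxPS

namespace Pool.Agent.Lib.MP_a966df_ag

open IsLocalRing

universe u

variable {A B : Type u} [CommRing A] [CommRing B]

/-- The map induces isomorphisms modulo all powers of the ideal. -/
structure Dn (φ : A →+* B) (I : Ideal A) : Prop where
  sur : ∀ b, ∃ a, b - φ a ∈ I.map φ
  inj : ∀ (n : ℕ) a, φ a ∈ I.map φ ^ n → a ∈ I ^ n

variable {φ : A →+* B} {I : Ideal A}

lemma approx {J : Ideal B} (h : ∀ b, ∃ a, b - φ a ∈ J) (K : Ideal A) {t : B} (ht : t ∈ K.map φ) :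
    ∃ a ∈ K, t - φ a ∈ K.map φ * J := by
  induction ht using Submodule.span_induction with
  | mem t ht =>
    obtain ⟨a, ha, rfl⟩ := ht
    exact ⟨a, ha, by simp⟩
  | zero => exact ⟨0, zero_mem _, by simp⟩
  | add s t _ _ hs ht =>
    obtain ⟨a, ha, e⟩ := hs
    obtain ⟨b, hb, e'⟩ := ht
    exact ⟨a + b, add_mem ha hb, by convert add_mem e e' using 1; rw [map_add]; ring⟩
  | smul c t _ ht =>
    obtain ⟨a, ha, e⟩ := ht
    obtain ⟨b, hb⟩ := h c
    refine ⟨b * a, K.mul_mem_left b ha, ?_⟩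
    convert add_mem (Ideal.mul_mem_left _ c e)
      (Ideal.mul_mem_mul (Ideal.mem_map_of_mem φ ha) hb) using 1
    rw [map_mul, smul_eq_mul]
    ring

lemma Dn.sur_pow (h : Dn φ I) (n : ℕ) (b : B) : ∃ a, b - φ a ∈ I.map φ ^ n := by
  induction n with
  | zero => exact ⟨0, by simp⟩
  | succ n ih =>
    obtain ⟨a, ha⟩ := ih
    rw [← Ideal.map_pow] at ha
    obtain ⟨c, -, e⟩ := approx h.sur _ ha
    rw [Ideal.map_pow, ← pow_succ] at e
    exact ⟨a + c, by rwa [map_add, ← sub_sub]⟩

lemma Dn.sup (h : Dn φ I) (K : Ideal A) (n : ℕ) {a : A} (ha : φ a ∈ I.map φ ^ n ⊔ K.map φ) :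
    a ∈ I ^ n ⊔ K := by
  obtain ⟨s, hs, t, ht, e⟩ := Submodule.mem_sup.mp ha
  obtain ⟨c, hc, e'⟩ := approx (h.sur_pow n) K ht
  refine Submodule.mem_sup.mpr ⟨a - c, h.inj n _ ?_, c, hc, by ring⟩
  convert add_mem hs (Ideal.mul_le_right e') using 1
  rw [map_sub, ← e]
  ring

lemma Dn.quot (h : Dn φ I) (K : Ideal A) (L : Ideal B) (hL : L = K.map φ) (hle : K ≤ L.comap φ) :
    Dn (Ideal.quotientMap L φ hle) (I.map (Ideal.Quotient.mk K)) := by
  have e : (I.map (Ideal.Quotient.mk K)).map (Ideal.quotientMap L φ hle) =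
      (I.map φ).map (Ideal.Quotient.mk L) := by
    rw [Ideal.map_map, Ideal.map_map, Ideal.quotientMap_comp_mk]
  constructor
  · intro b
    obtain ⟨b, rfl⟩ := Ideal.Quotient.mk_surjective b
    obtain ⟨a, ha⟩ := h.sur b
    refine ⟨Ideal.Quotient.mk K a, ?_⟩
    rw [e, Ideal.quotientMap_mk, ← map_sub]
    exact Ideal.mem_map_of_mem _ ha
  · intro n a ha
    obtain ⟨a, rfl⟩ := Ideal.Quotient.mk_surjective a
    rw [e, Ideal.quotientMap_mk, ← Ideal.map_pow, Ideal.mem_quotient_iff_mem_sup, hL] at ha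
    rw [← Ideal.map_pow, Ideal.mem_quotient_iff_mem_sup]
    exact h.sup K n ha

lemma Dn.contract [IsNoetherianRing A] [IsLocalRing A] (h : Dn φ (maximalIdeal A)) (K : Ideal A)
    {a : A} (ha : φ a ∈ K.map φ) : a ∈ K := by
  have H : IsHausdorff (maximalIdeal A) (A ⧸ K) := inferInstance
  refine Ideal.Quotient.eq_zero_iff_mem.mp (H.haus _ fun n => ?_)
  obtain ⟨s, hs, t, ht, rfl⟩ := Submodule.mem_sup.mp (h.sup K n (Submodule.mem_sup_right ha))
  rw [SModEq.zero, map_add, Ideal.Quotient.eq_zero_iff_mem.mpr ht, add_zero,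
    show Ideal.Quotient.mk K s = s • (1 : A ⧸ K) from (Algebra.algebraMap_eq_smul_one s)]
  exact Submodule.smul_mem_smul hs trivial

lemma Dn.equiv (h : Dn φ I) [hc : IsAdicComplete (I.map φ) B] :
    Nonempty (AdicCompletion I A ≃+* B) := by
  have hb : ∀ n, Function.Bijective (Ideal.quotientMap (I.map φ ^ n) φ
      (show I ^ n ≤ _ by rw [← Ideal.map_pow]; exact Ideal.le_comap_map)) := fun n => by
    constructor
    · exact Ideal.quotientMap_injective' fun a ha => h.inj n a ha
    · intro b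
      obtain ⟨b, rfl⟩ := Ideal.Quotient.mk_surjective b
      obtain ⟨a, ha⟩ := h.sur_pow n b
      exact ⟨Ideal.Quotient.mk _ a, (Ideal.Quotient.eq.mpr ha).symm⟩
  let e := fun n => RingEquiv.ofBijective _ (hb n)
  let f : ∀ n, B →+* A ⧸ I ^ n := fun n => (e n).symm.toRingHom.comp (Ideal.Quotient.mk _)
  have hf : ∀ n a b, f n b = Ideal.Quotient.mk _ a ↔ b - φ a ∈ I.map φ ^ n := fun n a b =>
    (e n).symm_apply_eq.trans Ideal.Quotient.eq
  have hcp : ∀ {m n : ℕ} (hle : m ≤ n), (Ideal.Quotient.factorPow I hle).comp (f n) = f m := by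
    intro m n hle
    ext b
    obtain ⟨a, ha⟩ := h.sur_pow n b
    rw [RingHom.comp_apply, (hf n a b).mpr ha,
      (hf m a b).mpr (Ideal.pow_le_pow_right hle ha)]
    rfl
  refine ⟨(RingEquiv.ofBijective (AdicCompletion.liftRingHom I f hcp) ⟨?_, fun ξ => ?_⟩).symm⟩
  · refine (injective_iff_map_eq_zero _).mpr fun b hb => hc.haus b fun n => ?_
    have := AdicCompletion.evalₐ_liftRingHom I f hcp n b
    rw [hb, map_zero] at this
    simpa [SModEq.zero] using (hf n 0 b).mp this.symm
  · obtain ⟨ξ, rfl⟩ := AdicCompletion.mk_surjective I A ξ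
    obtain ⟨L, hL⟩ := hc.prec (f := fun n => φ (ξ.val n)) fun {m n} hle => by
      have := ξ.property hle
      rw [SModEq.sub_mem, smul_eq_mul, Ideal.mul_top] at this ⊢
      rw [← map_sub, ← Ideal.map_pow]
      exact Ideal.mem_map_of_mem _ this
    refine ⟨L, AdicCompletion.ext_evalₐ fun n => ?_⟩
    rw [AdicCompletion.evalₐ_liftRingHom, AdicCompletion.evalₐ_mk, hf]
    have := (hL n).symm
    rwa [SModEq.sub_mem, smul_eq_mul, Ideal.mul_top] at this

variable (k : Type u) [Field k] (n : ℕ)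

/-- The polynomial ring inside the power series ring. -/
noncomputable abbrev pc : MvPolynomial (Fin n) k →+* MvPowerSeries (Fin n) k :=
  MvPolynomial.coeToMvPowerSeries.ringHom

lemma pc_map : (MvPolynomial.idealOfVars (Fin n) k).map (pc k n) = maximalIdeal _ := by
  rw [ps_max, Ideal.map_span, ← Set.range_comp]
  congr 2
  ext1 i
  simp

lemma pc_dn : Dn (pc k n) (MvPolynomial.idealOfVars (Fin n) k) := by
  constructor
  · intro b
    refine ⟨MvPolynomial.C (MvPowerSeries.constantCoeff b), ?_⟩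
    rw [pc_map, mem_maximalIdeal, mem_nonunits_iff, MvPowerSeries.isUnit_iff_constantCoeff]
    simp
  · intro m a ha
    have hT := (MvPowerSeries.truncTotalAlgHom (Fin n) k m).commutes
    have : (MvPolynomial.idealOfVars (Fin n) k ^ m).map (pc k n) ≤
        RingHom.ker (MvPowerSeries.truncTotalAlgHom (Fin n) k m).toRingHom :=
      Ideal.map_le_iff_le_comap.mpr fun s hs => (hT s).trans (Ideal.Quotient.eq_zero_iff_mem.mpr hs)
    rw [← Ideal.map_pow] at ha
    exact Ideal.Quotient.eq_zero_iff_mem.mp ((hT a).symm.trans (this ha))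

lemma pc_comap : (maximalIdeal _).comap (pc k n) = MvPolynomial.idealOfVars (Fin n) k :=
  le_antisymm (fun a ha => by
    simpa using (pc_dn k n).inj 1 a (by rwa [pow_one, pc_map])) (pc_map k n ▸ Ideal.le_comap_map)

instance vars_prime : (MvPolynomial.idealOfVars (Fin n) k).IsPrime :=
  pc_comap k n ▸ Ideal.comap_isPrime _ _

/-- The local ring of affine space at the origin. -/
abbrev Lc : Type u := Localization.AtPrime (MvPolynomial.idealOfVars (Fin n) k)

/-- The map from the local ring at the origin to the power series ring. -/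
noncomputable def lc : Lc k n →+* MvPowerSeries (Fin n) k :=
  IsLocalization.lift (M := (MvPolynomial.idealOfVars (Fin n) k).primeCompl) (g := pc k n)
    fun s => by
      by_contra e
      exact s.2 ((pc_comap k n).le e)

lemma lc_alg (a : MvPolynomial (Fin n) k) : lc k n (algebraMap _ _ a) = pc k n a :=
  IsLocalization.lift_eq _ a

lemma lc_map : (maximalIdeal (Lc k n)).map (lc k n) = maximalIdeal _ := by
  rw [← Localization.AtPrime.map_eq_maximalIdeal, Ideal.map_map, ← pc_map]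
  exact congrArg (Ideal.map · _) (RingHom.ext (lc_alg k n))

lemma lc_dn : Dn (lc k n) (maximalIdeal (Lc k n)) := by
  constructor
  · intro b
    obtain ⟨a, ha⟩ := (pc_dn k n).sur b
    exact ⟨algebraMap _ _ a, by rwa [lc_alg, lc_map, ← pc_map]⟩
  · intro m a ha
    obtain ⟨⟨p, s⟩, e⟩ := IsLocalization.surj (MvPolynomial.idealOfVars (Fin n) k).primeCompl a
    have h1 := (pc_dn k n).inj m p (by
      rw [← lc_alg, ← e, map_mul, pc_map, ← lc_map]
      exact Ideal.mul_mem_right _ _ ha)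
    rw [← Ideal.mul_unit_mem_iff_mem _ (IsLocalization.map_units (Lc k n) s), e,
      ← Localization.AtPrime.map_eq_maximalIdeal, ← Ideal.map_pow]
    exact Ideal.mem_map_of_mem _ h1

end Pool.Agent.Lib.MP_a966df_ag
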