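import Pool.Agent.Lib.MP_a966df_ag.CxS

namespace Pool.Agent.Lib.MP_a966df_ag

open MvPolynomial

universe u

variable (k : Type u) [Field k]

/-- The equation of the open part where the first coordinate is invertible. -/
noncomputable def hH : Polynomial (MvPolynomial (Fin 3) k) :=
  .C (-(X 0 ^ 2 * X 1 ^ 3)) * .X + .C (X 2 * (X 1 - X 0 ^ 2 * X 2))

lemma hH_prime : Prime (hH k) := by
  have key : ∀ (i : Fin 3) (pt : Fin 3 → k), pt i = 0 → pt 2 * (pt 1 - pt 0 ^ 2 * pt 2) ≠ 0 →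
      IsRelPrime (X i : MvPolynomial (Fin 3) k) (X 2 * (X 1 - X 0 ^ 2 * X 2)) :=
    fun i pt h1 h2 => X_prime.irreducible.isRelPrime_iff_not_dvd.mpr fun h => h2 (by
      simpa [h1] using map_dvd (eval pt) h)
  refine (Polynomial.irreducible_C_mul_X_add_C (by simp) ?_).prime
  exact ((key 0 ![0, 1, 1] rfl (by simp)).pow_left.mul_left
    (key 1 ![1, 0, 1] rfl (by simp)).pow_left).neg_left

lemma exists_field {D : Type u} [CommRing D] {a : D} (h : Prime a) :
    ∃ (Q : Type u) (_ : Field Q) (σ : D →+* Q), ∀ d, σ d = 0 ↔ a ∣ d :=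
  have := (Ideal.span_singleton_prime h.ne_zero).mpr h
  ⟨FractionRing (D ⧸ Ideal.span {a}), inferInstance,
    (algebraMap (D ⧸ Ideal.span {a}) _).comp (Ideal.Quotient.mk _), fun _ =>
      (map_eq_zero_iff _ (IsFractionRing.injective (D ⧸ Ideal.span {a}) _)).trans
        (Ideal.Quotient.eq_zero_iff_mem.trans Ideal.mem_span_singleton)⟩

lemma exists_prime {x y z u v w F g : MvPolynomial (Fin 5) k} (hx : x = X 0) (hy : y = X 1)
    (hz : z = X 2) (hu : u = X 3) (hv : v = X 4) (hw : w = x * z - y * y)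
    (hg : g = u * z - v * y) (hF : F = u * y - v * x + y * (u * u + x * w ^ 3)) :
    ∃ P : Ideal (MvPolynomial (Fin 5) k), P.IsPrime ∧ Ideal.ofList [F, g] ≤ P ∧
      ∀ a ∈ P, ∃ n : ℕ, x ^ n * a ∈ Ideal.ofList [F, g] := by
  obtain ⟨Q, _, σ, hσ⟩ := exists_field (hH_prime k)
  have h0 : σ .X ≠ 0 := fun e => by
    simpa [hH] using map_dvd (Polynomial.eval₂RingHom (eval fun _ => (0 : k)) 1) ((hσ _).mp e)
  have hH0 := (hσ _).mpr dvd_rfl
  simp only [hH, map_add, map_mul, map_neg, map_pow, map_sub] at hH0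
  obtain ⟨ξ, hξ⟩ : ∃ ξ, ξ = σ .X := ⟨_, rfl⟩
  obtain ⟨η, hη⟩ : ∃ η, η = σ (.C (X 0)) := ⟨_, rfl⟩
  obtain ⟨ω, hω⟩ : ∃ ω, ω = σ (.C (X 1)) := ⟨_, rfl⟩
  obtain ⟨μ, hμ⟩ : ∃ μ, μ = σ (.C (X 2)) := ⟨_, rfl⟩
  rw [← hξ, ← hη, ← hω, ← hμ] at hH0
  rw [← hξ] at h0
  let ψ : MvPolynomial (Fin 5) k →+* Q := eval₂Hom (σ.comp (Polynomial.C.comp C))
    ![ξ, η, (ω + η * η) / ξ, μ, (μ + (μ * μ + ξ * ω ^ 3)) * η / ξ]
  have e0 : ψ x = ξ := hx ▸ eval₂Hom_X' _ _ _
  have e1 : ψ y = η := hy ▸ eval₂Hom_X' _ _ _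
  have e2 : ψ z = (ω + η * η) / ξ := hz ▸ eval₂Hom_X' _ _ _
  have e3 : ψ u = μ := hu ▸ eval₂Hom_X' _ _ _
  have e4 : ψ v = (μ + (μ * μ + ξ * ω ^ 3)) * η / ξ := hv ▸ eval₂Hom_X' _ _ _
  have e5 : ψ w = ω := by
    rw [hw, map_sub, map_mul, map_mul, e0, e1, e2]
    field_simp
    ring
  let ι : Polynomial (MvPolynomial (Fin 3) k) →+* MvPolynomial (Fin 5) k :=
    Polynomial.eval₂RingHom (eval₂Hom C ![y, w, u]) x
  have i0 : ι .X = x := Polynomial.eval₂_X _ _
  have i1 : ι (.C (X 0)) = y := (Polynomial.eval₂_C _ _).trans (eval₂Hom_X' _ _ _)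
  have i2 : ι (.C (X 1)) = w := (Polynomial.eval₂_C _ _).trans (eval₂Hom_X' _ _ _)
  have i3 : ι (.C (X 2)) = u := (Polynomial.eval₂_C _ _).trans (eval₂Hom_X' _ _ _)
  have i4 : ∀ c, ι (.C (C c)) = C c := fun c => (Polynomial.eval₂_C _ _).trans (eval₂Hom_C _ _ _)
  have hc : ψ.comp ι = σ := by
    refine Polynomial.ringHom_ext' (ringHom_ext (fun c => ?_) fun i => ?_) ?_
    · exact (congrArg ψ (i4 c)).trans (eval₂Hom_C _ _ _)
    · fin_cases i
      · exact (congrArg ψ i1).trans (e1.trans hη)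
      · exact (congrArg ψ i2).trans (e5.trans hω)
      · exact (congrArg ψ i3).trans (e3.trans hμ)
    · exact (congrArg ψ i0).trans (e0.trans hξ)
  have hι : ι (hH k) ∈ Ideal.ofList [F, g] := by
    simp only [hH, map_add, map_mul, map_neg, map_pow, map_sub, i0, i1, i2, i3]
    exact m2.mpr ⟨-y, x, by linear_combination y * hF - x * hg + u * hw⟩
  have red : ∀ a, ∃ (n : ℕ) (d : _), x ^ n * a - ι d ∈ Ideal.ofList [F, g] := fun a => by
    induction a using MvPolynomial.induction_on with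
    | C c => exact ⟨0, .C (C c), by simp [i4]⟩
    | add p q hp hq =>
      obtain ⟨m, d, e⟩ := hp
      obtain ⟨n, d', e'⟩ := hq
      refine ⟨m + n, .X ^ n * d + .X ^ m * d', ?_⟩
      convert add_mem (Ideal.mul_mem_left _ (x ^ n) e) (Ideal.mul_mem_left _ (x ^ m) e') using 1
      simp only [map_add, map_mul, map_pow, i0]
      ring
    | mul_X p i hp =>
      obtain ⟨m, d, e⟩ := hp
      obtain ⟨c, e'⟩ : ∃ c, x * X i - ι c ∈ Ideal.ofList [F, g] := by
        fin_cases i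
        · exact ⟨.X * .X, by simp [i0, hx]⟩
        · exact ⟨.X * .C (X 0), by
            rw [map_mul, i0, i1, hy]; exact (sub_self (x * X 1)).symm ▸ zero_mem _⟩
        · refine ⟨.C (X 1) + .C (X 0) * .C (X 0), m2.mpr ⟨0, 0, ?_⟩⟩
          simp only [map_add, map_mul, i1, i2]
          exact (show X ((fun i => i) _) = z from hz.symm) ▸ (by linear_combination -hw)
        · exact ⟨.X * .C (X 2), by
            rw [map_mul, i0, i3, hu]; exact (sub_self (x * X 3)).symm ▸ zero_mem _⟩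
        · refine ⟨(.C (X 2) + (.C (X 2) * .C (X 2) + .X * .C (X 1) ^ 3)) * .C (X 0),
            m2.mpr ⟨-1, 0, ?_⟩⟩
          simp only [map_add, map_mul, map_pow, i0, i1, i2, i3]
          exact (show X ((fun i => i) _) = v from hv.symm) ▸ (by linear_combination hF)
      refine ⟨m + 1, d * c, ?_⟩
      convert add_mem (Ideal.mul_mem_left _ (x * X i) e) (Ideal.mul_mem_left _ (ι d) e') using 1
      rw [map_mul]
      ring
  have hle : Ideal.ofList [F, g] ≤ RingHom.ker ψ := fun a ha => by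
    obtain ⟨p, q, rfl⟩ := m2.mp ha
    have f1 : ψ F = 0 := by
      simp only [hF, map_add, map_mul, map_pow, map_sub, e0, e1, e3, e4, e5]
      field_simp
      ring
    have f2 : ψ g = 0 := by
      simp only [hg, map_mul, map_sub, e1, e2, e3, e4]
      field_simp
      linear_combination hH0
    rw [RingHom.mem_ker, map_add, map_mul, map_mul, f1, f2, mul_zero, mul_zero, add_zero]
  refine ⟨RingHom.ker ψ, RingHom.ker_isPrime ψ, hle, fun a ha => ?_⟩
  obtain ⟨n, d, e⟩ := red a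
  have : ι d ∈ RingHom.ker ψ := by
    simpa using sub_mem (Ideal.mul_mem_left _ (x ^ n) ha) (hle e)
  obtain ⟨c, rfl⟩ := (hσ d).mp (hc ▸ this)
  refine ⟨n, ?_⟩
  simpa using add_mem e (Ideal.mul_mem_right (ι c) _ hι)

end Pool.Agent.Lib.MP_a966df_ag
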