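import Pool.Agent.Lib.MP_a966df_ag.CxMod

namespace Pool.Agent.Lib.MP_a966df_ag

open IsLocalRing

universe u

/-- The facts used about a ring with relations `U y = v x`, `u z = v y`. -/
structure Gx {R : Type u} [CommRing R] (x y z u U v : R) : Prop where
  r1 : U * y = v * x
  r2 : u * z = v * y
  yreg : ∀ t, y * t = 0 → t = 0
  xv : ∀ t a, (x - v) * t = a * y → ∃ b, t = b * y
  uN : ∀ t a b c, u * t = a * x + b * y + c * z → ∃ a b c, t = a * x + b * y + c * z
  vN : ∀ t a b c, v * t = a * x + b * y + c * z → ∃ a b c, t = a * x + b * y + c * z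
  nx : ∀ a, y ≠ a * x
  ny : ∀ a, x ≠ a * y
  nz : ∀ a, y ≠ a * z
  hU : ∃ e c, IsUnit e ∧ U = u * e + c * x

variable {R : Type u} [CommRing R] {x y z u U v : R}

lemma Gx.cancel (h : Gx x y z u U v) {s t : R} (e : y * s = y * t) : s = t :=
  sub_eq_zero.mp (h.yreg _ (by rw [mul_sub, e, sub_self]))

lemma Gx.exists_psi (h : Gx x y z u U v) : ∃ ψ : (Ideal.span {x, y, z} : Ideal R) →ₗ[R] R,
    ∀ n, y * ψ n = u * v * n := by
  have : ∀ n : (Ideal.span {x, y, z} : Ideal R), ∃ s, y * s = u * v * n := fun n => by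
    obtain ⟨a, b, c, e⟩ := mem3.mp n.2
    exact ⟨a * u * U + b * u * v + c * v * v, by
      rw [e]; linear_combination a * u * h.r1 - c * v * h.r2⟩
  choose s hs using this
  refine ⟨⟨⟨s, fun m n => h.cancel ?_⟩, fun r n => h.cancel ?_⟩, hs⟩
  · rw [mul_add, hs, hs, hs, Submodule.coe_add, mul_add]
  · simp only [RingHom.id_apply, smul_eq_mul]
    rw [mul_left_comm, hs, hs, Submodule.coe_smul, smul_eq_mul]
    ring

lemma Gx.reflexive (h : Gx x y z u U v) :
    Module.IsReflexive R (Ideal.span {x, y, z} : Ideal R) := by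
  refine ⟨fun m n e => Subtype.ext (LinearMap.congr_fun e (Submodule.subtype _)), fun Φ => ?_⟩
  have key : ∀ φ, y * Φ φ = φ (yN x y z) * Φ (Submodule.subtype _) := fun φ => by
    rw [← smul_eq_mul, ← smul_eq_mul, ← map_smul, ← map_smul]
    refine congrArg Φ (LinearMap.ext fun n => ?_)
    simpa [mul_comm] using dual_y φ n
  obtain ⟨ψ, hψ⟩ := h.exists_psi
  have e1 : ψ (yN x y z) = u * v := h.cancel ((hψ _).trans (mul_comm _ _))
  obtain ⟨a, b, c, e2⟩ := h.uN (v * Φ (Submodule.subtype _)) 0 (Φ ψ) 0 (by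
    linear_combination -key ψ - Φ (Submodule.subtype _) * e1)
  refine ⟨⟨Φ (Submodule.subtype _), mem3.mpr (h.vN _ a b c e2)⟩, LinearMap.ext fun φ => ?_⟩
  refine h.cancel ?_
  rw [Module.Dual.eval_apply, dual_y, key, mul_comm]

lemma Gx.end_bij (h : Gx x y z u U v) : Function.Bijective
    (LinearMap.toSpanSingleton R ((Ideal.span {x, y, z} : Ideal R) →ₗ[R]
      (Ideal.span {x, y, z} : Ideal R)) LinearMap.id) := by
  constructor
  · intro r s e
    have := congrArg Subtype.val (LinearMap.congr_fun e (yN x y z))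
    exact h.cancel (by simpa [yN, mul_comm] using this)
  · intro φ
    have key : ∀ n, y * (φ n : R) = n * (φ (yN x y z) : R) :=
      dual_y ((Submodule.subtype _).comp φ)
    generalize (φ (yN x y z) : R) = a at key
    have k1 := key ⟨x, mem3.mpr ⟨1, 0, 0, by ring⟩⟩
    have k2 := key ⟨z, mem3.mpr ⟨0, 0, 1, by ring⟩⟩
    obtain ⟨α, β, γ, e⟩ := mem3.mp (φ ⟨z, mem3.mpr ⟨0, 0, 1, by ring⟩⟩).2
    rw [e] at k2
    generalize (φ ⟨x, mem3.mpr ⟨1, 0, 0, by ring⟩⟩ : R) = s at k1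
    simp only at k1 k2
    have k0 : v * a = u * (α * x + β * y + γ * z) := h.cancel (by
      linear_combination -u * k2 - a * h.r2)
    have k3 : v * v * v * a = v * (α * u * U + β * u * v + γ * v * v) * y := by
      linear_combination v * v * k0 - α * u * v * h.r1 + γ * v * v * h.r2
    obtain ⟨b1, e1⟩ := h.xv ((x - v) * ((x - v) * a))
      ((x * x - 3 * x * v + 3 * v * v) * s - v * (α * u * U + β * u * v + γ * v * v)) (by
        linear_combination (-(x * x - 3 * x * v + 3 * v * v)) * k1 - k3)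
    obtain ⟨b2, e2⟩ := h.xv _ _ e1
    obtain ⟨r, e3⟩ := h.xv _ _ e2
    refine ⟨r, LinearMap.ext fun n => Subtype.ext (h.cancel ?_)⟩
    rw [key, e3]
    simp only [LinearMap.toSpanSingleton_apply, LinearMap.smul_apply, LinearMap.id_apply,
      Submodule.coe_smul, smul_eq_mul]
    ring

lemma Gx.not_free [IsLocalRing R] (h : Gx x y z u U v) :
    ¬ Module.Free R (Ideal.span {x, y, z} : Ideal R) := by
  intro hf
  have : (Ideal.span {x, y, z} : Ideal R).IsPrincipal :=
    (Submodule.rank_le_one_iff_isPrincipal _).mp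
      ((Submodule.rank_le _).trans (Module.rank_self R).le)
  obtain ⟨g, hg⟩ := this
  have hm : ∀ t, (∃ a b c, t = a * x + b * y + c * z) ↔ ∃ a, a * g = t := fun t => by
    rw [← mem3, hg]
    exact Ideal.mem_span_singleton'
  obtain ⟨a, ha⟩ := (hm x).mp ⟨1, 0, 0, by ring⟩
  obtain ⟨b, hb⟩ := (hm y).mp ⟨0, 1, 0, by ring⟩
  obtain ⟨c, hc⟩ := (hm z).mp ⟨0, 0, 1, by ring⟩
  obtain ⟨α, β, γ, e⟩ := (hm g).mpr ⟨1, one_mul g⟩
  have e1 : α * a + β * b + γ * c = 1 := h.cancel (by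
    linear_combination (1 - α * a - β * b - γ * c) * hb - b * e + b * α * ha + b * β * hb
      + b * γ * hc)
  have hu : IsUnit (α * a + β * b + γ * c) := e1 ▸ isUnit_one
  rcases isUnit_or_isUnit_of_isUnit_add hu with hu | hu
  · rcases isUnit_or_isUnit_of_isUnit_add hu with hu | hu
    · obtain ⟨d, hd⟩ := (isUnit_of_mul_isUnit_right hu).exists_left_inv
      exact h.nx (b * d) (by linear_combination -hb - b * g * hd + b * d * ha)
    · obtain ⟨d, hd⟩ := (isUnit_of_mul_isUnit_right hu).exists_left_inv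
      exact h.ny (a * d) (by linear_combination -ha - a * g * hd + a * d * hb)
  · obtain ⟨d, hd⟩ := (isUnit_of_mul_isUnit_right hu).exists_left_inv
    exact h.nz (b * d) (by linear_combination -hb - b * g * hd + b * d * hc)

lemma Gx.locFree [IsLocalRing R] (h : Gx x y z u U v)
    (hm : ∀ t ∈ maximalIdeal R, ∃ a b c d e, t = a * x + b * y + c * z + d * u + e * v) :
    LocFree R (Ideal.span {x, y, z} : Ideal R) := by
  refine ⟨1, fun p hp => ?_⟩
  have hx : x ∈ (Ideal.span {x, y, z} : Ideal R) := mem3.mpr ⟨1, 0, 0, by ring⟩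
  have hz : z ∈ (Ideal.span {x, y, z} : Ideal R) := mem3.mpr ⟨0, 0, 1, by ring⟩
  have hy := (yN x y z).2
  by_cases h1 : x ∈ p.asIdeal
  swap
  · exact loc_of hy h.yreg _ h1 hx fun n _ => ⟨n, mul_comm _ _⟩
  by_cases h2 : y ∈ p.asIdeal
  swap
  · exact loc_of hy h.yreg _ h2 hy fun n _ => ⟨n, mul_comm _ _⟩
  by_cases h3 : z ∈ p.asIdeal
  swap
  · exact loc_of hy h.yreg _ h3 hz fun n _ => ⟨n, mul_comm _ _⟩
  by_cases h4 : u ∈ p.asIdeal
  swap
  · obtain ⟨e, c, he, hU⟩ := h.hU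
    have h6 : U ∉ p.asIdeal := fun h6 => h4 ((Ideal.mul_unit_mem_iff_mem _ he).mp (by
      simpa [hU] using sub_mem h6 (Ideal.mul_mem_left _ c h1)))
    refine loc_of hy h.yreg _ (s := u * U) (fun e => (p.2.mem_or_mem e).elim h4 h6) hx
      fun n hn => ?_
    obtain ⟨a, b, c, rfl⟩ := mem3.mp hn
    exact ⟨a * u * U + b * u * v + c * v * v, by
      linear_combination (b * u + c * v) * h.r1 + c * U * h.r2⟩
  by_cases h5 : v ∈ p.asIdeal
  swap
  · refine loc_of hy h.yreg _ (s := v * v) (fun e => h5 ((p.2.mem_or_mem e).elim id id)) hz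
      fun n hn => ?_
    obtain ⟨a, b, c, rfl⟩ := mem3.mp hn
    exact ⟨a * u * U + b * u * v + c * v * v, by
      linear_combination (-(a * U + b * v)) * h.r2 - a * v * h.r1⟩
  refine absurd ((le_maximalIdeal p.2.ne_top).antisymm fun t ht => ?_) hp
  obtain ⟨a, b, c, d, e, rfl⟩ := hm t ht
  exact add_mem (add_mem (add_mem (add_mem (Ideal.mul_mem_left _ _ h1) (Ideal.mul_mem_left _ _ h2))
    (Ideal.mul_mem_left _ _ h3)) (Ideal.mul_mem_left _ _ h4)) (Ideal.mul_mem_left _ _ h5)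

end Pool.Agent.Lib.MP_a966df_ag
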