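import Pool.Agent.Lib.MP_a966df_ag.CxS
import Pool.Agent.Lib.MP_a966df_ag.DxMod

namespace Pool.Agent.Lib.MP_a966df_ag

universe u

variable {S : Type u} [CommRing S] {x y z u v w g F : S}

lemma W5.shift {a b f : S} (h : W5 y a b f g) (d : S) : W5 y a b (f + y * d) g :=
  ⟨h.c0, h.c1, h.c2, fun t p q r e => h.c3 t (p - d * t) q r (by linear_combination e),
    fun t p q r s e => by
      obtain ⟨p, q, r, s, e⟩ := h.c4 t (p + s * d) q r s (by linear_combination e)
      exact ⟨p - s * d, q, r, s, by linear_combination e⟩⟩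

lemma xreg (h : Pm x y z u v) (hu : IsUnit (1 + u)) (hg : g = u * z - v * y)
    (hF : F = u * y - v * x + y * (u * u + x * w ^ 3)) (t : S)
    (ht : x * t ∈ Ideal.ofList [F, g]) : t ∈ Ideal.ofList [F, g] := by
  have P : ∀ {a b c d e : S}, [a, b, c, d, e].Perm [x, y, z, u, v] → W5 a b c d e := h _ _ _ _ _
  have xyzuv : W5 x y z u v := P (.refl _)
  have xyuzv : W5 x y u z v := P (.cons _ (.cons _ (.swap _ _ _)))
  have xuyzv : W5 x u y z v := P (.cons _ (List.perm_append_comm (l₁ := [u]) (l₂ := [y, z])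
    |>.append_right [v]))
  have xuvyz : W5 x u v y z := P (.cons _ (List.perm_append_comm (l₁ := [u, v]) (l₂ := [y, z])))
  obtain ⟨α, β, e⟩ := m2.mp ht
  obtain ⟨p, q, e1⟩ := xyzuv.c2 (u * β) (t + α * v) (β * v - α * (u + (u * u + x * w ^ 3)))
    (by linear_combination -e - α * hF - β * hg)
  obtain ⟨p, q, e2⟩ := xyuzv.c2 β p q e1
  obtain ⟨s, e3⟩ := xyzuv.c1 (α * (u + (u * u + x * w ^ 3)) + q * g) (t - p * g + α * v)
    (by linear_combination -e - α * hF - g * e2)
  have e4 : t - p * g + α * v - y * s = 0 := xyzuv.c0 _ (by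
    linear_combination e + α * hF + g * e2 + y * e3)
  obtain ⟨a, b, e5⟩ := xuyzv.c2 (v * q) (α * w ^ 3 - s) (α * (1 + u) + q * z)
    (by linear_combination -e3 + q * hg)
  obtain ⟨a, b, e6⟩ := xuvyz.c2 q a b e5
  obtain ⟨c, e7⟩ := xuyzv.c1 (α * (1 + u) + b * g) (s - α * w ^ 3 - a * g)
    (by linear_combination e3 - g * e6)
  have e8 : s - (c * u + α * w ^ 3 + a * g) = 0 := xyzuv.c0 _ (by
    linear_combination -e3 + g * e6 + u * e7)
  rw [← Ideal.mul_unit_mem_iff_mem _ hu]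
  exact m2.mpr ⟨c, (1 + u) * (p + y * a) + b * v - b * y * w ^ 3, by
    linear_combination (1 + u) * e4 + (1 + u) * y * e8 + (y * w ^ 3 - v) * e7 - c * hF⟩

theorem gx_of {R : Type u} [CommRing R] (π : S →+* R) (hπ : Function.Surjective π)
    (hg : g = u * z - v * y) (hF : F = u * y - v * x + y * (u * u + x * w ^ 3))
    (hk : ∀ s, π s = 0 ↔ s ∈ Ideal.ofList [F, g]) (h : Pm x y z u v) (hu : IsUnit (1 + u))
    (h0 : ∀ a b c d e : S, 1 ≠ a * x + b * y + c * z + d * u + e * v)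
    (hs : W5 F g y (x - v) (z - u)) :
    Gx (π x) (π y) (π z) (π u) (π (u + (u * u + x * w ^ 3))) (π v) := by
  have he : ∀ s t, π s = π t ↔ ∃ p q, s = t + p * F + q * g := fun s t => by
    rw [← sub_eq_zero, ← map_sub, hk, m2]
    exact exists₂_congr fun p q => ⟨fun e => by linear_combination e, fun e => by
      linear_combination e⟩
  have P : ∀ {a b c d e : S}, [a, b, c, d, e].Perm [x, y, z, u, v] → W5 a b c d e := h _ _ _ _ _
  have xyzuv : W5 x y z u v := P (.refl _)
  have xyzvu : W5 x y z v u := P (.cons _ (.cons _ (.cons _ (.swap _ _ _))))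
  have uvxyz : W5 u v x y z := P (List.perm_append_comm (l₁ := [u, v]) (l₂ := [x, y, z]))
  have uvyxz : W5 u v y x z := P ((List.Perm.cons _ (.cons _ (.swap _ _ _))).trans
    (List.perm_append_comm (l₁ := [u, v]) (l₂ := [x, y, z])))
  have vuzyx : W5 v u z y x := h.symm _ _ _ _ _
    (List.perm_append_comm (l₁ := [v, u]) (l₂ := [z, y, x]))
  refine ⟨?_, ?_, ?_, ?_, ?_, ?_, ?_, ?_, ?_,
    ⟨π (1 + u), π (w ^ 3), hu.map π, by simp only [map_add, map_mul, map_one]; ring⟩⟩
  all_goals simp only [hπ.forall, hπ.exists, ← map_mul, ← map_add, ← map_sub]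
  · exact (he _ _).mpr ⟨1, 0, by linear_combination -hF⟩
  · exact (he _ _).mpr ⟨0, 1, by linear_combination -hg⟩
  · intro t e
    obtain ⟨p, q, e⟩ := m2.mp ((hk _).mp e)
    exact (hk _).mpr (m2.mpr (hs.c2 t p q e))
  · intro t a e
    obtain ⟨p, q, e⟩ := (he _ _).mp e
    obtain ⟨p, q, r, e⟩ := hs.c3 t p q a (by linear_combination e)
    exact ⟨r, (he _ _).mpr ⟨p, q, by linear_combination e⟩⟩
  · intro t a b c e
    obtain ⟨p, q, e⟩ := (he _ _).mp e
    obtain ⟨a, b, c, e⟩ := xyzuv.c3 t (a - p * v) (b + p * (u + (u * u + x * w ^ 3)) - q * v)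
      (c + q * u) (by linear_combination e + p * hF + q * hg)
    exact ⟨a, b, c, congrArg π e⟩
  · intro t a b c e
    obtain ⟨p, q, e⟩ := (he _ _).mp e
    obtain ⟨a, b, c, e⟩ := xyzvu.c3 t (a - p * v) (b + p * (u + (u * u + x * w ^ 3)) - q * v)
      (c + q * u) (by linear_combination e + p * hF + q * hg)
    exact ⟨a, b, c, congrArg π e⟩
  · intro a e
    obtain ⟨p, q, e⟩ := (he _ _).mp e
    obtain ⟨b, c, d, e⟩ := uvxyz.c3 1 (p * (y + y * u) + q * z) (-(p * x + q * y))
      (a + p * y * w ^ 3) (by linear_combination e + p * hF + q * hg)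
    exact h0 d 0 0 b c (by linear_combination e)
  · intro a e
    obtain ⟨p, q, e⟩ := (he _ _).mp e
    obtain ⟨b, c, d, e⟩ := uvyxz.c3 1 (p * (y + y * u) + q * z) (-(p * x + q * y))
      (a + p * x * w ^ 3) (by linear_combination e + p * hF + q * hg)
    exact h0 0 d 0 b c (by linear_combination e)
  · intro a e
    obtain ⟨p, q, e⟩ := (he _ _).mp e
    obtain ⟨b, c, d, e⟩ := vuzyx.c3 (1 - p * x * w ^ 3) (-(p * x + q * y))
      (p * (y + y * u) + q * z) a (by linear_combination e + p * hF + q * hg)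
    exact h0 (p * w ^ 3) 0 d c b (by linear_combination e)

end Pool.Agent.Lib.MP_a966df_ag
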