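import Pool.Agent.Lib.MP_a966df_ag.CxMain
import Pool.Agent.Lib.MP_a966df_ag.DxS
import Pool.Agent.Lib.MP_a966df_ag.DxCls
import Pool.Agent.Lib.MP_a966df_ag.DxCpl
import Pool.Agent.Lib.MP_a966df_ag.DxDom

namespace Pool.Agent.Lib.MP_a966df_ag

open IsLocalRing RingTheory.Sequence

universe u

section

variable {S : Type u} [CommRing S] [IsLocalRing S] [IsNoetherianRing S] {x y z u v w g F : S}

lemma dx_seq (hm : Ideal.ofList [x, y, z, u, v] = maximalIdeal S) (hd : ringKrullDim S = 5)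
    (hg : g = u * z - v * y) (hF : F = u * y - v * x + y * (u * u + x * w ^ 3)) :
    (∀ r ∈ [F, g] ++ [y, x - v, z - u], r ∈ maximalIdeal S) ∧
      IsWeaklyRegular S ([F, g] ++ [y, x - v, z - u]) := by
  have mm : ∀ {t}, t ∈ maximalIdeal S ↔ ∃ p q r s o, t = p * x + q * y + r * z + s * u + o * v :=
    fun {t} => by rw [← hm, m5]
  have g1 : Ideal.ofList [y, x - v, z - u, v, u] = maximalIdeal S := by
    ext t
    rw [mm, m5]
    exact ⟨fun ⟨p, q, r, s, o, e⟩ => ⟨q, p, r, o - r, s - q, by linear_combination e⟩,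
      fun ⟨p, q, r, s, o, e⟩ => ⟨q, p, r, o + p, s + r, by linear_combination e⟩⟩
  have h : ([F, g] ++ [y, x - v, z - u]).Forall (· ∈ maximalIdeal S) :=
    ⟨mm.mpr ⟨-v, u + (u * u + x * w ^ 3), 0, 0, 0, by linear_combination hF⟩,
      mm.mpr ⟨0, -v, u, 0, 0, by linear_combination hg⟩, mm.mpr ⟨0, 1, 0, 0, 0, by ring⟩,
      mm.mpr ⟨1, 0, 0, 0, -1, by ring⟩, mm.mpr ⟨0, 0, 1, -1, 0, by ring⟩⟩
  rw [List.forall_iff_forall_mem] at h
  subst hF hg
  exact ⟨h, isWeaklyRegular_of_perm_of_subset_maximalIdeal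
    (w5_iff.mpr ((seq_S (w5_of g1 hd)).shift _)) (List.perm_append_comm (l₁ := [y, x - v, z - u]))
    fun r hr => h r ((List.perm_append_comm (l₁ := [y, x - v, z - u])).mem_iff.mp hr)⟩

theorem dx_main (hm : Ideal.ofList [x, y, z, u, v] = maximalIdeal S) (hd : ringKrullDim S = 5)
    (hw : w = x * z - y * y) (hg : g = u * z - v * y)
    (hF : F = u * y - v * x + y * (u * u + x * w ^ 3)) (I : Ideal S)
    (hI : I = Ideal.ofList [F, g])
    (hp : (∀ t, x * t ∈ I → t ∈ I) → I ≠ ⊤ → I.IsPrime) (N : Ideal (S ⧸ I))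
    (hN : N = Ideal.span {Ideal.Quotient.mk I x, Ideal.Quotient.mk I y, Ideal.Quotient.mk I z}) :
    ∃ _ : IsLocalRing (S ⧸ I), IsDomain (S ⧸ I) ∧
      ringKrullDim (S ⧸ I) = 3 ∧ Module.IsReflexive (S ⧸ I) N ∧
      LocFree (S ⧸ I) N ∧ ClassZero (S ⧸ I) N ∧ IsMCM (S ⧸ I) (N →ₗ[S ⧸ I] N) ∧
      ¬ Module.Free (S ⧸ I) N := by
  have mm : ∀ {t}, t ∈ maximalIdeal S ↔ ∃ p q r s o, t = p * x + q * y + r * z + s * u + o * v :=
    fun {t} => by rw [← hm, m5]
  have hP : Pm x y z u v := fun a b c d e hp => w5_of ((ofList_perm hp).trans hm) hd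
  have hx : x ∈ maximalIdeal S := mm.mpr ⟨1, 0, 0, 0, 0, by ring⟩
  have hy : y ∈ maximalIdeal S := mm.mpr ⟨0, 1, 0, 0, 0, by ring⟩
  have hz : z ∈ maximalIdeal S := mm.mpr ⟨0, 0, 1, 0, 0, by ring⟩
  have hu : u ∈ maximalIdeal S := mm.mpr ⟨0, 0, 0, 1, 0, by ring⟩
  have hv : v ∈ maximalIdeal S := mm.mpr ⟨0, 0, 0, 0, 1, by ring⟩
  have hw' : x * z - y * y ∈ maximalIdeal S := mm.mpr ⟨z, -y, 0, 0, 0, by ring⟩
  have un : ∀ t ∈ maximalIdeal S, IsUnit (1 + t) := fun t ht => by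
    simpa using isUnit_one_sub_self_of_mem_nonunits _ (neg_mem ht)
  have h0 : ∀ a b c d e : S, 1 ≠ a * x + b * y + c * z + d * u + e * v := fun a b c d e h =>
    (maximalIdeal.isMaximal S).ne_top ((Ideal.eq_top_iff_one _).mpr (mm.mpr ⟨a, b, c, d, e, h⟩))
  obtain ⟨hs0, hs'⟩ := dx_seq hm hd hg hF
  have hs := w5_iff.mp hs'
  have hW : W5 u v (x * z - y * y) x z := w5_iff.mp
    (isWeaklyRegular_of_perm_of_subset_maximalIdeal (w5_iff.mpr (seq_w (hP u v x z y
      ((List.Perm.cons _ (.cons _ (.cons _ (.swap _ _ _)))).trans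
        (List.perm_append_comm (l₁ := [u, v]) (l₂ := [x, y, z]))))))
      (.cons _ (.cons _ (List.perm_append_comm (l₁ := [x, z]))))
      (by simp [-mem_maximalIdeal, hx, hz, hu, hv, hw']))
  have hFg : ∀ r ∈ [F, g], r ∈ maximalIdeal S := fun r hr => hs0 r (List.mem_append_left _ hr)
  have hIm : I ≤ maximalIdeal S := hI ▸ Ideal.span_le.mpr hFg
  have hne := (hIm.trans_lt (maximalIdeal.isMaximal S).ne_top.lt_top).ne
  have xr : ∀ t, x * t ∈ I → t ∈ I := hI ▸ xreg hP (un u hu) hg hF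
  have := hp xr hne
  have hπ := Ideal.Quotient.mk_surjective (I := I)
  have := IsLocalRing.of_surjective' _ hπ
  have hmap := map_maximalIdeal_of_surjective _ hπ
  have hk : ∀ s, Ideal.Quotient.mk I s = 0 ↔ s ∈ Ideal.ofList [F, g] := fun s => by
    rw [Ideal.Quotient.eq_zero_iff_mem, hI]
  have G := gx_of (Ideal.Quotient.mk I) hπ hg hF hk hP (un u hu) h0 hs
  have Z := dq_main hπ hw rfl hg hF hk hP (hw ▸ hW) (fun e => hne ((Ideal.eq_top_iff_one _).mpr
    (xr 1 (by simpa using Ideal.Quotient.eq_zero_iff_mem.mp e)))) (un u hu)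
    (fun t => un _ (Ideal.mul_mem_right _ _ hy)) fun a b c e => h0 a b c 0 0 (by simpa using e)
  rw [isWeaklyRegular_append_iff] at hs'
  have hdim : ringKrullDim (S ⧸ I) = 3 := by
    have := ringKrullDim_add_length_eq_ringKrullDim_of_isRegular _
      (IsRegular.of_isWeaklyRegular_of_mem_maximalIdeal S hFg hs'.1)
    rw [hd, ← hI] at this
    refine ENat.WithBot.add_natCast_cancel.mp (this.trans ?_)
    rfl
  subst hN
  refine ⟨inferInstance, inferInstance, hdim, G.reflexive, G.locFree fun t ht => ?_,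
    classZero_of _ (Eq.trans (congrArg cq ?_) Z), ?_, G.not_free⟩
  · obtain ⟨s, hs, rfl⟩ := (Ideal.mem_map_iff_of_surjective _ hπ).mp (hmap ▸ ht)
    obtain ⟨p, q, r, s, o, rfl⟩ := mm.mp hs
    exact ⟨_, _, _, _, _, by simp only [map_add, map_mul]; rfl⟩
  · rw [← Set.image_singleton, ← Set.image_insert_eq, ← Set.image_insert_eq]
    exact congrArg _ (Set.ext fun t => by simp)
  · have e := LinearEquiv.ofBijective _ G.end_bij
    have := Module.Finite.equiv e
    have h2 : ∀ r ∈ [y, x - v, z - u].map (algebraMap S (S ⧸ I)), r ∈ maximalIdeal (S ⧸ I) := by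
      intro r hr
      obtain ⟨s, hs, rfl⟩ := List.mem_map.mp hr
      exact hmap ▸ Ideal.mem_map_of_mem _ (hs0 s (List.mem_append_right _ hs))
    refine isMCM_seq _ h2 ((e.isRegular_congr _).mp
      (.of_isWeaklyRegular_of_mem_maximalIdeal _ h2 ?_)) hdim
    rw [isWeaklyRegular_map_algebraMap_iff]
    exact ((Submodule.quotEquivOfEq _ _ (by rw [← hI, smul_eq_mul, Ideal.mul_top])
      ).isWeaklyRegular_congr _).mp hs'.2

end

lemma Dn.wr {A B : Type u} [CommRing A] [CommRing B] [IsNoetherianRing A] [IsLocalRing A]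
    {φ : A →+* B} (h : Dn φ (maximalIdeal A)) (l : List A) (hl : IsWeaklyRegular B (l.map φ)) :
    IsWeaklyRegular A l := by
  rw [wr_iff] at hl ⊢
  intro i hi t ht
  have := hl i (by simpa using hi) (φ t)
  rw [← List.map_take, ← Ideal.map_ofList, List.getElem_map, ← map_mul] at this
  exact h.contract _ (this (Ideal.mem_map_of_mem _ ht))

theorem dx_final (k : Type u) [Field k] :
    ∃ (S : Type u) (_ : CommRing S) (_ : IsRegularLocalRing S) (f g : S)
      (R : Type u) (_ : CommRing R) (_ : IsNoetherianRing R) (_ : IsLocalRing R) (_ : Algebra k R)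
      (N : Type u) (_ : AddCommGroup N) (_ : Module R N) (_ : Module.Finite R N),
      IsRegular S [f, g] ∧
      Nonempty (AdicCompletion (maximalIdeal R) R ≃+* S ⧸ Ideal.span {f, g}) ∧
      ringKrullDim R = 3 ∧ IsDomain R ∧ Algebra.EssFiniteType k R ∧
      Module.IsReflexive R N ∧ LocFree R N ∧ ClassZero R N ∧
      IsMCM R (N →ₗ[R] N) ∧ ¬ Module.Free R N := by
  have := ps_reg k 5
  have := ps_cpl k 5
  let α := algebraMap (MvPolynomial (Fin 5) k) (Lc k 5)
  obtain ⟨x, hx⟩ : ∃ x : MvPolynomial (Fin 5) k, x = .X 0 := ⟨_, rfl⟩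
  obtain ⟨y, hy⟩ : ∃ x : MvPolynomial (Fin 5) k, x = .X 1 := ⟨_, rfl⟩
  obtain ⟨z, hz⟩ : ∃ x : MvPolynomial (Fin 5) k, x = .X 2 := ⟨_, rfl⟩
  obtain ⟨u, hu⟩ : ∃ x : MvPolynomial (Fin 5) k, x = .X 3 := ⟨_, rfl⟩
  obtain ⟨v, hv⟩ : ∃ x : MvPolynomial (Fin 5) k, x = .X 4 := ⟨_, rfl⟩
  obtain ⟨w, hw⟩ : ∃ w, w = x * z - y * y := ⟨_, rfl⟩
  obtain ⟨g, hg⟩ : ∃ g, g = u * z - v * y := ⟨_, rfl⟩
  obtain ⟨F, hF⟩ : ∃ F, F = u * y - v * x + y * (u * u + x * w ^ 3) := ⟨_, rfl⟩
  have hA : Ideal.ofList [x, y, z, u, v] = MvPolynomial.idealOfVars (Fin 5) k := by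
    subst hx hy hz hu hv
    refine congrArg Ideal.span (Set.ext fun t => ?_)
    simp [Fin.exists_fin_succ, eq_comm]
  have hm : Ideal.ofList [α x, α y, α z, α u, α v] = maximalIdeal _ :=
    (Ideal.map_ofList α [x, y, z, u, v]).symm.trans
      ((congrArg _ hA).trans Localization.AtPrime.map_eq_maximalIdeal)
  let β := lc k 5
  have hm' : Ideal.ofList [β (α x), β (α y), β (α z), β (α u), β (α v)] = maximalIdeal _ :=
    (Ideal.map_ofList β [α x, α y, α z, α u, α v]).symm.trans (hm ▸ lc_map k 5)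
  have hd : ringKrullDim (Lc k 5) = 5 := by
    have := ringKrullDim_add_length_eq_ringKrullDim_of_isRegular _
      (IsRegular.of_isWeaklyRegular_of_mem_maximalIdeal _ (fun r hr => hm ▸ Ideal.subset_span hr)
        ((lc_dn k 5).wr [α x, α y, α z, α u, α v] (w5_iff.mpr (w5_of hm' (ps_dim_eq k 5)))))
    rw [hm, ringKrullDim_eq_zero_of_isField
      ((Ideal.Quotient.maximal_ideal_iff_isField_quotient _).mp inferInstance), zero_add] at this
    exact this.symm
  obtain ⟨P, hP, h1, h2⟩ := exists_prime k hx hy hz hu hv hw hg hF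
  have hI : (Ideal.ofList [F, g]).map α = Ideal.ofList [α F, α g] := Ideal.map_ofList α _
  obtain ⟨hl, h3, h4, h5⟩ := dx_main (w := α w) (g := α g) (F := α F) hm hd (by simp [hw])
    (by simp [hg]) (by simp [hF]) _ rfl (fun xr hne => by
      have key : ∀ a ∈ P, α a ∈ Ideal.ofList [α F, α g] := fun a ha => by
        obtain ⟨n, hn⟩ := h2 a ha
        have := hI ▸ Ideal.mem_map_of_mem α hn
        rw [map_mul, map_pow] at this
        clear hn
        induction n with
        | zero => simpa using this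
        | succ n ih => exact ih (xr _ (by rwa [← mul_assoc, ← pow_succ']))
      rw [show Ideal.ofList [α F, α g] = P.map α from
        le_antisymm (hI ▸ Ideal.map_mono h1) (Ideal.map_le_iff_le_comap.mpr key)]
      exact IsLocalization.isPrime_of_isPrime_disjoint
        (MvPolynomial.idealOfVars (Fin 5) k).primeCompl _ P hP (Set.disjoint_left.mpr fun a ha hb =>
          hne (Ideal.eq_top_of_isUnit_mem _ (key a hb) (IsLocalization.map_units _ ⟨a, ha⟩))))
    _ rfl
  obtain ⟨h6, h7⟩ := dx_seq (w := β (α w)) (g := β (α g)) (F := β (α F)) hm' (ps_dim_eq k 5)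
    (by simp [hg]) (by simp [hF])
  rw [isWeaklyRegular_append_iff] at h7
  have hL : Ideal.span {β (α F), β (α g)} = (Ideal.ofList [α F, α g]).map β := by
    rw [Ideal.map_ofList, List.map, List.map, List.map, Ideal.ofList_cons, Ideal.ofList_singleton,
      Ideal.span_insert]
  have D := (lc_dn k 5).quot _ _ hL (hL ▸ Ideal.le_comap_map)
  have hc := cpl (S := MvPowerSeries (Fin 5) k) (_ ⧸ Ideal.span {β (α F), β (α g)})
  rw [← lc_map, Ideal.Quotient.algebraMap_eq, Ideal.map_map,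
    ← Ideal.quotientMap_comp_mk (hL ▸ Ideal.le_comap_map), ← Ideal.map_map] at hc
  have E := D.equiv
  rw [map_maximalIdeal_of_surjective _ Ideal.Quotient.mk_surjective] at E
  have : Algebra.EssFiniteType (MvPolynomial (Fin 5) k) (Lc k 5) :=
    .of_isLocalization _ (MvPolynomial.idealOfVars (Fin 5) k).primeCompl
  have : Algebra.EssFiniteType k (Lc k 5) := .comp k (MvPolynomial (Fin 5) k) _
  exact ⟨_, _, inferInstance, _, _, _, _, inferInstance, hl, inferInstance, _, _, _, _,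
    .of_isWeaklyRegular_of_mem_maximalIdeal _ (fun r hr => h6 r (List.mem_append_left _ hr)) h7.1,
    E, h4, h3, .comp k (Lc k 5) _, h5⟩

end Pool.Agent.Lib.MP_a966df_ag
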