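import Pool.Agent.Lib.MP_a966df_ag.SelfExt
import Pool.Agent.Lib.MP_a966df_ag.Loc

namespace Pool.Agent.Lib.MP_a966df_ag

open Submodule LinearMap IsLocalRing
open Function (Injective Surjective Exact)

universe u

variable {Q : Type u} [CommRing Q] {I : Type} [Fintype I] {X : I → ModuleCat.{u} Q}
  {W A B : Type u} [AddCommGroup W] [Module Q W] [AddCommGroup A] [Module Q A] [AddCommGroup B]
  [Module Q B]

variable (X W) in
/-- Stable decomposition with multiplicities `m`. -/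
def Dc (m : I → ℕ) : Prop :=
  (∀ (Y' Y Y'' : Type u) [AddCommGroup Y'] [Module Q Y'] [AddCommGroup Y] [Module Q Y]
    [AddCommGroup Y''] [Module Q Y''] (i : Y' →ₗ[Q] Y) (p : Y →ₗ[Q] Y''), Injective i →
    Exact i p → Surjective p → Fd W p = ∑ k, m k * Fd (X k) p) ∧
  ∀ N : Submodule Q (W →ₗ[Q] W), (∀ c, SZ 0 c → c ∈ N) →
    (∀ k, 0 < m k → ∀ (a : W →ₗ[Q] X k) (b : X k →ₗ[Q] W), b ∘ₗ a ∈ N) → LinearMap.id ∈ N

lemma Fd_eqv (e : W ≃ₗ[Q] A) {Y Z : Type u} [AddCommGroup Y] [Module Q Y] [AddCommGroup Z]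
    [Module Q Z] {p : Y →ₗ[Q] Z} (hp : Surjective p) : Fd W p = Fd A p :=
  (Fd_le (g := 0) e.toLinearMap e.symm.toLinearMap (fun _ _ _ _ => Lf.zero.of_eq (by simp)) hp
    (zero_smul _)).antisymm (Fd_le (g := 0) e.symm.toLinearMap e.toLinearMap
      (fun _ _ _ _ => Lf.zero.of_eq (by simp)) hp (zero_smul _))

lemma Dc.zero (h : St (0 : Q) W 1) : Dc X W 0 :=
  ⟨fun _ Y Y'' _ _ _ _ _ _ _ p _ _ hp => by
    simpa [Fd_eq_zero] using h Y Y'' p hp (zero_smul _),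
  fun N hN _ => hN _ fun Y _ _ y Z _ _ p hp hZ => by simpa using h Z Y p hp hZ y⟩

lemma Dc.one [DecidableEq I] {k : I} (e : W ≃ₗ[Q] X k) : Dc X W (Pi.single k 1) :=
  ⟨fun _ _ _ _ _ _ _ _ _ _ p _ _ hp => by
    rw [Fd_eqv e hp, Finset.sum_eq_single k (by simp +contextual) (by simp)]
    simp,
  fun N _ hN => by simpa using hN k (by simp) e.toLinearMap e.symm.toLinearMap⟩

lemma Dc.prod {m m' : I → ℕ} (h : Dc X A m) (h' : Dc X B m') (e : W ≃ₗ[Q] A × B) :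
    Dc X W (m + m') := by
  refine ⟨fun _ _ _ _ _ _ _ _ _ i p hi he hp => ?_, fun N h1 h2 => ?_⟩
  · rw [Fd_eqv e hp, Fd_prod hi he, h.1 _ _ _ i p hi he hp, h'.1 _ _ _ i p hi he hp,
      ← Finset.sum_add_distrib]
    simp [add_mul]
  have a1 := h.2 (N.comap ((e.symm.toLinearMap ∘ₗ inl Q A B).compRight Q ∘ₗ
    lcomp Q A (.fst Q A B ∘ₗ e.toLinearMap))) (fun c hc => h1 _ (hc.comp _ _))
    fun k hk a b => h2 k (Nat.add_pos_left hk _) (a ∘ₗ .fst Q A B ∘ₗ e.toLinearMap)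
      ((e.symm.toLinearMap ∘ₗ inl Q A B) ∘ₗ b)
  have a2 := h'.2 (N.comap ((e.symm.toLinearMap ∘ₗ inr Q A B).compRight Q ∘ₗ
    lcomp Q B (.snd Q A B ∘ₗ e.toLinearMap))) (fun c hc => h1 _ (hc.comp _ _))
    fun k hk a b => h2 k (Nat.add_pos_right _ hk) (a ∘ₗ .snd Q A B ∘ₗ e.toLinearMap)
      ((e.symm.toLinearMap ∘ₗ inr Q A B) ∘ₗ b)
  exact (congrArg (· ∈ N) (LinearMap.ext fun x => by simp [← map_add])).mp (add_mem a1 a2)

lemma nak [IsNoetherianRing Q] [∀ k, Module.Finite Q (X k)] [Module.Finite Q W] (T : I → Prop)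
    (h : ∀ j, T j → (∀ u : Module.End Q (X j), IsUnit u ∨ IsUnit (1 - u)) ∧
      ∃ (E : ModuleCat.{u} Q) (α : X j →ₗ[Q] E) (m : I → ℕ), Dc X E m ∧ (∀ k, 0 < m k → T k) ∧
        Gd W α = 0 ∧ Gd (X j) α ≠ 0) (j : I) (hj : T j) (v : X j →ₗ[Q] W) : Lf 0 v := by
  have : WellFoundedGT (∀ k, Submodule Q (X k →ₗ[Q] W)) :=
    inferInstanceAs (WellFoundedLT (∀ k, (Submodule Q (X k →ₗ[Q] W))ᵒᵈ))
  suffices ∀ M : ∀ k, Submodule Q (X k →ₗ[Q] W), (∀ k v, Lf 0 v → v ∈ M k) →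
      (∀ k l (s : X l →ₗ[Q] X k), ∀ v ∈ M k, v ∘ₗ s ∈ M l) → ∀ j, T j → ∀ v, v ∈ M j from
    this (fun k => ⟨⟨⟨{v | Lf 0 v}, Lf.add⟩, Lf.zero⟩, fun c v hv =>
      (hv.pre (c • LinearMap.id)).of_eq fun x => by simp⟩) (fun _ _ h => h)
      (fun _ _ s _ hv => hv.pre s) j hj v
  intro M
  induction M using WellFoundedGT.induction with
  | _ M ih =>
  intro h1 h2 j hj v
  obtain ⟨h3, E, α, m, h4, h5, h6, h7⟩ := h j hj
  obtain ⟨w, rfl⟩ := Gd_eq_zero.mp h6 v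
  refine h4.2 ((M j).comap (w.compRight Q ∘ₗ lcomp Q E α)) (fun c hc => h1 _ _ ((hc W w).pre α))
    fun k hk a b => ?_
  by_contra h8
  obtain ⟨μ, hμ, _, ⟨s, rfl⟩, e⟩ := mem_sup.mp (ih
    (fun l => M l ⊔ range ((w ∘ₗ b ∘ₗ a ∘ₗ α).compRight (M := X l) Q))
    (Pi.lt_def.mpr ⟨fun _ => le_sup_left, j, lt_of_le_not_ge le_sup_left fun h =>
      h8 (h (mem_sup_right ⟨LinearMap.id, rfl⟩))⟩) (fun k v hv => mem_sup_left (h1 k v hv))
    (fun k l s v hv => by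
      obtain ⟨μ, hμ, _, ⟨t, rfl⟩, rfl⟩ := mem_sup.mp hv
      exact mem_sup.mpr ⟨_, h2 k l s μ hμ, _, ⟨t ∘ₗ s, rfl⟩, LinearMap.ext fun _ => rfl⟩)
    k (h5 k hk) (w ∘ₗ b))
  rcases h3 (s ∘ₗ a ∘ₗ α) with ⟨t, ht⟩ | ⟨t, ht⟩
  · exact h7 (Gd_eq_zero.mpr fun v => ⟨v ∘ₗ t.inv ∘ₗ s ∘ₗ a, LinearMap.ext fun x =>
      congrArg v (LinearMap.congr_fun (ht ▸ t.inv_val :) x)⟩)
  · refine h8 ((congrArg (· ∈ M j) (LinearMap.ext fun x => ?_)).mp
      (h2 j j t.inv _ (h2 k j (a ∘ₗ α) μ hμ)))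
    have e1 : t.inv x - s (a (α (t.inv x))) = x := LinearMap.congr_fun (ht ▸ t.val_inv :) x
    have e2 : μ _ + w (b (a (α (s _)))) = w (b _) := LinearMap.congr_fun e (a (α (t.inv x)))
    conv_rhs => rw [← e1]
    simpa using eq_sub_of_add_eq e2

variable [IsLocalRing Q]

variable (Q W) in
/-- Maximal Cohen-Macaulay modules that are locally free on the punctured spectrum. -/
def Mc : Prop := Module.Finite Q W ∧ Dp Q 4 W ∧ LS (0 : Q) W

lemma Mc.ret (h : Mc Q W) (a : A →ₗ[Q] W) (b : W →ₗ[Q] A) (e : ∀ x, b (a x) = x) : Mc Q A :=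
  have := h.1
  ⟨.of_surjective b fun x => ⟨_, e x⟩, Dp.sum (ι := Unit) (fun _ => a) (fun _ => b) (by simpa) h.2.1,
    fun c hc => (h.2.2 c hc).imp fun k hk => by simpa using hk.fac (a := 1) a b (by simpa)⟩

variable [IsNoetherianRing Q]

lemma dc_ex (h : ∀ (W : Type u) [AddCommGroup W] [Module Q W], Mc Q W → ¬ St (0 : Q) W 1 →
      (∀ A B : Submodule Q W, IsCompl A B → A = ⊥ ∨ B = ⊥) → ∃ k, Nonempty (W ≃ₗ[Q] X k))
    (hW : Mc Q W) : ∃ m, Dc X W m := by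
  classical
  have := hW.1
  suffices ∀ (N : Submodule Q W) (V : Type u) [AddCommGroup V] [Module Q V] (π : W →ₗ[Q] V),
    Surjective π → ker π = N → Mc Q V → ∃ m, Dc X V m from
      this _ W LinearMap.id Function.surjective_id rfl hW
  intro N
  induction N using WellFoundedGT.induction with
  | _ N ih =>
  rintro V _ _ π h1 rfl h2
  by_cases h3 : St (0 : Q) V 1
  · exact ⟨0, .zero h3⟩
  by_cases h4 : ∀ A B : Submodule Q V, IsCompl A B → A = ⊥ ∨ B = ⊥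
  · obtain ⟨k, ⟨e⟩⟩ := h V h2 h3 h4
    exact ⟨_, .one e⟩
  push Not at h4
  obtain ⟨A, B, h5, h6, h7⟩ := h4
  have key : ∀ A B : Submodule Q V, IsCompl A B → B ≠ ⊥ → ∃ m, Dc X A m := fun A B h5 h7 => by
    obtain ⟨y, hy, h8⟩ := (Submodule.ne_bot_iff B).mp h7
    obtain ⟨y, rfl⟩ := h1 y
    exact ih _ (lt_of_le_not_ge (ker_le_ker_comp π (A.projectionOnto B h5)) fun h => h8 (h
      (projectionOnto_apply_right h5 ⟨_, hy⟩))) A (A.projectionOnto B h5 ∘ₗ π)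
      ((projectionOnto_surjective h5).comp h1) rfl
      (h2.ret A.subtype _ (projectionOnto_apply_left h5))
  obtain ⟨m, hm⟩ := key A B h5 h7
  obtain ⟨m', hm'⟩ := key B A h5.symm h6
  exact ⟨_, hm.prod hm' (prodEquivOfIsCompl A B h5).symm⟩

theorem ft_good [IsAdicComplete (maximalIdeal Q) Q] {R' : Type u} [AddCommGroup R'] [Module Q R']
    (h1 : ∀ (W : Type u) [AddCommGroup W] [Module Q W], Mc Q W → ¬ St (0 : Q) W 1 →
      ∃ (E : ModuleCat.{u} Q) (α : W →ₗ[Q] E) (β : E →ₗ[Q] W), Injective α ∧ Exact α β ∧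
        Surjective β ∧ Gd W α ≠ 0 ∧ Gd R' α = 0 ∧ Gd Q α = 0) {n : ℕ} (V : Fin n → ModuleCat.{u} Q)
    (h2 : ∀ (W : Type u) [AddCommGroup W] [Module Q W], Mc Q W → ¬ St (0 : Q) W 1 →
      (∀ A B : Submodule Q W, IsCompl A B → A = ⊥ ∨ B = ⊥) → ∃ k, Nonempty (W ≃ₗ[Q] V k))
    (hW : Mc Q W) (f : Q) : Good f R' W := by
  let I := {k // ∃ W : ModuleCat.{u} Q, Mc Q W ∧ ¬ St (0 : Q) W 1 ∧
    (∀ A B : Submodule Q W, IsCompl A B → A = ⊥ ∨ B = ⊥) ∧ Nonempty (W ≃ₗ[Q] V k)}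
  let := Fintype.ofFinite I
  choose X x1 x2 x3 x4 using fun k : I => k.2
  have dc : ∀ (W : Type u) [AddCommGroup W] [Module Q W], Mc Q W → ∃ m, Dc X W m :=
    fun W _ _ => dc_ex fun W _ _ a b c => (h2 W a b c).elim fun k hk =>
      ⟨⟨k, .of Q W, a, b, c, hk⟩, ⟨hk.some.trans (x4 ⟨k, _⟩).some.symm⟩⟩
  have := fun k => (x1 k).1
  choose E α β a1 a2 a3 a4 a5 a6 using fun k => h1 _ (x1 k) (x2 k)
  have hE : ∀ k, Module.Finite Q (E k) := fun k => .of_exact (a2 k) (a3 k)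
  choose e he using fun k => dc (E k) ⟨hE k, Dp.ext (a1 k) (a2 k) (a3 k) (x1 k).2.1 (x1 k).2.1,
    (x1 k).2.2.ext (x1 k).2.2 (a1 k) (a2 k) (a3 k) (zero_smul _)⟩
  obtain ⟨m, hm⟩ := dc W hW
  choose r ρ hρ using fun k => Module.Finite.exists_fin' Q (X k)
  have f1 : ∀ k l, Fd (X k) (ρ l) ≠ ⊤ := fun k l => (x1 k).2.2.fd (hρ l) (zero_smul _)
  have f2 : ∀ j l, Gd (X l) (α j) + ∑ k, e j k * Fd (X k) (ρ l) ≤ 2 * Fd (X j) (ρ l) :=
    fun j l => by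
      have := three (a3 j) (a2 j) (ker (ρ l)).injective_subtype (ρ l).exact_subtype_ker_map
      rw [Gd_pi (a6 j), zero_add, ← two_mul, (he j).1 _ _ _ _ _ (ker (ρ l)).injective_subtype
        (ρ l).exact_subtype_ker_map (hρ l), add_assoc] at this
      exact le_add_self.trans this.ge
  obtain ⟨c, b, h3, h4⟩ := mmat e (fun k => ∑ l, (Fd (X k) (ρ l)).toNat) m fun j => by
    simp only [Finset.mul_sum]
    rw [Finset.sum_comm]
    refine Finset.sum_lt_sum (fun l _ => ?_) ⟨j, Finset.mem_univ _, ?_⟩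
    · rw [← Nat.cast_le (α := ℕ∞)]
      simpa [ENat.natCast_toNat (f1 _ _)] using le_add_self.trans (f2 j l)
    · rw [← Nat.add_one_le_iff, ← Nat.cast_le (α := ℕ∞), add_comm]
      simpa [ENat.natCast_toNat (f1 _ _)] using
        (add_le_add_left (Order.one_le_iff_ne_zero.mpr (a4 j)) _).trans (f2 j j)
  refine ⟨c, fun Y _ _ => ∑ j, b j * Gd Y (α j), h3,
    fun Y' Y Y'' _ _ _ _ _ _ i p hi hp hs _ _ => ?_, fun Y _ _ _ _ => WithTop.sum_ne_top.mpr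
      fun j _ => WithTop.mul_ne_top (ENat.natCast_ne_top _)
        ((x1 j).2.2.gd (a1 j) (a2 j) (a3 j) (zero_smul _)), by simp [a5],
    fun Y Z _ _ _ _ p hp _ _ hY v => ?_⟩
  · have f3 : ∑ j, b j * ∑ k, e j k * Fd (X k) p ≠ ⊤ := WithTop.sum_ne_top.mpr fun j _ =>
      WithTop.mul_ne_top (ENat.natCast_ne_top _) (WithTop.sum_ne_top.mpr fun k _ =>
        WithTop.mul_ne_top (ENat.natCast_ne_top _) ((x1 k).2.2.fd hs (zero_smul _)))
    refine ENat.add_left_injective_of_ne_top f3 ?_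
    beta_reduce
    have f4 : ∑ k, (2 * b k : ℕ) * Fd (X k) p =
        c * Fd W p + ∑ j, b j * ∑ k, e j k * Fd (X k) p := by
      simp only [h4, hm.1 _ _ _ i p hi hp hs, Finset.mul_sum, Nat.cast_add, Nat.cast_sum,
        Nat.cast_mul, add_mul, Finset.sum_mul, Finset.sum_add_distrib, mul_assoc]
      rw [add_comm, Finset.sum_comm]
    rw [add_assoc, ← f4, ← Finset.sum_add_distrib, ← Finset.sum_add_distrib,
      ← Finset.sum_add_distrib]
    refine Finset.sum_congr rfl fun j _ => ?_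
    rw [← (he j).1 _ _ _ i p hi hp hs, ← mul_add, ← mul_add, ← three (a3 j) (a2 j) hi hp]
    push_cast
    ring
  · have h5 : ∀ k, 0 < ∑ j, b j * e j k + c * m k → 0 < b k := fun k hk => by
      have := h4 k
      omega
    refine hm.2 (Submodule.comap (v.compRight Q) (range (p.compRight (M := W) Q)))
      (fun c hc => hc Y v Z p hp (zero_smul _)) fun k hk a b' => ?_
    exact (nak (fun j => 0 < b j) (fun j hj => ⟨loc_end (x3 j), E j, α j, e j, he j,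
      fun k hk => h5 k (Nat.add_pos_left (Finset.sum_pos' (fun _ _ => Nat.zero_le _)
        ⟨j, Finset.mem_univ _, Nat.mul_pos hj hk⟩) _), (mul_eq_zero.mp (Finset.sum_eq_zero_iff.mp hY j
          (Finset.mem_univ _))).resolve_left (by simpa using hj.ne'), a4 j⟩) k
      (h5 k (Nat.add_pos_right _ (Nat.mul_pos h3 hk))) (v ∘ₗ b')).pre a Z p hp (zero_smul _)

end Pool.Agent.Lib.MP_a966df_ag
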