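import Pool.Agent.Lib.MP_a966df_ag.Main
import Pool.Agent.Lib.MP_a966df_ag.Reg

namespace Pool.Agent.Lib.MP_a966df_ag

open Submodule LinearMap IsLocalRing RingTheory.Sequence Pointwise
open Function (Injective Surjective Exact)

universe u

variable {S : Type u} [CommRing S] {G : Type u} [AddCommGroup G] [Module S G] {g f x y z t u : S}

lemma rg_of (h : IsWeaklyRegular G [x, y]) : Rg G x y := by
  simp only [isWeaklyRegular_cons_iff] at h
  refine ⟨fun p e => h.1 (by simpa using e), fun p q e => ?_⟩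
  have r := rd x (0 : Op S G G)
  exact (r.2.1 p).mp (h.2.1 (((map_smul _ _ _).symm.trans
    ((r.2.1 _).mpr ⟨q, e.symm⟩)).trans (smul_zero y).symm))

lemma e4 : Ideal.ofList [x, y, z, t] • (⊤ : Ideal S) = I4 x y z t := by
  simp [I4, Ideal.span_insert, sup_assoc]

variable [IsLocalRing S]

lemma hyp_of (hm : Ideal.ofList [x, y, z, t, u] = maximalIdeal S)
    (hr : IsWeaklyRegular S [x, y, z, t, u]) : Hyp x y z t u := by
  obtain ⟨h1, h2⟩ := (isWeaklyRegular_append_iff S [x, y, z, t] [u]).mp hr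
  obtain ⟨h3, h4⟩ := (isWeaklyRegular_append_iff S [x, y] [z, t]).mp h1
  refine ⟨rg_of h3, rg_of (((quotEquivOfEq _ _ (by simp [Ideal.span_insert])).isWeaklyRegular_congr
    _).mp h4), fun a ha => ?_, fun a => or_iff_not_imp_left.mpr fun ha => ?_⟩
  · rw [← e4] at ha ⊢
    exact (Quotient.mk_eq_zero _).mp ((isWeaklyRegular_singleton_iff _ _).mp h2
      (((Quotient.mk_eq_zero _).mpr ha).trans (smul_zero _).symm))
  · obtain ⟨b, hb, c, hc, rfl⟩ := mem_sup.mp (show a ∈ I4 x y z t ⊔ Ideal.span {u} from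
      (by simp [← hm, Ideal.span_insert, sup_assoc] : maximalIdeal S ≤ _) ha)
    obtain ⟨c, rfl⟩ := Ideal.mem_span_singleton'.mp hc
    exact ⟨c, by simpa using hb⟩

theorem an_good [IsNoetherianRing S] (hm : Ideal.ofList [x, y, z, t, u] = maximalIdeal S)
    (hd : ((5 : ℕ) : WithBot ℕ∞) ≤ ringKrullDim S) {k : ℕ} (hg : g = u ^ (k + 1) + z * t + x * y)
    {Q : Type u} [CommRing Q] [Algebra S Q] [IsLocalRing Q] [IsNoetherianRing Q]
    (hs : Surjective (algebraMap S Q)) (hk : ∀ a, algebraMap S Q a = 0 ↔ ∃ b, g • b = a)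
    (hf : IsSMulRegular Q (algebraMap S Q f)) {R' : Type u} [AddCommGroup R'] [Module Q R']
    (π : Q →ₗ[Q] R') (hπ : Surjective π) (hk' : ∀ a, π a = 0 ↔ ∃ b, algebraMap S Q f • b = a) :
    Dp Q 4 Q ∧ ∀ (X : Type u) [AddCommGroup X] [Module Q X], Module.Finite Q X → Dp Q 4 X →
      Good (algebraMap S Q f) R' X := by
  have hr := (reg_aux 5 S _ rfl hm hd).2
  have H := hyp_of hm hr
  have m : ∀ a ∈ [x, y, z, t, u], a ∈ maximalIdeal S := fun a ha => hm ▸ Ideal.subset_span ha
  have m4 : ∀ a ∈ [x, y, z, t], a ∈ maximalIdeal S := fun a ha =>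
    m a (List.mem_append_left [u] ha)
  have g0 : algebraMap S Q g = 0 := (hk g).mpr ⟨1, mul_one g⟩
  have g1 : g - u ^ (k + 1) ∈ I4 x y z t := mem_eq (add_mem
    (mem_sup_right (Ideal.mul_mem_right (a := z) t _ (Ideal.subset_span (by simp))))
    (mem_sup_left (Ideal.mul_mem_right (a := x) y _ (Ideal.subset_span (by simp))))) (by rw [hg]; ring)
  have h5 : IsWeaklyRegular S (g :: [x, y, z, t]) := by
    refine isWeaklyRegular_of_perm_of_subset_maximalIdeal
      ((isWeaklyRegular_append_iff S [x, y, z, t] [g]).mpr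
        ⟨((isWeaklyRegular_append_iff S [x, y, z, t] [u]).mp hr).1, ?_⟩)
      (List.perm_append_singleton _ _) fun a ha => ?_
    · rw [isWeaklyRegular_singleton_iff, e4, isSMulRegular_quotient_iff_mem_of_smul_mem]
      exact fun a ha => H.pow (k + 1) (mem_eq (sub_mem ha (Ideal.mul_mem_right a _ g1))
        (by rw [smul_eq_mul]; ring))
    · rcases List.mem_append.mp ha with ha | ha
      · exact m4 a ha
      · rw [List.mem_singleton.mp ha, hg]
        exact add_mem (add_mem (Ideal.pow_mem_of_mem _ (m u (by simp)) _ k.succ_pos)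
          (Ideal.mul_mem_right _ _ (m z (by simp)))) (Ideal.mul_mem_right _ _ (m x (by simp)))
  rw [isWeaklyRegular_cons_iff] at h5
  have hq := (isWeaklyRegular_map_algebraMap_iff Q Q _).mpr
    ((((quotEquivOfEq _ _ (Submodule.ext fun a => (((rd g (0 : Op S S S)).2.1 a).symm.trans
      (Quotient.mk_eq_zero _)).symm.trans (hk a).symm)).trans
        ((Algebra.linearMap S Q).quotKerEquivOfSurjective hs)).isWeaklyRegular_congr _).mp h5.2)
  have := IsLocalHom.of_surjective _ hs
  have mq : ∀ r ∈ [x, y, z, t].map (algebraMap S Q), r ∈ maximalIdeal Q := fun r hr => by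
    obtain ⟨a, ha, rfl⟩ := List.mem_map.mp hr
    exact map_nonunit _ a (m4 a ha)
  refine ⟨Dp.of_reg mq hq, fun X _ _ _ h1 => ?_⟩
  let := Module.compHom X (algebraMap S Q)
  let := Module.compHom R' (algebraMap S Q)
  have : IsScalarTower S Q X := .of_compHom S Q X
  have : IsScalarTower S Q R' := .of_compHom S Q R'
  have : Module.Finite S Q := .of_surjective (Algebra.linearMap S Q) hs
  have : Module.Finite S X := .trans Q X
  have h2 : Dp S 4 X := Dp.of_reg m4 ((isWeaklyRegular_map_algebraMap_iff Q X _).mp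
    (Dp.reg _ mq h1 Q hq (fun a ha => ⟨k + 1, fun v => ?_⟩) 1 (fun t => ⟨t, mul_one t⟩)
      fun v => ⟨toSpanSingleton Q X v, one_smul Q v⟩))
  swap
  · obtain ⟨a, rfl⟩ := hs a
    obtain ⟨c, hc⟩ := (H.mx a).resolve_left fun h => ha (h.map _)
    have := Ideal.mem_map_of_mem (algebraMap S Q) (sub_mem
      (Ideal.mem_of_dvd _ (sub_dvd_pow_sub_pow a (c * u) (k + 1)) hc)
      (Ideal.mul_mem_left _ (c ^ (k + 1)) g1))
    rw [← e4, smul_eq_mul, Ideal.mul_top, Ideal.map_ofList] at this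
    exact smul_mem_smul (mem_eq this (by simp [g0, mul_pow])) trivial
  obtain ⟨n, ρ, hρ⟩ := Module.Finite.exists_fin' S X
  have : Module.Free S (ker ρ) := free_of_reg _ hm (Dp.reg _ m (Dp.sub (ker ρ).injective_subtype
    ρ.exact_subtype_ker_map hρ ((Dp.of_reg m hr).pi n) h2) S hr
      (fun a ha => ⟨1, fun v => smul_mem_smul (by rwa [hm, pow_one]) trivial⟩) 1
      (fun t => ⟨t, mul_one t⟩) fun v => ⟨toSpanSingleton S _ v, one_smul S v⟩)
  let j : (Fin n → S) →ₗ[S] ker ρ := (g • LinearMap.id).codRestrict _ fun v => by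
    simp [← algebraMap_smul Q g, g0]
  let e : (Fin n → S) ≃ₗ[S] ker ρ := .ofFinrankEq _ _ (le_antisymm
    (finrank_le_finrank_of_injective (f := j) fun a b e => funext fun i =>
      h5.1 (congrFun (congrArg Subtype.val e) i))
    (finrank_le_finrank_of_injective (ker ρ).injective_subtype))
  have h6 : Rg S g f := ⟨fun p e => h5.1 (by simpa using e), fun p q e => (hk p).mp (hf (by
    simpa [g0] using congrArg (algebraMap S Q) e))⟩
  refine ((H.main hg h6 (da h6 (π.restrictScalars S ∘ₗ Algebra.linearMap S Q) (hπ.comp hs)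
    fun a => (hk' _).trans ⟨?_, ?_⟩) ?_ (isWeaklyRegular_of_perm_of_subset_maximalIdeal hr ?_ m)
    (fun b => bif b then (ker ρ).subtype ∘ₗ e else e.symm ∘ₗ j) fun b v => ?_).2 X ρ
      ⟨hρ, fun v => ⟨fun h => ⟨e.symm ⟨v, h⟩, by simp⟩, ?_⟩⟩).good hs g0 _
  · rintro ⟨b, hb⟩
    obtain ⟨b, rfl⟩ := hs b
    obtain ⟨c, hc⟩ := (hk (a - f * b)).mp (by simp [← show _ = algebraMap S Q a from hb])
    exact ⟨(c, b), by simp [show g * c = _ from hc]⟩
  · rintro ⟨w, rfl⟩
    exact ⟨algebraMap S Q w.2, by simp [g0]⟩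
  · rw [← hm]
    exact congrArg Ideal.span (Set.ext fun a => by simp; tauto)
  · exact .trans (.swap ..) (.cons _ (by
      simpa using List.perm_append_comm (l₁ := [x, z]) (l₂ := [t, u])))
  · cases b
    · exact e.symm_apply_eq.mpr (Subtype.ext (by simp [j]))
    · simp [j]
  · rintro ⟨w, rfl⟩
    exact (e w).2

end Pool.Agent.Lib.MP_a966df_ag
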