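import Pool.Agent.Lib.MP_a966df_ag.FT
import Pool.Agent.Lib.MP_a966df_ag.Fin
import Pool.Agent.Lib.MP_a966df_ag.Descent

namespace Pool.Agent.Lib.MP_a966df_ag

open Submodule LinearMap IsLocalRing RingTheory.Sequence
open Function (Injective Surjective Exact)

universe u

variable {Q : Type u} [CommRing Q] [IsLocalRing Q] [IsNoetherianRing Q] {W : Type u}
  [AddCommGroup W] [Module Q W]

lemma isMCM_of [Module.Finite Q W] [Nontrivial W] {n : ℕ} (h : Dp Q n W)
    (hd : ringKrullDim Q ≤ n) : IsMCM Q W := by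
  have key : ∀ rs : List Q, IsRegular W rs → (rs.length : WithBot ℕ∞) ≤ ringKrullDim Q :=
    fun rs hr => by
      have := Submodule.Quotient.nontrivial_iff.mpr hr.2.symm
      refine le_trans ?_ (Module.supportDim_le_ringKrullDim Q W)
      rw [← Module.supportDim_add_length_eq_supportDim_of_isRegular rs hr,
        ← WithBot.coe_unbot _ (Module.supportDim_ne_bot_of_nontrivial Q _)]
      exact_mod_cast le_add_self
  obtain ⟨rs, h1, h2, h3⟩ := h.seq
  have e : ringKrullDim Q = n := hd.antisymm (h1 ▸ key rs h3)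
  rw [IsMCM, e, show depth Q W = n from le_antisymm (iSup_le fun rs => iSup₂_le fun _ hr => by
    exact_mod_cast (key rs hr).trans hd) (le_iSup_of_le rs (le_iSup₂_of_le h2 h3 (by rw [h1])))]
  rfl

theorem ft_final {S : Type u} [CommRing S] [IsRegularLocalRing S]
    [IsAdicComplete (maximalIdeal S) S] (hS : ringKrullDim S = 5) {g f : S} (hg : Rg S g f)
    [IsLocalRing (S ⧸ Ideal.span {g})] {n : ℕ} (V : Fin n → ModuleCat.{u} (S ⧸ Ideal.span {g}))
    (hV : ∀ (M : Type u) [AddCommGroup M] [Module (S ⧸ Ideal.span {g}) M]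
      [Module.Finite (S ⧸ Ideal.span {g}) M], IsMCM (S ⧸ Ideal.span {g}) M → Nontrivial M →
      (∀ A B : Submodule (S ⧸ Ideal.span {g}) M, IsCompl A B → A = ⊥ ∨ B = ⊥) →
        ∃ i, Nonempty (M ≃ₗ[S ⧸ Ideal.span {g}] V i))
    (hk : ∀ a, algebraMap S (S ⧸ Ideal.span {g}) a = 0 ↔ ∃ b, g • b = a) {R' : Type u}
    [AddCommGroup R'] [Module (S ⧸ Ideal.span {g}) R']
    (π : (S ⧸ Ideal.span {g}) →ₗ[S ⧸ Ideal.span {g}] R')
    (hπ : Surjective π) (hk' : ∀ a, π a = 0 ↔ ∃ b, algebraMap S (S ⧸ Ideal.span {g}) f • b = a) :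
    Dp (S ⧸ Ideal.span {g}) 4 (S ⧸ Ideal.span {g}) ∧
      ∀ (X : Type u) [AddCommGroup X] [Module (S ⧸ Ideal.span {g}) X], Mc (S ⧸ Ideal.span {g}) X →
        Good (algebraMap S (S ⧸ Ideal.span {g}) f) R' X := by
  obtain ⟨xs, a1, a2, a3⟩ := reg_seq S (n := 5) hS
  have hs : Surjective (algebraMap S (S ⧸ Ideal.span {g})) := Ideal.Quotient.mk_surjective
  have g1 : IsSMulRegular S g := .of_right_eq_zero_of_smul hg.1
  have := IsLocalHom.of_surjective _ hs
  have d1 := Dp.of_reg (fun _ ha => a2 ▸ Ideal.subset_span ha) a3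
  rw [a1] at d1
  obtain ⟨rs, b1, b2, b3⟩ := (Dp.quot (i := lsmul S S g)
    (p := Algebra.linearMap S (S ⧸ Ideal.span {g})) g1 hk hs d1 (d1.mono (by simp))).seq
  have d2 := Dp.of_reg (fun r hr => by
    obtain ⟨a, ha, rfl⟩ := List.mem_map.mp hr
    exact map_nonunit _ a (b2 a ha))
    ((isWeaklyRegular_map_algebraMap_iff (S ⧸ Ideal.span {g}) _ rs).mpr b3.1)
  rw [List.length_map, b1] at d2
  have hd : ringKrullDim (S ⧸ Ideal.span {g}) ≤ (4 : ℕ) := by
    have := ringKrullDim_quotient_span_singleton_succ_eq_ringKrullDim g1 fun hu =>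
      not_isUnit_zero ((hk g).mpr ⟨1, mul_one g⟩ ▸ hu.map (algebraMap S (S ⧸ Ideal.span {g})))
    rw [hS, ← WithBot.coe_unbot _ (ringKrullDim_ne_bot (R := S ⧸ Ideal.span {g}))] at this
    rw [← WithBot.coe_unbot _ (ringKrullDim_ne_bot (R := S ⧸ Ideal.span {g}))]
    exact (congrArg _ (ENat.add_left_injective_of_ne_top (n := 1) (by simp)
      (WithBot.coe_injective this : _ = (4 : ℕ) + (1 : ℕ∞)))).le
  have := cpl (S := S) (S ⧸ Ideal.span {g})
  rw [map_maximalIdeal_of_surjective _ hs] at this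
  refine ⟨d2, fun X _ _ h => ft_good (fun W _ _ h1 h2 => ?_) V (fun W _ _ h1 h2 h3 => ?_) h _⟩
  · have := h1.1
    exact selfext a2 a3 a1 hg hs hk π hπ hk' h1.2.1 h1.2.2 h2
  · have := h1.1
    have : Nontrivial W := not_subsingleton_iff_nontrivial.mp fun _ =>
      h2 (st_of (n := 0) 0 0 fun _ => Subsingleton.elim _ _)
    exact hV W (isMCM_of h1.2.1 hd) this h3

end Pool.Agent.Lib.MP_a966df_ag
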