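import Pool.Agent.Lib.MP_a966df_ag.Core

namespace Pool.Agent.Lib.MP_a966df_ag

open Submodule LinearMap IsLocalRing TensorProduct
open Function (Injective Surjective Exact Bijective)

universe u

/-- Iterated extensions of copies of `X`. -/
inductive Filt (Q : Type u) [CommRing Q] (X : Type u) [AddCommGroup X] [Module Q X] :
    (F : Type u) → [AddCommGroup F] → [Module Q F] → Prop
  | base (F : Type u) [AddCommGroup F] [Module Q F] (e : X ≃ₗ[Q] F) : Filt Q X F
  | ext (F' F F'' : Type u) [AddCommGroup F'] [Module Q F'] [AddCommGroup F] [Module Q F]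
      [AddCommGroup F''] [Module Q F''] (α : F' →ₗ[Q] F) (β : F →ₗ[Q] F'') (hα : Injective α)
      (he : Exact α β) (hβ : Surjective β) (h' : Filt Q X F') (h'' : Filt Q X F'') : Filt Q X F

variable {Q : Type u} [CommRing Q] {X F Z : Type u} [AddCommGroup X] [Module Q X]
  [AddCommGroup F] [Module Q F] [AddCommGroup Z] [Module Q Z]

lemma Filt.equiv (h : Filt Q X F) (e : F ≃ₗ[Q] Z) : Filt Q X Z := by
  cases h with
  | base _ e' => exact .base _ (e'.trans e)
  | ext F' _ F'' α β hα he hβ h' h'' =>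
    exact .ext F' Z F'' (e.toLinearMap ∘ₗ α) (β ∘ₗ e.symm.toLinearMap) (e.injective.comp hα)
      (e.conj_exact_iff_exact _ _ |>.mpr he) (hβ.comp e.symm.surjective) h' h''

lemma Filt.trans (h : Filt Q X Z) (h' : Filt Q Z F) : Filt Q X F := by
  induction h' with
  | base _ e => exact h.equiv e
  | ext F' F F'' α β hα he hβ _ _ i1 i2 => exact .ext F' F F'' α β hα he hβ i1 i2

lemma Filt.bc (S : Type u) [CommRing S] [Algebra Q S] [Module.Flat Q S] (h : Filt Q X F) :
    Filt S (S ⊗[Q] X) (S ⊗[Q] F) := by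
  induction h with
  | base _ e => exact .base _ (e.baseChange Q S _ _)
  | ext F' F F'' α β hα he hβ _ _ i1 i2 =>
    exact .ext _ _ _ (α.baseChange S) (β.baseChange S)
      (Module.Flat.lTensor_preserves_injective_linearMap α hα) (lTensor_exact S he hβ)
      (β.lTensor_surjective S hβ) i1 i2

lemma Filt.of_nil (s : F →ₗ[Q] F) (μ : F →ₗ[Q] X) (h1 : Surjective μ) (h2 : ker μ = range s)
    (n : ℕ) (h3 : s ^ (n + 1) = 0) (h4 : ker (s ^ n) ≤ ker μ) : Filt Q X F := by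
  have key : ∀ i ≤ n, ∃ β : range (s ^ i) →ₗ[Q] X, Surjective β ∧
      ∀ v, β v = 0 ↔ v.1 ∈ range (s ^ (i + 1)) := fun i hi => by
    obtain ⟨β, hβ⟩ := desc (s ^ i).rangeRestrict (surjective_rangeRestrict _) μ fun v hv => h4 (by
      obtain ⟨j, rfl⟩ := Nat.exists_eq_add_of_le' hi
      have : (s ^ i) v = 0 := congrArg Subtype.val hv
      rw [mem_ker, pow_add, Module.End.mul_apply, this, map_zero])
    have e : ∀ v, β ((s ^ i).rangeRestrict v) = μ v := LinearMap.congr_fun hβ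
    refine ⟨β, fun x => (h1 x).elim fun v hv => ⟨_, (e v).trans hv⟩, fun v => ?_⟩
    obtain ⟨v, rfl⟩ := surjective_rangeRestrict _ v
    rw [e, ← mem_ker, h2]
    constructor
    · rintro ⟨w, rfl⟩
      exact ⟨w, by rw [pow_succ]; rfl⟩
    · rintro ⟨w, hw⟩
      have : (s ^ i).rangeRestrict (s w) = (s ^ i).rangeRestrict v :=
        Subtype.ext (by rw [pow_succ] at hw; exact hw)
      rw [← h2, mem_ker, ← e, ← this, e, ← mem_ker, h2]
      exact ⟨w, rfl⟩
  have main : ∀ j i, i + j = n → Filt Q X (range (s ^ i)) := fun j => by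
    induction j with
    | zero =>
      rintro i rfl
      obtain ⟨β, a1, a2⟩ := key i le_rfl
      refine .base _ (LinearEquiv.ofBijective β ⟨(injective_iff_map_eq_zero β).mpr fun v hv => ?_,
        a1⟩).symm
      obtain ⟨w, hw⟩ := (a2 v).mp hv
      exact Subtype.ext (hw.symm.trans (LinearMap.congr_fun h3 w))
    | succ j ih =>
      intro i hi
      obtain ⟨β, a1, a2⟩ := key i (by omega)
      have hle : range (s ^ (i + 1)) ≤ range (s ^ i) := by
        rw [pow_succ]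
        exact range_comp_le_range _ _
      exact .ext _ _ X (inclusion hle) β (inclusion_injective _) (fun v => (a2 v).trans
        ⟨fun h => ⟨⟨v, h⟩, rfl⟩, fun ⟨w, hw⟩ => hw ▸ w.2⟩) a1 (ih _ (by omega)) (.base _ (.refl _ _))
  exact (main n 0 (zero_add n)).equiv (LinearEquiv.ofTop _ (by simp [Module.End.one_eq_id]))

variable [IsLocalRing Q] [IsNoetherianRing Q] {f : Q} {R' : Type u} [AddCommGroup R'] [Module Q R']

lemma Filt.good (hf : IsSMulRegular Q f) (π : Q →ₗ[Q] R') (hπ : Surjective π)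
    (hk : Exact (lsmul Q Q f) π) [Module.Finite Q X] (h1 : LS (0 : Q) X) (h2 : E1 Q X Q)
    (h : Filt Q X F) [Module.Projective Q F] : Good f R' X := by
  suffices H : Module.Finite Q F ∧ LS (0 : Q) F ∧ E1 Q F Q ∧
      ∃ (k : ℕ) (κ : ∀ (Y : Type u) [AddCommGroup Y] [Module Q Y], ℕ∞) (j : X →ₗ[Q] F), 0 < k ∧
      (∀ (Y' Y Y'' : Type u) [AddCommGroup Y'] [Module Q Y'] [AddCommGroup Y] [Module Q Y]
        [AddCommGroup Y''] [Module Q Y''] (i : Y' →ₗ[Q] Y) (p : Y →ₗ[Q] Y''), Injective i →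
        Exact i p → κ Y + k * Fd X p = κ Y' + κ Y'' + Fd F p) ∧
      (∀ (Y : Type u) [AddCommGroup Y] [Module Q Y], Module.Finite Q Y → κ Y ≠ ⊤) ∧ κ R' = 0 ∧
      ∀ (Y : Type u) [AddCommGroup Y] [Module Q Y], κ Y = 0 → ∀ v : X →ₗ[Q] Y,
        ∃ w, w ∘ₗ j = v by
    obtain ⟨-, -, -, k, κ, j, a1, a2, a3, a4, a5⟩ := H
    refine ⟨k, κ, a1, fun Y' Y Y'' _ _ _ _ _ _ i p hi he hp _ _ => ?_, fun Y _ _ hY _ => a3 Y hY,
      a4, fun Y Z _ _ _ _ p hp _ _ hY v => ?_⟩
    · rw [a2 Y' Y Y'' i p hi he, (Fd_eq_zero (Y := F)).mpr fun v =>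
        Module.projective_lifting_property p v hp, add_zero]
    · obtain ⟨w, rfl⟩ := a5 Y hY v
      obtain ⟨z, rfl⟩ := Module.projective_lifting_property p w hp
      exact ⟨z ∘ₗ j, rfl⟩
  clear ‹Module.Projective Q F›
  induction h with
  | base F e =>
    refine ⟨.equiv e, fun a ha => (h1 a ha).imp fun k hk => ?_, E1.ext h2 (X'' := PUnit) (β := 0)
      (fun x => ?_) e.injective (fun y => ⟨fun _ => e.surjective y, fun _ => rfl⟩)
      fun _ => ⟨0, rfl⟩, 1, fun _ _ _ => 0, e, one_pos, fun Y' Y Y'' _ _ _ _ _ _ i p _ _ => ?_,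
      fun _ _ _ _ => ENat.zero_ne_top, rfl, fun Y _ _ _ v => ⟨v ∘ₗ e.symm, by ext; simp⟩⟩
    · simpa using hk.fac (a := 1) e.symm.toLinearMap e (by simp)
    · simpa using ext_kill (a := (1 : Q)) (fun _ => rfl) x
    · have : (range (p.compRight (M := X) Q)).comap (lcomp Q Y'' e.toLinearMap) =
          range (p.compRight (M := F) Q) := by
        ext v
        constructor
        · rintro ⟨w, hw⟩
          exact ⟨w ∘ₗ e.symm, LinearMap.ext fun x => by simpa using LinearMap.congr_fun hw (e.symm x)⟩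
        · rintro ⟨w, rfl⟩
          exact ⟨w ∘ₗ e, rfl⟩
      rw [Fd, Fd, ← this, rl_comap, Submodule.map_top, (range_eq_top (f := lcomp Q Y'' _)).mpr
        fun v => ⟨v ∘ₗ e.symm, by ext; simp⟩]
      simp
  | ext F' F F'' α β hα he hβ _ _ i1 i2 =>
    obtain ⟨_, b2, b3, k, κ, j, a1, a2, a3, a4, a5⟩ := i1
    obtain ⟨_, c2, c3, l, μ, -, -, d2, d3, d4, -⟩ := i2
    have := Module.Finite.of_exact he hβ
    refine ⟨this, b2.ext c2 hα he hβ (zero_smul Q), b3.ext c3 hα he hβ, k + l,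
      fun Y _ _ => κ Y + μ Y + Gd Y α, α ∘ₗ j, by omega, fun Y' Y Y'' _ _ _ _ _ _ i p hi hp => ?_,
      fun Y _ _ hY => ?_, ?_, fun Y _ _ hY v => ?_⟩
    · calc _ = (κ Y + k * Fd X p) + (μ Y + l * Fd X p) + Gd Y α := by push_cast; ring
        _ = κ Y' + κ Y'' + μ Y' + μ Y'' + (Gd Y α + Fd F' p + Fd F'' p) := by
          rw [a2 Y' Y Y'' i p hi hp, d2 Y' Y Y'' i p hi hp]; ring
        _ = _ := by rw [three hβ he hi hp]; ring
    · simp [a3 Y hY, d3 Y hY, c2.gd (Y := Y) hα he hβ (zero_smul Q)]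
    · simp only [a4, d4, zero_add]
      refine Gd_eq_zero.mpr fun v => ?_
      obtain ⟨w, rfl⟩ := b3.lift (α := lsmul Q Q f) hf hk hπ v
      obtain ⟨z, rfl⟩ := c3.extend hα he hβ w
      exact ⟨π ∘ₗ z, rfl⟩
    · simp only [add_eq_zero] at hY
      obtain ⟨w, rfl⟩ := a5 Y hY.1.1 v
      obtain ⟨z, rfl⟩ := Gd_eq_zero.mp hY.2 w
      exact ⟨z, rfl⟩

end Pool.Agent.Lib.MP_a966df_ag
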