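import Mathlib

namespace Pool.Agent.Lib.MP_a966df_ag

open Submodule LinearMap Function

variable {S : Type*} [CommRing S] {A B : Type*} [AddCommGroup A] [Module S A]
  [AddCommGroup B] [Module S B]

/-- Relative length of `K` over `I`. -/
noncomputable def rl (I K : Submodule S A) : ℕ∞ := Module.length S (K.map I.mkQ)

lemma len_map (f : A →ₗ[S] B) (K : Submodule S A) :
    Module.length S K = Module.length S (K ⊓ ker f : Submodule S A) + Module.length S (K.map f) := by
  refine Module.length_eq_add_of_exact (inclusion inf_le_left) (f.submoduleMap K)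
    (inclusion_injective _) (f.submoduleMap_surjective K) fun x => ?_
  constructor
  · intro h
    exact ⟨⟨x, x.2, congrArg Subtype.val h⟩, rfl⟩
  · rintro ⟨y, rfl⟩
    exact Subtype.ext y.2.2

lemma rl_map (f : A →ₗ[S] B) {I K : Submodule S A} {J : Submodule S B} (h : I ≤ J.comap f) :
    rl I K = rl I ((I ⊔ K) ⊓ J.comap f) + rl J (K.map f) := by
  unfold rl
  rw [len_map (I.mapQ J f h) (K.map I.mkQ), ← map_comp, mapQ_mkQ, map_comp]
  have e : map I.mkQ K ⊓ ker (I.mapQ J f h) = map I.mkQ ((I ⊔ K) ⊓ comap f J) := by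
    ext x
    obtain ⟨x, rfl⟩ := I.mkQ_surjective x
    simp only [mem_inf, mem_ker, mkQ_apply, mapQ_apply, Quotient.mk_eq_zero]
    constructor
    · rintro ⟨⟨y, hy, e⟩, h2⟩
      refine ⟨x, ⟨?_, h2⟩, rfl⟩
      have : x - y ∈ I := (Submodule.Quotient.eq I).mp e.symm
      exact mem_sup.mpr ⟨_, this, y, hy, by abel⟩
    · rintro ⟨y, ⟨h1, h2⟩, e⟩
      obtain ⟨a, ha, b, hb, rfl⟩ := mem_sup.mp h1
      refine ⟨⟨b, hb, ?_⟩, ?_⟩
      · rw [← e]
        exact ((Submodule.Quotient.eq I).mpr (by simpa using ha)).symm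
      · have : a + b - x ∈ I := (Submodule.Quotient.eq I).mp e
        have h3 := J.sub_mem h2 (h this)
        simpa using h3
  rw [e]

lemma rl_eq_zero {I K : Submodule S A} : rl I K = 0 ↔ K ≤ I := by
  rw [rl, Module.length_eq_zero_iff, subsingleton_iff_eq_bot, ← le_ker_iff_map, ker_mkQ]

lemma rl_sup (I K : Submodule S A) : rl I (I ⊔ K) = rl I K := by
  unfold rl
  rw [Submodule.map_sup, mkQ_map_self, bot_sup_eq]

lemma rl_add {I J K : Submodule S A} (h1 : I ≤ J) (h2 : J ≤ K) : rl I K = rl I J + rl J K := by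
  rw [rl_map (J := J) LinearMap.id h1, comap_id, Submodule.map_id, inf_eq_right.mpr (le_sup_of_le_right h2)]

lemma rl_comap (f : A →ₗ[S] B) (J : Submodule S B) (K : Submodule S A) :
    rl (J.comap f) K = rl J (K.map f) := by
  rw [rl_map (J := J) f le_rfl, rl_eq_zero.mpr inf_le_right, zero_add]

lemma rl_inf (I K : Submodule S A) : rl (I ⊓ K) K = rl I K := by
  rw [rl_map (I := I ⊓ K) (J := I) LinearMap.id inf_le_left, comap_id, Submodule.map_id,
    rl_eq_zero.mpr (by rw [sup_eq_right.mpr inf_le_right, inf_comm]), zero_add]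

lemma rl_mono {I J K L : Submodule S A} (h1 : I ≤ J) (h2 : K ≤ L) : rl J K ≤ rl I L := by
  rw [rl_map (I := I) (J := J) LinearMap.id h1, Submodule.map_id, ← rl_sup J L,
    rl_add le_sup_left (sup_le_sup_left h2 J), rl_sup]
  exact le_self_add.trans le_add_self

lemma rl_le (f : A →ₗ[S] B) {I : Submodule S A} {J : Submodule S B} (h : J.comap f ≤ I) :
    rl I ⊤ ≤ rl J ⊤ :=
  (rl_mono h le_rfl).trans ((rl_comap f J ⊤).le.trans (rl_mono le_rfl le_top))

lemma rl_ne_top [IsNoetherianRing S] [IsLocalRing S] [Module.Finite S A] {I K : Submodule S A}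
    (t : ℕ) (h : ∀ a ∈ IsLocalRing.maximalIdeal S ^ (t + 1), ∀ v ∈ K, a • v ∈ I) : rl I K ≠ ⊤ := by
  set J := IsLocalRing.maximalIdeal S ^ (t + 1) with hJ
  have h1 : Module.IsTorsionBySet S (K.map I.mkQ) J := by
    rintro ⟨_, v, hv, rfl⟩ ⟨a, ha⟩
    exact Subtype.ext ((Submodule.Quotient.mk_eq_zero I).mpr (h a ha v hv))
  have h2 : J ≠ ⊤ := fun e => (IsLocalRing.maximalIdeal.isMaximal S).ne_top
    (top_le_iff.mp (e.ge.trans (Ideal.pow_le_self t.succ_ne_zero)))
  have : Nontrivial (S ⧸ J) := Ideal.Quotient.nontrivial_iff.mpr h2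
  have := IsLocalRing.of_surjective' (Ideal.Quotient.mk J) Ideal.Quotient.mk_surjective
  have : IsArtinianRing (S ⧸ J) := (isArtinianRing_iff_isNilpotent_maximalIdeal _).mpr ⟨t + 1, by
    rw [← IsLocalRing.map_maximalIdeal_of_surjective _ (Ideal.Quotient.mk_surjective (I := J)),
      ← Ideal.map_pow, Ideal.zero_eq_bot, Ideal.map_eq_bot_iff_le_ker, Ideal.mk_ker]⟩
  let := h1.module
  have := h1.isScalarTower (S := S)
  have := Module.Finite.of_restrictScalars_finite S (S ⧸ J) (K.map I.mkQ)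
  rw [rl, Module.length_eq_of_surjective (R := S ⧸ J) Ideal.Quotient.mk_surjective]
  exact Module.length_ne_top

lemma half {U U1 U3 U4 U5 W : Type*} [AddCommGroup U] [Module S U] [AddCommGroup U1] [Module S U1]
    [AddCommGroup U3] [Module S U3] [AddCommGroup U4] [Module S U4] [AddCommGroup U5] [Module S U5]
    [AddCommGroup W] [Module S W] (b : U1 →ₗ[S] U) (i : U3 →ₗ[S] U) (p : U →ₗ[S] U4)
    (b' : U5 →ₗ[S] U4) (p' : U1 →ₗ[S] U5) (a : U4 →ₗ[S] W) (h1 : Injective b')
    (h2 : ker a = range b') (h3 : b' ∘ₗ p' = p ∘ₗ b) (h4 : ker p = range i) :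
    ∃ c, rl (range p) ⊤ = c + rl (range (a ∘ₗ p)) (range a) ∧
      rl (range p') ⊤ = rl (range b ⊔ range i) (ker (a ∘ₗ p)) + c := by
  refine ⟨rl ((range p).comap b') ⊤, ?_, ?_⟩
  · rw [rl_map (J := range (a ∘ₗ p)) a (by rw [range_comp]; exact le_comap_map _ _), range_comp,
      comap_map_eq, sup_top_eq, top_inf_eq, rl_sup, h2, Submodule.map_top, rl_comap,
      Submodule.map_top]
  · have h5 : range p' ≤ (range p).comap b' := by
      rintro _ ⟨x, rfl⟩
      exact ⟨b x, (LinearMap.congr_fun h3 x).symm⟩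
    rw [rl_add h5 le_top]
    congr 1
    rw [← comap_map_eq_of_injective h1 (range p'), rl_comap, ← range_comp, h3,
      map_comap_eq, ← h4, ← comap_map_eq, rl_comap, range_comp, ker_comp, map_comap_eq, h2, inf_comm]

variable {X' X X'' Y' Y Y'' : Type*} [AddCommGroup X'] [Module S X'] [AddCommGroup X] [Module S X]
  [AddCommGroup X''] [Module S X''] [AddCommGroup Y'] [Module S Y'] [AddCommGroup Y] [Module S Y]
  [AddCommGroup Y''] [Module S Y'']

variable (X) in
/-- Length of the cokernel of `Hom(X, Y) → Hom(X, Y'')`. -/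
noncomputable def Fd (p : Y →ₗ[S] Y'') : ℕ∞ := rl (range (p.compRight (M := X) S)) ⊤

variable (Y) in
/-- Length of the cokernel of `Hom(X, Y) → Hom(X', Y)`. -/
noncomputable def Gd (α : X' →ₗ[S] X) : ℕ∞ := rl (range (lcomp S Y α)) ⊤

lemma desc (β : X →ₗ[S] X'') (hβ : Surjective β) (v : X →ₗ[S] Y) (h : ker β ≤ ker v) :
    ∃ w : X'' →ₗ[S] Y, w ∘ₗ β = v :=
  ⟨(ker β).liftQ v h ∘ₗ (β.quotKerEquivOfSurjective hβ).symm.toLinearMap, by
    ext x
    have : (β.quotKerEquivOfSurjective hβ).symm (β x) = Submodule.Quotient.mk x :=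
      (LinearEquiv.symm_apply_eq _).mpr rfl
    simp [this]⟩

lemma lift [Module.Projective S X] (p : Y →ₗ[S] Y'') (v : X →ₗ[S] Y'') (h : ∀ x, ∃ y, p y = v x) :
    ∃ w : X →ₗ[S] Y, p ∘ₗ w = v := by
  obtain ⟨w, hw⟩ := Module.projective_lifting_property p.rangeRestrict (v.codRestrict _ h)
    p.surjective_rangeRestrict
  exact ⟨w, LinearMap.ext fun x => congrArg Subtype.val (LinearMap.congr_fun hw x)⟩

lemma cores (i : Y' →ₗ[S] Y) (hi : Injective i) (v : X →ₗ[S] Y) (h : ∀ x, ∃ y, i y = v x) :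
    ∃ w : X →ₗ[S] Y', i ∘ₗ w = v :=
  ⟨(LinearEquiv.ofInjective i hi).symm.toLinearMap ∘ₗ v.codRestrict _ h, by
    ext x
    obtain ⟨y, hy⟩ := h x
    have : v.codRestrict (range i) h x = LinearEquiv.ofInjective i hi y := Subtype.ext hy.symm
    simp [this, hy]⟩

lemma ker_pre {α : X' →ₗ[S] X} {β : X →ₗ[S] X''} (hβ : Surjective β) (h : Exact α β) :
    ker (lcomp S Y α) = range (lcomp S Y β) := by
  ext v
  constructor
  · intro hv
    refine desc β hβ v fun x hx => ?_
    obtain ⟨y, rfl⟩ := (h x).mp hx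
    exact LinearMap.congr_fun hv y
  · rintro ⟨w, rfl⟩
    ext x
    simp [h.apply_apply_eq_zero]

lemma ker_post {i : Y' →ₗ[S] Y} {p : Y →ₗ[S] Y''} (hi : Injective i) (h : Exact i p) :
    ker (p.compRight (M := X) S) = range (i.compRight (M := X) S) := by
  ext v
  constructor
  · intro hv
    exact cores i hi v fun x => (h _).mp (LinearMap.congr_fun hv x)
  · rintro ⟨w, rfl⟩
    ext x
    simp [h.apply_apply_eq_zero]

lemma three {α : X' →ₗ[S] X} {β : X →ₗ[S] X''} (hβ : Surjective β) (h : Exact α β)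
    {i : Y' →ₗ[S] Y} {p : Y →ₗ[S] Y''} (hi : Injective i) (h' : Exact i p) :
    Gd Y α + Fd X' p + Fd X'' p = Gd Y' α + Gd Y'' α + Fd X p := by
  obtain ⟨c, h1, h2⟩ := half (lcomp S Y β) (i.compRight (M := X) S) (p.compRight (M := X) S)
    (lcomp S Y'' β) (p.compRight (M := X'') S) (lcomp S Y'' α) (lcomp_injective_of_surjective _ hβ)
    (ker_pre hβ h) rfl (ker_post hi h')
  obtain ⟨d, h3, h4⟩ := half (i.compRight (M := X) S) (lcomp S Y β) (lcomp S Y α)
    (i.compRight (M := X') S) (lcomp S Y' α) (p.compRight (M := X') S)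
    (fun v w e => LinearMap.ext fun x => hi (LinearMap.congr_fun e x))
    (ker_post hi h') rfl (ker_pre hβ h)
  have e : p.compRight (M := X') S ∘ₗ lcomp S Y α = lcomp S Y'' α ∘ₗ p.compRight (M := X) S := rfl
  have h5 := rl_add (range_comp_le_range (lcomp S Y α) (p.compRight (M := X') S)) le_top
  have h6 := rl_add (range_comp_le_range (p.compRight (M := X) S) (lcomp S Y'' α)) le_top
  rw [e] at h3 h4 h5
  rw [h5] at h6
  unfold Gd Fd
  rw [h1, h2, h3, h4, sup_comm, add_assoc d, h6]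
  ring

end Pool.Agent.Lib.MP_a966df_ag
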