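import Pool.Agent.Lib.MP_a966df_ag.Len

namespace Pool.Agent.Lib.MP_a966df_ag

open Submodule LinearMap
open Function (Injective Surjective Exact)

universe u

variable {S : Type u} [CommRing S] {E F G : Type u} [AddCommGroup E] [Module S E]
  [AddCommGroup F] [Module S F] [AddCommGroup G] [Module S G]

variable (S E F) in
/-- Pairs of linear maps. -/
abbrev Op := Bool → E →ₗ[S] F

/-- Factorisations of `g`. -/
def Sq (g : S) (D : Op S F F) : Prop := ∀ b v, D b (D (!b) v) = g • v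

/-- Chain maps. -/
def Cl (T : Op S E E) (D : Op S F F) (Y : Op S E F) : Prop := ∀ b v, Y b (T b v) = D b (Y (!b) v)

/-- Null-homotopic maps. -/
def Nl (T : Op S E E) (D : Op S F F) (Y : Op S E F) : Prop :=
  ∃ H : Op S E F, ∀ b v, Y b v = D b (H (!b) v) + H b (T (!b) v)

/-- Composition. -/
def cp (Y : Op S F G) (Z : Op S E F) : Op S E G := fun b => Y b ∘ₗ Z b

@[simp] lemma cp_apply (Y : Op S F G) (Z : Op S E F) (b v) : cp Y Z b v = Y b (Z b v) := rfl

variable {T : Op S E E} {D : Op S F F} {D' : Op S G G}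

lemma Cl.cp {Y : Op S F G} {Z : Op S E F} (h : Cl D D' Y) (h' : Cl T D Z) : Cl T D' (cp Y Z) :=
  fun b v => by simp [h' b, h b]

lemma Cl.sub {Y Z : Op S E F} (h : Cl T D Y) (h' : Cl T D Z) : Cl T D (Y - Z) :=
  fun b v => by simp [h' b, h b]

lemma Cl.smul {Y : Op S E F} (h : Cl T D Y) (a : S) : Cl T D (a • Y) :=
  fun b v => by simp [h b]

lemma Nl.left {Y : Op S F G} {Z : Op S E F} (h : Cl D D' Y) (h' : Nl T D Z) : Nl T D' (cp Y Z) := by
  obtain ⟨H, hH⟩ := h'
  exact ⟨fun b => Y b ∘ₗ H b, fun b v => by simp [hH b, h b]⟩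

lemma Nl.right {Y : Op S F G} {Z : Op S E F} (h : Nl D D' Y) (h' : Cl T D Z) : Nl T D' (cp Y Z) := by
  obtain ⟨H, hH⟩ := h
  exact ⟨fun b => H b ∘ₗ Z (!b), fun b v => by simp [hH b, h' (!b)]⟩

lemma Nl.of_eq {Y Z : Op S E F} (h : Nl T D Y) (e : ∀ b v, Z b v = Y b v) : Nl T D Z :=
  h.imp fun _ h b v => (e b v).trans (h b v)

lemma Nl.add {Y Z : Op S E F} (h : Nl T D Y) (h' : Nl T D Z) : Nl T D (Y + Z) := by
  obtain ⟨H, hH⟩ := h
  obtain ⟨K, hK⟩ := h'
  exact ⟨H + K, fun b v => by simp [hH b, hK b]; abel⟩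

lemma Nl.smul {Y : Op S E F} (h : Nl T D Y) (a : S) : Nl T D (a • Y) := by
  obtain ⟨H, hH⟩ := h
  exact ⟨a • H, fun b v => by simp [hH b]⟩

lemma Nl.zero : Nl T D 0 := ⟨0, fun b v => by simp⟩

lemma Nl.cl {g : S} (h1 : Sq g T) (h2 : Sq g D) {Y : Op S E F} (h : Nl T D Y) : Cl T D Y := by
  obtain ⟨H, hH⟩ := h
  intro b v
  have := h1 (!b) v
  simp only [Bool.not_not] at this
  simp [hH, h2 b, this, add_comm]

/-- If `a` is null-homotopic on the source, it kills all chain maps up to homotopy. -/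
lemma Nl.kill {a : S} (h : Nl T T (a • 1)) {Y : Op S E F} (h' : Cl T D Y) : Nl T D (a • Y) :=
  (Nl.left h' h).of_eq fun b v => by simp

/-- Knoerrer construction. -/
def Ph (x y : S) (T : Op S E E) : Op S (E × E) (E × E) := fun b =>
  ((T b).coprod (x • LinearMap.id)).prod ((y • LinearMap.id).coprod (-T (!b)))

@[simp] lemma Ph_apply (x y : S) (T : Op S E E) (b) (v : E × E) :
    Ph x y T b v = (T b v.1 + x • v.2, y • v.1 - T (!b) v.2) := by
  simp [Ph, sub_eq_add_neg]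

/-- Knoerrer construction on maps. -/
def Pm (Y : Op S E F) : Op S (E × E) (F × F) := fun b => (Y b).prodMap (Y (!b))

@[simp] lemma Pm_apply (Y : Op S E F) (b) (v : E × E) : Pm Y b v = (Y b v.1, Y (!b) v.2) := rfl

lemma Sq.ph {g : S} (h : Sq g T) (x y : S) : Sq (g + x * y) (Ph x y T) := fun b v => by
  have := h (!b) v.2
  simp only [Bool.not_not] at this
  ext <;> simp [h b, this] <;> module

lemma Cl.pm {Y : Op S E F} (h : Cl T D Y) (x y : S) : Cl (Ph x y T) (Ph x y D) (Pm Y) :=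
  fun b v => by simp [h b, h (!b)]

lemma Nl.pm {Y : Op S E F} (h : Nl T D Y) (x y : S) : Nl (Ph x y T) (Ph x y D) (Pm Y) := by
  obtain ⟨H, hH⟩ := h
  refine ⟨fun b => (H b).prodMap (-H (!b)), fun b v => ?_⟩
  ext <;> simp [hH b, hH (!b)] <;> abel

lemma nl_x (x y : S) (T : Op S E E) : Nl (Ph x y T) (Ph x y T) (x • 1) :=
  ⟨fun _ => inr S E E ∘ₗ fst S E E, fun b v => by ext <;> simp⟩

lemma nl_y (x y : S) (T : Op S E E) : Nl (Ph x y T) (Ph x y T) (y • 1) :=
  ⟨fun _ => inl S E E ∘ₗ snd S E E, fun b v => by ext <;> simp⟩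

/-- Every chain map out of `T2` killing `t` factors through `s`, up to homotopy. -/
def Fac (T1 T2 T3 : Op S E E) (t s : Op S E E) : Prop :=
  ∀ (F : Type u) [AddCommGroup F] [Module S F] (D : Op S F F) (ψ : Op S E F), Cl T2 D ψ →
    Nl T1 D (cp ψ t) → ∃ φ, Cl T3 D φ ∧ Nl T2 D (ψ - cp φ s)

lemma split {E' : Type u} [AddCommGroup E'] [Module S E'] (Y : Op S (E × E') F) :
    ∃ (Y1 : Op S E F) (Y2 : Op S E' F), Y = fun b => (Y1 b).coprod (Y2 b) :=
  ⟨fun b => Y b ∘ₗ inl S E E', fun b => Y b ∘ₗ inr S E E', funext fun b => by ext <;> simp⟩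

lemma Fac.ph {T1 T2 T3 t s : Op S E E} (h : Fac T1 T2 T3 t s) (x y : S) :
    Fac (Ph x y T1) (Ph x y T2) (Ph x y T3) (Pm t) (Pm s) := by
  rintro F _ _ D ψ h1 ⟨H, hH⟩
  obtain ⟨ψ, ψ', rfl⟩ := split ψ
  obtain ⟨H, H', rfl⟩ := split H
  obtain ⟨φ, h2, K, hK⟩ := h (F × F) (Ph (-y) x D) (fun b => (ψ b).prod (ψ' (!b))) (fun b v => by
      have e1 := h1 b (v, 0)
      have e2 := h1 (!b) (0, v)
      simp at e1 e2
      ext <;> simp [← e1, ← e2])
    ⟨fun b => (H b).prod (-H' (!b)), fun b v => by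
      have e1 := hH b (v, 0)
      have e2 := hH (!b) (0, v)
      simp at e1 e2
      ext <;> simp [e1, e2] <;> abel⟩
  refine ⟨fun b => (fst S F F ∘ₗ φ b).coprod (snd S F F ∘ₗ φ (!b)), fun b v => ?_,
    fun b => (fst S F F ∘ₗ K b).coprod (-snd S F F ∘ₗ K (!b)), fun b v => ?_⟩
  · simp [h2 b, h2 (!b)]
    module
  · have e1 := congrArg Prod.fst (hK b v.1)
    have e2 := congrArg Prod.snd (hK (!b) v.2)
    simp [sub_eq_iff_eq_add] at e1 e2
    simp [e1, e2]
    module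

variable (E) in
/-- Scalar operators. -/
def U (s t : S) : Op S E E := fun b => (bif b then s else t) • LinearMap.id

@[simp] lemma U_true (s t : S) (v : E) : U E s t true v = s • v := rfl
@[simp] lemma U_false (s t : S) (v : E) : U E s t false v = t • v := rfl

lemma fac_U (u a c : S) :
    Fac (U S (u * c) a) (U S u (a * c)) (U S (u * a) c) (U S 1 c) (U S a 1) := by
  rintro F _ _ D ψ h1 ⟨H, hH⟩
  have e1 := h1 true
  have e2 := h1 false
  have e3 := hH true
  have e4 := hH false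
  simp only [cp_apply, U_true, U_false, Bool.not_true, Bool.not_false, map_smul, one_smul]
    at e1 e2 e3 e4
  refine ⟨fun b => bif b then H true else ψ false - u • H false, fun b v => ?_,
    fun b => bif b then 0 else H false, fun b v => ?_⟩ <;> cases b <;>
    simp only [cond_true, cond_false, cp_apply, U_true, U_false, Bool.not_true, Bool.not_false,
      map_smul, one_smul, LinearMap.sub_apply, LinearMap.smul_apply, Pi.sub_apply, map_sub,
      LinearMap.zero_apply, map_zero]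
  · rw [smul_sub, e4]; module
  · rw [← e1, e3]; module
  · abel
  · rw [e3, smul_zero]; abel

variable (G) in
/-- `x, y` is a weakly regular sequence on `G`. -/
def Rg (x y : S) : Prop :=
  (∀ p : G, x • p = 0 → p = 0) ∧ ∀ p q : G, y • p = x • q → ∃ e, x • e = p

lemma Rg.prod {x y : S} (h : Rg G x y) : Rg (G × G) x y :=
  ⟨fun p e => Prod.ext (h.1 _ (congrArg Prod.fst e)) (h.1 _ (congrArg Prod.snd e)), fun p q e => by
    obtain ⟨a, ha⟩ := h.2 _ _ (congrArg Prod.fst e)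
    obtain ⟨b, hb⟩ := h.2 _ _ (congrArg Prod.snd e)
    exact ⟨(a, b), Prod.ext ha hb⟩⟩

lemma kn0 [Module.Projective S E] {T' : Op S G G} {x y : S} (h : Rg G x y)
    {Y : Op S (E × E) (G × G)} (hY : Cl (Ph x y T) (Ph x y T') Y) (h0 : ∀ b v, (Y b (v, 0)).1 = 0) :
    Nl (Ph x y T) (Ph x y T') Y := by
  obtain ⟨Y, Y', rfl⟩ := split Y
  simp only [coprod_apply, map_zero, add_zero] at h0
  have e1 : ∀ b v, y • (Y' b v).1 = x • (Y (!b) v).2 := fun b v => by
    simpa [h0] using congrArg Prod.fst (hY b (v, 0))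
  choose e he using fun b => lift (x • LinearMap.id) (fst S G G ∘ₗ Y' b) fun v => h.2 _ _ (e1 b v)
  have e2 : ∀ b v, (Y' b v).1 = x • e b v := fun b v => (LinearMap.congr_fun (he b) v).symm
  have e3 : ∀ b v, (Y b v).2 = y • e (!b) v := fun b v => eq_of_sub_eq_zero (h.1 _ (by
    have := e1 (!b) v
    rw [Bool.not_not, e2] at this
    rw [smul_sub, ← this, smul_comm, sub_self]))
  have e4 : ∀ b v, (Y' b v).2 = -e (!b) (T b v) - T' (!b) (e b v) := fun b v =>
    eq_of_sub_eq_zero (h.1 _ (by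
      have := congrArg Prod.fst (hY (!b) (0, v))
      simp [h0, e2] at this
      rw [smul_sub, smul_sub, smul_neg, this]
      abel))
  refine ⟨fun b => inr S G G ∘ₗ e (!b) ∘ₗ snd S E E, fun b v => ?_⟩
  ext <;> simp [h0, e2, e3, e4]
  abel

/-- Faithfulness of the Knoerrer construction. -/
lemma kn [Module.Projective S E] {T' : Op S G G} {x y g : S} (h1 : Sq g T) (h2 : Sq g T')
    (h : Rg G x y) {Y : Op S (E × E) (G × G)} (hY : Cl (Ph x y T) (Ph x y T') Y) (H : Op S E G)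
    (h0 : ∀ b v, ∃ w : G × G,
      x • w.1 + y • w.2 = (Y b (v, 0)).1 - T' b (H (!b) v) - H b (T (!b) v)) :
    Nl (Ph x y T) (Ph x y T') Y := by
  choose w hw using fun b => lift ((x • LinearMap.id : G →ₗ[S] G).coprod (y • LinearMap.id))
    (fst S G G ∘ₗ Y b ∘ₗ inl S E E - T' b ∘ₗ H (!b) - H b ∘ₗ T (!b)) (h0 b)
  let K : Op S (E × E) (G × G) := fun b =>
    ((H b).coprod (snd S G G ∘ₗ w b)).prod (fst S G G ∘ₗ w (!b) ∘ₗ fst S E E)
  have hK : Nl (Ph x y T) (Ph x y T') fun b => Ph x y T' b ∘ₗ K (!b) + K b ∘ₗ Ph x y T (!b) :=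
    ⟨K, fun _ _ => rfl⟩
  refine ((kn0 h (hY.sub (hK.cl (h1.ph x y) (h2.ph x y))) fun b v => ?_).add hK).of_eq
    fun b v => by simp
  have e : x • (w b v).1 + y • (w b v).2 = (Y b (v, 0)).1 - T' b (H (!b) v) - H b (T (!b) v) :=
    LinearMap.congr_fun (hw b) v
  simp [K]
  linear_combination (norm := abel) -e

end Pool.Agent.Lib.MP_a966df_ag
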