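import Pool.Agent.Lib.MP_a966df_ag.Cone

namespace Pool.Agent.Lib.MP_a966df_ag

open Submodule LinearMap IsLocalRing RingTheory.Sequence
open Function (Injective Surjective Exact)

universe u

variable {S : Type u} [CommRing S] {F R' : Type u} [AddCommGroup F] [Module S F] [AddCommGroup R']
  [Module S R'] {g f x y z t u : S}

/-- No ghost maps. -/
def Ng (x y z t u : S) (h : ℕ) (D : Op S F F) : Prop :=
  ∀ (G : Type u) [AddCommGroup G] [Module S G] (D' : Op S G G) (δ : Op S F G), Cl D D' δ →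
    (∀ j j', j + j' = h → ∀ θ, Cl (Mi x y z t u j j') D θ → Nl (Mi x y z t u j j') D' (cp δ θ)) →
      Nl D D' δ

variable [IsLocalRing S] [IsNoetherianRing S]

lemma rl_fin' [Module.Finite S F] {I K : Submodule S F}
    (h : ∀ a ∈ maximalIdeal S, ∃ k : ℕ, ∀ v ∈ K, a ^ k • v ∈ I) : rl I K ≠ ⊤ := by
  obtain ⟨t, ht⟩ := Ideal.exists_pow_le_of_le_radical_of_fg (I := maximalIdeal S)
    (J := I.colon K) (fun a ha => (h a ha).imp fun k hk => mem_colon.mpr hk)
    (IsNoetherian.noetherian _)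
  exact rl_ne_top t fun a ha => mem_colon.mp (ht (Ideal.pow_le_pow_right t.le_succ ha))

theorem Hyp.main (H : Hyp x y z t u) {k : ℕ} (hg : g = u ^ (k + 1) + z * t + x * y) (h1 : Rg S g f)
    (hR : DA g R') (hm : Ideal.ofList [y, t, u, x, z] = maximalIdeal S)
    (hr : IsWeaklyRegular S [y, t, u, x, z]) [Module.Free S F] [Module.Finite S F] (D : Op S F F)
    (hD : Sq g D) : Ng x y z t u (k + 1) D ∧
      ∀ (X : Type u) [AddCommGroup X] [Module S X] (π : F →ₗ[S] X), Pr D π → Iv g X PUnit R' := by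
  generalize hn : rl (Bs (Mi x y z t u 1 k) D) (Zs (Mi x y z t u 1 k) D) +
    rl (Bs (Mi x y z t u k 1) D) (Zs (Mi x y z t u k 1) D) = N
  induction N using WellFoundedLT.induction generalizing F with
  | _ N ih =>
  by_cases hv : Van (Mi x y z t u 1 k) D ∧ Van (Mi x y z t u k 1) D
  · have e : Nl D D 1 := test (u := u ^ 1) (s := u ^ k) (by rwa [← pow_add, add_comm 1, ← hg])
      (by rwa [pow_one]) (by
        rw [pow_one]
        exact ((TensorProduct.lid S F).isWeaklyRegular_congr _).mp hr.isWeaklyRegular_rTensor)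
      hv.1 hv.2
    exact ⟨fun G _ _ D' δ h _ => (Nl.left h e).of_eq fun _ _ => rfl,
      fun X _ _ π p => Iv.refl.fin hD p e⟩
  obtain ⟨i, n, φ, e, hφ, hw⟩ := gm hv
  have hi : i + 1 + (n + 1) = k + 1 := by omega
  have hM : Sq g _ := hg ▸ sq_Mi (x := x) (y := y) (z := z) (t := t) (u := u) hi
  have a1 : ∀ j j', j + j' = k + 1 → ∀ θ, Cl (Mi x y z t u j j') (Cn _ D φ) θ →
      Nl (Mi x y z t u j j') _ (cp (fun _ => LinearMap.snd S F _) θ) := fun j j' e θ h => cn2 h (by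
    rw [nt_Mi]
    exact fun Y h2 h3 => H.inj hi (by omega) hφ hw h2 h3)
  have a2 : ∀ j j', j + j' = k + 1 → ∀ θ, Cl (Mi x y z t u j j') (Cn _ D φ) θ → ∃ θ',
      Cl (Mi x y z t u j j') D θ' ∧ Nl (Mi x y z t u j j') (Cn _ D φ) (θ - cp (fun _ => inl S F _) θ') :=
    fun j j' e θ h => (a1 j j' e θ h).elim fun L hL => ⟨_, cn1 hφ h (L := L) hL⟩
  have a3 : ∀ j j', rl (Bs (Mi x y z t u j j') D) (Zs (Mi x y z t u j j') D) ≠ ⊤ := fun j j' =>
    rl_fin' fun a ha => ⟨j, fun _ h => (H.null j j' a ha).kill h⟩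
  obtain ⟨c, b1, b2⟩ := mu_le cl_inl (a2 1 k (add_comm _ _))
  obtain ⟨d, b3, -⟩ := mu_le cl_inl (a2 k 1 rfl)
  have b4 : c ≠ 0 := fun h => hw (by
    obtain rfl : k = i + (n + 1) := by omega
    have := b2 _ (hφ.cp (cl_soc i (n + 1))) (cn0.right (cl_soc i (n + 1))) h
    rw [← add_assoc, add_right_comm] at this
    exact (this.right (cl_top _ _)).of_eq fun b v => by simp only [cp_apply, sc_sc, mul_one, one_mul])
  have hC := hM.cn hD hφ
  obtain ⟨g1, g2⟩ := ih _ (hn ▸ ENat.add_lt_add_of_lt_of_le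
    (ne_top_of_le_ne_top (a3 k 1) (le_add_self.trans b3))
    ((ENat.lt_add_left (ne_top_of_le_ne_top (a3 1 k) (le_add_self.trans b1))
      (pos_iff_ne_zero.mpr b4)).trans_le b1) (le_add_self.trans b3)) _ hC rfl
  obtain ⟨ρ, s, c1, c2, c3, c4, c5, c6⟩ := cn3 hφ (g1 _ _ _ cl_snd a1)
  refine ⟨fun G _ _ D' δ h2 h3 => ?_, fun X _ _ π p => ?_⟩
  · exact (((g1 G D' _ (h2.cp c2) fun j j' e θ h => h3 j j' e _ (c2.cp h)).right cl_inl).add
      ((h3 _ _ hi φ hφ).right c1)).of_eq fun b v => by simp [c3]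
  have p' := pr_ck (Mi x y z t u (i + 1) (n + 1))
  have p'' := pr_ck (Cn (Mi x y z t u (i + 1) (n + 1)) D φ)
  obtain ⟨y1, d1⟩ := p.ind p' c1
  obtain ⟨y2, d2⟩ := p.ind p'' cl_inl
  obtain ⟨z1, d3⟩ := p'.ind p hφ
  obtain ⟨z2, d4⟩ := p''.ind p c2
  refine (H.chain hi k.succ_pos hg h1 hR p').split (g2 _ _ p'') (y1.prod y2) (z1.coprod z2)
    (p.kill hD p Nl.zero fun v => ?_) ?_
  · change π v - (z1 (y1 (π v)) + z2 (y2 (π v))) = _
    rw [d1, d2, d3, d4]
    simp [c3]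
  have e1 := p'.kill hM p' c4 (y := LinearMap.id - y1 ∘ₗ z1) fun v => by
    simp only [LinearMap.sub_apply, comp_apply, d1, d3, Pi.sub_apply, map_sub]; rfl
  have e2 := p''.kill hC p' c6 (y := y1 ∘ₗ z2) fun v => by simp only [comp_apply, d1, d4]; rfl
  have e3 := p'.kill hM p'' cn0 (y := y2 ∘ₗ z1) fun v => by simp only [comp_apply, d2, d3]; rfl
  have e4 := p''.kill hC p'' c5 (y := LinearMap.id - y2 ∘ₗ z2) fun v => by
    simp only [LinearMap.sub_apply, comp_apply, d2, d4, Pi.sub_apply, map_sub]; rfl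
  refine (((e1.comp (inl S _ _) (.fst S _ _)).add (e2.comp (-inl S _ _) (.snd S _ _))
    fun _ => LinearMap.add_apply _ _ _).add ((e3.comp (-inr S _ _) (.fst S _ _)).add
      (e4.comp (inr S _ _) (.snd S _ _)) fun _ => LinearMap.add_apply _ _ _)) fun v => ?_
  ext <;> simp <;> abel

end Pool.Agent.Lib.MP_a966df_ag
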