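import Pool.Agent.Lib.MP_a966df_ag.St
import Pool.Agent.Lib.MP_a966df_ag.MF

namespace Pool.Agent.Lib.MP_a966df_ag

open Submodule LinearMap IsLocalRing RingTheory.Sequence CategoryTheory.Abelian
open Function (Injective Surjective Exact)

universe u

variable {S : Type u} [CommRing S] {A B C : Type u} [AddCommGroup A] [Module S A] [AddCommGroup B]
  [Module S B] [AddCommGroup C] [Module S C] {i : A →ₗ[S] B} {p : B →ₗ[S] C} {n : ℕ}

variable (S) in
/-- Vanishing of an Ext group with values in the ring. -/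
def Ev (n : ℕ) (M : Type u) [AddCommGroup M] [Module S M] : Prop :=
  ∀ x : Ext (ModuleCat.of S M) (ModuleCat.of S S) n, x = 0

lemma Ev.q (hi : Injective i) (h : Exact i p) (hp : Surjective p) (h1 : Ev S n A)
    (h2 : Ev S (n + 1) B) : Ev S (n + 1) C := fun x => by
  obtain ⟨y, rfl⟩ := Ext.contravariant_sequence_exact₃ (ses hi h hp) _ x (h2 _) (add_comm 1 n)
  obtain rfl : y = 0 := h1 y
  exact Ext.comp_zero _ _ _ _ _

lemma Ev.s (hi : Injective i) (h : Exact i p) (hp : Surjective p) (h1 : Ev S n B)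
    (h2 : Ev S (n + 1) C) : Ev S n A := fun x => by
  obtain ⟨y, rfl⟩ := Ext.contravariant_sequence_exact₁ (ses hi h hp) _ x (add_comm 1 n) (h2 _)
  obtain rfl : y = 0 := h1 y
  exact Ext.comp_zero _ _ _ _ _

lemma Ev.proj [Module.Projective S A] : Ev S (n + 1) A := fun x => by
  have := ModuleCat.projective_of_categoryTheory_projective (ModuleCat.of S A)
  exact Ext.eq_zero_of_projective x

variable [IsLocalRing S]

lemma Dp.ext (hi : Injective i) (h : Exact i p) (hp : Surjective p) (h1 : Dp S n A)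
    (h2 : Dp S n C) : Dp S n B := fun T a1 a2 j hj x => by
  obtain ⟨y, rfl⟩ := Ext.covariant_sequence_exact₂ T (ses hi h hp) x (h2 T a1 a2 j hj _)
  obtain rfl : y = 0 := h1 T a1 a2 j hj y
  exact Ext.zero_comp _ _ _ _ _

variable [IsNoetherianRing S] {xs : List S}

lemma fr (hm : Ideal.ofList xs = maximalIdeal S) (hr : IsWeaklyRegular S xs) [Module.Finite S A]
    (h : Dp S xs.length A) : Module.Free S A :=
  free_of_reg _ hm (Dp.reg _ (fun _ ha => hm ▸ Ideal.subset_span ha) h S hr
    (fun a ha => ⟨1, fun v => smul_mem_smul (by rwa [hm, pow_one]) trivial⟩) 1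
    (fun t => ⟨t, mul_one t⟩) fun v => ⟨toSpanSingleton S _ v, one_smul S v⟩)

lemma ev_main (hm : Ideal.ofList xs = maximalIdeal S) (hr : IsWeaklyRegular S xs) (n k : ℕ)
    (e : n + k = xs.length) [Module.Finite S A] (h : Dp S k A) :
    (∀ j, n ≤ j → Ev S (j + 1) A) ∧ ((∀ j < n, Ev S (j + 1) A) → Module.Projective S A) := by
  induction n generalizing k A with
  | zero =>
    have := fr hm hr (A := A) (by rwa [← e, zero_add])
    exact ⟨fun _ _ => Ev.proj, fun _ => inferInstance⟩
  | succ n ih =>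
    obtain ⟨m, π, hπ⟩ := Module.Finite.exists_fin' S A
    have hι := (ker π).injective_subtype
    have he := π.exact_subtype_ker_map
    obtain ⟨h1, h2⟩ := ih (k + 1) (by omega) (Dp.sub hι he hπ
      (((Dp.of_reg (fun _ ha => hm ▸ Ideal.subset_span ha) hr).pi m).mono (by omega)) h)
    refine ⟨fun j hj => ?_, fun h3 => ?_⟩
    · obtain ⟨j, rfl⟩ := Nat.exists_eq_add_of_le' (le_add_self.trans hj : 1 ≤ j)
      exact Ev.q hι he hπ (h1 j (by omega)) Ev.proj
    have := h2 fun j hj => Ev.s hι he hπ Ev.proj (h3 (j + 1) (by omega))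
    have := Module.free_of_flat_of_isLocalRing (R := S) (P := ker π)
    let b := Module.finBasis S (ker π)
    choose w hw using fun l => E1.extend (h3 0 n.succ_pos) hι he hπ (b.coord l)
    obtain ⟨s, hs⟩ := desc π hπ (LinearMap.id - (ker π).subtype ∘ₗ ∑ l, (w l).smulRight (b l))
      fun x hx => by
        have : ∀ l, w l x = b.repr ⟨x, hx⟩ l := fun l => LinearMap.congr_fun (hw l) ⟨x, hx⟩
        simp only [mem_ker, LinearMap.sub_apply, comp_apply, LinearMap.sum_apply, smulRight_apply,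
          this, b.sum_repr, id_apply, subtype_apply, sub_self]
    refine Module.Projective.of_split s π (LinearMap.ext fun x => ?_)
    obtain ⟨x, rfl⟩ := hπ x
    have : s (π x) = x - _ := LinearMap.congr_fun hs x
    rw [comp_apply, this, map_sub, comp_apply, he.apply_apply_eq_zero, sub_zero, id_apply]

/-- A self-dual periodic complex over a regular ring of dimension five. -/
lemma periodic (hm : Ideal.ofList xs = maximalIdeal S) (hr : IsWeaklyRegular S xs)
    (h5 : xs.length = 5) [Module.Finite S A] [Module.Projective S A] [Module.Finite S B]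
    [Module.Projective S B] (d : A →ₗ[S] B) (d' : B →ₗ[S] A) (h1 : Exact d d')
    (h2 : ∀ v, d (d' v) = 0) (h3 : ∀ a ∈ maximalIdeal S, ∃ k : ℕ, ∀ z, d z = 0 → ∃ y, d' y = a ^ k • z)
    (h4 : ∀ l : B →ₗ[S] S, (∀ v, l (d v) = 0) → ∃ μ : A →ₗ[S] S, ∀ v, μ (d' v) = l v) (z : A)
    (hz : d z = 0) : ∃ y, d' y = z := by
  let c := (range d').liftQ d.rangeRestrict (by
    rintro _ ⟨v, rfl⟩
    exact Subtype.ext (h2 v))
  have c1 := (ker c).injective_subtype
  have c2 := c.exact_subtype_ker_map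
  have c3 : Surjective c := fun y => (d.surjective_rangeRestrict y).elim fun x hx =>
    ⟨Submodule.Quotient.mk x, hx⟩
  have b1 := (range d).injective_subtype
  have b2 : Exact (range d).subtype d'.rangeRestrict :=
    exact_iff.mpr (by rw [ker_rangeRestrict, range_subtype, h1.linearMap_ker_eq])
  have b3 := d'.surjective_rangeRestrict
  have a1 := (range d').injective_subtype
  have a2 := exact_subtype_mkQ (range d')
  have a3 := mkQ_surjective (range d')
  have hS := Dp.of_reg (fun _ ha => hm ▸ Ideal.subset_span ha) hr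
  have ht : Tn S (ker c) := fun a ha => (h3 a ha).imp fun k hk t => by
    obtain ⟨t, ht⟩ := t
    obtain ⟨t, rfl⟩ := a3 t
    exact Subtype.ext ((Quotient.mk_eq_zero _).mpr (hk t (congrArg Subtype.val ht)))
  have hH : ∀ j < 5, Ev S j (ker c) := fun j hj =>
    hS (ModuleCat.of S (ker c)) inferInstance ht j (h5 ▸ hj)
  have st : ∀ j < 5, Ev S (j + 1) (A ⧸ range d') → Ev S (j + 3) (A ⧸ range d') := fun j hj h =>
    Ev.q a1 a2 a3 (Ev.q b1 b2 b3 (Ev.q c1 c2 c3 (hH j hj) h) Ev.proj) Ev.proj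
  have e1 : Ev S 1 (A ⧸ range d') := E1.of a1 a2 a3 fun v => by
    obtain ⟨μ, hμ⟩ := h4 (v ∘ₗ d'.rangeRestrict) fun x => by
      rw [comp_apply, show d'.rangeRestrict (d x) = 0 from Subtype.ext (h1.apply_apply_eq_zero x),
        map_zero]
    refine ⟨μ, LinearMap.ext ?_⟩
    rintro ⟨_, y, rfl⟩
    exact hμ y
  have e5 := Ev.s c1 c2 c3 (st 2 (by simp) (st 0 (by simp) e1))
    ((ev_main hm hr 5 0 h5.symm Dp.zero).1 5 le_rfl)
  have := (ev_main hm hr 5 0 h5.symm (A := ker c) Dp.zero).2 fun j hj => by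
    rcases (Nat.succ_le_of_lt hj).eq_or_lt with e | e
    exacts [by rwa [show j + 1 = 5 from e], hH _ e]
  have := Module.free_of_flat_of_isLocalRing (R := S) (P := ker c)
  have := (((hS.mono (by simp [h5] : 1 ≤ _)).pi _).equiv (Module.finBasis S (ker c)).equivFun).triv ht
    ⟨Submodule.Quotient.mk z, Subtype.ext hz⟩
  exact (Quotient.mk_eq_zero _).mp (congrArg Subtype.val this)

omit [IsLocalRing S] [IsNoetherianRing S] in
lemma tr_surj [Module.Finite S A] [Module.Free S A] (l : (A →ₗ[S] A) →ₗ[S] S) :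
    ∃ u : A →ₗ[S] A, ∀ f, l f = trace S A (u ∘ₗ f) := by
  let b := Module.Free.chooseBasis S A
  refine ⟨∑ j, (l ∘ₗ smulRightₗ (b.coord j)).smulRight (b j), fun f => ?_⟩
  have e : ∀ j, (l ∘ₗ smulRightₗ (b.coord j)).smulRight (b j) ∘ₗ f =
    (l ∘ₗ smulRightₗ (b.coord j) ∘ₗ f).smulRight (b j) := fun _ => rfl
  rw [← lcomp_apply' (S := S), map_sum]
  simp only [map_sum, lcomp_apply', e, trace_smulRight, comp_apply]
  rw [← map_sum]
  congr 1
  ext v
  simp only [LinearMap.sum_apply, smulRightₗ_apply_apply, Module.Basis.coord_apply,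
    ← map_smul]
  rw [← map_sum, b.sum_repr]

omit [IsLocalRing S] [IsNoetherianRing S] in
lemma tr_inj [Module.Finite S A] [Module.Free S A] {u : A →ₗ[S] A}
    (h : ∀ f, trace S A (u ∘ₗ f) = 0) (v : A) : u v = 0 :=
  (Module.forall_dual_apply_eq_zero_iff S _).mp fun φ => by
    have := h (φ.smulRight v)
    rwa [show u ∘ₗ φ.smulRight v = φ.smulRight (u v) from LinearMap.ext fun x => map_smul u _ _,
      trace_smulRight] at this

/-- Rigid factorisations with an isolated singularity are contractible. -/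
theorem rigid (hm : Ideal.ofList xs = maximalIdeal S) (hr : IsWeaklyRegular S xs)
    (h5 : xs.length = 5) [Module.Finite S A] [Module.Free S A] {g : S} {D : Op S A A} (hD : Sq g D)
    (h1 : ∀ a ∈ maximalIdeal S, ∃ k : ℕ, Nl D D (a ^ k • 1))
    (h2 : ∀ φ : Op S A A, (∀ b v, D b (φ (!b) v) + φ b (D (!b) v) = 0) →
      ∃ Y : Op S A A, ∀ b v, φ b v = Y b (D b v) - D b (Y (!b) v)) : Nl D D 1 := by
  let d : Op S A A →ₗ[S] Op S A A := LinearMap.pi fun b =>
    lcomp S A (D b) ∘ₗ proj b - (D b).compRight S ∘ₗ proj (!b)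
  let d' : Op S A A →ₗ[S] Op S A A := LinearMap.pi fun b =>
    (D b).compRight S ∘ₗ proj (!b) + lcomp S A (D (!b)) ∘ₗ proj b
  have e : ∀ Y b, d Y b = Y b ∘ₗ D b - D b ∘ₗ Y (!b) := fun _ _ => rfl
  have e' : ∀ Y b, d' Y b = D b ∘ₗ Y (!b) + Y b ∘ₗ D (!b) := fun _ _ => rfl
  have hD' : ∀ b v, D (!b) (D b v) = g • v := fun b v => by simpa using hD (!b) v
  refine (periodic hm hr h5 d d' (fun φ => ⟨fun h => (h2 φ fun b v =>
      LinearMap.congr_fun (congrFun h b) v).imp fun Y hY => funext fun b => LinearMap.ext fun v =>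
        (hY b v).symm, by
      rintro ⟨Y, rfl⟩
      ext b v
      simp [e, e', hD b]⟩)
    (fun Y => by ext b v; simp [e, e', hD b, hD', add_comm]) (fun a ha => (h1 a ha).imp fun k hk z hz =>
      (hk.kill (Y := z) fun b v => eq_of_sub_eq_zero (LinearMap.congr_fun (congrFun hz b) v)).imp
        fun H hH => funext fun b => LinearMap.ext fun v => (hH b v).symm) (fun l hl => ?_) 1
    (by ext b v; simp [e])).imp fun y hy b v => (LinearMap.congr_fun (congrFun hy b) v).symm
  choose u hu using fun b => tr_surj (l ∘ₗ single S (fun _ => A →ₗ[S] A) b)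
  have e1 : ∀ H, l H = trace S A (u true ∘ₗ H true) + trace S A (u false ∘ₗ H false) := fun H => by
    rw [← hu, ← hu, comp_apply, comp_apply, ← map_add]
    congr 1
    ext b : 1
    cases b <;> simp
  have e2 : ∀ b v, D b (u b v) = u (!b) (D (!b) v) := fun b v => eq_of_sub_eq_zero
    (tr_inj (u := D b ∘ₗ u b - u (!b) ∘ₗ D (!b)) (fun f => by
      have := hl (Pi.single b f)
      rw [e1, e, e] at this
      rw [sub_comp, map_sub, comp_assoc, ← trace_comp_comm' (D b)]
      cases b <;> simp [comp_assoc] at this ⊢ <;> linear_combination this) v)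
  obtain ⟨Y, hY⟩ := h2 (fun b => bif b then u false else -u true) fun b v => by
    cases b <;> simp [e2]
  have e3 : u false = Y true ∘ₗ D true - D true ∘ₗ Y false := LinearMap.ext (hY true)
  have e4 : u true = D false ∘ₗ Y true - Y false ∘ₗ D false :=
    LinearMap.ext fun v => neg_injective ((hY false v).trans (by simp))
  refine ⟨trace S A ∘ₗ llcomp S A A A (Y true) ∘ₗ proj true -
    trace S A ∘ₗ llcomp S A A A (Y false) ∘ₗ proj false, fun H => ?_⟩
  have t : ∀ b (a c : A →ₗ[S] A), trace S A (D b ∘ₗ a ∘ₗ c) = trace S A (a ∘ₗ c ∘ₗ D b) :=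
    fun b a c => by rw [trace_comp_comm', comp_assoc]
  simp [e1, e', e3, e4, sub_comp, comp_add, comp_assoc, t, llcomp_apply']
  ring

end Pool.Agent.Lib.MP_a966df_ag
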