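import Pool.Agent.Lib.MP_a966df_ag.Rig
import Pool.Agent.Lib.MP_a966df_ag.Ck

namespace Pool.Agent.Lib.MP_a966df_ag

open Submodule LinearMap IsLocalRing RingTheory.Sequence
open Function (Injective Surjective Exact)

universe u

variable {Q : Type u} [CommRing Q] {K P Z W : Type u} [AddCommGroup K] [Module Q K]
  [AddCommGroup P] [Module Q P] [AddCommGroup Z] [Module Q Z] [AddCommGroup W] [Module Q W]

/-- Pushout of a short exact sequence. -/
lemma push {ι : K →ₗ[Q] P} {ρ : P →ₗ[Q] Z} (h1 : Injective ι) (h2 : Exact ι ρ) (h3 : Surjective ρ)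
    (ψ : K →ₗ[Q] W) : ∃ (E : ModuleCat.{u} Q) (α : W →ₗ[Q] E) (β : E →ₗ[Q] Z), Injective α ∧
      Exact α β ∧ Surjective β ∧ ∀ (Y : Type u) [AddCommGroup Y] [Module Q Y] (v : W →ₗ[Q] Y),
        (∃ w : E →ₗ[Q] Y, w ∘ₗ α = v) ↔ ∃ w : P →ₗ[Q] Y, w ∘ₗ ι = v ∘ₗ ψ := by
  let N := range (ψ.prod (-ι))
  refine ⟨.of Q ((W × P) ⧸ N), N.mkQ ∘ₗ inl Q W P, N.liftQ (ρ ∘ₗ .snd Q W P) ?_,
    (injective_iff_map_eq_zero _).mpr fun x hx => ?_, fun x => ⟨fun hx => ?_, ?_⟩,
    fun z => (h3 z).elim fun y hy => ⟨N.mkQ (0, y), hy⟩, fun Y _ _ v => ⟨?_, ?_⟩⟩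
  · rintro _ ⟨k, rfl⟩
    simp [h2.apply_apply_eq_zero]
  · obtain ⟨k, hk⟩ := (Quotient.mk_eq_zero N).mp hx
    obtain rfl : k = 0 := h1 (by simpa using congrArg Prod.snd hk)
    simpa using (congrArg Prod.fst hk).symm
  · obtain ⟨x, rfl⟩ := N.mkQ_surjective x
    obtain ⟨k, hk⟩ := (h2 x.2).mp hx
    exact ⟨x.1 + ψ k, (Submodule.Quotient.eq N).mpr ⟨k, by ext <;> simp [hk]⟩⟩
  · rintro ⟨y, rfl⟩
    exact map_zero ρ
  · rintro ⟨w, rfl⟩
    exact ⟨w ∘ₗ N.mkQ ∘ₗ inr Q W P, LinearMap.ext fun k =>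
      congrArg w ((Submodule.Quotient.eq N).mpr ⟨-k, by ext <;> simp⟩)⟩
  · rintro ⟨w, hw⟩
    refine ⟨N.liftQ (v.coprod w) ?_, LinearMap.ext fun x => (congrArg _ (map_zero w)).trans
      (add_zero (v x))⟩
    rintro _ ⟨k, rfl⟩
    simp [show w (ι k) = v (ψ k) from LinearMap.congr_fun hw k]

lemma Gd_pi {α : K →ₗ[Q] P} (h : Gd W α = 0) (m : ℕ) : Gd (Fin m → W) α = 0 :=
  Gd_eq_zero.mpr fun v => by
    choose w hw using fun j => Gd_eq_zero.mp h (proj j ∘ₗ v)
    exact ⟨LinearMap.pi w, LinearMap.ext fun x => funext fun j => LinearMap.congr_fun (hw j) x⟩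

lemma st_of {n : ℕ} (s : W →ₗ[Q] Fin n → Q) (ρ : (Fin n → Q) →ₗ[Q] W) (h : ∀ x, ρ (s x) = x) :
    St (0 : Q) W 1 := by
  rw [← mul_one (1 : Q)]
  exact (St.proj (X := Fin n → Q) LinearMap.id Function.surjective_id
    fun x hx => ⟨0, (smul_zero _).trans hx.symm⟩).fac s ρ fun x => (h x).trans (one_smul _ _).symm

lemma Dp.seq [IsLocalRing Q] [IsNoetherianRing Q] [Module.Finite Q W] [Nontrivial W] {n : ℕ}
    (h : Dp Q n W) : ∃ rs : List Q, rs.length = n ∧ (∀ r ∈ rs, r ∈ maximalIdeal Q) ∧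
      IsRegular W rs :=
  ModuleCat.exists_isRegular_of_exists_subsingleton_ext _ n (.of Q W) (lt_top_iff_ne_top.mpr
    (top_ne_ideal_smul_of_le_jacobson_annihilator (maximalIdeal_le_jacobson _)).symm)
    (.of Q (Q ⧸ maximalIdeal Q)) (by rw [Module.support_eq_zeroLocus, Ideal.annihilator_quotient])
    fun i hi => subsingleton_of_forall_eq 0 (h _ inferInstance (fun a ha => ⟨1, fun t => by
      obtain ⟨t, rfl⟩ := mkQ_surjective _ t
      exact (Quotient.mk_eq_zero _).mpr (Ideal.mul_mem_right _ _ (by rwa [pow_one]))⟩) i hi)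

variable {S : Type u} [CommRing S] [Algebra S Q] {g f : S}

lemma da0 (h : IsSMulRegular S g) (hs : Surjective (algebraMap S Q))
    (hk : ∀ a, algebraMap S Q a = 0 ↔ ∃ b, g • b = a) : DA g Q := by
  refine ⟨fun y => by rw [Algebra.smul_def, (hk g).mpr ⟨1, mul_one g⟩, zero_mul],
    fun E _ _ _ T hT y hy => ?_⟩
  obtain ⟨l, rfl⟩ := Module.projective_lifting_property (Algebra.linearMap S Q) y hs
  obtain ⟨w, hw⟩ := lift (g • LinearMap.id : S →ₗ[S] S) (l ∘ₗ T false) fun v => (hk _).mp (hy v)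
  exact ⟨Algebra.linearMap S Q ∘ₗ w, fun v => congrArg _ (h ((LinearMap.congr_fun hw _).trans
    ((congrArg l (hT false v)).trans (map_smul _ _ _))).symm)⟩

theorem selfext [IsLocalRing S] [IsNoetherianRing S] [IsLocalRing Q] [IsNoetherianRing Q]
    {xs : List S} (hm : Ideal.ofList xs = maximalIdeal S) (hr : IsWeaklyRegular S xs)
    (h5 : xs.length = 5) (hg : Rg S g f) (hs : Surjective (algebraMap S Q))
    (hk : ∀ a, algebraMap S Q a = 0 ↔ ∃ b, g • b = a) {R' : Type u} [AddCommGroup R'] [Module Q R']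
    (π : Q →ₗ[Q] R') (hπ : Surjective π) (hk' : ∀ a, π a = 0 ↔ ∃ b, algebraMap S Q f • b = a)
    [Module.Finite Q W] (h1 : Dp Q 4 W) (h2 : LS (0 : Q) W) (h3 : ¬ St (0 : Q) W 1) :
    ∃ (E : ModuleCat.{u} Q) (α : W →ₗ[Q] E) (β : E →ₗ[Q] W), Injective α ∧ Exact α β ∧
      Surjective β ∧ Gd W α ≠ 0 ∧ Gd R' α = 0 ∧ Gd Q α = 0 := by
  have g0 : algebraMap S Q g = 0 := (hk g).mpr ⟨1, mul_one g⟩
  have g1 : IsSMulRegular S g := .of_right_eq_zero_of_smul hg.1
  have : Nontrivial W := not_subsingleton_iff_nontrivial.mp fun _ =>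
    h3 (st_of (n := 0) 0 0 fun _ => Subsingleton.elim _ _)
  let := Module.compHom W (algebraMap S Q)
  let := Module.compHom R' (algebraMap S Q)
  have : IsScalarTower S Q W := .of_compHom S Q W
  have : IsScalarTower S Q R' := .of_compHom S Q R'
  have := IsLocalHom.of_surjective _ hs
  have d1 : Dp S 4 W := by
    obtain ⟨rs, b1, b2, b3⟩ := h1.seq
    have e : (rs.map (Function.surjInv hs)).map (algebraMap S Q) = rs := by
      simp [Function.comp_def, Function.surjInv_eq]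
    have b4 := b3.1
    rw [← e, isWeaklyRegular_map_algebraMap_iff] at b4
    refine (Dp.of_reg (fun r hr hu => ?_) b4).mono (by simp [b1])
    obtain ⟨x, hx, rfl⟩ := List.mem_map.mp hr
    exact b2 x hx (by simpa [Function.surjInv_eq] using hu.map (algebraMap S Q))
  obtain ⟨n, ρ, hρ⟩ := Module.Finite.exists_fin' Q W
  let q := (Algebra.linearMap S Q).compLeft (Fin n)
  have hq : Surjective q := hs.comp_left
  have hq' : ∀ x, q x = 0 → ∃ y, g • y = x := fun x hx => by
    choose y hy using fun j => (hk (x j)).mp (congrFun hx j)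
    exact ⟨y, funext hy⟩
  have q0 : ∀ x, q (g • x) = 0 := fun x => by rw [map_smul, ← algebraMap_smul Q, g0, zero_smul]
  let p := ρ.restrictScalars S ∘ₗ q
  have hp : Surjective p := hρ.comp hq
  have gF : ∀ x y : Fin n → S, g • x = g • y → x = y := fun x y e =>
    funext fun i => g1 (congrFun e i)
  have : Module.Free S (ker p) := fr hm hr (h5 ▸ Dp.sub (ker p).injective_subtype
    p.exact_subtype_ker_map hp
      (((Dp.of_reg (fun _ ha => hm ▸ Ideal.subset_span ha) hr).pi n).mono h5.ge) d1)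
  let j : (Fin n → S) →ₗ[S] ker p := (g • LinearMap.id).codRestrict _ fun v =>
    (congrArg ρ (q0 v)).trans (map_zero ρ)
  let e : (Fin n → S) ≃ₗ[S] ker p := .ofFinrankEq _ _ (le_antisymm
    (finrank_le_finrank_of_injective (f := j) fun a b e => gF _ _ (congrArg Subtype.val e))
    (finrank_le_finrank_of_injective (ker p).injective_subtype))
  obtain ⟨D, hD, hp'⟩ : ∃ D : Op S (Fin n → S) (Fin n → S), Sq g D ∧
      ∀ v, p v = 0 ↔ ∃ w, D true w = v := by
    refine ⟨fun b => bif b then (ker p).subtype ∘ₗ e else e.symm ∘ₗ j, fun b v => ?_,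
      fun v => ⟨fun h => ⟨e.symm ⟨v, h⟩, by simp⟩, ?_⟩⟩
    · cases b
      · exact e.symm_apply_eq.mpr (Subtype.ext (by simp [j]))
      · simp [j]
    · rintro ⟨w, rfl⟩
      exact (e w).2
  have t1 : ∀ v, D true (D false v) = g • v := hD true
  have t2 : ∀ v, D false (D true v) = g • v := hD false
  have t3 : Injective (D true) := fun x y e => gF _ _ (by rw [← t2, e, t2])
  have t4 : ∀ v, p (D true v) = 0 := fun v => (hp' _).mpr ⟨v, rfl⟩
  let i : (Fin n → S) →ₗ[S] ker ρ := (q ∘ₗ D true).codRestrict ((ker ρ).restrictScalars S) t4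
  have hi : Surjective i := fun y => by
    obtain ⟨x, hx⟩ := hq y.1
    obtain ⟨x, rfl⟩ := (hp' x).mp ((congrArg ρ hx).trans y.2)
    exact ⟨x, Subtype.ext hx⟩
  have key : ∀ (Y : Type u) [AddCommGroup Y] [Module Q Y] [Module S Y] [IsScalarTower S Q Y],
      DA g Y → ∀ v : ker ρ →ₗ[Q] Y, ∃ w, w ∘ₗ (ker ρ).subtype = v := fun Y _ _ _ _ hY v => by
    obtain ⟨z, hz⟩ := hY.2 _ D hD (v.restrictScalars S ∘ₗ i) fun x => by
      rw [comp_apply, show i (D false x) = 0 from Subtype.ext ((congrArg q (t1 x)).trans (q0 x)),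
        map_zero]
    obtain ⟨w, rfl⟩ := desc q hq z fun x hx => by
      obtain ⟨y, rfl⟩ := hq' x hx
      rw [mem_ker, map_smul, hY.1]
    refine ⟨w.extendScalarsOfSurjective hs, LinearMap.ext fun y => ?_⟩
    obtain ⟨x, rfl⟩ := hi y
    exact (hz x).symm
  have hR : DA g R' := da hg (π.restrictScalars S ∘ₗ Algebra.linearMap S Q) (hπ.comp hs)
    fun a => (hk' _).trans ⟨by
      rintro ⟨b, hb⟩
      obtain ⟨b, rfl⟩ := hs b
      obtain ⟨c, hc⟩ := (hk (a - f * b)).mp (by simp [← show _ = algebraMap S Q a from hb])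
      exact ⟨(c, b), by simp [show g * c = _ from hc]⟩, by
      rintro ⟨w, rfl⟩
      exact ⟨algebraMap S Q w.2, by simp [g0]⟩⟩
  obtain ⟨ψ, hψ⟩ : ∃ ψ : ker ρ →ₗ[Q] W, ¬ ∃ w, w ∘ₗ (ker ρ).subtype = ψ := not_forall.mp fun h => by
    refine (rigid hm hr h5 hD (fun a ha => ?_) fun φ hφ => ?_).elim fun H hH => ?_
    rotate_right
    · obtain ⟨s, hs'⟩ := desc p hp (q ∘ₗ H true ∘ₗ D false) fun x hx => by
        obtain ⟨y, rfl⟩ := (hp' x).mp hx
        rw [mem_ker, comp_apply, comp_apply, t2, map_smul, q0]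
      refine h3 (st_of (s.extendScalarsOfSurjective hs) ρ fun x => ?_)
      obtain ⟨x, rfl⟩ := hp x
      have := congrArg p (hH true x)
      rw [map_add, t4, zero_add] at this
      exact (congrArg ρ (LinearMap.congr_fun hs' x)).trans this.symm
    · refine (h2 _ (map_nonunit (algebraMap S Q) a ha)).imp fun k hk => ?_
      obtain ⟨w, hw⟩ := hk _ _ ρ hρ (zero_smul _) LinearMap.id
      obtain ⟨L, hL⟩ := Module.projective_lifting_property q (w.restrictScalars S ∘ₗ p) hq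
      have e1 : ∀ v, q (L v) = w (p v) := LinearMap.congr_fun hL
      obtain ⟨A, hA⟩ := lift (D true) (a ^ k • LinearMap.id - L) fun v => (hp' _).mp (by
        have : p (L v) = algebraMap S Q a ^ k • p v :=
          (congrArg ρ (e1 v)).trans (LinearMap.congr_fun hw _)
        rw [← map_pow, algebraMap_smul] at this
        simp [this])
      obtain ⟨B, hB⟩ := lift (g • LinearMap.id) (L ∘ₗ D true) fun v => hq' _ (by
        rw [comp_apply, e1, t4, map_zero])
      have e2 : ∀ v, D true (A v) = a ^ k • v - L v := LinearMap.congr_fun hA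
      have e3 : ∀ v, g • B v = L (D true v) := LinearMap.congr_fun hB
      refine ⟨fun b => bif b then B else A, fun b v => ?_⟩
      cases b
      · exact t3 (by simp [t1, e2, e3])
      · simp [e2, ← gF (L v) (B (D false v)) (by rw [e3, t1, map_smul])]
    · obtain ⟨ψ, hψ⟩ := desc i hi (p ∘ₗ φ true) fun x hx => by
        obtain ⟨y, hy⟩ := hq' _ (congrArg Subtype.val hx)
        obtain rfl : D false y = x := t3 ((t1 y).trans hy)
        have := congrArg p (hφ true y)
        rwa [map_add, t4, zero_add, map_zero] at this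
      obtain ⟨r, hr⟩ := h (ψ.extendScalarsOfSurjective hs)
      obtain ⟨A, hA⟩ := Module.projective_lifting_property p (r.restrictScalars S ∘ₗ q) hp
      obtain ⟨B, hB⟩ := lift (D true) (A ∘ₗ D true - φ true) fun v => (hp' _).mp (by
        rw [LinearMap.sub_apply, map_sub, sub_eq_zero]
        exact (LinearMap.congr_fun hA _).trans
          ((LinearMap.congr_fun hr (i v)).trans (LinearMap.congr_fun hψ v)))
      have e1 : ∀ v, D true (B v) = A (D true v) - φ true v := LinearMap.congr_fun hB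
      refine ⟨fun b => bif b then A else B, fun b v => ?_⟩
      cases b
      · exact t3 (by simpa [t1, e1, eq_neg_iff_add_eq_zero] using hφ true v)
      · simp [e1]
  obtain ⟨E, α, β, a1, a2, a3, a4⟩ := push (ker ρ).injective_subtype ρ.exact_subtype_ker_map hρ ψ
  exact ⟨E, α, β, a1, a2, a3, fun h => hψ ((a4 W _).mp (Gd_eq_zero.mp h LinearMap.id)),
    Gd_eq_zero.mpr fun v => (a4 _ v).mpr (key _ hR _),
    Gd_eq_zero.mpr fun v => (a4 _ v).mpr (key _ (da0 g1 hs hk) _)⟩

end Pool.Agent.Lib.MP_a966df_ag
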