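import Pool.Agent.Lib.MP_a966df_ag.Depth

namespace Pool.Agent.Lib.MP_a966df_ag

open Submodule LinearMap CategoryTheory.Abelian IsLocalRing
open Function (Injective Surjective Exact)
open scoped CategoryTheory

universe u

variable {Q : Type u} [CommRing Q] {X' X X'' Y' Y Y'' : Type u} [AddCommGroup X'] [Module Q X']
  [AddCommGroup X] [Module Q X] [AddCommGroup X''] [Module Q X''] [AddCommGroup Y'] [Module Q Y']
  [AddCommGroup Y] [Module Q Y] [AddCommGroup Y''] [Module Q Y'']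

/-- Multiples by `a` of maps out of `Z` lift along surjections of modules killed by `c`. -/
def St (c : Q) (Z : Type u) [AddCommGroup Z] [Module Q Z] (a : Q) : Prop :=
  ∀ (Y Y'' : Type u) [AddCommGroup Y] [Module Q Y] [AddCommGroup Y''] [Module Q Y'']
    (p : Y →ₗ[Q] Y''), Surjective p → (∀ y : Y, c • y = 0) → ∀ v : Z →ₗ[Q] Y'',
      ∃ w : Z →ₗ[Q] Y, p ∘ₗ w = a • v

variable {c a b : Q}

lemma St.fac (h : St c Y b) (u : X →ₗ[Q] Y) (w : Y →ₗ[Q] X) (e : ∀ x, w (u x) = a • x) :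
    St c X (a * b) := by
  intro Z Z'' _ _ _ _ p hp hc v
  obtain ⟨z, hz⟩ := h Z Z'' p hp hc (v ∘ₗ w)
  refine ⟨z ∘ₗ u, LinearMap.ext fun x => ?_⟩
  have := LinearMap.congr_fun hz (u x)
  simp only [comp_apply, LinearMap.smul_apply, e, map_smul] at this ⊢
  rw [this, smul_smul, mul_comm]

lemma St.proj [Module.Projective Q X] (π : X →ₗ[Q] Y) (hπ : Surjective π)
    (h : ∀ x, π x = 0 → ∃ y, c • y = x) : St c Y 1 := by
  intro Z Z'' _ _ _ _ p hp hc v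
  obtain ⟨z, hz⟩ := Module.projective_lifting_property p (v ∘ₗ π) hp
  obtain ⟨w, rfl⟩ := desc π hπ z fun x hx => by
    obtain ⟨y, rfl⟩ := h x hx
    simp [hc]
  exact ⟨w, by rw [one_smul, ← cancel_right hπ, comp_assoc, hz]⟩

variable {α : X' →ₗ[Q] X} {β : X →ₗ[Q] X''}

lemma St.ret (h : St c X'' a) (hα : Injective α) (he : Exact α β) (hβ : Surjective β)
    (hc : ∀ x : X, c • x = 0) : ∃ ρ : X →ₗ[Q] X', ∀ x, ρ (α x) = a • x := by
  obtain ⟨w, hw⟩ := h X X'' β hβ hc LinearMap.id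
  obtain ⟨ρ, hρ⟩ := cores α hα (a • LinearMap.id - w ∘ₗ β) fun x => (he _).mp (by
    have := LinearMap.congr_fun hw (β x)
    simp only [comp_apply, LinearMap.smul_apply, id_apply] at this
    simp [this])
  refine ⟨ρ, fun x => hα ?_⟩
  have := LinearMap.congr_fun hρ (α x)
  simpa [he.apply_apply_eq_zero] using this

lemma St.ext (h' : St c X' b) (h : St c X'' a) (hα : Injective α) (he : Exact α β)
    (hβ : Surjective β) (hc : ∀ x : X, c • x = 0) : St c X (a * a * b) := by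
  obtain ⟨ρ, hρ⟩ := h.ret hα he hβ hc
  intro Z Z'' _ _ _ _ p hp hc v
  obtain ⟨w, hw⟩ := h' Z Z'' p hp hc (v ∘ₗ α)
  obtain ⟨z, hz⟩ := desc β hβ ((a * b) • v - p ∘ₗ w ∘ₗ ρ) fun x hx => by
    obtain ⟨y, rfl⟩ := (he x).mp hx
    have := LinearMap.congr_fun hw y
    simp only [comp_apply, LinearMap.smul_apply] at this
    simp [hρ, this, mul_smul]
  obtain ⟨t, ht⟩ := h Z Z'' p hp hc z
  refine ⟨t ∘ₗ β + a • w ∘ₗ ρ, ?_⟩
  rw [comp_add, ← comp_assoc, ht, smul_comp, hz, comp_smul]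
  module

/-- Vanishing of the first Ext group. -/
def E1 (Q X Y : Type u) [CommRing Q] [AddCommGroup X] [Module Q X] [AddCommGroup Y] [Module Q Y] :
    Prop := ∀ x : Ext (ModuleCat.of Q X) (ModuleCat.of Q Y) 1, x = 0

lemma E1.ext (h' : E1 Q X' Y) (h : E1 Q X'' Y) (hα : Injective α) (he : Exact α β)
    (hβ : Surjective β) : E1 Q X Y := fun x => by
  obtain ⟨y, rfl⟩ := Ext.contravariant_sequence_exact₂ (ses hα he hβ) _ x (h' _)
  obtain rfl : y = 0 := h y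
  exact Ext.comp_zero _ _ _ _ _

lemma E1.extend (h : E1 Q X'' Y) (hα : Injective α) (he : Exact α β) (hβ : Surjective β)
    (v : X' →ₗ[Q] Y) : ∃ w : X →ₗ[Q] Y, w ∘ₗ α = v := by
  obtain ⟨y, hy⟩ := Ext.contravariant_sequence_exact₁ (ses hα he hβ) (ModuleCat.of Q Y)
    (Ext.mk₀ (ModuleCat.ofHom v)) rfl (h _)
  obtain ⟨y, rfl⟩ := (Ext.mk₀_bijective _ _).2 y
  rw [Ext.mk₀_comp_mk₀] at hy
  exact ⟨y.hom, congrArg ModuleCat.Hom.hom ((Ext.mk₀_bijective _ _).1 hy)⟩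

lemma E1.lift (h : E1 Q Y X') (hα : Injective α) (he : Exact α β) (hβ : Surjective β)
    (v : Y →ₗ[Q] X'') : ∃ w : Y →ₗ[Q] X, β ∘ₗ w = v := by
  obtain ⟨y, hy⟩ := Ext.covariant_sequence_exact₃ (ModuleCat.of Q Y) (ses hα he hβ)
    (Ext.mk₀ (ModuleCat.ofHom v)) rfl (h _)
  obtain ⟨y, rfl⟩ := (Ext.mk₀_bijective _ _).2 y
  rw [Ext.mk₀_comp_mk₀] at hy
  exact ⟨y.hom, congrArg ModuleCat.Hom.hom ((Ext.mk₀_bijective _ _).1 hy)⟩

lemma E1.of [Module.Projective Q X] (hα : Injective α) (he : Exact α β) (hβ : Surjective β)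
    (h : ∀ v : X' →ₗ[Q] Y, ∃ w : X →ₗ[Q] Y, w ∘ₗ α = v) : E1 Q X'' Y := fun x => by
  have : CategoryTheory.Projective (ModuleCat.shortComplexOfCompEqZero α β he.linearMap_comp_eq_zero).X₂ :=
    ModuleCat.projective_of_categoryTheory_projective (ModuleCat.of Q X)
  obtain ⟨y, rfl⟩ := Ext.contravariant_sequence_exact₃ (ses hα he hβ) _ x
    (Ext.eq_zero_of_projective _) (add_zero 1)
  obtain ⟨y, rfl⟩ := (Ext.mk₀_bijective _ _).2 y
  obtain ⟨w, hw⟩ := h y.hom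
  have e : y = (ModuleCat.shortComplexOfCompEqZero α β he.linearMap_comp_eq_zero).f ≫
    ModuleCat.ofHom w := ModuleCat.hom_ext hw.symm
  rw [e, ← Ext.mk₀_comp_mk₀]
  exact (ses hα he hβ).extClass_comp_assoc _

lemma Gd_eq_zero : Gd Y α = 0 ↔ ∀ v : X' →ₗ[Q] Y, ∃ w : X →ₗ[Q] Y, w ∘ₗ α = v :=
  rl_eq_zero.trans ⟨fun h _ => h trivial, fun h v _ => h v⟩

lemma Fd_eq_zero : Fd Y β = 0 ↔ ∀ v : Y →ₗ[Q] X'', ∃ w : Y →ₗ[Q] X, β ∘ₗ w = v :=
  rl_eq_zero.trans ⟨fun h _ => h trivial, fun h v _ => h v⟩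

lemma Fd_quot (π : Y →ₗ[Q] Y') (hπ : Surjective π) (h : ∀ y, π y = 0 → ∃ z, c • z = y)
    (hβ : Surjective β) (hc : ∀ x : X, c • x = 0) : Fd Y' β = Fd Y β := by
  have key : ∀ (Z : Type u) [AddCommGroup Z] [Module Q Z], (∀ x : Z, c • x = 0) →
      ∀ v : Y →ₗ[Q] Z, ∃ w : Y' →ₗ[Q] Z, w ∘ₗ π = v := fun Z _ _ hZ v => desc π hπ v fun y hy => by
    obtain ⟨z, rfl⟩ := h y hy
    simp [hZ]
  have e : (range (β.compRight (M := Y) Q)).comap (lcomp Q X'' π) =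
      range (β.compRight (M := Y') Q) := by
    ext v
    constructor
    · rintro ⟨w, hw⟩
      obtain ⟨w, rfl⟩ := key X hc w
      exact ⟨w, (cancel_right hπ).mp hw⟩
    · rintro ⟨w, rfl⟩
      exact ⟨w ∘ₗ π, rfl⟩
  rw [Fd, Fd, ← e, rl_comap, Submodule.map_top,
    (range_eq_top (f := lcomp Q X'' π)).mpr (key X'' fun x => by
    obtain ⟨x, rfl⟩ := hβ x
    rw [← map_smul, hc, map_zero])]

variable [IsLocalRing Q]

/-- Locally projective on the punctured spectrum, modulo `c`. -/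
def LS (c : Q) (Z : Type u) [AddCommGroup Z] [Module Q Z] : Prop :=
  ∀ a ∈ maximalIdeal Q, ∃ k : ℕ, St c Z (a ^ k)

lemma LS.ext (h' : LS c X') (h : LS c X'') (hα : Injective α) (he : Exact α β)
    (hβ : Surjective β) (hc : ∀ x : X, c • x = 0) : LS c X := fun a ha => by
  obtain ⟨k, hk⟩ := h' a ha
  obtain ⟨l, hl⟩ := h a ha
  exact ⟨l + l + k, by simpa only [pow_add] using hk.ext hl hα he hβ hc⟩

lemma LS.syz (h : LS c X'') (h1 : St c X 1) (hα : Injective α) (he : Exact α β)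
    (hβ : Surjective β) (hc : ∀ x : X, c • x = 0) : LS c X' := fun a ha => by
  obtain ⟨k, hk⟩ := h a ha
  obtain ⟨ρ, hρ⟩ := hk.ret hα he hβ hc
  exact ⟨k, by simpa using h1.fac α ρ hρ⟩

variable [IsNoetherianRing Q]

lemma rl_fin [Module.Finite Q X] {I : Submodule Q X}
    (h : ∀ a ∈ maximalIdeal Q, ∃ k : ℕ, ∀ v, a ^ k • v ∈ I) : rl I ⊤ ≠ ⊤ := by
  obtain ⟨t, ht⟩ := Ideal.exists_pow_le_of_le_radical_of_fg (I := maximalIdeal Q)
    (J := I.colon Set.univ) (fun a ha => (h a ha).imp fun k hk => mem_colon.mpr fun v _ => hk v)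
    (IsNoetherian.noetherian _)
  exact rl_ne_top t fun a ha v _ =>
    mem_colon.mp (ht (Ideal.pow_le_pow_right t.le_succ ha)) v trivial

lemma LS.fd (h : LS c Y) [Module.Finite Q Y] [Module.Finite Q X] (hβ : Surjective β)
    (hc : ∀ x : X, c • x = 0) : Fd Y β ≠ ⊤ := by
  have := Module.Finite.of_surjective β hβ
  exact rl_fin fun a ha => (h a ha).imp fun k hk v => hk X X'' β hβ hc v

lemma LS.gd (h : LS c X'') [Module.Finite Q Y] [Module.Finite Q X] (hα : Injective α)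
    (he : Exact α β) (hβ : Surjective β) (hc : ∀ x : X, c • x = 0) : Gd Y α ≠ ⊤ := by
  have := Module.Finite.of_injective α hα
  refine rl_fin fun a ha => (h a ha).imp fun k hk v => ?_
  obtain ⟨ρ, hρ⟩ := hk.ret hα he hβ hc
  exact ⟨v ∘ₗ ρ, LinearMap.ext fun x => by simp [hρ]⟩

end Pool.Agent.Lib.MP_a966df_ag
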