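import Pool.Agent.Lib.MP_a966df_ag.St

namespace Pool.Agent.Lib.MP_a966df_ag

open Submodule LinearMap IsLocalRing Pointwise
open Function (Injective Surjective Exact)

universe u

variable {Q : Type u} [CommRing Q]

/-- The lifting defect of `X` is the coboundary of a nonnegative invariant. -/
def Good (f : Q) (R' X : Type u) [AddCommGroup R'] [Module Q R'] [AddCommGroup X] [Module Q X] :
    Prop :=
  ∃ (h : ℕ) (κ : ∀ (Y : Type u) [AddCommGroup Y] [Module Q Y], ℕ∞), 0 < h ∧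
    (∀ (Y' Y Y'' : Type u) [AddCommGroup Y'] [Module Q Y'] [AddCommGroup Y] [Module Q Y]
      [AddCommGroup Y''] [Module Q Y''] (i : Y' →ₗ[Q] Y) (p : Y →ₗ[Q] Y''), Injective i →
      Exact i p → Surjective p → Module.Finite Q Y → (∀ y : Y, f • y = 0) →
      κ Y + h * Fd X p = κ Y' + κ Y'') ∧
    (∀ (Y : Type u) [AddCommGroup Y] [Module Q Y], Module.Finite Q Y → (∀ y : Y, f • y = 0) →
      κ Y ≠ ⊤) ∧ κ R' = 0 ∧
    ∀ (Y Z : Type u) [AddCommGroup Y] [Module Q Y] [AddCommGroup Z] [Module Q Z] (p : Z →ₗ[Q] Y),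
      Surjective p → Module.Finite Q Y → (∀ y : Y, f • y = 0) → κ Y = 0 → ∀ v : X →ₗ[Q] Y,
        ∃ w, p ∘ₗ w = v

/-- Additive invariants of finite modules killed by `f`. -/
def Addv (f : Q) (Θ : ∀ (Y : Type u) [AddCommGroup Y] [Module Q Y], ℤ) : Prop :=
  ∀ (Y' Y Y'' : Type u) [AddCommGroup Y'] [Module Q Y'] [AddCommGroup Y] [Module Q Y]
    [AddCommGroup Y''] [Module Q Y''] (i : Y' →ₗ[Q] Y) (p : Y →ₗ[Q] Y''), Injective i →
    Exact i p → Surjective p → Module.Finite Q Y → (∀ y : Y, f • y = 0) → Θ Y = Θ Y' + Θ Y''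

lemma arith {h : ℕ} {e e' e'' o o' o'' k k' k'' a b c : ℕ∞} (h1 : e + a + b = e' + e'' + c)
    (h2 : o + b + a = o' + o'' + 0) (h3 : k + h * c = k' + k'') (f1 : e ≠ ⊤) (f2 : e' ≠ ⊤)
    (f3 : e'' ≠ ⊤) (f4 : o ≠ ⊤) (f5 : o' ≠ ⊤) (f6 : o'' ≠ ⊤) (f7 : k ≠ ⊤) (f8 : k' ≠ ⊤)
    (f9 : k'' ≠ ⊤) (f10 : a ≠ ⊤) (f11 : b ≠ ⊤) :
    (h * e.toNat + k.toNat - h * o.toNat : ℤ) =
      (h * e'.toNat + k'.toNat - h * o'.toNat) + (h * e''.toNat + k''.toNat - h * o''.toNat) := by
  lift e to ℕ using f1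
  lift e' to ℕ using f2
  lift e'' to ℕ using f3
  lift o to ℕ using f4
  lift o' to ℕ using f5
  lift o'' to ℕ using f6
  lift k to ℕ using f7
  lift k' to ℕ using f8
  lift k'' to ℕ using f9
  lift a to ℕ using f10
  lift b to ℕ using f11
  lift c to ℕ using fun hc => by
    rw [hc, add_top] at h1
    exact ENat.natCast_ne_top _ (by exact_mod_cast h1)
  norm_cast at h1 h2 h3
  simp only [ENat.toNat_natCast]
  zify at h1 h2 h3
  linear_combination h * h1 - h * h2 + h3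

variable [IsLocalRing Q] [IsNoetherianRing Q] {f : Q} {R' : Type u} [CommRing R'] [Algebra Q R']
  {M : Type u} [AddCommGroup M] [Module Q M]

theorem theta (hf : IsSMulRegular Q f) (hs : Surjective (algebraMap Q R'))
    (hk : ∀ a, algebraMap Q R' a = 0 ↔ ∃ b, f • b = a) (hQ : Dp Q 4 Q)
    (hG : ∀ (X : Type u) [AddCommGroup X] [Module Q X], Module.Finite Q X → Dp Q 4 X → LS (0 : Q) X →
      Good f R' X) [Module.Finite Q M] (hM : ∀ y : M, f • y = 0) (h1 : LS f M) (h2 : Dp Q 3 M) :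
    ∃ Θ, Addv f Θ ∧ Θ R' = 0 ∧ ∃ (m : ℕ) (π : (Fin m → R') →ₗ[Q] M), Surjective π ∧
      Gd R' (ker π).subtype = 0 ∧ (Θ M = 0 → Gd M (ker π).subtype = 0 → St f M 1) := by
  obtain ⟨m, π, hπ⟩ := Module.Finite.exists_fin' Q M
  have hR : ∀ y : R', f • y = 0 := fun y => by
    rw [Algebra.smul_def, (hk f).mpr ⟨1, mul_one f⟩, zero_mul]
  have hP : ∀ y : Fin m → R', f • y = 0 := fun y => funext fun j => hR _
  have : Module.Finite Q R' := Module.Finite.of_surjective (Algebra.linearMap Q R') hs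
  let q : (Fin m → Q) →ₗ[Q] Fin m → R' := (Algebra.linearMap Q R').compLeft (Fin m)
  have hq : Surjective q := hs.comp_left
  have hq' : ∀ x, q x = 0 → ∃ y, f • y = x := fun x hx => by
    choose y hy using fun j => (hk (x j)).mp (congrFun hx j)
    exact ⟨y, funext hy⟩
  have hfP : Injective (lsmul Q (Fin m → Q) f) := fun x y e => funext fun j => hf (congrFun e j)
  obtain ⟨π', hπ'⟩ := desc q hq π fun x hx => by
    obtain ⟨y, rfl⟩ := hq' x hx
    simp [hM]
  have e0 : ∀ x, π' (q x) = π x := LinearMap.congr_fun hπ'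
  have hπs : Surjective π' := fun y => (hπ y).elim fun x hx => ⟨q x, (e0 x).trans hx⟩
  let r : ker π →ₗ[Q] ker π' := q.restrict fun x hx => (e0 x).trans hx
  have hr : Surjective r := fun y => by
    obtain ⟨x, hx⟩ := hq y.1
    exact ⟨⟨x, (e0 x).symm.trans (hx ▸ y.2)⟩, Subtype.ext hx⟩
  let φ : (Fin m → Q) →ₗ[Q] ker π := (lsmul Q _ f).codRestrict _ fun x => by simp [hM]
  have e1 : ∀ x : ker π, φ x = f • x := fun x => rfl
  have e2 : ∀ x, r (φ x) = 0 := fun x => Subtype.ext ((map_smul q f x).trans (hP _))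
  let t := (f • (⊤ : Submodule Q (ker π))).mkQ
  have ht : ∀ x, t x = 0 → ∃ y, f • y = x := fun x hx => by
    simpa using (mem_smul_pointwise_iff_exists _ _ _).mp ((Quotient.mk_eq_zero _).mp hx)
  have ht' : ∀ y : QuotSMulTop f (ker π), f • y = 0 :=
    Module.mem_annihilator.mp (QuotSMulTop.mem_annihilator _ f)
  obtain ⟨β, hβ⟩ := desc t (mkQ_surjective _) r fun x hx => by
    obtain ⟨y, rfl⟩ := ht x hx
    exact e2 y
  obtain ⟨α, hα⟩ := desc π hπ (t ∘ₗ φ) fun x hx =>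
    (congrArg t (e1 ⟨x, hx⟩)).trans ((map_smul t f _).trans (ht' _))
  have e3 : ∀ x, β (t x) = r x := LinearMap.congr_fun hβ
  have e4 : ∀ x, α (π x) = t (φ x) := LinearMap.congr_fun hα
  have hβs : Surjective β := fun y => (hr y).elim fun x hx => ⟨t x, (e3 x).trans hx⟩
  have hαi : Injective α := (injective_iff_map_eq_zero α).mpr fun y hy => by
    obtain ⟨x, rfl⟩ := hπ y
    obtain ⟨z, hz⟩ := ht _ ((e4 x).symm.trans hy)
    exact hfP (congrArg Subtype.val hz) ▸ z.2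
  have hαβ : Exact α β := fun y => by
    obtain ⟨x, rfl⟩ := mkQ_surjective _ y
    constructor
    · intro h
      obtain ⟨z, hz⟩ := hq' x (congrArg Subtype.val ((e3 x).symm.trans h))
      exact ⟨π z, (e4 z).trans (congrArg t (Subtype.ext hz))⟩
    · rintro ⟨z, hz⟩
      obtain ⟨z, rfl⟩ := hπ z
      rw [← hz, e4, e3, e2]
  have hι := (ker π').injective_subtype
  have hιπ := π'.exact_subtype_ker_map
  have sP : St f (Fin m → R') 1 := St.proj q hq hq'
  have h3 : LS f (ker π') := h1.syz sP hι hιπ hπs hP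
  have h4 : LS (0 : Q) (ker π) := fun a ha => (h1 a ha).imp fun k hk => by
    obtain ⟨ρ, hρ⟩ := hk.ret hι hιπ hπs hP
    obtain ⟨σ, hσ⟩ := Module.projective_lifting_property r (ρ ∘ₗ q) hr
    obtain ⟨τ, hτ⟩ := cores _ hfP ((ker π).subtype ∘ₗ (σ ∘ₗ (ker π).subtype - a ^ k • LinearMap.id))
      fun x => hq' _ (by
        have := congrArg Subtype.val ((LinearMap.congr_fun hσ x).trans (hρ (r x)))
        exact (map_sub q _ _).trans (sub_eq_zero.mpr (this.trans (map_smul q _ _).symm)))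
    rw [← mul_one (a ^ k)]
    refine (St.proj (X := (Fin m → Q) × (Fin m → Q)) LinearMap.id Function.surjective_id
      fun x hx => ⟨0, (smul_zero _).trans hx.symm⟩).fac ((ker π).subtype.prod τ) (σ.coprod (-φ)) fun x => ?_
    have : φ (τ x) = σ x - a ^ k • x := Subtype.ext (LinearMap.congr_fun hτ x)
    simp [this]
  obtain ⟨h, κ, h0, K1, K2, K3, K4⟩ := hG (ker π) inferInstance
    (Dp.sub (ker π).injective_subtype π.exact_subtype_ker_map hπ (hQ.pi m) h2) h4
  have g1 : ∀ (Y : Type u) [AddCommGroup Y] [Module Q Y] [Module.Finite Q Y], Gd Y α ≠ ⊤ :=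
    fun Y _ _ _ => h3.gd hαi hαβ hβs ht'
  have g2 : ∀ (Y : Type u) [AddCommGroup Y] [Module Q Y] [Module.Finite Q Y],
    Gd Y (ker π').subtype ≠ ⊤ := fun Y _ _ _ => h1.gd hι hιπ hπs hP
  have V1 : Gd R' (ker π').subtype = 0 := Gd_eq_zero.mpr fun v => by
    obtain ⟨w, hw⟩ := K4 R' Q (Algebra.linearMap Q R') hs inferInstance hR K3 (v ∘ₗ r)
    have e5 : ∀ x, algebraMap Q R' (w x) = v (r x) := LinearMap.congr_fun hw
    obtain ⟨ψ, hψ⟩ := cores (lsmul Q Q f) hf (w ∘ₗ φ) fun x => (hk _).mp (by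
      rw [comp_apply, e5, e2, map_zero])
    obtain ⟨z, hz⟩ := desc q hq (Algebra.linearMap Q R' ∘ₗ ψ) fun x hx => by
      obtain ⟨y, rfl⟩ := hq' x hx
      rw [mem_ker, map_smul, hR]
    refine ⟨z, LinearMap.ext fun y => ?_⟩
    obtain ⟨x, rfl⟩ := hr y
    have : ψ x = w x := hf ((LinearMap.congr_fun hψ x).trans (map_smul w f x))
    exact (LinearMap.congr_fun hz x).trans ((congrArg (algebraMap Q R') this).trans (e5 x))
  have V2 : Gd R' α = 0 := Gd_eq_zero.mpr fun v => by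
    obtain ⟨w, hw⟩ := Module.projective_lifting_property (Algebra.linearMap Q R') (v ∘ₗ π) hs
    have e5 : ∀ x, algebraMap Q R' (w x) = v (π x) := LinearMap.congr_fun hw
    obtain ⟨ψ, hψ⟩ := cores (lsmul Q Q f) hf (w ∘ₗ (ker π).subtype) fun x => (hk _).mp (by
      rw [comp_apply, e5, subtype_apply, x.2, map_zero])
    obtain ⟨z, hz⟩ := desc t (mkQ_surjective _) (Algebra.linearMap Q R' ∘ₗ ψ) fun x hx => by
      obtain ⟨y, rfl⟩ := ht x hx
      rw [mem_ker, map_smul, hR]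
    refine ⟨z, LinearMap.ext fun y => ?_⟩
    obtain ⟨x, rfl⟩ := hπ y
    have : ψ (φ x) = w x := hf ((LinearMap.congr_fun hψ (φ x)).trans (map_smul w f x))
    rw [comp_apply, e4]
    exact (LinearMap.congr_fun hz _).trans ((congrArg (algebraMap Q R') this).trans (e5 x))
  refine ⟨fun Y _ _ => h * (Gd Y α).toNat + (κ Y).toNat - h * (Gd Y (ker π').subtype).toNat,
    fun Y' Y Y'' _ _ _ _ _ _ i p hi he hp _ hY => ?_, by simp [V1, V2, K3], m, π', hπs, V1,
    fun a1 a2 => ?_⟩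
  · have := Module.Finite.of_injective i hi
    have := Module.Finite.of_surjective p hp
    have k1 := three hβs hαβ hi he
    have k2 := three hπs hιπ hi he
    rw [Fd_quot t (mkQ_surjective _) ht hp hY] at k1
    rw [(Fd_eq_zero (Y := Fin m → R')).mpr fun v => by simpa using sP Y Y'' p hp hY v] at k2
    exact arith k1 k2 (K1 Y' Y Y'' i p hi he hp inferInstance hY) (g1 _) (g1 _) (g1 _) (g2 _)
      (g2 _) (g2 _) (K2 _ inferInstance hY)
      (K2 _ inferInstance fun y => hi (by rw [map_smul, hY, map_zero]))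
      (K2 _ inferInstance fun y => by obtain ⟨y, rfl⟩ := hp y; rw [← map_smul, hY, map_zero])
      (h1.fd hp hY) (h3.fd hp hY)
  · simp only [a2, ENat.toNat_zero, Nat.cast_zero, mul_zero, sub_zero] at a1
    norm_cast at a1
    rw [Nat.add_eq_zero_iff, mul_eq_zero, ENat.toNat_eq_zero, ENat.toNat_eq_zero] at a1
    obtain ⟨v, hv⟩ := Gd_eq_zero.mp ((a1.1.resolve_left h0.ne').resolve_right (g1 M)) LinearMap.id
    obtain ⟨w, hw⟩ := K4 M _ π hπ inferInstance hM (a1.2.resolve_right (K2 M inferInstance hM)) (v ∘ₗ t)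
    obtain ⟨s, hs⟩ := desc π hπ (q ∘ₗ w ∘ₗ φ) fun x hx =>
      (congrArg (q ∘ₗ w) (e1 ⟨x, hx⟩)).trans ((map_smul (q ∘ₗ w) f _).trans (hP _))
    rw [← mul_one (1 : Q)]
    refine sP.fac s π' fun y => ?_
    obtain ⟨x, rfl⟩ := hπ y
    have e5 : s (π x) = q (w (φ x)) := LinearMap.congr_fun hs x
    have e6 : π (w (φ x)) = v (t (φ x)) := LinearMap.congr_fun hw _
    rw [e5, e0, e6, ← e4, one_smul]
    exact LinearMap.congr_fun hv _

end Pool.Agent.Lib.MP_a966df_ag
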