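import Pool.Agent.Lib.MP_a966df_ag.Filt

namespace Pool.Agent.Lib.MP_a966df_ag

open Submodule LinearMap IsLocalRing TensorProduct Finset RingTheory.Sequence
open Function (Injective Surjective Exact Bijective)

universe u

/-- The properties of purely inseparable towers that are used. -/
structure Nice (p : ℕ) (A Q : Type u) [CommRing A] [CommRing Q] [Algebra A Q] : Prop where
  fin : Module.Finite A Q
  free : Module.Free A Q
  ins : ∀ y : Q, ∃ e b, y ^ p ^ e = algebraMap A Q b
  filt : ∀ (X : Type u) [AddCommGroup X] [Module Q X] [Module A X] [IsScalarTower A Q X],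
    Filt Q X (Q ⊗[A] X)
  frob : ∃ l : Q →ₗ[A] A, ∀ (X : Type u) [AddCommGroup X] [Module Q X] [Module A X]
    [IsScalarTower A Q X], Bijective fun ψ : X →ₗ[Q] Q => l ∘ₗ ψ.restrictScalars A

variable {p : ℕ} {A B Q : Type u} [CommRing A] [CommRing B] [CommRing Q] [Algebra A Q]

lemma Nice.trans [Algebra A B] [Algebra B Q] [IsScalarTower A B Q] (h : Nice p A B)
    (h' : Nice p B Q) : Nice p A Q := by
  have := h.fin
  have := h'.fin
  have := h.free
  have := h'.free
  refine ⟨.trans B Q, .trans (S := B), fun y => ?_, fun X _ _ _ _ => ?_, ?_⟩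
  · obtain ⟨e, b, hb⟩ := h'.ins y
    obtain ⟨d, c, hc⟩ := h.ins b
    exact ⟨e + d, c, by rw [pow_add, pow_mul, hb, ← map_pow, hc, ← IsScalarTower.algebraMap_apply]⟩
  · let := Module.compHom X (algebraMap B Q)
    have : IsScalarTower B Q X := .of_compHom B Q X
    have : IsScalarTower A B X := .to₁₂₄ A B Q X
    exact ((h'.filt X).trans ((h.filt X).bc Q)).equiv
      (AlgebraTensorModule.cancelBaseChange A B Q Q X)
  · obtain ⟨l, hl⟩ := h.frob
    obtain ⟨l', hl'⟩ := h'.frob
    refine ⟨l ∘ₗ l'.restrictScalars A, fun X _ _ _ _ => ?_⟩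
    let := Module.compHom X (algebraMap B Q)
    have : IsScalarTower B Q X := .of_compHom B Q X
    have : IsScalarTower A B X := .to₁₂₄ A B Q X
    exact (hl X).comp (hl' X)

lemma Nice.step (hp : p.Prime) (h0 : (p : A) = 0) [Module.Finite A Q] [Module.Free A Q] (e n : ℕ)
    (hn : p ^ e = n + 1) (t : Q) (a : A) (ht : t ^ (n + 1) = algebraMap A Q a)
    (hadj : Algebra.adjoin A {t} = ⊤) (l : Q →ₗ[A] A)
    (hl : ∀ i ≤ n, l (t ^ i) = if i = n then 1 else 0) : Nice p A Q := by
  have hQ : (p : Q) = 0 := by rw [← map_natCast (algebraMap A Q), h0, map_zero]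
  have ind : ∀ P : Q → Prop, P t → (∀ r, P (algebraMap A Q r)) → (∀ x y, P x → P y → P (x + y)) →
      (∀ x y, P x → P y → P (x * y)) → ∀ y, P y := fun P h1 h2 h3 h4 y =>
    Algebra.adjoin_induction (p := fun x _ => P x) (fun x hx => by rwa [hx]) h2
      (fun x y _ _ => h3 x y) (fun x y _ _ => h4 x y) (hadj.ge trivial)
  refine ⟨‹_›, ‹_›, fun y => ⟨e, ind (fun y => ∃ b, y ^ p ^ e = algebraMap A Q b)
    ⟨a, hn ▸ ht⟩ (fun r => ⟨_, (map_pow _ _ _).symm⟩) ?_ ?_ y⟩, fun X _ _ _ _ => ?_, l,
    fun X _ _ _ _ => ?_⟩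
  · rintro x y ⟨b, hb⟩ ⟨c, hc⟩
    obtain ⟨r, hr⟩ := exists_add_pow_prime_pow_eq hp x y e
    exact ⟨b + c, by simp [hr, hb, hc, hQ]⟩
  · rintro x y ⟨b, hb⟩ ⟨c, hc⟩
    exact ⟨b * c, by rw [mul_pow, hb, hc, map_mul]⟩
  · let r : Module.End Q (Q ⊗[A] X) := ((lsmul Q X t).restrictScalars A).baseChange Q
    let s : Module.End Q (Q ⊗[A] X) := algebraMap Q _ t - r
    let μ : Q ⊗[A] X →ₗ[Q] X := LinearMap.id.liftBaseChange Q
    have e1 : ∀ c x, s (c ⊗ₜ x) = t • c ⊗ₜ x - c ⊗ₜ (t • x) := fun c x => rfl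
    have e2 : ∀ v, v - 1 ⊗ₜ μ v ∈ range s := fun v => by
      induction v with
      | zero => simp
      | add x y hx hy =>
        rw [map_add, tmul_add, add_sub_add_comm]
        exact add_mem hx hy
      | tmul c x =>
        refine ind (fun c => ∀ x : X, c ⊗ₜ x - 1 ⊗ₜ (c • x) ∈ range s) (fun x => ⟨1 ⊗ₜ x, ?_⟩)
          (fun c x => ?_) (fun c d hc hd x => ?_) (fun c d hc hd x => ?_) c x
        · rw [e1, smul_tmul', smul_eq_mul, mul_one]
        · rw [algebraMap_smul, tmul_smul, smul_tmul', Algebra.algebraMap_eq_smul_one, sub_self]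
          exact zero_mem _
        · rw [add_tmul, add_smul, tmul_add, add_sub_add_comm]
          exact add_mem (hc x) (hd x)
        · have := add_mem (smul_mem _ c (hd x)) (hc (d • x))
          rwa [smul_sub, smul_tmul', smul_tmul', smul_eq_mul, smul_eq_mul, mul_one, smul_smul,
            sub_add_sub_cancel] at this
    have e3 : s ^ (n + 1) = 0 := by
      obtain ⟨c, hc⟩ := Commute.exists_add_pow_prime_pow_eq hp (x := s) (y := r)
        (Commute.sub_left (a := algebraMap Q _ t) (b := r) (Algebra.commute_algebraMap_left t r)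
          (Commute.refl r)) e
      have : r ^ (n + 1) = algebraMap Q _ (algebraMap A Q a) := by
        rw [← baseChange_pow]
        ext x
        have : ∀ k, (((lsmul Q X t).restrictScalars A) ^ k) x = t ^ k • x := fun k => by
          induction k with
          | zero => simp
          | succ k ih => rw [pow_succ', Module.End.mul_apply, ih, pow_succ', mul_smul]; rfl
        simp [this, ht]
      rw [show s + r = _ from sub_add_cancel _ r, ← map_natCast (algebraMap Q _), hQ, hn, this, ← map_pow, ht, map_zero, zero_mul, zero_mul,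
        zero_mul, add_zero] at hc
      exact LinearMap.ext fun v => right_eq_add.mp (LinearMap.congr_fun hc v)
    have e4 : ∀ j i, i + j ≤ n → ∀ x : X, TensorProduct.lid A X (l.rTensor X
        (t ^ i • (s ^ j) (1 ⊗ₜ x))) = if i + j = n then x else 0 := fun j => by
      induction j with
      | zero =>
        intro i hi x
        simp [smul_tmul', hl i hi]
      | succ j ih =>
        intro i hi x
        rw [pow_succ, Module.End.mul_apply, e1, map_sub, map_smul (s ^ j), smul_sub, smul_smul, ← pow_succ,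
          map_sub, map_sub, ih _ (by omega), ih _ (by omega), if_neg (by omega : ¬ i + j = n),
          sub_zero, add_assoc, add_comm 1]
    refine .of_nil s μ (fun x => ⟨1 ⊗ₜ x, one_smul Q x⟩) (le_antisymm (fun v hv => ?_) ?_) n e3
      fun v hv => ?_
    · simpa [mem_ker.mp hv] using e2 v
    · rw [range_le_ker_iff]
      ext x
      simp [μ, e1]
    · obtain ⟨w, hw⟩ := e2 v
      have e5 := e4 n 0 (by simp) (μ v)
      have : (s ^ n) (s w) = 0 := by rw [← Module.End.mul_apply, ← pow_succ, e3]; rfl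
      rw [hw, map_sub, mem_ker.mp hv, zero_sub, neg_eq_zero] at this
      simpa [this] using e5.symm
  · have tr : ∀ (Z : Type u) [AddCommGroup Z] [Module Q Z] [Module A Z] [IsScalarTower A Q Z]
        (h : Z →ₗ[A] A), ∃ ψ : Z →ₗ[Q] Q, ∀ x, ψ x =
          ∑ i ∈ range (n + 1), h (t ^ (n - i) • x) • t ^ i := fun Z _ _ _ _ h => by
      refine ⟨⟨⟨fun x => ∑ i ∈ range (n + 1), h (t ^ (n - i) • x) • t ^ i, fun x y => by
        simp [add_smul, sum_add_distrib]⟩, fun c x => ?_⟩, fun x => rfl⟩
      refine ind (fun c => ∀ x : Z, ∑ i ∈ range (n + 1), h (t ^ (n - i) • c • x) • t ^ i =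
        c * ∑ i ∈ range (n + 1), h (t ^ (n - i) • x) • t ^ i) (fun x => ?_) (fun c x => ?_)
        (fun c d hc hd x => ?_) (fun c d hc hd x => ?_) c x
      · rw [sum_range_succ', sum_range_succ, mul_add, mul_sum]
        congr 1
        · refine sum_congr rfl fun i hi => ?_
          rw [smul_smul, ← pow_succ, mul_smul_comm, ← pow_succ',
            show n - (i + 1) + 1 = n - i by have := mem_range.mp hi; omega]
        · rw [smul_smul, Nat.sub_zero, ← pow_succ, ht, algebraMap_smul, map_smul, mul_smul_comm,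
            ← pow_succ', ht]
          simp [Algebra.smul_def, mul_comm]
      · simp [mul_sum, smul_comm _ c, Algebra.smul_def, mul_assoc]
      · simp only [add_smul, smul_add, map_add, sum_add_distrib, hc, hd, add_mul]
      · rw [mul_smul, hc, hd, mul_assoc]
    constructor
    · intro ψ φ h
      ext x
      obtain ⟨τ, hτ⟩ := tr Q l
      have : ∀ y, τ y = y := fun y => by
        rw [← mul_one y, ← smul_eq_mul, map_smul, hτ, sum_eq_single 0 (fun i hi h0 => by
          rw [smul_eq_mul, mul_one, hl _ (by omega), if_neg (by have := mem_range.mp hi; omega),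
            zero_smul]) (by simp)]
        simp [hl]
      rw [← this (ψ x), ← this (φ x), hτ, hτ]
      refine sum_congr rfl fun i _ => ?_
      rw [← map_smul, ← map_smul]
      exact congrArg (· • _) (LinearMap.congr_fun h _)
    · intro h
      obtain ⟨ψ, hψ⟩ := tr X h
      refine ⟨ψ, LinearMap.ext fun x => ?_⟩
      change l (ψ x) = _
      rw [hψ, map_sum, sum_eq_single n (fun i hi h0 => by
        rw [map_smul, hl _ (by have := mem_range.mp hi; omega), if_neg h0, smul_zero]) (by simp)]
      simp [hl]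

lemma Nice.isLocalRing (hp : p.Prime) (h0 : (p : A) = 0) [IsLocalRing A] [Nontrivial Q]
    (h : Nice p A Q) : IsLocalRing Q := by
  refine .of_isUnit_or_isUnit_one_sub_self fun y => ?_
  obtain ⟨e, b, hb⟩ := h.ins y
  obtain ⟨r, hr⟩ := exists_add_pow_prime_pow_eq hp y (1 - y) e
  rw [← map_natCast (algebraMap A Q), h0, hb] at hr
  have : (1 - y) ^ p ^ e = algebraMap A Q (1 - b) := by
    simpa [eq_sub_iff_add_eq'] using hr.symm
  exact (isUnit_or_isUnit_one_sub_self b).imp
    (fun h => (isUnit_pow_iff (pow_pos hp.pos e).ne').mp (hb ▸ h.map _))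
    fun h => (isUnit_pow_iff (pow_pos hp.pos e).ne').mp (this ▸ h.map _)

theorem Nice.good (hp : p.Prime) [IsLocalRing A] [IsNoetherianRing A] [IsLocalRing Q]
    [IsNoetherianRing Q] (h : Nice p A Q) (xs : List A) (hx : Ideal.ofList xs = maximalIdeal A)
    (hr : IsWeaklyRegular A xs) {f : Q} {R' : Type u} [AddCommGroup R'] [Module Q R']
    (hf : IsSMulRegular Q f) (π : Q →ₗ[Q] R') (hπ : Surjective π) (hk : Exact (lsmul Q Q f) π) :
    Dp Q xs.length Q ∧ ∀ (X : Type u) [AddCommGroup X] [Module Q X], Module.Finite Q X →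
      Dp Q xs.length X → LS (0 : Q) X → Good f R' X := by
  have := h.fin
  have := h.free
  have hm : ∀ r ∈ xs.map (algebraMap A Q), r ∈ maximalIdeal Q := fun r hr => by
    obtain ⟨x, hx', rfl⟩ := List.mem_map.mp hr
    exact map_nonunit _ x (hx ▸ Ideal.subset_span hx')
  have hq := hr.of_flat (S := Q)
  refine ⟨by simpa using Dp.of_reg hm hq, fun X _ _ _ h1 h2 => ?_⟩
  let := Module.compHom X (algebraMap A Q)
  have : IsScalarTower A Q X := .of_compHom A Q X
  have : Module.Finite A X := .trans Q X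
  have : Module.Free A X := free_of_reg xs hx ((isWeaklyRegular_map_algebraMap_iff Q X xs).mp
    (Dp.reg _ hm (by simpa using h1) Q hq (fun a ha => ?_) 1 (fun t => ⟨t, mul_one t⟩)
      fun v => ⟨toSpanSingleton Q X v, one_smul Q v⟩))
  · obtain ⟨m, ρ, hρ⟩ := Module.Finite.exists_fin' Q X
    refine (h.filt X).good hf π hπ hk h2 (E1.of (ker ρ).injective_subtype ρ.exact_subtype_ker_map
      hρ fun v => ?_)
    obtain ⟨l, hl⟩ := h.frob
    obtain ⟨s, hs⟩ := Module.projective_lifting_property (ρ.restrictScalars A) LinearMap.id hρ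
    obtain ⟨σ, hσ⟩ := cores ((ker ρ).subtype.restrictScalars A) (ker ρ).injective_subtype
      (LinearMap.id - s ∘ₗ ρ.restrictScalars A) fun x => ⟨⟨x - s (ρ x), by
        simpa [sub_eq_zero] using (LinearMap.congr_fun hs (ρ x)).symm⟩, rfl⟩
    obtain ⟨w, hw⟩ := (hl (Fin m → Q)).2 (l ∘ₗ v.restrictScalars A ∘ₗ σ)
    refine ⟨w, (hl (ker ρ)).1 (LinearMap.ext fun x => (LinearMap.congr_fun hw x.1).trans ?_)⟩
    have : σ x = x := Subtype.ext ((LinearMap.congr_fun hσ x).trans (by simp))
    simp [this]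
  · obtain ⟨e, b, hb⟩ := h.ins a
    refine ⟨p ^ e, fun t => smul_mem_smul ?_ trivial⟩
    rw [hb, ← Ideal.map_ofList, hx]
    refine Ideal.mem_map_of_mem _ fun hu => ha ?_
    exact (isUnit_pow_iff (pow_pos hp.pos e).ne').mp (hb ▸ hu.map _)

end Pool.Agent.Lib.MP_a966df_ag
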